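import Pool.Agent.Lib.MP_6073f3_nt.Fam1

/-!
The parametrizations of the seven families.
-/

namespace Pool.Agent.Lib.TorsRank

open WeierstrassCurve.Affine

theorem par2' {A B : ℚ} (h : ND A B) {G : Type} [AddCommGroup G] {f : G →+ Pt A B 0}
    (hf : Function.Injective f) {x y : G} (e : f x = h.T) (h1 : y + y = 0) (h2 : y ≠ 0)
    (h3 : y ≠ x) : ∃ r : ℚ, r ^ 2 + A * r + B = 0 :=
  h.par2 (T' := f y) (by rw [← map_add, h1, map_zero]) (fun e => h2 (hf (by rw [e, map_zero])))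
    fun e' => h3 (hf (e'.trans e.symm))

theorem par3' {A B : ℚ} {G : Type} [AddCommGroup G] {f : G →+ Pt A B 0}
    (hf : Function.Injective f) {y : G} (h1 : y + y + y = 0) (h2 : y ≠ 0) :
    ∃ l ν : ℚ, ν ≠ 0 ∧ l + ν ≠ 0 ∧ 3 * ν ^ 2 = l ^ 2 - A ∧ 3 * ν ^ 4 = B - 2 * l * ν ^ 3 :=
  ND.par3 (S := f y) (by rw [← map_add, ← map_add, h1, map_zero])
    fun e => h2 (hf (by rw [e, map_zero]))

theorem par4' {A B : ℤ} (h : ND A B) {Q : Pt A B 0} (e : Q + Q = h.T) :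
    ∃ c m : ℤ, (A : ℚ) = c ^ 2 - 2 * m ∧ (B : ℚ) = m ^ 2 := by
  obtain ⟨c, m, h1, h2, -⟩ := h.par4 e
  obtain ⟨m, rfl⟩ := int_of_sq h2.symm
  obtain ⟨c, rfl⟩ := int_of_sq (r := c) (k := A + 2 * m) (by push_cast; linarith)
  exact ⟨c, m, h1, h2⟩

/-- Splitting of `x ^ 2 - c x + m` on a curve with three points of order two. -/
theorem split4 {c m : ℤ} {r : ℚ} (hd : ((c : ℚ) ^ 2 - 2 * m) ^ 2 - 4 * m ^ 2 ≠ 0)
    (hr : r ^ 2 + (c ^ 2 - 2 * m) * r + m ^ 2 = 0) : ∃ α β : ℤ, (c : ℚ) = α + β ∧ (m : ℚ) = α * β := by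
  have hc : (c : ℚ) ≠ 0 := fun e => hd (by rw [e]; ring)
  obtain ⟨δ, hδ⟩ : ∃ δ, 2 * r + (c ^ 2 - 2 * m) = δ * c := ⟨_, (div_mul_cancel₀ _ hc).symm⟩
  have h1 : δ ^ 2 = c ^ 2 - 4 * m := mul_left_cancel₀ (pow_ne_zero 2 hc) (by
    linear_combination 4 * hr - (2 * r + (c ^ 2 - 2 * m) + δ * c) * hδ)
  obtain ⟨α, hα⟩ := int_of_monic (r := (c + δ) / 2) (-c) m 0 (by
    push_cast; linear_combination (c + δ) / 8 * h1)
  refine ⟨α, c - α, by simp, ?_⟩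
  push_cast
  rw [← hα]
  linear_combination h1 / 4

theorem par8' {A B : ℤ} (h : ND A B) {R : Pt A B 0} (e : R + R + (R + R) = h.T) :
    ∃ (c n : ℤ) (v : ℚ), (A : ℚ) = c ^ 2 - 2 * n ^ 2 ∧ (B : ℚ) = (n ^ 2) ^ 2 ∧
      (v - n) ^ 2 = 2 * c * v ∧ v ≠ 0 := by
  obtain ⟨c, n, v, h1, h2, h3⟩ := h.par8 e
  obtain ⟨m, hm⟩ := int_of_sq h2.symm
  obtain ⟨n, rfl⟩ := int_of_sq hm
  obtain ⟨c, rfl⟩ := int_of_sq (r := c) (k := A + 2 * n ^ 2) (by push_cast; linarith)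
  exact ⟨c, n, v, h1, h2, h3⟩

theorem unit_bound' {s t i j : ℤ} (h : IsCoprime s t) {c u : ℚ} (hc : 0 < c) (h0 : u ≠ 0) (k : ℕ)
    (h1 : c * u ^ 2 * s ^ k = i) (h2 : c * u ^ 2 * t ^ k = j) : 1 ≤ c * u ^ 2 := by
  have := unit_bound h (by positivity) k h1 h2
  rwa [one_le_sq_iff₀ (by positivity)] at this

/-- Full 2-torsion. -/
def P22 : Par 2 2 where
  k := 3
  At := A22
  a _ _ s t := -(s + t)
  b _ _ s t := s * t
  d := 1
  w := 1
  x0 := (0, 1)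
  hd := by decide
  hw := by decide
  hx := by decide
  ga := ⟨by intros; simp, by intros; ring, by fun_prop⟩
  gb := ⟨by intros; simp, by intros; ring, by fun_prop⟩
  def0 s t h1 h2 := by constructor <;> nlinarith [sq_nonneg s, sq_nonneg t]
  cusp := ⟨0, by norm_num⟩
  gen := ⟨2, by norm_num, by norm_num⟩
  rel s t := Or.inl ⟨1, one_ne_zero, by simp [A22, ea], by simp [A22, eb], by simp [A22, ec]⟩
  tors s t h := by
    obtain ⟨T, h1, h2, h3⟩ := h.pt2 (r := s) (by ring)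
    exact emb2 (k := 1) (ord2 h.T_add h.T_ne) h1 h2 (by rwa [one_nsmul])
  par A B h f hf e := by
    obtain ⟨r, hr⟩ := par2' h hf e (y := (1, 0)) (by decide) (by decide) (by decide)
    obtain ⟨r, rfl⟩ := int_of_monic (r := r) A B 0 (by push_cast; linear_combination r * hr)
    exact ⟨r, -A - r, 1, by push_cast; ring, by push_cast; linarith, by norm_num⟩

/-- A point of order four. -/
def P4 : Par 1 4 where
  k := 3
  At := A4
  a _ _ s t := s ^ 2 - 2 * t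
  b _ _ _ t := t ^ 2
  d := 2
  w := 2
  x0 := (0, 2)
  hd := by decide
  hw := by decide
  hx := by decide
  ga := ⟨by intros; simp [map_ofNat], by intros; ring, by fun_prop⟩
  gb := ⟨by intros; simp, by intros; ring, by fun_prop⟩
  def0 s t h1 h2 := by
    obtain rfl : t = 0 := by simpa using h2
    simpa using h1
  cusp := ⟨0, by norm_num⟩
  gen := ⟨1, by norm_num, by norm_num⟩
  rel s t := Or.inr ⟨1, one_ne_zero, by simp [A4, ea]; ring, by simp [A4, eb]; ring,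
    by simp [A4, ec]⟩
  tors s t h := by
    obtain ⟨_, e⟩ := h.pt4 rfl rfl
    exact emb1 (ord4 e h.T_add h.T_ne)
  par A B h f hf e := by
    obtain ⟨c, m, h1, h2⟩ := par4' h (Q := f (0, 1)) (by rw [← map_add, ← e]; rfl)
    exact ⟨c, m, 1, by rw [h1]; ring, by rw [h2]; ring, by norm_num⟩

/-- Torsion containing `ZMod 2 × ZMod 4`. -/
def P24 : Par 2 4 where
  k := 4
  At := A24
  a _ _ s t := s ^ 2 + t ^ 2
  b _ _ s t := (s * t) ^ 2
  d := 2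
  w := 1
  x0 := (0, 2)
  hd := by decide
  hw := by decide
  hx := by decide
  ga := ⟨by intros; simp, by intros; ring, by fun_prop⟩
  gb := ⟨by intros; simp, by intros; ring, by fun_prop⟩
  def0 s t h1 h2 := by constructor <;> nlinarith [sq_nonneg s, sq_nonneg t]
  cusp := ⟨0, by norm_num⟩
  gen := ⟨2, by norm_num, by norm_num⟩
  rel s t := Or.inl ⟨1, one_ne_zero, by simp [A24, ea]; ring, by simp [A24, eb]; ring,
    by simp [A24, ec]⟩
  tors s t h := by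
    obtain ⟨T, h1, h2, h3⟩ := h.pt2 (r := -s ^ 2) (by ring)
    obtain ⟨_, e⟩ := h.pt4 (c := s + t) (by ring) rfl
    exact emb2 (k := 2) (ord4 e h.T_add h.T_ne) h1 h2 (by rwa [two_nsmul, e])
  par A B h f hf e := by
    obtain ⟨r, hr⟩ := par2' h hf e (y := (1, 0)) (by decide) (by decide) (by decide)
    obtain ⟨c, m, h1, h2⟩ := par4' h (Q := f (0, 1)) (by rw [← map_add, ← e]; rfl)
    have hd := h.hd
    rw [h1, h2] at hr hd
    obtain ⟨s, t, e1, e2⟩ := split4 hd hr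
    exact ⟨s, t, 1, by rw [h1, e1, e2]; ring, by rw [h2, e2]; ring, by norm_num⟩

/-- A point of order eight. -/
def P8 : Par 1 8 where
  k := 5
  At := A8
  a _ _ s t := (2 * s ^ 2) ^ 2 - 2 * (t ^ 2 - s ^ 2) ^ 2
  b _ _ s t := ((t ^ 2 - s ^ 2) ^ 2) ^ 2
  d := 4
  w := 1
  x0 := (0, 4)
  hd := by decide
  hw := by decide
  hx := by decide
  ga := ⟨by intros; simp [map_ofNat], by intros; ring, by fun_prop⟩
  gb := ⟨by intros; simp, by intros; ring, by fun_prop⟩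
  def0 s t h1 h2 := by
    have h3 : t ^ 2 - s ^ 2 = 0 := by simpa using h2
    obtain rfl : s = 0 := by simpa [h3] using h1
    simpa using h3
  cusp := ⟨1, by norm_num⟩
  gen := ⟨2, by norm_num, by norm_num⟩
  rel s t := Or.inr ⟨1 / 2, by norm_num, by simp [A8, ea]; ring, by simp [A8, eb]; ring,
    by simp [A8, ec]⟩
  tors s t h := by
    obtain ⟨_, e, -⟩ := h.pt8 (v := (s + t) ^ 2) rfl rfl (by ring)
    exact emb1 e
  par A B h f hf e := by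
    obtain ⟨c, n, v, h1, h2, h3, hv⟩ := par8' h (R := f (0, 1))
      (by simp only [← map_add]; rw [← e]; rfl)
    have hc : (c : ℚ) ≠ 0 := fun e => h.hd (by rw [h1, h2, e]; ring)
    have h4 : v - n ≠ 0 := fun e => mul_ne_zero hc hv (by rw [e] at h3; linarith)
    obtain ⟨s, t, hs, hst, ht⟩ := rat_param ((v + n) / (v - n))
    obtain ⟨u, e1, e2⟩ : ∃ u : ℚ, c = u * (2 * s ^ 2) ∧ n = u * (t ^ 2 - s ^ 2) :=
      ⟨(v - n) ^ 2 / (4 * v * s ^ 2), by rw [h3]; field_simp; ring, by rw [ht]; field_simp; ring⟩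
    have := unit_bound hst (κ := 2 * u) (i := c) (j := 2 * n + c)
      (fun e => hc (by rw [e1]; linear_combination s ^ 2 * e)) 2 (by linarith)
      (by push_cast; linarith)
    exact ⟨s, t, u, by rw [h1, e1, e2]; ring, by rw [h2, e2]; ring, by nlinarith⟩

/-- A point of order twelve. -/
def P12 : Par 1 12 where
  k := 7
  At := A12
  a _ _ s t := (8 * s ^ 3 * t) ^ 2 - 2 * ((t ^ 2 - s ^ 2) ^ 3 * (3 * s ^ 2 + t ^ 2))
  b _ _ s t := ((t ^ 2 - s ^ 2) ^ 3 * (3 * s ^ 2 + t ^ 2)) ^ 2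
  d := 8
  w := 1
  x0 := (0, 6)
  hd := by decide
  hw := by decide
  hx := by decide
  ga := ⟨by intros; simp [map_ofNat], by intros; ring, by fun_prop⟩
  gb := ⟨by intros; simp [map_ofNat], by intros; ring, by fun_prop⟩
  def0 s t h1 h2 := by
    have h3 := pow_eq_zero_iff two_ne_zero |>.1 h2
    rw [h3] at h1
    rcases (show s = 0 ∨ t = 0 by simpa using h1) with rfl | rfl <;> simpa using h3
  cusp := ⟨1, by norm_num⟩
  gen := ⟨2, by norm_num, by norm_num⟩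
  rel s t := Or.inr ⟨1 / 2, by norm_num, by simp [A12, ea]; ring, by simp [A12, eb]; ring,
    by simp [A12, ec]⟩
  tors s t h := by
    obtain ⟨_, e⟩ := h.pt4 rfl rfl
    obtain ⟨S, h1, h2⟩ := h.pt3 (ν := (t ^ 2 - s ^ 2) ^ 2)
      (l := -t ^ 4 + 6 * s ^ 2 * t ^ 2 + 3 * s ^ 4) (by ring) (by ring)
    exact emb1 (ord3 h1 h2 (ord4 e h.T_add h.T_ne) (by decide))
  par A B h f hf e := by
    obtain ⟨c, m, h1, h2⟩ := par4' h (Q := f (0, 3)) (by rw [← map_add, ← e]; rfl)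
    obtain ⟨l, ν, hν, -, h3, h4⟩ := par3' hf (y := (0, 4)) (by decide) (by decide)
    have hc : (c : ℚ) ≠ 0 := fun e => h.hd (by rw [h1, h2, e]; ring)
    obtain ⟨ρ, hρ⟩ : ∃ ρ, (m : ℚ) = ρ * ν ^ 2 := ⟨_, (div_mul_cancel₀ _ (pow_ne_zero 2 hν)).symm⟩
    obtain rfl : l = ν * (ρ ^ 2 - 3) / 2 := mul_left_cancel₀ (pow_ne_zero 3 hν) (by
      rw [h2, hρ] at h4; linear_combination h4 / 2)
    have h5 : (2 * c) ^ 2 = ν ^ 2 * (ρ - 1) ^ 3 * (ρ + 3) := by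
      rw [h1, hρ] at h3; linear_combination 4 * h3
    have h6 : ρ - 1 ≠ 0 := fun e => hc (by simpa [e] using h5)
    obtain ⟨σ, hσ⟩ : ∃ σ, 2 * (c : ℚ) = σ * (ν * (ρ - 1) ^ 2) :=
      ⟨_, (div_mul_cancel₀ _ (by positivity)).symm⟩
    have h7 : ρ * (σ ^ 2 - 1) = σ ^ 2 + 3 := mul_left_cancel₀
      (show ν ^ 2 * (ρ - 1) ^ 3 ≠ 0 by positivity) (by rw [hσ] at h5; linear_combination h5)
    have h8 : σ ^ 2 - 1 ≠ 0 := fun e => by rw [e] at h7; nlinarith [sq_nonneg σ]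
    obtain rfl := eq_div_of_mul_eq h8 h7
    obtain ⟨s, t, hs, hst, ht⟩ := rat_param σ
    have h9 : (t : ℚ) ^ 2 - s ^ 2 = s ^ 2 * (σ ^ 2 - 1) := by rw [ht]; ring
    obtain ⟨u, hu, e1, e2⟩ : ∃ u : ℚ, u ≠ 0 ∧ c = u * (8 * s ^ 3 * t) ∧
        m = u ^ 2 * ((t ^ 2 - s ^ 2) ^ 3 * (3 * s ^ 2 + t ^ 2)) :=
      ⟨ν / (s ^ 2 * (σ ^ 2 - 1)) ^ 2, by positivity, by
        rw [eq_div_of_mul_eq two_ne_zero ((mul_comm _ _).trans hσ), ht]; field_simp; ring, by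
        rw [hρ, h9, ht]; field_simp; ring⟩
    exact ⟨s, t, u, by rw [h1, e1, e2]; ring, by rw [h2, e2]; ring, unit_bound' hst (by norm_num) hu
      14 (i := (8 * s ^ 6 - 6 * s ^ 4 * t ^ 2 + t ^ 6) * c ^ 2 - 64 * s ^ 6 * m)
      (j := 3 * (18 * s ^ 6 - 48 * s ^ 4 * t ^ 2 + 39 * s ^ 2 * t ^ 4 - 8 * t ^ 6) * c ^ 2 +
        3 * (384 * s ^ 4 * t ^ 2 + 64 * t ^ 6) * m) (by push_cast; rw [e1, e2]; ring)
      (by push_cast; rw [e1, e2]; ring)⟩

theorem root3 {A B l ν ρ : ℚ} (h0 : ν ≠ 0) (h1 : l + ν ≠ 0) (h2 : 3 * ν ^ 2 = l ^ 2 - A)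
    (h3 : 3 * ν ^ 4 = B - 2 * l * ν ^ 3) (h4 : ρ ^ 2 + A * ρ + B = 0) (h5 : ρ ≠ 0) :
    ∃ α, α ≠ 0 ∧ ρ = ν ^ 2 - α ^ 2 ∧ α ^ 2 + (ν + l) * α + ν * (ν + l) = 0 := by
  have h6 : (l * ρ + ν ^ 3) ^ 2 = (ν ^ 2 - ρ) ^ 3 := by
    linear_combination ρ * h4 - ρ ^ 2 * h2 + ρ * h3
  have h7 : ν ^ 2 - ρ ≠ 0 := fun e => mul_ne_zero (pow_ne_zero 2 h0) h1 (by
    have : l * ρ + ν ^ 3 = 0 := by simpa [e] using h6
    linear_combination this + l * e)
  obtain ⟨α, hα⟩ : ∃ α, l * ρ + ν ^ 3 = α * (ν ^ 2 - ρ) := ⟨_, (div_mul_cancel₀ _ h7).symm⟩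
  obtain rfl : ρ = ν ^ 2 - α ^ 2 := mul_left_cancel₀ (pow_ne_zero 2 h7) (by
    rw [hα] at h6; linear_combination h6)
  refine ⟨α, fun e => h7 (by simp [e]), rfl, mul_left_cancel₀ (a := α - ν)
    (fun e => h5 (by linear_combination -(α + ν) * e)) (by linear_combination -hα)⟩

/-- Torsion containing `ZMod 2 × ZMod 6`. -/
def P26 : Par 2 6 where
  k := 6
  At := A26
  a _ _ s t := s ^ 3 * (s + 2 * t) + t ^ 3 * (t + 2 * s)
  b _ _ s t := s ^ 3 * (s + 2 * t) * (t ^ 3 * (t + 2 * s))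
  d := 4
  w := 1
  x0 := (0, 3)
  hd := by decide
  hw := by decide
  hx := by decide
  ga := ⟨by intros; simp [map_ofNat], by intros; ring, by fun_prop⟩
  gb := ⟨by intros; simp [map_ofNat], by intros; ring, by fun_prop⟩
  def0 s t h1 h2 := by
    have h3 : s ^ 3 * (s + 2 * t) = 0 := by nlinarith [sq_nonneg (s ^ 3 * (s + 2 * t))]
    have h4 : t ^ 3 * (t + 2 * s) = 0 := by linarith
    simp only [mul_eq_zero, pow_eq_zero_iff three_ne_zero] at h3 h4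
    rcases h3 with h | h <;> rcases h4 with h' | h' <;> constructor <;> linarith
  cusp := ⟨0, by norm_num⟩
  gen := ⟨2, by norm_num, by norm_num⟩
  rel s t := Or.inl ⟨1, one_ne_zero, by simp [A26, ea]; ring, by simp [A26, eb], by simp [A26, ec]⟩
  tors s t h := by
    obtain ⟨T, h1, h2, h3⟩ := h.pt2 (r := -(s ^ 3 * (s + 2 * t))) (by ring)
    obtain ⟨S, h4, h5⟩ := h.pt3 (ν := -(s * t)) (l := -(s ^ 2 + s * t + t ^ 2)) (by ring) (by ring)
    exact emb2 (k := 3) (ord3 h4 h5 (ord2 h.T_add h.T_ne) (by decide)) h1 h2 (by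
      rwa [show 3 • (h.T + S) = h.T + (h.T + h.T) + (S + S + S) by abel, h4, h.T_add, add_zero,
        add_zero])
  par A B h f hf e := by
    obtain ⟨r, hr⟩ := par2' h hf e (y := (1, 0)) (by decide) (by decide) (by decide)
    obtain ⟨r, rfl⟩ := int_of_monic (r := r) A B 0 (by push_cast; linear_combination r * hr)
    obtain ⟨l, ν, h0, h1, h2, h3⟩ := par3' hf (y := (0, 2)) (by decide) (by decide)
    obtain ⟨α, a0, a1, a2⟩ := root3 h0 h1 h2 h3 hr fun e => h.hb (by simpa [e] using hr)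
    obtain ⟨β, -, b1, b2⟩ := root3 (ρ := -A - r) h0 h1 h2 h3 (by linear_combination hr)
      fun e => h.hb (by linear_combination hr + r * e)
    have h4 : α + β = -(ν + l) := mul_left_cancel₀ (a := α - β) (fun e => h.hd (by
      obtain rfl : α = β := by linarith
      linear_combination (2 * r + A) * (a1 - b1) - 4 * hr)) (by linear_combination a2 - b2)
    obtain ⟨s, t, hs, hst, ht⟩ := rat_param (β / α)
    have h5 : α + β ≠ 0 := fun e => h1 (by linarith)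
    obtain rfl : ν = -(α * β) / (α + β) := by
      rw [eq_div_iff h5, h4]; linear_combination α * h4 - a2
    obtain ⟨u, hu, e1, e2⟩ : ∃ u : ℚ, u ≠ 0 ∧ r = -u ^ 2 * (s ^ 3 * (s + 2 * t)) ∧
        -A - r = -u ^ 2 * (t ^ 3 * (t + 2 * s)) :=
      ⟨α ^ 2 / (s ^ 2 * (α + β)), by positivity, by rw [a1, ht]; field_simp; ring, by
        rw [b1, ht]; field_simp; ring⟩
    have := unit_bound' hst three_pos hu 7
      (i := -(3 * s ^ 3 - 6 * s ^ 2 * t + 12 * s * t ^ 2 + 8 * t ^ 3) * r + 16 * s ^ 3 * (-A - r))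
      (j := -(3 * t ^ 3 - 6 * t ^ 2 * s + 12 * t * s ^ 2 + 8 * s ^ 3) * (-A - r) + 16 * t ^ 3 * r)
      (by push_cast; rw [e2, e1]; ring) (by push_cast; rw [e2, e1]; ring)
    exact ⟨s, t, u, by linear_combination -e1 - e2, by
      rw [show (B : ℚ) = r * (-A - r) by linarith, e2, e1]; ring, by nlinarith⟩

/-- Torsion containing `ZMod 2 × ZMod 8`. -/
def P28 : Par 2 8 where
  k := 7
  At := A28
  a _ _ s t := (s ^ 2 - t ^ 2) ^ 4 + (2 * s * t) ^ 4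
  b _ _ s t := ((2 * s * t * (s ^ 2 - t ^ 2)) ^ 2) ^ 2
  d := 8
  w := 1
  x0 := (0, 4)
  hd := by decide
  hw := by decide
  hx := by decide
  ga := ⟨by intros; simp [map_ofNat], by intros; ring, by fun_prop⟩
  gb := ⟨by intros; simp [map_ofNat], by intros; ring, by fun_prop⟩
  def0 s t h1 h2 := by
    obtain ⟨h3, h4⟩ := (add_eq_zero_iff_of_nonneg (by positivity) (by positivity)).1 h1
    rcases (show s = 0 ∨ t = 0 by simpa using h4) with rfl | rfl <;> simpa using h3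
  cusp := ⟨0, by norm_num⟩
  gen := ⟨2, by norm_num, by norm_num⟩
  rel s t := Or.inl ⟨1, one_ne_zero, by simp [A28, ea]; ring, by simp [A28, eb]; ring,
    by simp [A28, ec]⟩
  tors s t h := by
    obtain ⟨T, h1, h2, h3⟩ := h.pt2 (r := -(s ^ 2 - t ^ 2) ^ 4) (by ring)
    obtain ⟨R, h4, h5⟩ := h.pt8 (c := (s ^ 2 + t ^ 2) ^ 2) (v := 2 * s ^ 2 * (s + t) ^ 2)
      (by ring) rfl (by ring)
    exact emb2 (k := 4) h4 h1 h2 (by rwa [h5])
  par A B h f hf e := by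
    obtain ⟨r, hr⟩ := par2' h hf e (y := (1, 0)) (by decide) (by decide) (by decide)
    obtain ⟨c, n, v, h1, h2, h3, hv⟩ := par8' h (R := f (0, 1))
      (by simp only [← map_add]; rw [← e]; rfl)
    have hd := h.hd
    have hb := h.hb
    rw [h1, h2] at hr hd
    obtain ⟨α, β, e1, e2⟩ := split4 (c := c) (m := n ^ 2) (by exact_mod_cast hd)
      (by push_cast; exact hr)
    push_cast at e2
    have hn : (n : ℚ) ≠ 0 := fun e => hb (by rw [h2, e]; ring)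
    have hα : (α : ℚ) ≠ 0 := fun e => hn (by simpa [e] using e2)
    obtain ⟨ρ, hρ⟩ : ∃ ρ, (n : ℚ) = ρ * α := ⟨_, (div_mul_cancel₀ _ hα).symm⟩
    have hβ : (β : ℚ) = ρ ^ 2 * α := mul_left_cancel₀ hα (by rw [← e2, hρ]; ring)
    have h4 : 1 + ρ ≠ 0 := fun e => hd (by
      rw [e1, hβ, hρ, show ρ = -1 by linarith]; ring)
    obtain ⟨σ, hσ⟩ : ∃ σ, v - n - c = σ * (α * (1 + ρ)) :=
      ⟨_, (div_mul_cancel₀ _ (by positivity)).symm⟩
    have h5 : σ ^ 2 = 1 + ρ ^ 2 := mul_left_cancel₀ (show (α * (1 + ρ)) ^ 2 ≠ 0 by positivity) (by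
      rw [mul_comm, ← mul_pow, ← hσ, show (v - n - c) ^ 2 = c * (c + 2 * n) by
        linear_combination h3, e1, hβ, hρ]; ring)
    have h6 : ρ ≠ 0 := left_ne_zero_of_mul (hρ ▸ hn)
    obtain ⟨τ, hτ⟩ : ∃ τ, σ - 1 = τ * ρ := ⟨_, (div_mul_cancel₀ _ h6).symm⟩
    have h7 : ρ * (1 - τ ^ 2) = 2 * τ := mul_left_cancel₀ h6 (by
      linear_combination (σ + 1 + τ * ρ) * hτ - h5)
    have h8 : 1 - τ ^ 2 ≠ 0 := fun e => by
      obtain rfl : τ = 0 := by rw [e] at h7; linarith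
      simp at e
    obtain rfl := eq_div_of_mul_eq h8 h7
    obtain ⟨s, t, hs, hst, ht⟩ := rat_param τ
    obtain ⟨u, e3, e4⟩ : ∃ u : ℚ, α = u * (s ^ 2 - t ^ 2) ^ 2 ∧ β = u * (2 * s * t) ^ 2 :=
      ⟨α / (s ^ 2 * (1 - τ ^ 2)) ^ 2, by rw [ht]; field_simp, by rw [hβ, ht]; field_simp⟩
    have := unit_bound hst (κ := 4 * u) (i := 4 * s ^ 2 * α + (2 * s ^ 2 - t ^ 2) * β)
      (j := 4 * t ^ 2 * α + (2 * t ^ 2 - s ^ 2) * β)
      (fun e => hα (by rw [e3]; linear_combination (s ^ 2 - t ^ 2) ^ 2 / 4 * e)) 6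
      (by push_cast; rw [e4, e3]; ring) (by push_cast; rw [e4, e3]; ring)
    exact ⟨s, t, u, by rw [h1, e2, e1, e4, e3]; ring, by rw [h2, e2, e4, e3]; ring, by nlinarith⟩

end Pool.Agent.Lib.TorsRank
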