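import Pool.Agent.Lib.MP_6073f3_nt.Chars
import Pool.Agent.Lib.helper57.PNT

/-!
Sums over primes: Mertens type estimates, one-sided for characters of growing modulus and
two-sided for functions of the residue modulo 24.
-/

namespace Pool.Agent.Lib.TorsRank

open Finset Filter Topology
open scoped NumberTheorySymbols

theorem mertens_le (n : ℕ) (hn : 1 ≤ n) (S : Finset ℕ) (hS : ∀ l ∈ S, l.Prime ∧ l ≤ n) :
    ∑ l ∈ S, Real.log l / l ≤ Real.log n + Real.log 4 := by
  classical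
  have hn' : (0 : ℝ) < n := by exact_mod_cast hn
  have h1 : ∀ m ∈ Icc 1 n, ∑ l ∈ S, (if l ∣ m then Real.log l else 0) ≤ Real.log n := by
    intro m hm
    rw [mem_Icc] at hm
    rw [← sum_filter, ← Real.log_prod (fun l hl => by
      have := (hS l (mem_filter.1 hl).1).1.pos
      positivity)]
    have hd : ∏ l ∈ S.filter (· ∣ m), l ∣ m :=
      Finset.prod_primes_dvd m (fun l hl => (hS l (mem_filter.1 hl).1).1.prime)
        (fun l hl => (mem_filter.1 hl).2)
    have hle := Nat.le_of_dvd (by omega) hd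
    have hpos : 0 < ∏ l ∈ S.filter (· ∣ m), l :=
      prod_pos (fun l hl => (hS l (mem_filter.1 hl).1).1.pos)
    rw [← Nat.cast_prod]
    apply Real.log_le_log (by exact_mod_cast hpos)
    exact_mod_cast hle.trans hm.2
  have h2 : ∑ m ∈ Icc 1 n, ∑ l ∈ S, (if l ∣ m then Real.log l else 0) ≤ n * Real.log n := by
    refine (sum_le_sum h1).trans ?_
    simp
  rw [sum_comm] at h2
  have h3 : ∀ l ∈ S, Real.log l * (n / l - 1)
      ≤ ∑ m ∈ Icc 1 n, (if l ∣ m then Real.log l else 0) := by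
    intro l hl
    have hp := (hS l hl).1
    rw [← sum_filter, sum_const, nsmul_eq_mul, mul_comm]
    have hc : ((Icc 1 n).filter (l ∣ ·)).card = n / l := by
      rw [← Nat.card_multiples n l]
      have : Icc 1 n = Ioc 0 n := rfl
      rw [this, Nat.Ioc_filter_dvd_card_eq_div, Nat.card_multiples]
    rw [hc]
    apply mul_le_mul_of_nonneg_right _ (Real.log_nonneg (by exact_mod_cast hp.one_le))
    have hl0 : (0 : ℝ) < l := by exact_mod_cast hp.pos
    have := Nat.lt_div_mul_add (a := n) hp.pos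
    have h4 : (n : ℝ) < (n / l : ℕ) * l + l := by exact_mod_cast this
    rw [sub_le_iff_le_add, div_le_iff₀ hl0]
    linarith
  have h4 := (sum_le_sum h3).trans h2
  have h5 : ∑ l ∈ S, Real.log l ≤ Real.log 4 * n := by
    refine le_trans ?_ (Chebyshev.theta_le_log4_mul_x hn'.le)
    rw [Chebyshev.theta, Nat.floor_natCast]
    refine sum_le_sum_of_subset_of_nonneg ?_ (fun l _ _ => Real.log_natCast_nonneg l)
    intro l hl
    have := hS l hl
    simp only [mem_filter, mem_Ioc]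
    exact ⟨⟨this.1.pos, this.2⟩, this.1⟩
  have h6 : ∑ l ∈ S, Real.log l * (n / l - 1)
      = n * ∑ l ∈ S, Real.log l / l - ∑ l ∈ S, Real.log l := by
    rw [mul_sum, ← sum_sub_distrib]
    refine sum_congr rfl (fun l _ => by ring)
  rw [h6] at h4
  have : n * ∑ l ∈ S, Real.log l / l ≤ n * (Real.log n + Real.log 4) := by linarith
  exact le_of_mul_le_mul_left this hn'

theorem mertens3 {z : ℕ} (hz : 2 ≤ z) {S : Finset ℕ} (hS : ∀ l ∈ S, l.Prime ∧ l ≤ z) :
    ∑ l ∈ S, Real.log l / l ≤ 3 * Real.log z := by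
  have h1 := mertens_le z (by omega) S hS
  have h2 : Real.log 4 ≤ 2 * Real.log z := by
    rw [show (4 : ℝ) = 2 ^ 2 by norm_num, Real.log_pow]
    have := Real.log_le_log two_pos (show (2 : ℝ) ≤ z by exact_mod_cast hz)
    push_cast; linarith
  linarith

theorem sum_inv_sq_le {S : Finset ℕ} (hS : ∀ l ∈ S, 2 ≤ l) : ∑ l ∈ S, ((l : ℝ) ^ 2)⁻¹ ≤ 1 := by
  obtain ⟨N, hN⟩ := S.bddAbove
  have h1 := sum_Ioc_inv_sq_le_sub (α := ℝ) one_ne_zero (show 1 ≤ N + 1 by omega)
  refine (sum_le_sum_of_subset_of_nonneg (fun l hl => mem_Ioc.2 ⟨hS l hl, (hN hl).trans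
    (Nat.le_succ N)⟩) fun _ _ _ => by positivity).trans (h1.trans ?_)
  have : (0 : ℝ) ≤ ((N + 1 : ℕ) : ℝ)⁻¹ := by positivity
  simp only [Nat.cast_one, inv_one]; linarith

theorem exp_le_one_add {x : ℝ} (hx : 0 ≤ x) : Real.exp (x - x ^ 2) ≤ 1 + x := by
  have h1 := Real.add_one_le_exp (-(x - x ^ 2))
  rw [Real.exp_neg] at h1
  have h2 : 0 < -(x - x ^ 2) + 1 := by nlinarith [sq_nonneg (x - 1 / 2)]
  rw [le_inv_comm₀ h2 (Real.exp_pos _)] at h1
  refine h1.trans ?_
  rw [inv_le_iff_one_le_mul₀ h2]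
  nlinarith [pow_nonneg hx 3]

theorem half_le_log {z : ℕ} (hz : 2 ≤ z) : 1 / 2 ≤ Real.log z :=
  le_trans (by linarith [Real.log_two_gt_d9])
    (Real.log_le_log two_pos (show (2 : ℝ) ≤ z by exact_mod_cast hz))

theorem mertens_upper (ξ : ℕ → ℝ) (h1 : ξ 1 = 1) (hmul : ∀ m n, ξ (m * n) = ξ m * ξ n)
    (hval : ∀ n, ξ n = 0 ∨ ξ n = 1 ∨ ξ n = -1) {B : ℝ}
    (hB : ∀ u, ∑ b ∈ Ioc 0 u, ξ b / b ≤ B) {z : ℕ} (hz : 2 ≤ z) {S : Finset ℕ}
    (hS : ∀ l ∈ S, l.Prime ∧ l ≤ z) :
    ∑ p ∈ S, (1 + ξ p) / p ≤ Real.log (28 * B * Real.log z) + 4 := by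
  classical
  have hB1 : 1 ≤ B := by simpa [h1] using hB 1
  have hlz := half_le_log hz
  let f : ArithmeticFunction ℝ := ⟨fun n => (n : ℝ)⁻¹, by simp⟩
  let g : ArithmeticFunction ℝ := ⟨fun n => ξ n / n, by simp⟩
  have hf : f.IsMultiplicative := ⟨by simp [f], fun _ => by simp [f, mul_comm]⟩
  have hg : g.IsMultiplicative := ⟨by simp [g, h1], fun _ => by
    simp only [g, ArithmeticFunction.coe_mk, hmul, Nat.cast_mul, div_mul_div_comm]⟩
  have hF := hf.mul hg
  have hpow : ∀ p k : ℕ, ξ (p ^ k) = ξ p ^ k := fun p k => by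
    induction k with
    | zero => simp [h1]
    | succ k ih => rw [pow_succ, hmul, ih, pow_succ]
  have hFp : ∀ p k : ℕ, p.Prime → (f * g) (p ^ k) = (∑ j ∈ range (k + 1), ξ p ^ j) / p ^ k := by
    intro p k hp
    rw [ArithmeticFunction.mul_apply, Nat.sum_divisorsAntidiagonal' (fun a b => f a * g b),
      Nat.sum_divisors_prime_pow hp, sum_div]
    refine sum_congr rfl fun j hj => ?_
    have hj' : j ≤ k := by simpa [Nat.lt_succ_iff] using hj
    have hp0 : (p : ℝ) ≠ 0 := by exact_mod_cast hp.ne_zero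
    simp only [f, g, ArithmeticFunction.coe_mk, hpow, Nat.pow_div hj' hp.pos, Nat.cast_pow]
    rw [pow_sub₀ _ hp0 hj']; field_simp
  have hF0 : ∀ n, 0 ≤ (f * g) n := by
    intro n
    rcases eq_or_ne n 0 with rfl | hn
    · simp
    rw [hF.multiplicative_factorization _ hn]
    refine prod_nonneg fun p hp => ?_
    dsimp only
    rw [hFp p _ (Nat.prime_of_mem_primeFactors hp)]
    refine div_nonneg ?_ (by positivity)
    rcases hval p with h | h | h <;> rw [h]
    · exact sum_nonneg fun _ _ => by positivity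
    · exact sum_nonneg fun _ _ => by positivity
    · rw [neg_one_geom_sum]; split_ifs <;> norm_num
  have hx0 : ∀ p : ℕ, 0 ≤ (1 + ξ p) / p := fun p =>
    div_nonneg (by rcases hval p with h | h | h <;> rw [h] <;> norm_num) (by positivity)
  have hx2 : ∀ p : ℕ, (1 + ξ p) / p ≤ 2 / p := fun p =>
    div_le_div_of_nonneg_right (by rcases hval p with h | h | h <;> rw [h] <;> norm_num)
      (by positivity)
  have hM := markov_subsets S (fun p => (1 + ξ p) / p) (fun p => Real.log p) (fun p => 2 / p) hx0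
    (fun p => Real.log_natCast_nonneg p) (fun p _ => by
      nlinarith [hx0 p, hx2 p, show (0 : ℝ) ≤ 2 / p by positivity])
    (L := 12 * Real.log z) (by linarith) (by
      have := mertens3 hz hS
      have e : ∑ p ∈ S, Real.log p * (2 / p) = 2 * ∑ p ∈ S, Real.log p / p := by
        rw [mul_sum]; exact sum_congr rfl fun _ _ => by ring
      linarith)
  have hsub : ∑ s ∈ S.powerset with ∑ i ∈ s, Real.log (i : ℕ) ≤ 12 * Real.log z,
      ∏ i ∈ s, (1 + ξ i) / (i : ℕ) ≤ ∑ n ∈ Ioc 0 (z ^ 12), (f * g) n := by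
    have hpr : ∀ s ∈ S.powerset, ∀ p ∈ s, p.Prime := fun s hs p hp =>
      (hS p (mem_powerset.1 hs hp)).1
    rw [sum_congr rfl (g := fun s => (f * g) (∏ i ∈ s, i)) (fun s hs => by
      rw [hF.map_prod_of_prime s (hpr s (mem_filter.1 hs).1)]
      refine prod_congr rfl fun p hp => ?_
      have := hFp p 1 (hpr s (mem_filter.1 hs).1 p hp)
      simp only [pow_one] at this
      rw [this]; simp [sum_range_succ]), ← sum_image (g := fun s => ∏ i ∈ s, i)]
    · refine sum_le_sum_of_subset_of_nonneg (fun n hn => ?_) fun n _ _ => hF0 n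
      obtain ⟨s, hs, rfl⟩ := mem_image.1 hn
      obtain ⟨hs, hl⟩ := mem_filter.1 hs
      have hpos : 0 < ∏ i ∈ s, i := prod_pos fun p hp => (hpr s hs p hp).pos
      refine mem_Ioc.2 ⟨hpos, ?_⟩
      rw [← Real.log_prod (fun p hp => by exact_mod_cast (hpr s hs p hp).ne_zero),
        ← Nat.cast_prod, show 12 * Real.log z = Real.log ((z ^ 12 : ℕ) : ℝ) by simp,
        Real.log_le_log_iff (by exact_mod_cast hpos) (by positivity)] at hl
      exact_mod_cast hl
    · intro s hs t ht h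
      rw [← Nat.primeFactors_prod (hpr s (mem_filter.1 hs).1),
        ← Nat.primeFactors_prod (hpr t (mem_filter.1 ht).1)]
      exact congrArg Nat.primeFactors h
  have hup : ∑ n ∈ Ioc 0 (z ^ 12), (f * g) n ≤ 14 * B * Real.log z := by
    rw [ArithmeticFunction.sum_Ioc_mul_eq_sum_sum]
    calc _ ≤ ∑ n ∈ Ioc 0 (z ^ 12), (n : ℝ)⁻¹ * B := sum_le_sum fun n _ =>
            mul_le_mul_of_nonneg_left (hB _) (by simp)
      _ ≤ (1 + Real.log ((z ^ 12 : ℕ) : ℝ)) * B := by
            rw [← sum_mul]; exact mul_le_mul_of_nonneg_right (harm_le _) (by linarith)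
      _ ≤ _ := by simp only [Nat.cast_pow, Real.log_pow]; push_cast; nlinarith
  have hlow : Real.exp (∑ p ∈ S, ((1 + ξ p) / p - ((1 + ξ p) / p) ^ 2)) ≤
      ∏ p ∈ S, (1 + (1 + ξ p) / p) := by
    rw [Real.exp_sum]
    exact prod_le_prod (fun _ _ => (Real.exp_pos _).le) fun p _ => exp_le_one_add (hx0 p)
  have h3 : ∑ p ∈ S, ((1 + ξ p) / p) ^ 2 ≤ 4 := by
    have := sum_inv_sq_le (S := S) fun l hl => (hS l hl).1.two_le
    calc _ ≤ ∑ p ∈ S, 4 * ((p : ℝ) ^ 2)⁻¹ := sum_le_sum fun p _ => by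
          have := pow_le_pow_left₀ (hx0 p) (hx2 p) 2
          rwa [div_pow (2 : ℝ), div_eq_mul_inv (2 ^ 2 : ℝ), show (2 : ℝ) ^ 2 = 4 by norm_num] at this
      _ ≤ 4 := by rw [← mul_sum]; linarith
  have h4 := (Real.le_log_iff_exp_le (y := 28 * B * Real.log z) (by positivity)).2
    (hlow.trans (by linarith))
  rw [sum_sub_distrib] at h4
  linarith

theorem recip_upper {z : ℕ} (hz : 2 ≤ z) {S : Finset ℕ} (hS : ∀ l ∈ S, l.Prime ∧ l ≤ z) :
    ∑ p ∈ S, (p : ℝ)⁻¹ ≤ Real.log (28 * Real.log z) + 4 := by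
  have := mertens_upper (fun n => if n = 1 then 1 else 0) (by simp)
    (fun m n => by by_cases hm : m = 1 <;> by_cases hn : n = 1 <;> simp [hm, hn])
    (fun n => by by_cases hn : n = 1 <;> simp [hn]) (B := 1) (fun u => by
      simp only [ite_div, zero_div, sum_ite_eq']; split_ifs <;> simp) hz hS
  rw [mul_one] at this
  refine le_trans (le_of_eq (sum_congr rfl fun p hp => ?_)) this
  simp [(hS p hp).1.ne_one]

/-- The primes in `(c, z]`. -/
def PS (c z : ℕ) : Finset ℕ := (Ioc c z).filter Nat.Prime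

theorem mem_PS {c z p : ℕ} : p ∈ PS c z ↔ (c < p ∧ p ≤ z) ∧ p.Prime := by simp [PS]

/-- The sum of reciprocals of the primes in `(c, z]`. -/
noncomputable def HS (c z : ℕ) : ℝ := ∑ p ∈ PS c z, (p : ℝ)⁻¹

theorem HS_nonneg (c z : ℕ) : 0 ≤ HS c z := sum_nonneg fun _ _ => by positivity

theorem log_le_exp (c z : ℕ) : Real.log z ≤ Real.exp (HS c z + c + 2) := by
  let f : ℕ →* ℝ := ⟨⟨fun n => (n : ℝ)⁻¹, by simp⟩, fun m n => by simp [mul_comm]⟩
  have hf : ∀ n : ℕ, f n = (n : ℝ)⁻¹ := fun _ => rfl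
  obtain ⟨-, h⟩ := EulerProduct.summable_and_hasSum_smoothNumbers_prod_primesBelow_geometric
    (f := f) (fun {p} hp => by
      rw [hf, norm_inv, Real.norm_natCast]
      exact inv_lt_one_of_one_lt₀ (by exact_mod_cast hp.one_lt)) (z + 1)
  have h1 : Real.log z ≤ ∑ n ∈ Icc 1 z, (n : ℝ)⁻¹ := by
    have := log_add_one_le_harmonic z
    rw [harmonic_eq_sum_Icc] at this
    push_cast at this
    rcases Nat.eq_zero_or_pos z with rfl | hz
    · simp
    · exact (Real.log_le_log (by exact_mod_cast hz) (by linarith)).trans this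
  have h2 : ∑ n ∈ Icc 1 z, (n : ℝ)⁻¹ ≤ ∏ p ∈ (z + 1).primesBelow, (1 - f p)⁻¹ := by
    have h := (hasSum_subtype_iff_indicator (f := f)).1 h
    refine le_trans (le_of_eq (sum_congr rfl fun n hn => ?_)) (sum_le_hasSum (Icc 1 z)
      (fun n _ => Set.indicator_nonneg (fun n _ => by rw [hf]; positivity) n) h)
    rw [mem_Icc] at hn
    rw [Set.indicator_of_mem (Nat.mem_smoothNumbers_of_lt (by omega) (by omega)), hf]
  have h3 : ∏ p ∈ (z + 1).primesBelow, (1 - f p)⁻¹ ≤
      Real.exp (∑ p ∈ (z + 1).primesBelow, ((p : ℝ)⁻¹ + 2 * ((p : ℝ) ^ 2)⁻¹)) := by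
    rw [Real.exp_sum]
    have hb : ∀ p ∈ (z + 1).primesBelow, (p : ℝ)⁻¹ ≤ 1 / 2 := fun p hp => by
      rw [one_div]
      exact inv_anti₀ two_pos (by exact_mod_cast (Nat.prime_of_mem_primesBelow hp).two_le)
    refine prod_le_prod (fun p hp => inv_nonneg.2 (by rw [hf]; linarith [hb p hp])) fun p hp => ?_
    rw [hf, ← inv_pow]
    have h0 : (0 : ℝ) ≤ (p : ℝ)⁻¹ := by positivity
    have := hb p hp
    refine le_trans ?_ (Real.add_one_le_exp _)
    rw [inv_le_iff_one_le_mul₀ (by linarith)]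
    nlinarith [mul_nonneg (mul_nonneg h0 h0) (show 0 ≤ 1 - 2 * (p : ℝ)⁻¹ by linarith)]
  refine h1.trans (h2.trans (h3.trans (Real.exp_le_exp.2 ?_)))
  rw [sum_add_distrib, ← mul_sum]
  have h4 := sum_inv_sq_le (S := (z + 1).primesBelow) fun l hl =>
    (Nat.prime_of_mem_primesBelow hl).two_le
  have h5 : ∑ p ∈ (z + 1).primesBelow, (p : ℝ)⁻¹ ≤ HS c z + c := by
    rw [← sum_filter_add_sum_filter_not _ (fun p => c < p)]
    refine add_le_add (sum_le_sum_of_subset_of_nonneg (fun p hp => ?_) fun _ _ _ => by positivity)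
      ?_
    · rw [mem_filter, Nat.mem_primesBelow] at hp
      exact mem_PS.2 ⟨⟨hp.2, by omega⟩, hp.1.2⟩
    · calc _ ≤ ∑ p ∈ Icc 1 c, (p : ℝ)⁻¹ := sum_le_sum_of_subset_of_nonneg (fun p hp => by
            rw [mem_filter, Nat.mem_primesBelow] at hp
            exact mem_Icc.2 ⟨hp.1.2.pos, by omega⟩) fun _ _ _ => by positivity
        _ ≤ ∑ p ∈ Icc 1 c, (1 : ℝ) := sum_le_sum fun p hp =>
            inv_le_one_of_one_le₀ (by exact_mod_cast (mem_Icc.1 hp).1)
        _ = c := by simp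
  linarith

theorem char_upper {a : ℤ} (ha : NP a) (c z : ℕ) :
    ∑ p ∈ PS c z, xi a p / p ≤ Real.log (3 + Real.log (4 * a.natAbs)) + c + 10 := by
  have ha1 : (1 : ℝ) ≤ a.natAbs := by exact_mod_cast Int.natAbs_pos.2 ha.1
  have hl : 0 ≤ Real.log (4 * a.natAbs) := Real.log_nonneg (by linarith)
  have hl2 : 0 ≤ Real.log (3 + Real.log (4 * a.natAbs)) := Real.log_nonneg (by linarith)
  rcases lt_or_ge z 2 with hz | hz
  · rw [sum_eq_zero fun p hp => absurd (mem_PS.1 hp).2.two_le (by have := mem_PS.1 hp; omega)]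
    positivity
  have h1 := mertens_upper (xi a) (xi_one a) (xi_mul a) (xi_val a)
    (fun u => (le_abs_self _).trans (ha.sum_div u)) hz (S := PS c z) fun l hl =>
      ⟨(mem_PS.1 hl).2, (mem_PS.1 hl).1.2⟩
  have hlz := half_le_log hz
  rw [Real.log_mul (by positivity) (by positivity), Real.log_mul (by positivity) (by positivity)]
    at h1
  have h2 := (Real.log_le_iff_le_exp (by linarith)).2 (log_le_exp c z)
  have h3 : Real.log 28 ≤ 4 := by
    rw [Real.log_le_iff_le_exp (by norm_num)]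
    have := Real.add_one_le_exp 1
    have e : Real.exp 4 = Real.exp 1 ^ 4 := by rw [← Real.exp_nat_mul]; norm_num
    have := Real.exp_one_gt_d9
    rw [e]; calc (28 : ℝ) ≤ 2.5 ^ 4 := by norm_num
      _ ≤ _ := by gcongr; linarith
  simp only [add_div, sum_add_distrib, one_div] at h1
  unfold HS at h2
  linarith

/-- Functions of the residue modulo 24 with negative mean have bounded sums from above. -/
theorem periodic_upper (ρ : ℕ → ℝ) (hρ : ∀ n, ρ (n % 24) = ρ n)
    (h : ∑ a ∈ ({1, 5, 7, 11, 13, 17, 19, 23} : Finset ℕ), ρ a < 0) {c : ℕ} (hc : 3 ≤ c) :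
    ∃ C, ∀ z, ∑ p ∈ PS c z, ρ p / p ≤ C := by
  set U : Finset ℕ := {1, 5, 7, 11, 13, 17, 19, 23} with hU
  let th : ℕ → ℕ → ℝ := fun a n => ∑ p ∈ (Icc 1 n).filter
    (fun p : ℕ => p.Prime ∧ (p : ZMod 24) = a), Real.log p
  have ht : Tendsto (fun n : ℕ => ∑ a ∈ U, ρ a * (th a n / n)) atTop
      (𝓝 (∑ a ∈ U, ρ a * ((Nat.totient 24 : ℝ)⁻¹))) := by
    refine tendsto_finsetSum _ fun a ha => Tendsto.const_mul _ ?_
    have hu : IsUnit (a : ZMod 24) := by
      rw [ZMod.isUnit_iff_coprime]; revert a; decide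
    have := (helper57.pnt_ap_theta hu).comp tendsto_natCast_atTop_atTop
    simpa [Function.comp_def, th] using this
  have hneg : ∑ a ∈ U, ρ a * ((Nat.totient 24 : ℝ)⁻¹) < 0 := by
    rw [← sum_mul]; exact mul_neg_of_neg_of_pos h (by positivity)
  obtain ⟨N, hN⟩ := eventually_atTop.1 (ht.eventually (gt_mem_nhds hneg))
  let a3 : ℕ → ℝ := fun k => if k.Prime ∧ 3 < k then ρ k * Real.log k else 0
  have hA : ∀ n, ∑ k ∈ range (n + 1), a3 k = ∑ a ∈ U, ρ a * th a n := by
    intro n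
    simp only [th, mul_sum, sum_filter, mul_ite, mul_zero]
    rw [sum_comm, range_eq_Ico, sum_eq_sum_Ico_succ_bot (by omega),
      show a3 0 = 0 by simp [a3], zero_add]
    refine sum_congr rfl fun k _ => ?_
    have hk : ∀ a ∈ U, ((k : ZMod 24) = a ↔ a = k % 24) := fun a ha => by
      rw [ZMod.natCast_eq_natCast_iff', eq_comm, Nat.mod_eq_of_lt (a := a) (by revert a; decide)]
    rw [sum_congr rfl (g := fun a => if a = k % 24 then (if k.Prime then ρ a * Real.log k else 0)
      else 0) (fun a ha => by simp only [hk a ha]; split_ifs <;> simp_all), sum_ite_eq', hρ]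
    by_cases hp : k.Prime
    · have : k % 24 ∈ U ↔ 3 < k := by
        have h2 := hp.two_le
        have e2 : k % 2 = 0 → k = 2 := fun h =>
          ((Nat.prime_dvd_prime_iff_eq Nat.prime_two hp).1 (by omega)).symm
        have e3 : k % 3 = 0 → k = 3 := fun h =>
          ((Nat.prime_dvd_prime_iff_eq Nat.prime_three hp).1 (by omega)).symm
        simp only [hU, mem_insert, mem_singleton]; omega
      simp [a3, hp, this]
    · simp [a3, hp]
  let ac : ℕ → ℝ := fun k => if k.Prime ∧ c < k then ρ k * Real.log k else 0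
  obtain ⟨M, hM⟩ : ∃ M, ∀ n, ∑ k ∈ range n, ac k ≤ M := by
    refine ⟨∑ k ∈ range (N + c + 2), |a3 k|, fun n => ?_⟩
    have hac : ∀ k, ac k ≤ |a3 k| := fun k => by
      simp only [ac, a3]; split_ifs with h1 h2
      · exact le_abs_self _
      · exact absurd ⟨h1.1, by omega⟩ h2
      · exact abs_nonneg _
      · simp
    rcases le_or_gt n (N + c + 2) with hn | hn
    · exact (sum_le_sum fun k _ => hac k).trans (sum_le_sum_of_subset_of_nonneg
        (range_subset_range.2 hn) fun _ _ _ => abs_nonneg _)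
    · obtain ⟨m, rfl⟩ : ∃ m, n = m + 1 := ⟨n - 1, by omega⟩
      have h1 := hN m (by omega)
      have hm : (0 : ℝ) < m := by exact_mod_cast (by omega : 0 < m)
      simp only [← mul_div_assoc, ← sum_div] at h1
      rw [div_neg_iff, ← hA] at h1
      have h2 : ∑ k ∈ range (m + 1), a3 k < 0 := (h1.resolve_left fun h => by linarith [h.2]).1
      have h3 : ∑ k ∈ range (m + 1), (ac k - a3 k) ≤ ∑ k ∈ range (N + c + 2), |a3 k| := by
        rw [← sum_subset (range_subset_range.2 hn.le) (fun k _ hk => by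
          have : c < k := by simp at hk; omega
          simp [ac, a3, this, show 3 < k by omega])]
        refine sum_le_sum fun k _ => ?_
        simp only [ac, a3]; split_ifs with h1 h2
        · rw [sub_self]; exact abs_nonneg _
        · exact absurd ⟨h1.1, by omega⟩ h2
        · rw [zero_sub]; exact neg_le_abs _
        · simp
      rw [sum_sub_distrib] at h3
      linarith
  let f : ℕ → ℝ := fun k => (((max k 2 : ℕ) : ℝ) * Real.log (max k 2 : ℕ))⁻¹
  have hl : ∀ k, 0 < Real.log (max k 2 : ℕ) := fun k =>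
    Real.log_pos (by exact_mod_cast (by omega : 1 < max k 2))
  refine ⟨M * f 0, fun z => le_trans (le_of_eq ?_) (abel_le ac f (fun k l hkl => ?_)
    (fun k => by have := hl k; positivity) hM (z + 1))⟩
  · simp only [ac, ite_mul, zero_mul]
    rw [← sum_filter]
    refine sum_congr (by ext p; simp [mem_PS]; tauto) fun p hp => ?_
    have hp2 := (mem_filter.1 hp).2.1.two_le
    have := hl p
    simp only [f, max_eq_left hp2] at this ⊢
    field_simp
  · have h1 : ((max k 2 : ℕ) : ℝ) ≤ (max l 2 : ℕ) := by exact_mod_cast max_le_max_right 2 hkl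
    have h0 : (0 : ℝ) < (max k 2 : ℕ) := by positivity
    have := hl k
    exact inv_anti₀ (by positivity) (by gcongr)

end Pool.Agent.Lib.TorsRank
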