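import Pool.Agent.Lib.MP_6073f3_nt.Average

/-!
Families described by the irreducible factors of the discriminant.
-/

set_option linter.unusedSectionVars false

namespace Pool.Agent.Lib.TorsRank

open Finset
open scoped NumberTheorySymbols

/-- Evaluation of a polynomial of degree at most two without constant term. -/
def ev {R : Type} [CommRing R] (v : Fin 5 → ℤ) (s t : R) : R :=
  v 0 * s ^ 2 + v 1 * s * t + v 2 * t ^ 2 + v 3 * s + v 4 * t

theorem ev_cast {R : Type} [CommRing R] (v : Fin 5 → ℤ) (s t : ℤ) :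
    ((ev v s t : ℤ) : R) = ev v (s : R) t := by simp [ev]

/-- The three admissible shapes of factors. -/
def Kind (v : Fin 5 → ℤ) : Option (Fin 8) → Prop
  | none => (v 1 = 0 ∧ v 2 = 0 ∧ v 4 ∣ 6 ^ 2) ∨ (v 0 = 0 ∧ v 1 = 0 ∧ v 2 = 0 ∧ v 3 = 1 ∧ v 4 = 0)
  | some j => v 3 = 0 ∧ v 4 = 0 ∧ v 2 = 1 ∧ v 1 ^ 2 - 4 * v 0 = 4 * DD j

instance (v : Fin 5 → ℤ) (j : Option (Fin 8)) : Decidable (Kind v j) := by
  cases j <;> unfold Kind <;> infer_instance

/-- The product of the indices of two characters. -/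
def mu (i j : Fin 8) : Fin 8 := ⟨i.1 ^^^ j.1, Nat.xor_lt_two_pow (n := 3) i.2 j.2⟩

theorem mu_spec : ∀ i j, ∃ w ∈ [1, 2, 3, 6], DD i * DD j = DD (mu i j) * w ^ 2 := by decide

/-- Coefficients of the number of zeros. -/
def nuv (j : Option (Fin 8)) (i : Fin 8) : ℕ := (if i = 0 then 1 else 0) + if j = some i then 1 else 0

/-- Coefficients of the signed number of zeros. -/
def sgv (j d : Option (Fin 8)) (i : Fin 8) : ℕ :=
  match d with
  | none => 0
  | some d => (if i = d then 1 else 0) + if j.map (mu d) = some i then 1 else 0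

section

variable {p : ℕ} [hp : Fact p.Prime]

/-- The quadratic character with real values. -/
noncomputable def qc (x : ZMod p) : ℝ := (quadraticChar (ZMod p) x : ℤ)

theorem qc_mul (x y : ZMod p) : qc (x * y) = qc x * qc y := by
  rw [qc, map_mul, Int.cast_mul, qc, qc]

theorem qc_sq {x : ZMod p} (h : x ≠ 0) : qc (x ^ 2) = 1 := by
  rw [qc, quadraticChar_sq_one' h]; simp

theorem qc_val {x : ZMod p} (h : x ≠ 0) : qc x = if IsSquare x then 1 else -1 := by
  split_ifs with h'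
  · rw [qc, (quadraticChar_one_iff_isSquare h).2 h']; simp
  · rw [qc, quadraticChar_neg_one_iff_not_isSquare.2 h']; simp

theorem jac_qc (a : ℤ) : (J(a | p) : ℝ) = qc (a : ZMod p) := by
  rw [← jacobiSym.legendreSym.to_jacobiSym]; rfl

theorem xi_qc (h3 : 3 < p) (a : ℤ) : xi a p = qc (a : ZMod p) := by
  rw [xi_odd (hp.out.odd_of_ne_two (by omega)), jac_qc]

theorem unit6 (h3 : 3 < p) {m : ℤ} {k : ℕ} (h : m ∣ 6 ^ k) : (m : ZMod p) ≠ 0 := by
  rw [Ne, ZMod.intCast_zmod_eq_zero_iff_dvd]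
  intro h'
  have h1 : p ∣ 2 * 3 := by
    exact_mod_cast (Nat.prime_iff_prime_int.1 hp.out).dvd_of_dvd_pow (h'.trans h)
  rcases hp.out.dvd_mul.1 h1 with h | h <;> have := Nat.le_of_dvd (by norm_num) h <;> omega

theorem ch_single (c : Prop) [Decidable c] (j : Fin 8) :
    ch p (fun i => ((if c ∧ i = j then 1 else 0 : ℕ) : ℝ)) = if c then xi (DD j) p else 0 := by
  by_cases h : c <;> simp [ch_apply, h]

theorem ch_nuv (h3 : 3 < p) (j : Option (Fin 8)) :
    ch p (fun i => nuv j i) = 1 + match j with | none => 0 | some j => qc (DD j : ZMod p) := by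
  have : qc (DD 0 : ZMod p) = 1 := by simp [qc, DD]
  cases j <;> simp [ch_apply, nuv, add_mul, sum_add_distrib, xi_qc h3, this]

theorem ch_sgv (h3 : 3 < p) (j : Option (Fin 8)) (d : Fin 8) :
    ch p (fun i => sgv j (some d) i) = qc (DD d : ZMod p) * ch p fun i => nuv j i := by
  rw [ch_nuv h3]
  rcases j with _ | j
  · simp [ch_apply, sgv, xi_qc h3]
  · obtain ⟨w, hw, e⟩ := mu_spec d j
    have h1 : (w : ZMod p) ≠ 0 := unit6 h3 (k := 1) (by fin_cases hw <;> norm_num)
    have h2 := congrArg (fun x : ℤ => qc (x : ZMod p)) e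
    simp only [Int.cast_mul, Int.cast_pow, qc_mul, qc_sq h1, mul_one] at h2
    simp [ch_apply, sgv, add_mul, sum_add_distrib, xi_qc h3, mul_add, h2]

open Classical in
theorem count_zero (h3 : 3 < p) {v : Fin 5 → ℤ} {j : Option (Fin 8)} (h : Kind v j) :
    ∑ a : ZMod p, ∑ b : ZMod p, (if ev v a b = 0 ∧ ¬(a = 0 ∧ b = 0) then 1 else 0 : ℝ) =
      (p - 1) * ch p fun i => nuv j i := by
  have key : ∀ x : ℝ, ∑ a : ZMod p, (if a = 0 then 0 else x) = (p - 1) * x := fun x => by
    rw [sum_congr rfl (g := fun a => x - if a = 0 then x else 0) fun a _ => by split_ifs <;> simp,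
      sum_sub_distrib, sum_ite_eq', sum_const, card_univ, ZMod.card]
    simp; ring
  rw [ch_nuv h3, ← key]
  rcases j with _ | j
  · rcases h with ⟨h1, h2, h4⟩ | ⟨h0, h1, h2, h3', h4⟩
    · have h5 := unit6 h3 h4
      refine sum_congr rfl fun a _ => ?_
      rw [sum_eq_single (-(v 0 * a ^ 2 + v 3 * a) / v 4) (fun b _ hb => if_neg fun h => hb (by
        rw [eq_div_iff h5]; simp only [ev, h1, h2] at h; push_cast at h; linear_combination h.1))
        (by simp)]
      have : ev v a (-(v 0 * a ^ 2 + v 3 * a) / v 4) = 0 := by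
        simp only [ev, h1, h2]; field_simp; push_cast; ring
      by_cases ha : a = 0
      · simp [ha]
      · rw [if_pos ⟨this, fun h => ha h.1⟩, if_neg ha, add_zero]
    · rw [sum_comm]
      refine sum_congr rfl fun b _ => ?_
      simp only [ev, h0, h1, h2, h3', h4]
      by_cases hb : b = 0 <;> simp [hb]
  · obtain ⟨h3', h4, h2, hD⟩ := h
    have h20 : (2 : ZMod p) ≠ 0 := by exact_mod_cast unit6 h3 (m := 2) (k := 1) (by norm_num)
    have hD' : (v 1 : ZMod p) ^ 2 - 4 * v 0 = 4 * DD j := by exact_mod_cast congrArg Int.cast hD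
    refine sum_congr rfl fun a _ => ?_
    split_ifs with ha
    · refine sum_eq_zero fun b _ => if_neg fun h => h.2 ⟨ha, ?_⟩
      simpa [ev, ha, h2, h4] using h.1
    · have h5 := quadraticChar_card_sqrts (F := ZMod p) (by rw [ZMod.ringChar_zmod_n]; omega)
        (DD j * (2 * a) ^ 2)
      have h6 := congrArg (Int.cast (R := ℝ)) h5
      rw [Int.cast_add, ← qc, qc_mul, qc_sq (mul_ne_zero h20 ha)] at h6
      simp only [ha, false_and, not_false_iff, and_true, sum_boole]
      rw [show #{b | ev v a b = 0} = #{x : ZMod p | x ^ 2 = DD j * (2 * a) ^ 2}.toFinset from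
        card_bijective (fun b => 2 * b + v 1 * a) ((Finite.injective_iff_bijective).1
          fun b c h => mul_left_cancel₀ h20 (add_right_cancel h)) fun b => by
          simp only [mem_filter, mem_univ, true_and, Set.mem_toFinset, Set.mem_ofPred_eq, ev, h2,
            h3', h4]
          push_cast
          constructor
          · intro h; linear_combination 4 * h + a ^ 2 * hD'
          · intro h
            refine mul_left_cancel₀ (mul_ne_zero h20 h20) ?_
            linear_combination h - a ^ 2 * hD']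
      push_cast at h6
      linarith

end

open Classical in
theorem count_exc {p : ℕ} [NeZero p] (hp : p.Prime) (h3 : 3 < p) {v : Fin 5 → ℤ}
    {j : Option (Fin 8)} (h : Kind v j) :
    ∑ a : ZMod (p ^ 2), ∑ b : ZMod (p ^ 2),
      (if ev v a b = 0 ∧ ¬(p * a = 0 ∧ p * b = 0) then 1 else 0 : ℝ) ≤ 2 * p ^ 2 := by
  have : Fact p.Prime := ⟨hp⟩
  have hP := Nat.prime_iff_prime_int.1 hp
  have key : ∀ f : ZMod (p ^ 2) → ℝ, (∀ a, f a ≤ 2) → ∑ a, f a ≤ 2 * p ^ 2 := fun f hf => by
    refine (sum_le_card_nsmul _ _ 2 fun a _ => hf a).trans (le_of_eq ?_)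
    rw [card_univ, ZMod.card]; simp [mul_comm]
  have hz : ∀ m : ℤ, (m : ZMod (p ^ 2)) = 0 ↔ (p : ℤ) ^ 2 ∣ m := fun m => by
    rw [ZMod.intCast_zmod_eq_zero_iff_dvd]; simp
  have hu : ∀ {m : ℤ}, ¬ (p : ℤ) ∣ m → ∀ {b c : ZMod (p ^ 2)},
      (m : ZMod (p ^ 2)) * b = (m : ZMod (p ^ 2)) * c → b = c := by
    intro m hm b c h
    obtain ⟨b, rfl⟩ := ZMod.intCast_surjective b
    obtain ⟨c, rfl⟩ := ZMod.intCast_surjective c
    rw [← sub_eq_zero, ← mul_sub, ← Int.cast_sub, ← Int.cast_mul, hz] at h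
    rw [← sub_eq_zero, ← Int.cast_sub, hz]
    exact hP.pow_dvd_of_dvd_mul_left 2 hm h
  have h6 : ∀ {m : ℤ}, m ∣ 6 ^ 2 → ¬ (p : ℤ) ∣ m := fun h =>
    mt (ZMod.intCast_zmod_eq_zero_iff_dvd _ _).2 (unit6 h3 h)
  have two : ∀ (P : ZMod (p ^ 2) → Prop) [DecidablePred P] (g : ZMod (p ^ 2) → ZMod (p ^ 2)),
      (∀ b c, P b → P c → c = b ∨ c = g b) → ∑ b, (if P b then 1 else 0 : ℝ) ≤ 2 := by
    intro P _ g hP
    rw [sum_boole]
    rcases (univ.filter P).eq_empty_or_nonempty with h | ⟨b, hb⟩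
    · simp [h]
    · exact_mod_cast (card_le_card (t := {b, g b}) fun c hc => by
        simpa using hP b c (mem_filter.1 hb).2 (mem_filter.1 hc).2).trans card_le_two
  rcases j with _ | j
  · rcases h with ⟨h1, h2, h4⟩ | ⟨h0, h1, h2, h3', h4⟩
    · refine key _ fun a => two _ id fun b c hb hc => Or.inl (hu (h6 h4) ?_)
      simp only [ev, h1, h2] at hb hc
      push_cast at hb hc
      linear_combination hc.1 - hb.1
    · rw [sum_comm]
      refine key _ fun b => two _ id fun a c ha hc => Or.inl ?_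
      simp only [ev, h0, h1, h2, h3', h4] at ha hc
      push_cast at ha hc
      linear_combination hc.1 - ha.1
  · obtain ⟨h3', h4, h2, hD⟩ := h
    refine key _ fun a => two _ (fun b => -b - v 1 * a) fun b c hb hc => ?_
    obtain ⟨a, rfl⟩ := ZMod.intCast_surjective a
    obtain ⟨b, rfl⟩ := ZMod.intCast_surjective b
    obtain ⟨c, rfl⟩ := ZMod.intCast_surjective c
    have e1 : (p : ℤ) ^ 2 ∣ ev v a b := by rw [← hz, ev_cast]; exact hb.1
    have e2 : (p : ℤ) ^ 2 ∣ ev v a c := by rw [← hz, ev_cast]; exact hc.1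
    have e3 : (p : ℤ) ^ 2 ∣ (c - b) * (c + b + v 1 * a) := by
      rw [show (c - b) * (c + b + v 1 * a) = ev v a c - ev v a b by
        simp only [ev, h2, h4, Int.cast_id]; ring]
      exact e2.sub e1
    have hm : ∀ m : ℤ, (p : ℤ) ∣ m → (p : ZMod (p ^ 2)) * m = 0 := fun m hm => by
      rw [← Int.cast_natCast, ← Int.cast_mul, hz, sq]; exact mul_dvd_mul_left _ hm
    by_cases h7 : (p : ℤ) ∣ c - b
    · by_cases h8 : (p : ℤ) ∣ c + b + v 1 * a
      · exfalso
        have e4 : (p : ℤ) ∣ 2 * b + v 1 * a := by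
          rw [show 2 * b + v 1 * a = c + b + v 1 * a - (c - b) by ring]; exact h8.sub h7
        have e5 := (dvd_pow_self _ two_ne_zero).trans e1
        have e6 : (p : ℤ) ∣ 4 * DD j * a ^ 2 := by
          rw [show 4 * DD j * a ^ 2 = (2 * b + v 1 * a) * (2 * b + v 1 * a) - 4 * ev v a b by
            simp only [ev, h2, h3', h4, ← hD, Int.cast_id]; ring]
          exact (e4.mul_right _).sub (e5.mul_left 4)
        have e7 : (p : ℤ) ∣ a := hP.dvd_of_dvd_pow ((hP.dvd_mul.1 e6).resolve_left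
          (mt (ZMod.intCast_zmod_eq_zero_iff_dvd _ _).2 (unit6 h3 (k := 3)
            ((mul_dvd_mul_left 4 (DD_dvd j)).trans (by norm_num)))))
        have e8 : (p : ℤ) ∣ b := (hP.dvd_mul.1 ((dvd_add_left (e7.mul_left _)).1 e4)).resolve_left
          (h6 (by norm_num))
        exact hb.2 ⟨hm _ e7, hm _ e8⟩
      · left
        rw [← sub_eq_zero, ← Int.cast_sub, hz]
        exact hP.pow_dvd_of_dvd_mul_right 2 h8 e3
    · right
      have := (hz _).2 (hP.pow_dvd_of_dvd_mul_left 2 h7 e3)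
      push_cast at this
      linear_combination this

theorem count_both {p : ℕ} [NeZero p] :
    ∑ a : ZMod (p ^ 2), ∑ b : ZMod (p ^ 2),
      (if p * a = 0 ∧ p * b = 0 then 1 else 0 : ℝ) ≤ p ^ 2 := by
  have : ∑ a : ZMod (p ^ 2), (if p * a = 0 then 1 else 0 : ℝ) ≤ p := by
    rw [sum_boole]
    refine Nat.cast_le.2 ((card_le_card (t := (range p).image fun k => ((p * k : ℕ) : ZMod (p ^ 2)))
      fun a ha => ?_).trans (card_image_le.trans (card_range p).le))
    have h := (mem_filter.1 ha).2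
    rw [← ZMod.natCast_zmod_val a, ← Nat.cast_mul, ZMod.natCast_eq_zero_iff] at h
    obtain ⟨k, hk⟩ := (Nat.mul_dvd_mul_iff_left (NeZero.pos p)).1 ((sq p).symm.dvd.trans h)
    have h1 := (hk.symm.trans_lt (ZMod.val_lt a)).trans_eq (sq p)
    exact mem_image.2 ⟨k, mem_range.2 (lt_of_mul_lt_mul_left h1 (Nat.zero_le _)), by
      rw [← hk, ZMod.natCast_zmod_val]⟩
  refine le_trans (le_of_eq ?_) ((mul_self_le_mul_self (sum_nonneg fun _ _ => by
    split_ifs <;> norm_num) this).trans_eq (sq _).symm)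
  rw [sum_mul_sum]
  exact sum_congr rfl fun a _ => sum_congr rfl fun b _ => by rw [ite_and, boole_mul]

/-- The difference of the two roots other than the `l`-th one, in factored form. -/
def Df {n : ℕ} {R : Type} [CommRing R] (v : Fin n → Fin 5 → ℤ) (ty : Fin n → Fin 3) (m : Fin n → ℕ)
    (u : Fin 3 → ℤ) (l : Fin 3) (s t : R) : R := u l * ∏ k with ty k = l, ev (v k) s t ^ m k

/-- Twice the coefficients of the density of active primes. -/
def kcn {n : ℕ} (ty : Fin n → Fin 3) (m : Fin n → ℕ) (j d : Fin n → Option (Fin 8)) (l : Fin 3)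
    (i : Fin 8) : ℕ :=
  ∑ k with ty k = l, if Odd (m k) then 2 * nuv (j k) i else nuv (j k) i + sgv (j k) (d k) i

/-- Twice the coefficients of the signed density of active primes. -/
def dcn {n : ℕ} (ty : Fin n → Fin 3) (m : Fin n → ℕ) (j d : Fin n → Option (Fin 8)) (l : Fin 3)
    (i : Fin 8) : ℕ :=
  ∑ k with ty k = l, if Odd (m k) then 2 * sgv (j k) (d k) i else nuv (j k) i + sgv (j k) (d k) i

/-- The description of a family by the factors of its discriminant. -/
structure Atoms (n : ℕ) where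
  v : Fin n → Fin 5 → ℤ
  ty : Fin n → Fin 3
  m : Fin n → ℕ
  u : Fin 3 → ℤ
  j : Fin n → Option (Fin 8)
  d : Fin n → Option (Fin 8)
  e : ℤ → ℤ → Fin 3 → ℤ
  hm : ∀ k, m k ≠ 0
  hu : ∀ l, u l ∣ 6 ^ 4
  kind : ∀ k, Kind (v k) (j k)
  num : ∀ l, 0 < kcn ty m j d l 0 ∧ dcn ty m j d l 0 ≤ kcn ty m j d l 0 ∧
    11 * (kcn ty m j d l 0 + dcn ty m j d l 0) <
      20 * (kcn ty m j d (l + 1) 0 + kcn ty m j d (l + 2) 0)
  he : ∀ s t l, e s t (l + 1) - e s t (l + 2) = Df v ty m u l s t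
  cop : ∀ (p : ℕ) [Fact p.Prime], 3 < p → ∀ k k', k ≠ k' → ∀ a b : ZMod p, ev (v k) a b = 0 →
    ev (v k') a b = 0 → a = 0 ∧ b = 0
  sg : ∀ (p : ℕ) k (a b : ZMod p), ev (v k) a b = 0 → match d k with
    | some i => IsSquare (DD i * -Df v ty m u (ty k + 2) a b)
    | none => v k 0 = 0 ∧ v k 1 = 0 ∧ v k 2 = 0 ∧
        ∀ c, Df v ty m u (ty k + 2) (c * a) (c * b) = c * Df v ty m u (ty k + 2) a b

namespace Atoms

variable {n : ℕ} (A : Atoms n)

/-- The factored differences of roots. -/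
abbrev D {R : Type} [CommRing R] (l : Fin 3) (s t : R) : R := Df A.v A.ty A.m A.u l s t

theorem D_cast {R : Type} [CommRing R] (l : Fin 3) (s t : ℤ) :
    ((A.D l s t : ℤ) : R) = A.D l (s : R) t := by simp [Df, ev_cast]

open Classical in
/-- The label of a prime. -/
noncomputable def lab (p : ℕ) (a b : ZMod p) : Lab :=
  if h : ∃ k, ev (A.v k) a b = 0 ∧ ¬(a = 0 ∧ b = 0) ∧ (IsSquare (-A.D (A.ty k + 2) a b) ∨ Odd (A.m k))
  then some (A.ty h.choose, decide (IsSquare (-A.D (A.ty h.choose + 2) a b))) else none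

variable {p : ℕ} [hp : Fact p.Prime]

open Classical in
theorem lab_eq (h3 : 3 < p) {a b : ZMod p} (h0 : ¬(a = 0 ∧ b = 0)) {k : Fin n}
    (hk : ev (A.v k) a b = 0) : A.lab p a b =
      if IsSquare (-A.D (A.ty k + 2) a b) ∨ Odd (A.m k) then
        some (A.ty k, decide (IsSquare (-A.D (A.ty k + 2) a b))) else none := by
  have hu : ∀ k', ev (A.v k') a b = 0 → k' = k := fun k' h =>
    by_contra fun h' => h0 (A.cop p h3 k' k h' a b h hk)
  unfold lab
  split_ifs with h1 h2 h2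
  · rw [hu _ h1.choose_spec.1]; congr
  · obtain ⟨k', h, -, h'⟩ := h1
    exact absurd (hu _ h ▸ h') h2
  · exact absurd ⟨k, hk, h0, h2⟩ h1
  · rfl

theorem D_ne (h3 : 3 < p) {a b : ZMod p} {l : Fin 3} (h : ∀ k, A.ty k = l → ev (A.v k) a b ≠ 0) :
    A.D l a b ≠ 0 :=
  mul_ne_zero (unit6 h3 (A.hu l)) (prod_ne_zero_iff.2 fun k hk =>
    pow_ne_zero _ (h k (mem_filter.1 hk).2))

theorem D_ne' (h3 : 3 < p) {a b : ZMod p} (h0 : ¬(a = 0 ∧ b = 0)) {k : Fin n}
    (hk : ev (A.v k) a b = 0) : -A.D (A.ty k + 2) a b ≠ 0 :=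
  neg_ne_zero.2 (A.D_ne h3 fun k' h h' => h0 (A.cop p h3 k' k (by
    rintro rfl; revert h; generalize A.ty k' = x; revert x; decide) a b h' hk))

open Classical in
theorem count_sign (h3 : 3 < p) (k : Fin n) :
    ∑ a : ZMod p, ∑ b : ZMod p, (if ev (A.v k) a b = 0 ∧ ¬(a = 0 ∧ b = 0) then 1 else 0 : ℝ) *
      qc (-A.D (A.ty k + 2) a b) = (p - 1) * ch p fun i => sgv (A.j k) (A.d k) i := by
  have hs := A.sg p k
  rcases hd : A.d k with _ | d
  · simp only [hd] at hs
    obtain ⟨c, hc⟩ := quadraticChar_exists_neg_one (F := ZMod p)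
      (by rw [ZMod.ringChar_zmod_n]; omega)
    have hc0 : c ≠ 0 := by rintro rfl; simp at hc
    set f : ZMod p → ZMod p → ℝ := fun a b =>
      (if ev (A.v k) a b = 0 ∧ ¬(a = 0 ∧ b = 0) then 1 else 0 : ℝ) * qc (-A.D (A.ty k + 2) a b)
    have e : ∀ a b, f (c * a) (c * b) = -f a b := fun a b => by
      obtain ⟨h0, h1, h2, -⟩ := hs 0 0 (by simp [ev])
      have e1 : ev (A.v k) (c * a) (c * b) = c * ev (A.v k) a b := by
        simp only [ev, h0, h1, h2]; push_cast; ring
      simp only [f, e1, mul_eq_zero, hc0, false_or]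
      split_ifs with h
      · rw [D, (hs a b h.1).2.2.2, ← mul_neg, qc_mul, qc, hc]; simp
      · simp
    have e2 : ∑ a, ∑ b, f a b = ∑ a, ∑ b, f (c * a) (c * b) := by
      rw [← Equiv.sum_comp (Equiv.mulLeft₀ c hc0)]
      exact sum_congr rfl fun a _ => (Equiv.sum_comp (Equiv.mulLeft₀ c hc0) _).symm
    simp only [e, sum_neg_distrib] at e2
    simp only [sgv, Nat.cast_zero, ch_apply, zero_mul, sum_const_zero, mul_zero]
    linarith
  · simp only [hd] at hs
    rw [ch_sgv h3, mul_left_comm, ← count_zero h3 (A.kind k), mul_sum]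
    refine sum_congr rfl fun a _ => ?_
    rw [mul_sum]
    refine sum_congr rfl fun b _ => ?_
    split_ifs with h
    · have h1 := A.D_ne' h3 h.2 h.1
      have h2 := unit6 h3 (k := 1) ((DD_dvd d).trans (by norm_num))
      have h4 := qc_val (mul_ne_zero h2 h1)
      rw [if_pos (hs a b h.1), qc_mul, qc_val h1, qc_val h2] at h4
      rw [qc_val h1, qc_val h2]
      split_ifs at h4 ⊢ <;> linarith
    · simp

theorem dens (h3 : 3 < p) (y : Fin 3 × Bool) :
    av (fun a b => if A.lab p a b = some y then 1 else 0) =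
      pm (fun l i => kcn A.ty A.m A.j A.d l i / 2) (fun l i => dcn A.ty A.m A.j A.d l i / 2) p
        (some y) := by
  classical
  obtain ⟨l, σ⟩ := y
  set Z : Fin n → ZMod p → ZMod p → ℝ := fun k a b =>
    if ev (A.v k) a b = 0 ∧ ¬(a = 0 ∧ b = 0) then 1 else 0 with hZ
  set r : Fin n → ℝ := fun k => if σ || Odd (A.m k) then 1 / 2 else 0 with hr
  have e : ∀ a b, (if A.lab p a b = some (l, σ) then 1 else 0 : ℝ) = ∑ k with A.ty k = l,
      r k * (Z k a b + sgn (some (l, σ)) * (Z k a b * qc (-A.D (A.ty k + 2) a b))) := by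
    intro a b
    by_cases h : ∃ k, ev (A.v k) a b = 0 ∧ ¬(a = 0 ∧ b = 0)
    · obtain ⟨k, hk, h0⟩ := h
      rw [A.lab_eq h3 h0 hk, sum_filter, sum_eq_single k (fun k' _ h' => by
        simp only [hZ, if_neg fun h : _ ∧ _ => h0 (A.cop p h3 k' k h' a b h.1 hk)]; simp) (by simp),
        qc_val (A.D_ne' h3 h0 hk)]
      simp only [hZ, hr, if_pos (And.intro hk h0)]
      by_cases h1 : A.ty k = l
      · subst h1
        by_cases h2 : IsSquare (-A.D (A.ty k + 2) a b) <;>
          by_cases h4 : Odd (A.m k) <;> cases σ <;> simp [h2, h4, sgn] <;> norm_num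
      · rw [if_neg h1, if_neg]
        split_ifs <;> simp [h1]
    · rw [lab, dif_neg fun ⟨k, h1, h2, _⟩ => h ⟨k, h1, h2⟩, if_neg (by simp), sum_eq_zero]
      intro k _
      simp only [hZ, if_neg fun h' => h ⟨k, h'⟩]; simp
  have e2 : ∀ k, av (fun a b => r k * (Z k a b + sgn (some (l, σ)) *
      (Z k a b * qc (-A.D (A.ty k + 2) a b)))) = ff p * (r k * (ch p (fun i => nuv (A.j k) i) +
      sgn (some (l, σ)) * ch p fun i => sgv (A.j k) (A.d k) i)) := fun k => by
    simp only [av, ← mul_sum, sum_add_distrib, hZ, count_zero h3 (A.kind k), A.count_sign h3 k, ff]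
    ring
  simp only [e, av_sum, e2, pm, ← mul_sum, mul_div_assoc]
  congr 1
  simp only [ch_apply, kcn, dcn, Nat.cast_sum, sum_div, sum_mul, mul_sum, ← sum_add_distrib]
  rw [sum_comm]
  refine sum_congr rfl fun i _ => sum_congr rfl fun k _ => ?_
  by_cases h4 : Odd (A.m k) <;> cases σ <;> simp [hr, h4, sgn] <;> ring

/-- The family attached to the data. -/
noncomputable def fam : Fam where
  e := A.e
  lab := A.lab
  exc p a b := (∃ k, ev (A.v k) a b = 0) ∨ (p * a = 0 ∧ p * b = 0)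
  kc l i := kcn A.ty A.m A.j A.d l i / 2
  dc l i := dcn A.ty A.m A.j A.d l i / 2
  K := 2 * n + 1
  coef := by
    refine ⟨fun _ _ => by positivity, fun _ _ => by positivity, fun l p hp h3 => ?_,
      fun l => ?_, fun l => ?_, fun l => ?_⟩
    · have : Fact p.Prime := ⟨hp⟩
      have h1 : ∀ σ, (0 : ℝ) ≤ _ := fun σ => (av_nonneg fun a b => by
        split_ifs <;> norm_num).trans_eq (A.dens h3 (l, σ))
      have h2 := h1 true
      have h4 := h1 false
      have h5 : 0 < ff p := div_pos (sub_pos.2 (by exact_mod_cast hp.one_lt))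
        (by have := hp.pos; positivity)
      simp only [pm, sgn, mul_div_assoc, mul_nonneg_iff_of_pos_left h5] at h2 h4
      norm_num at h2 h4
      rw [abs_le]; constructor <;> linarith
    · have : (0 : ℝ) < kcn A.ty A.m A.j A.d l 0 := by exact_mod_cast (A.num l).1
      linarith
    · have : (dcn A.ty A.m A.j A.d l 0 : ℝ) ≤ kcn A.ty A.m A.j A.d l 0 := by
        exact_mod_cast (A.num l).2.1
      linarith
    · have := (Nat.cast_lt (α := ℝ)).2 (A.num l).2.2
      push_cast at this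
      linarith
  dens p _ hp h3 u := by
    have : Fact p.Prime := ⟨hp⟩
    exact A.dens h3 u
  exd p _ hp h3 := by
    classical
    have hp0 : (0 : ℝ) < p := by exact_mod_cast hp.pos
    refine (av_mono (g := fun a b : ZMod (p ^ 2) => ∑ k, (if ev (A.v k) a b = 0 ∧
      ¬((p : ZMod (p ^ 2)) * a = 0 ∧ (p : ZMod (p ^ 2)) * b = 0) then 1 else 0) +
      if (p : ZMod (p ^ 2)) * a = 0 ∧ (p : ZMod (p ^ 2)) * b = 0 then 1 else 0)
      fun a b => ?_).trans ?_
    · have h0 : ∀ k ∈ univ, (0 : ℝ) ≤ if ev (A.v k) a b = 0 ∧ ¬(p * a = 0 ∧ p * b = 0) then 1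
          else 0 := fun k _ => by split_ifs <;> norm_num
      have h1 := sum_nonneg h0
      split_ifs with h2 h4 h4
      · linarith
      · obtain ⟨k, hk⟩ := h2.resolve_right h4
        have := single_le_sum h0 (mem_univ k)
        rw [if_pos ⟨hk, h4⟩] at this
        linarith
      · linarith
      · linarith
    · simp only [av, sum_add_distrib]
      rw [sum_congr rfl fun a _ => sum_comm, sum_comm, div_le_div_iff₀ (by positivity)
        (by positivity)]
      have h1 := sum_le_card_nsmul univ _ _ fun k _ => count_exc hp h3 (A.kind k)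
      have h2 := count_both (p := p)
      simp only [card_univ, Fintype.card_fin, nsmul_eq_mul] at h1
      push_cast
      nlinarith [mul_le_mul_of_nonneg_right (add_le_add h1 h2) (sq_nonneg (p : ℝ))]
  loc s t p he hp h3 hx := by
    classical
    have : Fact p.Prime := ⟨hp⟩
    have hP := Nat.prime_iff_prime_int.1 hp
    rw [not_or, not_exists] at hx
    have hz : ∀ m : ℤ, (m : ZMod p) = 0 ↔ (p : ℤ) ∣ m := fun m =>
      ZMod.intCast_zmod_eq_zero_iff_dvd m p
    have h0 : ¬((s : ZMod p) = 0 ∧ (t : ZMod p) = 0) := fun h => by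
      have hm : ∀ m : ℤ, (m : ZMod p) = 0 → (p : ZMod (p ^ 2)) * m = 0 := fun m hm => by
        rw [← Int.cast_natCast, ← Int.cast_mul, ZMod.intCast_zmod_eq_zero_iff_dvd, Nat.cast_pow, sq]
        exact mul_dvd_mul_left _ ((hz m).1 hm)
      exact hx.2 ⟨hm _ h.1, hm _ h.2⟩
    have key : ∀ k, ev (A.v k) (s : ZMod p) t = 0 → Coll (A.e s t) p (A.ty k) ∧
        J(A.e s t (A.ty k + 1) - A.e s t (A.ty k) | p) =
          (if IsSquare (-A.D (A.ty k + 2) (s : ZMod p) t) then 1 else -1) ∧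
        padicValInt p (A.e s t (A.ty k + 1) - A.e s t (A.ty k + 2)) = A.m k := by
      intro k hk
      have e1 : A.e s t (A.ty k + 1) - A.e s t (A.ty k) = -A.D (A.ty k + 2) s t := by
        rw [D, ← A.he]; generalize A.ty k = l; fin_cases l <;> simp
      have e2 := A.D_ne' h3 h0 hk
      obtain ⟨w, hw⟩ := (hz _).1 ((ev_cast _ _ _).trans hk)
      have e3 : A.e s t (A.ty k + 1) - A.e s t (A.ty k + 2) = p ^ A.m k * (w ^ A.m k * (A.u (A.ty k)
          * ∏ k' ∈ (univ.filter fun k' => A.ty k' = A.ty k).erase k, ev (A.v k') s t ^ A.m k')) := by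
        rw [A.he, Df, ← mul_prod_erase _ _ (show k ∈ _ by simp), hw, Int.cast_id]; ring
      refine ⟨⟨e3 ▸ (dvd_pow_self _ (A.hm k)).mul_right _, ?_⟩, ?_, val_eq hp e3 ?_⟩
      · rw [e1, ← hz]; push_cast; rwa [A.D_cast]
      · have := jac_qc (p := p) (-A.D (A.ty k + 2) s t)
        push_cast at this
        rw [A.D_cast, qc_val e2] at this
        rw [e1]; exact_mod_cast this
      · rw [← hz]
        push_cast
        refine mul_ne_zero (pow_ne_zero _ fun h => hx.1 k ?_) (mul_ne_zero (unit6 h3 (A.hu _))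
          (prod_ne_zero_iff.2 fun k' hk' => pow_ne_zero _ fun h => h0
          (A.cop p h3 k' k (mem_erase.1 hk').1 _ _ ((ev_cast _ _ _).symm.trans h) hk)))
        rw [← ev_cast, ZMod.intCast_zmod_eq_zero_iff_dvd, hw, Nat.cast_pow, sq]
        exact mul_dvd_mul_left _ ((hz w).1 h)
    by_cases h : ∃ k, ev (A.v k) (s : ZMod p) t = 0
    · obtain ⟨k, hk⟩ := h
      obtain ⟨h1, h2, h4⟩ := key k hk
      rw [A.lab_eq h3 h0 hk]
      split_ifs with h5
      · refine ⟨fun u hu => ?_, fun h => by cases h⟩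
        cases hu
        refine ⟨h1, by simpa [sgn] using h2, ?_⟩
        simpa [h4] using h5
      · rw [not_or] at h5
        exact ⟨fun u hu => (by cases hu), fun _ => Or.inr ⟨_, h1, by rw [h2, if_neg h5.1],
          h4 ▸ Nat.not_odd_iff_even.1 h5.2⟩⟩
    · rw [lab, dif_neg fun ⟨k, h1, _⟩ => h ⟨k, h1⟩]
      refine ⟨fun u hu => (by cases hu), fun _ => Or.inl fun l hl => ?_⟩
      rw [A.he, ← hz] at hl
      exact A.D_ne h3 (fun k _ hk => h ⟨k, hk⟩) ((A.D_cast l s t).symm.trans hl)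

theorem growth (w : ℕ) : ∃ g : ℕ, ∀ T : ℕ, 2 ≤ T → ∀ s t : ℤ, |s| ≤ T ^ w → |t| ≤ T ^ w →
    ∀ l, |A.e s t (l + 1) - A.e s t (l + 2)| ≤ T ^ g := by
  let P : (ℤ → ℤ → ℤ) → Prop := fun f =>
    ∃ g : ℕ, ∀ T : ℕ, 2 ≤ T → ∀ s t : ℤ, |s| ≤ T ^ w → |t| ≤ T ^ w → |f s t| ≤ T ^ g
  have hc : ∀ c : ℤ, P fun _ _ => c := fun c => ⟨c.natAbs, fun T hT _ _ _ _ => by
    rw [← Int.natCast_natAbs]
    exact_mod_cast (Nat.lt_pow_self hT).le⟩
  have hm : ∀ {f g}, P f → P g → P fun s t => f s t * g s t := fun ⟨i, hi⟩ ⟨j, hj⟩ =>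
    ⟨i + j, fun T hT s t hs ht => by
      rw [abs_mul, pow_add]
      exact mul_le_mul (hi T hT s t hs ht) (hj T hT s t hs ht) (abs_nonneg _) (by positivity)⟩
  have ha : ∀ {f g}, P f → P g → P fun s t => f s t + g s t := fun ⟨i, hi⟩ ⟨j, hj⟩ =>
    ⟨i + j + 1, fun T hT s t hs ht => by
      have h1 : (2 : ℤ) ≤ T := by exact_mod_cast hT
      have h2 := (hi T hT s t hs ht).trans (pow_le_pow_right₀ (by omega) (Nat.le_add_right i j))
      have h3 := (hj T hT s t hs ht).trans (pow_le_pow_right₀ (by omega) (Nat.le_add_left j i))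
      refine (abs_add_le _ _).trans ?_
      rw [pow_succ]; nlinarith [pow_pos (show (0 : ℤ) < T by omega) (i + j)]⟩
  have hs : P fun s _ => s := ⟨w, fun _ _ _ _ h _ => h⟩
  have ht : P fun _ t => t := ⟨w, fun _ _ _ _ _ h => h⟩
  have hw : ∀ {f} (k : ℕ), P f → P fun s t => f s t ^ k := fun k h => by
    induction k with
    | zero => simpa using hc 1
    | succ k ih => simpa only [pow_succ] using hm ih h
  have hv : ∀ v, P (ev v) := fun v => ha (ha (ha (ha (hm (hc _) (hw 2 hs)) (hm (hm (hc _) hs) ht))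
    (hm (hc _) (hw 2 ht))) (hm (hc _) hs)) (hm (hc _) ht)
  have hpr : ∀ S : Finset (Fin n), P fun s t => ∏ k ∈ S, ev (A.v k) s t ^ A.m k := fun S => by
    induction S using Finset.induction_on with
    | empty => simpa using hc 1
    | insert k S hk ih => simpa only [prod_insert hk] using hm (hw _ (hv _)) ih
  choose g hg using fun l => hm (hc (A.u l)) (hpr (univ.filter fun k => A.ty k = l))
  refine ⟨∑ l, g l, fun T hT s t hs ht l => ?_⟩
  rw [A.he]
  exact (hg l T hT s t hs ht).trans (pow_le_pow_right₀ (by omega)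
    (single_le_sum (fun _ _ => Nat.zero_le _) (mem_univ l)))

end Atoms

/-- The quadratic form attached to a homogeneous factor. -/
def qf (v : Fin 5 → ℤ) : Fin 3 → ℤ := ![v 0 + v 3 ^ 2, v 1 + 2 * v 3 * v 4, v 2 + v 4 ^ 2]

/-- The resultant of two binary quadratic forms. -/
def res (x y : Fin 3 → ℤ) : ℤ :=
  (x 0 * y 2 - y 0 * x 2) ^ 2 - (x 0 * y 1 - y 0 * x 1) * (x 1 * y 2 - y 1 * x 2)

theorem cop_of_res {n : ℕ} {v : Fin n → Fin 5 → ℤ}
    (hv : ∀ k, (v k 0 = 0 ∧ v k 1 = 0 ∧ v k 2 = 0) ∨ (v k 3 = 0 ∧ v k 4 = 0))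
    (hr : ∀ k k', k ≠ k' → res (qf (v k)) (qf (v k')) ∣ 6 ^ 8) (p : ℕ) [Fact p.Prime] (h3 : 3 < p)
    (k k' : Fin n) (hk : k ≠ k') (a b : ZMod p) (h1 : ev (v k) a b = 0) (h2 : ev (v k') a b = 0) :
    a = 0 ∧ b = 0 := by
  have key : ∀ k, ev (v k) a b = 0 → (qf (v k) 0 : ZMod p) * a ^ 2 + qf (v k) 1 * a * b +
      qf (v k) 2 * b ^ 2 = 0 := fun k h => by
    rcases hv k with ⟨e0, e1, e2⟩ | ⟨e3, e4⟩
    · simp only [ev, e0, e1, e2] at h
      simp [qf, e0, e1, e2]
      push_cast at h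
      linear_combination (v k 3 * a + v k 4 * b) * h
    · simp only [ev, e3, e4] at h
      simp [qf, e3, e4]
      push_cast at h
      linear_combination h
  have e1 := key k h1
  have e2 := key k' h2
  have hu := unit6 h3 (hr k k' hk)
  generalize qf (v k) = x at *
  generalize qf (v k') = y at *
  rw [res] at hu
  push_cast at hu
  set X : ZMod p := x 0 * y 2 - y 0 * x 2
  set Y : ZMod p := x 1 * y 2 - y 1 * x 2
  set Z : ZMod p := x 0 * y 1 - y 0 * x 1
  have P1 : a * (X * a + Y * b) = 0 := by linear_combination y 2 * e1 - x 2 * e2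
  have P2 : b * (Z * a + X * b) = 0 := by linear_combination x 0 * e2 - y 0 * e1
  have P3 : Z * a ^ 2 - Y * b ^ 2 = 0 := by linear_combination y 1 * e1 - x 1 * e2
  exact ⟨pow_eq_zero_iff three_ne_zero |>.1 (mul_left_cancel₀ hu (by
      linear_combination X * a * P1 - Y * (a * P3 + b * P1))),
    pow_eq_zero_iff three_ne_zero |>.1 (mul_left_cancel₀ hu (by
      linear_combination X * b * P2 - Z * (a * P2 - b * P3)))⟩

end Pool.Agent.Lib.TorsRank
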