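import Pool.Agent.Lib.MP_6073f3_nt.LargeSieve

/-!
Equidistribution in boxes and the upper bound sieve of Selberg.
-/

set_option linter.unusedSectionVars false

namespace Pool.Agent.Lib.TorsRank

open Finset

/-- The box of parameters. -/
noncomputable def Box (L₁ L₂ : ℕ) : Finset (ℤ × ℤ) := Icc (-L₁ : ℤ) L₁ ×ˢ Icc (-L₂ : ℤ) L₂

theorem mem_Box {L₁ L₂ : ℕ} {x : ℤ × ℤ} : x ∈ Box L₁ L₂ ↔ |x.1| ≤ L₁ ∧ |x.2| ≤ L₂ := by
  simp [Box, abs_le]

theorem card_Box (L₁ L₂ : ℕ) : (Box L₁ L₂).card = (2 * L₁ + 1) * (2 * L₂ + 1) := by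
  rw [Box, card_product, Int.card_Icc, Int.card_Icc]; congr 1 <;> omega

/-- The average over the plane modulo `m`. -/
noncomputable def av {m : ℕ} [NeZero m] (f : ZMod m → ZMod m → ℝ) : ℝ :=
  (∑ a, ∑ b, f a b) / m ^ 2

theorem av_nonneg {m : ℕ} [NeZero m] {f : ZMod m → ZMod m → ℝ} (h : ∀ a b, 0 ≤ f a b) :
    0 ≤ av f :=
  div_nonneg (sum_nonneg fun a _ => sum_nonneg fun b _ => h a b) (by positivity)

theorem av_mono {m : ℕ} [NeZero m] {f g : ZMod m → ZMod m → ℝ} (h : ∀ a b, f a b ≤ g a b) :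
    av f ≤ av g :=
  div_le_div_of_nonneg_right (sum_le_sum fun a _ => sum_le_sum fun b _ => h a b) (by positivity)

theorem av_lin {m : ℕ} [NeZero m] (f : ZMod m → ZMod m → ℝ) (u v : ℝ) :
    av (fun a b => u * f a b + v) = u * av f + v := by
  have : (m : ℝ) ≠ 0 := by exact_mod_cast NeZero.ne m
  simp only [av, sum_add_distrib, ← mul_sum, sum_const, card_univ, ZMod.card, nsmul_eq_mul]
  field_simp

theorem av_const {m : ℕ} [NeZero m] (v : ℝ) : av (fun _ _ : ZMod m => v) = v := by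
  simpa using av_lin (fun _ _ : ZMod m => 0) 0 v

theorem count_class {Q : ℕ} [NeZero Q] (L : ℕ) (r : ZMod Q) :
    |(((Icc (-L : ℤ) L).filter fun x : ℤ => (x : ZMod Q) = r).card : ℝ) - (2 * L + 1) / Q| ≤ 1 := by
  have hQ : (0 : ℤ) < Q := by exact_mod_cast NeZero.pos Q
  obtain ⟨v, rfl⟩ := ZMod.intCast_surjective r
  have h := Int.Ico_filter_modEq_card (-L : ℤ) (L + 1) hQ v
  have e : (Icc (-L : ℤ) L).filter (fun x : ℤ => (x : ZMod Q) = v) =
      (Ico (-L : ℤ) (L + 1)).filter fun x => x ≡ v [ZMOD Q] := by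
    ext x; simp [ZMod.intCast_eq_intCast_iff]
  have hQ' : (0 : ℚ) < (Q : ℤ) := by exact_mod_cast hQ
  rw [max_eq_left (sub_nonneg.2 (Int.ceil_mono (by gcongr; omega)))] at h
  set s : ℚ := (((L + 1 : ℤ) : ℚ) - v) / (Q : ℤ) with hs
  set t : ℚ := (((-L : ℤ) : ℚ) - v) / (Q : ℤ) with ht
  have h1 : s - t = (2 * L + 1) / Q := by rw [hs, ht]; push_cast; ring
  have h2 : |(((Ico (-L : ℤ) (L + 1)).filter fun x => x ≡ v [ZMOD Q]).card : ℚ) -
      (2 * L + 1) / Q| ≤ 1 := by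
    have h' : ((((Ico (-L : ℤ) (L + 1)).filter fun x => x ≡ v [ZMOD Q]).card : ℤ) : ℚ) =
      ⌈s⌉ - ⌈t⌉ := by rw [h]; push_cast; rfl
    rw [Int.cast_natCast] at h'
    rw [h', ← h1, abs_le]
    constructor <;> linarith [Int.le_ceil s, Int.le_ceil t, Int.ceil_lt_add_one s,
      Int.ceil_lt_add_one t]
  rw [e]
  have h3 := (Rat.cast_le (K := ℝ)).2 h2
  simpa only [Rat.cast_abs, Rat.cast_sub, Rat.cast_div, Rat.cast_natCast, Rat.cast_add,
    Rat.cast_mul, Rat.cast_one, Rat.cast_ofNat] using h3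

theorem equi_one {Q : ℕ} [NeZero Q] (F : ZMod Q → ZMod Q → ℝ) {L₁ L₂ T : ℕ} (h1 : T ≤ L₁)
    (h2 : T ≤ L₂) (hQ : Q ≤ T) :
    |∑ x ∈ Box L₁ L₂, F x.1 x.2 - (Box L₁ L₂).card * av F| ≤
      (Box L₁ L₂).card * (3 * Q / T) * av fun a b => |F a b| := by
  have hQ0 : (0 : ℝ) < Q := by exact_mod_cast NeZero.pos Q
  have hQT : (Q : ℝ) ≤ T := by exact_mod_cast hQ
  set n : ℕ → ZMod Q → ℝ := fun L r =>
    (((Icc (-L : ℤ) L).filter fun x : ℤ => (x : ZMod Q) = r).card : ℝ) with hn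
  have e0 : ∀ (L : ℕ) (g : ZMod Q → ℝ), ∑ x ∈ Icc (-L : ℤ) L, g x = ∑ r, n L r * g r := by
    intro L g
    rw [← sum_fiberwise _ (fun x : ℤ => (x : ZMod Q))]
    refine sum_congr rfl fun r _ => ?_
    rw [sum_congr rfl fun x hx => by rw [(mem_filter.1 hx).2], sum_const, nsmul_eq_mul]
  have e1 : ∑ x ∈ Box L₁ L₂, F x.1 x.2 = ∑ a, ∑ b, n L₁ a * n L₂ b * F a b := by
    rw [Box, sum_product, e0 L₁ fun a => ∑ y ∈ Icc (-L₂ : ℤ) L₂, F a y]
    simp only [e0, mul_sum, mul_assoc]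
  have hN : ∀ L : ℕ, T ≤ L → (T : ℝ) ≤ 2 * L + 1 := fun L h => by
    have : (T : ℝ) ≤ L := by exact_mod_cast h
    linarith
  have hN1 := hN _ h1
  have hN2 := hN _ h2
  rw [e1, card_Box, av, av]
  push_cast
  set N₁ : ℝ := 2 * L₁ + 1
  set N₂ : ℝ := 2 * L₂ + 1
  simp only [← mul_div_assoc, mul_sum, sum_div, ← sum_sub_distrib]
  refine (abs_sum_le_sum_abs _ _).trans (sum_le_sum fun a _ =>
    (abs_sum_le_sum_abs _ _).trans (sum_le_sum fun b _ => ?_))
  have c1 : |n L₁ a - N₁ / Q| ≤ 1 := count_class L₁ a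
  have c2 : |n L₂ b - N₂ / Q| ≤ 1 := count_class L₂ b
  have e2 : n L₁ a * n L₂ b * F a b - N₁ * N₂ * F a b / Q ^ 2 = ((n L₁ a - N₁ / Q) *
      (n L₂ b - N₂ / Q) + (n L₁ a - N₁ / Q) * (N₂ / Q) + (n L₂ b - N₂ / Q) * (N₁ / Q)) * F a b := by
    ring
  have hT : (0 : ℝ) < T := by linarith
  rw [e2, abs_mul, mul_div_right_comm]
  refine mul_le_mul_of_nonneg_right ?_ (abs_nonneg _)
  have p1 : 0 ≤ N₁ / Q := div_nonneg (by linarith) hQ0.le
  have p2 : 0 ≤ N₂ / Q := div_nonneg (by linarith) hQ0.le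
  refine (abs_add_three _ _ _).trans ?_
  rw [abs_mul, abs_mul, abs_mul, abs_of_nonneg p1, abs_of_nonneg p2]
  have b1 : 1 ≤ N₁ * N₂ * Q / T / Q ^ 2 := by
    rw [div_div, le_div_iff₀ (by positivity)]
    nlinarith [mul_le_mul hN1 (hQT.trans hN2) hQ0.le (by linarith)]
  have b2 : N₂ / Q ≤ N₁ * N₂ * Q / T / Q ^ 2 := by
    rw [div_div, div_le_div_iff₀ hQ0 (by positivity)]
    nlinarith [mul_le_mul_of_nonneg_right hN1 (show 0 ≤ N₂ * Q ^ 2 by nlinarith)]
  have b3 : N₁ / Q ≤ N₁ * N₂ * Q / T / Q ^ 2 := by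
    rw [div_div, div_le_div_iff₀ hQ0 (by positivity)]
    nlinarith [mul_le_mul_of_nonneg_right hN2 (show 0 ≤ N₁ * Q ^ 2 by nlinarith)]
  have e3 : N₁ * N₂ * (3 * Q) / T / Q ^ 2 = 3 * (N₁ * N₂ * Q / T / Q ^ 2) := by ring
  rw [e3]
  nlinarith [mul_le_one₀ c1 (abs_nonneg _) c2, mul_le_of_le_one_left p2 c1,
    mul_le_of_le_one_left p1 c2]

variable {ι : Type} [Fintype ι] [DecidableEq ι]

theorem equi (m : ι → ℕ) [∀ i, NeZero (m i)] (hm : Pairwise fun i j => (m i).Coprime (m j))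
    (f : ∀ i, ZMod (m i) → ZMod (m i) → ℝ) (S : Finset ι) {L₁ L₂ T : ℕ} (h1 : T ≤ L₁)
    (h2 : T ≤ L₂) (hQ : pr m S ≤ T) :
    |∑ x ∈ Box L₁ L₂, ∏ i ∈ S, f i x.1 x.2 - (Box L₁ L₂).card * ∏ i ∈ S, av (f i)| ≤
      (Box L₁ L₂).card * (3 * pr m S / T) * ∏ i ∈ S, av fun a b => |f i a b| := by
  have hp : ∏ i : S, m i = pr m S := prod_coe_sort S m
  have : NeZero (∏ i : S, m i) := ⟨prod_ne_zero_iff.2 fun i _ => NeZero.ne _⟩
  let e := ZMod.prodEquivPi (fun i : S => m i) fun i j h => hm (Subtype.coe_ne_coe.2 h)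
  have key : ∀ g : ∀ i, ZMod (m i) → ZMod (m i) → ℝ,
      av (fun a b => ∏ i : S, g i (e a i) (e b i)) = ∏ i ∈ S, av (g i) := fun g => by
    rw [← prod_coe_sort S]
    simp only [av, prod_div_distrib, Fintype.prod_sum, prod_pow, Nat.cast_prod]
    congr 1
    rw [← e.toEquiv.sum_comp]
    exact sum_congr rfl fun a _ => e.toEquiv.sum_comp fun y => ∏ i : S, g i (e a i) (y i)
  have := equi_one (fun a b => ∏ i : S, f i (e a i) (e b i)) h1 h2 (hp ▸ hQ)
  simp only [abs_prod, map_intCast, Pi.intCast_apply] at this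
  rw [key, key fun i a b => |f i a b|, hp] at this
  rwa [sum_congr rfl fun (x : ℤ × ℤ) _ => prod_coe_sort S fun i => f i x.1 x.2] at this

variable {q : ι → ℕ} {z : ℕ}

theorem PrimeSys.cop (h : PrimeSys q z) : Pairwise fun i j => (q i).Coprime (q j) :=
  fun i j hij => (Nat.coprime_primes (h.hp i) (h.hp j)).2 (h.inj.ne hij)

theorem PrimeSys.pr_inj (h : PrimeSys q z) : Function.Injective (pr q) := fun s t e => by
  ext i; rw [← h.dvd_pr, ← h.dvd_pr, e]

theorem selberg (hq : PrimeSys q z) [∀ i, NeZero (q i)]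
    (A : ∀ i, ZMod (q i) → ZMod (q i) → Prop) [∀ i a b, Decidable (A i a b)] (S : Finset ι)
    {k : ℕ} (hA : ∀ i ∉ S, 1 / 2 ≤ av (fun a b => if A i a b then 1 else 0) ∧
      6 * (1 - av fun a b => if A i a b then 1 else 0) ≤ k / q i) (hk : 1 ≤ k)
    {L₁ L₂ T : ℕ} (h1 : T ≤ L₁) (h2 : T ≤ L₂) (hT : 3 * pr q S * (z ^ k) ^ 6 ≤ T) :
    (((Box L₁ L₂).filter fun x => ∀ i, A i x.1 x.2).card : ℝ) ≤
      4 * (Box L₁ L₂).card * ∏ i, av fun a b => if A i a b then 1 else 0 := by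
  set I : ∀ i, ZMod (q i) → ZMod (q i) → ℝ := fun i a b => if A i a b then 1 else 0 with hI
  set α : ι → ℝ := fun i => av (I i) with hα
  have hI0 : ∀ i a b, 0 ≤ I i a b := fun i a b => by simp only [hI]; split_ifs <;> norm_num
  have hI1 : ∀ i a b, I i a b ≤ 1 := fun i a b => by simp only [hI]; split_ifs <;> norm_num
  have hII : ∀ i a b, I i a b * I i a b = I i a b := fun i a b => by
    simp only [hI]; split_ifs <;> norm_num
  have hα0 : ∀ i, 0 ≤ α i := fun i => av_nonneg (hI0 i)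
  have hα1 : ∀ i, α i ≤ 1 := fun i => (av_mono (hI1 i)).trans_eq (av_const 1)
  set D := z ^ k with hD
  have hD1 : 1 < D := Nat.one_lt_pow (by omega) hq.hz
  set 𝒟 := (Sᶜ).powerset.filter fun d => ∑ i ∈ d, Real.log (q i) ≤ Real.log D with h𝒟
  have hq0 : ∀ i, (0 : ℝ) < q i := fun i => by exact_mod_cast (hq.hp i).pos
  have hd : ∀ d ∈ 𝒟, (∀ i ∈ d, i ∉ S) ∧ pr q d ≤ D := fun d hd => by
    obtain ⟨h3, h4⟩ := mem_filter.1 hd
    refine ⟨fun i hi => mem_compl.1 (mem_powerset.1 h3 hi), ?_⟩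
    rw [← Real.log_prod (fun i _ => (hq0 i).ne'), Real.log_le_log_iff
      (prod_pos fun i _ => hq0 i) (by exact_mod_cast (by omega : 0 < D))] at h4
    exact_mod_cast h4
  set h : ι → ℝ := fun i => (1 - α i) / α i with hh
  set G := ∑ d ∈ 𝒟, ∏ i ∈ d, h i with hG
  have hh0 : ∀ i, 0 ≤ h i := fun i => div_nonneg (by linarith [hα1 i]) (hα0 i)
  have hαp : ∀ i ∉ S, 0 < α i := fun i hi => by linarith [(hA i hi).1]
  have hM : ∏ i ∈ Sᶜ, (1 + h i) ≤ 2 * G := markov_subsets Sᶜ h (fun i => Real.log (q i))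
    (fun i => 1 - α i) hh0 (fun i => Real.log_natCast_nonneg _) (fun i hi => by
      have := hαp i (mem_compl.1 hi)
      simp only [hh]; field_simp; linarith) (Real.log_pos (by exact_mod_cast hD1)) (by
      have h3 := mertens3 hq.hz (S := univ.image q) fun l hl => by
        obtain ⟨i, -, rfl⟩ := mem_image.1 hl; exact ⟨hq.hp i, hq.le i⟩
      rw [sum_image fun _ _ _ _ h => hq.inj h] at h3
      have h4 : ∑ i ∈ Sᶜ, Real.log (q i) * (1 - α i) ≤ k / 6 * ∑ i, Real.log (q i) / q i := by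
        rw [mul_sum]
        refine (sum_le_sum fun i hi => ?_).trans (sum_le_sum_of_subset_of_nonneg (subset_univ _)
          fun i _ _ => by have := Real.log_natCast_nonneg (q i); positivity)
        have := mul_le_mul_of_nonneg_left (hA i (mem_compl.1 hi)).2 (Real.log_natCast_nonneg (q i))
        have e : (k : ℝ) / 6 * (Real.log (q i) / q i) = Real.log (q i) * (k / q i) / 6 := by ring
        simp only [hα]; linarith
      rw [hD, Nat.cast_pow, Real.log_pow]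
      nlinarith [(Nat.cast_nonneg k : (0 : ℝ) ≤ k)])
  have hG1 : 1 ≤ G := by
    have := single_le_sum (f := fun d => ∏ i ∈ d, h i) (fun d _ => prod_nonneg fun i _ => hh0 i)
      (show ∅ ∈ 𝒟 from mem_filter.2 ⟨by simp, by simpa using Real.log_natCast_nonneg D⟩)
    simpa using this
  set φ : Finset ι → Finset ι → ∀ i, ZMod (q i) → ZMod (q i) → ℝ := fun d d' i a b =>
    (if i ∈ S then I i a b else 1) * (if i ∈ d then I i a b - α i else 1) *
      (if i ∈ d' then I i a b - α i else 1) with hφ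
  set c : Finset ι → ℝ := fun d => ∏ i ∈ d, (α i)⁻¹ with hc
  have e1 : ∀ x : ℤ × ℤ, (∏ i ∈ S, I i x.1 x.2) * (∑ d ∈ 𝒟, c d * ∏ i ∈ d, (I i x.1 x.2 - α i)) ^ 2
      = ∑ d ∈ 𝒟, ∑ d' ∈ 𝒟, c d * c d' * ∏ i ∈ S ∪ d ∪ d', φ d d' i x.1 x.2 := fun x => by
    rw [sq, sum_mul_sum, mul_sum]
    refine sum_congr rfl fun d _ => ?_
    rw [mul_sum]
    refine sum_congr rfl fun d' _ => ?_
    simp only [hφ, prod_mul_distrib, prod_ite_mem]
    rw [inter_eq_right.2 (subset_union_left.trans subset_union_left),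
      inter_eq_right.2 (subset_union_right.trans subset_union_left),
      inter_eq_right.2 subset_union_right]
    ring
  set N : ℝ := ((Box L₁ L₂).card : ℝ) with hN
  have hN0 : 0 ≤ N := Nat.cast_nonneg _
  set a0 := ∏ i ∈ S, α i with ha0
  have ha00 : 0 ≤ a0 := prod_nonneg fun i _ => hα0 i
  have hT0 : (0 : ℝ) < T := by
    have : 0 < 3 * pr q S * D ^ 6 := by have := (hq.odd S).pos; positivity
    exact_mod_cast this.trans_le hT
  have e2 : ∀ d ∈ 𝒟, ∀ d' ∈ 𝒟, c d * c d' * ∑ x ∈ Box L₁ L₂, ∏ i ∈ S ∪ d ∪ d', φ d d' i x.1 x.2 ≤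
      (if d = d' then N * a0 * ∏ i ∈ d, h i else 0) + N * a0 / D ^ 2 := by
    intro d hd1 d' hd2
    obtain ⟨hdS, hdD⟩ := hd d hd1
    obtain ⟨hdS', hdD'⟩ := hd d' hd2
    have hun : ∀ s t : Finset ι, pr q (s ∪ t) ≤ pr q s * pr q t := fun s t => by
      rw [pr, pr, pr, ← prod_union_inter]
      exact Nat.le_mul_of_pos_right _ (hq.odd _).pos
    have hQ : pr q (S ∪ d ∪ d') ≤ pr q S * D * D :=
      (hun _ _).trans (Nat.mul_le_mul ((hun _ _).trans (Nat.mul_le_mul_left _ hdD)) hdD')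
    have hD6 : D * D ≤ D ^ 6 := by rw [← sq]; exact Nat.pow_le_pow_right (by omega) (by norm_num)
    have h3 := equi q hq.cop (φ d d') (S ∪ d ∪ d') h1 h2 (hQ.trans (by nlinarith))
    have hcb : ∀ d, (∀ i ∈ d, i ∉ S) → pr q d ≤ D → 0 ≤ c d ∧ c d ≤ D := fun d h1 h2 =>
      ⟨prod_nonneg fun i _ => inv_nonneg.2 (hα0 i), le_trans (prod_le_prod
        (fun i _ => inv_nonneg.2 (hα0 i)) fun i hi => (inv_le_comm₀ (hαp i (h1 i hi)) (hq0 i)).2
        (le_trans (by
          rw [one_div]; exact inv_anti₀ two_pos (by exact_mod_cast (hq.hp i).two_le))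
          (hA i (h1 i hi)).1)) (by exact_mod_cast h2)⟩
    have h4 : ∏ i ∈ S ∪ d ∪ d', av (fun a b => |φ d d' i a b|) ≤ a0 := by
      have : a0 = ∏ i ∈ S ∪ d ∪ d', if i ∈ S then α i else 1 := by
        rw [prod_ite_mem, inter_eq_right.2 (subset_union_left.trans subset_union_left)]
      rw [this]
      refine prod_le_prod (fun i _ => av_nonneg fun _ _ => abs_nonneg _) fun i _ => ?_
      have hb : ∀ (t : Finset ι) a b, |if i ∈ t then I i a b - α i else 1| ≤ 1 := fun t a b => by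
        split_ifs
        · rw [abs_le]; constructor <;> linarith [hI0 i a b, hI1 i a b, hα0 i, hα1 i]
        · simp
      refine (av_mono (g := fun a b => if i ∈ S then I i a b else 1) fun a b => ?_).trans ?_
      · simp only [hφ, abs_mul, mul_assoc]
        refine (mul_le_of_le_one_right (abs_nonneg _)
          (mul_le_one₀ (hb _ _ _) (abs_nonneg _) (hb _ _ _))).trans (le_of_eq (abs_of_nonneg ?_))
        split_ifs; exacts [hI0 i a b, one_pos.le]
      · split_ifs; exacts [le_rfl, (av_const 1).le]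
    have h5 : c d * c d' * (N * ∏ i ∈ S ∪ d ∪ d', av (φ d d' i)) =
        if d = d' then N * a0 * ∏ i ∈ d, h i else 0 := by
      split_ifs with hdd
      · subst hdd
        rw [union_assoc, union_self, prod_union (disjoint_right.2 hdS),
          prod_congr rfl (g := α) fun i hi => by
            simp only [hφ, if_pos hi, if_neg fun h => hdS i h hi, mul_one]; rfl,
          prod_congr rfl (s₁ := d) (g := fun i => α i * (1 - α i)) fun i hi => by
            have := av_lin (I i) (1 - 2 * α i) (α i ^ 2)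
            simp only [hφ, if_pos hi, if_neg (hdS i hi), one_mul]
            rw [show α i * (1 - α i) = (1 - 2 * α i) * av (I i) + α i ^ 2 by simp only [hα]; ring,
              ← this]
            congr 1; funext a b; linear_combination hII i a b]
        have : c d * c d * ∏ i ∈ d, α i * (1 - α i) = ∏ i ∈ d, h i := by
          simp only [hc, ← prod_mul_distrib]
          refine prod_congr rfl fun i hi => ?_
          have := hαp i (hdS i hi)
          simp only [hh]; field_simp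
        rw [← this]; ring
      · obtain ⟨i, hi⟩ : ∃ i, ¬ (i ∈ d ↔ i ∈ d') := not_forall.1 fun h => hdd (Finset.ext h)
        have hz : av (fun a b => I i a b - α i) = 0 := by
          have := av_lin (I i) 1 (-α i)
          simpa [sub_eq_add_neg, hα] using this
        rw [prod_eq_zero (i := i) (by simp only [mem_union]; tauto), mul_zero, mul_zero]
        by_cases h6 : i ∈ d
        · have h7 : i ∉ d' := by tauto
          simpa only [hφ, if_pos h6, if_neg h7, if_neg (hdS i h6), one_mul, mul_one] using hz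
        · have h7 : i ∈ d' := by tauto
          simpa only [hφ, if_pos h7, if_neg h6, if_neg (hdS' i h7), one_mul, mul_one] using hz
    rw [← h5, ← sub_le_iff_le_add', ← mul_sub]
    obtain ⟨p1, p2⟩ := hcb d hdS hdD
    obtain ⟨p3, p4⟩ := hcb d' hdS' hdD'
    have hD0 : (0 : ℝ) < D := by exact_mod_cast (by omega : 0 < D)
    have h6 : (3 * pr q (S ∪ d ∪ d') / T : ℝ) ≤ 1 / D ^ 4 := by
      rw [div_le_div_iff₀ hT0 (by positivity), one_mul]
      have : 3 * pr q (S ∪ d ∪ d') * D ^ 4 ≤ T :=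
        le_trans (le_trans (show _ ≤ 3 * (pr q S * D * D) * D ^ 4 by gcongr)
          (le_of_eq (by ring))) hT
      exact_mod_cast this
    calc _ ≤ (D * D : ℝ) * (N * (1 / D ^ 4) * a0) := by
          refine le_trans (mul_le_mul_of_nonneg_left ((le_abs_self _).trans (h3.trans ?_))
            (mul_nonneg p1 p3)) (mul_le_mul_of_nonneg_right (mul_le_mul p2 p4 p3 hD0.le)
            (by positivity))
          exact mul_le_mul (by gcongr) h4
            (prod_nonneg fun i _ => av_nonneg fun _ _ => abs_nonneg _) (by positivity)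
      _ = _ := by field_simp
  have hcard : (𝒟.card : ℝ) ≤ D := by
    have : 𝒟.card ≤ (Icc 1 D).card := card_le_card_of_injOn (pr q) (fun d h => by
      simpa using ⟨(hq.odd d).pos, (hd d h).2⟩) hq.pr_inj.injOn
    exact_mod_cast this.trans_eq (by simp)
  have e3 : (((Box L₁ L₂).filter fun x => ∀ i, A i x.1 x.2).card : ℝ) * G ^ 2 ≤
      N * a0 * G + N * a0 := by
    calc _ = ∑ x ∈ (Box L₁ L₂).filter fun x => ∀ i, A i x.1 x.2, (∏ i ∈ S, I i x.1 x.2) *
          (∑ d ∈ 𝒟, c d * ∏ i ∈ d, (I i x.1 x.2 - α i)) ^ 2 := by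
          rw [← nsmul_eq_mul, ← sum_const]
          refine sum_congr rfl fun x hx => ?_
          simp only [hI, if_pos ((mem_filter.1 hx).2 _), prod_const_one, one_mul, hG, hc, hh,
            ← prod_mul_distrib, div_eq_inv_mul]
      _ ≤ ∑ x ∈ Box L₁ L₂, (∏ i ∈ S, I i x.1 x.2) *
          (∑ d ∈ 𝒟, c d * ∏ i ∈ d, (I i x.1 x.2 - α i)) ^ 2 :=
          sum_le_sum_of_subset_of_nonneg (filter_subset _ _) fun x _ _ =>
            mul_nonneg (prod_nonneg fun i _ => hI0 _ _ _) (sq_nonneg _)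
      _ = ∑ d ∈ 𝒟, ∑ d' ∈ 𝒟, c d * c d' *
          ∑ x ∈ Box L₁ L₂, ∏ i ∈ S ∪ d ∪ d', φ d d' i x.1 x.2 := by
          simp only [e1, mul_sum]
          rw [sum_comm]
          exact sum_congr rfl fun d _ => sum_comm
      _ ≤ ∑ d ∈ 𝒟, ∑ d' ∈ 𝒟, ((if d = d' then N * a0 * ∏ i ∈ d, h i else 0) + N * a0 / D ^ 2) :=
          sum_le_sum fun d h => sum_le_sum fun d' h' => e2 d h d' h'
      _ ≤ _ := by
          simp only [sum_add_distrib, sum_const, nsmul_eq_mul]
          rw [sum_congr rfl fun d hd => by rw [sum_ite_eq, if_pos hd], ← mul_sum]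
          have hD0 : (0 : ℝ) < D := by exact_mod_cast (by omega : 0 < D)
          refine add_le_add le_rfl (le_trans (by gcongr) (le_of_eq
            (show (D : ℝ) * (D * (N * a0 / D ^ 2)) = _ by field_simp)))
  have e4 : (∏ i ∈ Sᶜ, α i) * ∏ i ∈ Sᶜ, (1 + h i) = 1 := by
    rw [← prod_mul_distrib]
    refine prod_eq_one fun i hi => ?_
    have := hαp i (mem_compl.1 hi)
    simp only [hh]; field_simp; ring
  rw [← prod_mul_prod_compl S]
  change _ ≤ 4 * N * (a0 * ∏ i ∈ Sᶜ, α i)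
  set b0 := ∏ i ∈ Sᶜ, α i
  have hb0 : 0 ≤ b0 := prod_nonneg fun i _ => hα0 i
  set n : ℝ := (((Box L₁ L₂).filter fun x => ∀ i, A i x.1 x.2).card : ℝ)
  have hn0 : 0 ≤ n := Nat.cast_nonneg _
  have e5 : n * G ≤ 2 * (N * a0) := by
    refine le_of_mul_le_mul_right ?_ (show 0 < G by linarith)
    nlinarith [mul_nonneg hN0 ha00]
  have e6 : 1 ≤ b0 * (2 * G) := e4 ▸ mul_le_mul_of_nonneg_left hM hb0
  nlinarith [mul_le_mul_of_nonneg_left e6 hn0, mul_le_mul_of_nonneg_left e5 hb0]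

end Pool.Agent.Lib.TorsRank
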