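import Pool.Agent.Lib.MP_6073f3_nt.Model
import Pool.Agent.Lib.MP_6073f3_nt.Sieve

/-!
Bounded average rank in an abstract two-parameter family of curves with full 2-torsion.
-/

set_option linter.unusedSectionVars false

namespace Pool.Agent.Lib.TorsRank

open Finset

open Classical in
/-- A two-parameter family of curves with full 2-torsion with its local data. -/
structure Fam where
  e : ℤ → ℤ → Fin 3 → ℤ
  lab : (p : ℕ) → ZMod p → ZMod p → Lab
  exc : (p : ℕ) → ZMod (p ^ 2) → ZMod (p ^ 2) → Prop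
  kc : Fin 3 → Fin 8 → ℝ
  dc : Fin 3 → Fin 8 → ℝ
  K : ℝ
  coef : Coef kc dc
  dens : ∀ (p : ℕ) [NeZero p], p.Prime → 3 < p → ∀ u,
    av (fun a b => if lab p a b = some u then 1 else 0) = pm kc dc p (some u)
  exd : ∀ (p : ℕ) [NeZero p], p.Prime → 3 < p →
    av (fun a b => if exc p a b then 1 else 0) ≤ K / p ^ 2
  loc : ∀ (s t : ℤ) (p : ℕ), Function.Injective (e s t) → p.Prime → 3 < p → ¬ exc p s t →
    (∀ u, lab p s t = some u → Act (e s t) p u) ∧ (lab p s t = none → Neu (e s t) p)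

instance PS_neZero {c z : ℕ} (i : PS c z) : NeZero (i : ℕ) := ⟨(mem_PS.1 i.2).2.ne_zero⟩

theorem av_sum {m : ℕ} [NeZero m] {κ : Type} (s : Finset κ) (f : κ → ZMod m → ZMod m → ℝ) :
    av (fun a b => ∑ k ∈ s, f k a b) = ∑ k ∈ s, av (f k) := by
  simp only [av, ← sum_div]
  rw [sum_comm (s := s)]
  congr 1
  exact sum_congr rfl fun a _ => sum_comm

theorem equi_le {ι : Type} [Fintype ι] [DecidableEq ι] (m : ι → ℕ) [∀ i, NeZero (m i)]
    (hm : Pairwise fun i j => (m i).Coprime (m j)) (f : ∀ i, ZMod (m i) → ZMod (m i) → ℝ)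
    (hf : ∀ i a b, 0 ≤ f i a b) (S : Finset ι) {L₁ L₂ T : ℕ} (h1 : T ≤ L₁) (h2 : T ≤ L₂)
    (hQ : pr m S ≤ T) : ∑ x ∈ Box L₁ L₂, ∏ i ∈ S, f i x.1 x.2 ≤
      4 * (Box L₁ L₂).card * ∏ i ∈ S, av (f i) := by
  have h := (abs_le.1 (equi m hm f S h1 h2 hQ)).2
  simp only [abs_of_nonneg (hf _ _ _)] at h
  have h0 : 0 ≤ ((Box L₁ L₂).card : ℝ) * ∏ i ∈ S, av (f i) :=
    mul_nonneg (Nat.cast_nonneg _) (prod_nonneg fun i _ => av_nonneg (hf i))
  have h3 : (3 * pr m S / T : ℝ) ≤ 3 := by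
    rw [mul_div_assoc]
    exact mul_le_of_le_one_right (by norm_num)
      (div_le_one_of_le₀ (by exact_mod_cast hQ) (Nat.cast_nonneg _))
  nlinarith [mul_le_mul_of_nonneg_left h3 h0]

namespace Fam

variable (F : Fam)

/-- The labels of the primes in `(c, z]`. -/
def τ (c z : ℕ) (x : ℤ × ℤ) : PS c z → Lab := fun i => F.lab i x.1 x.2

/-- The logarithm of the product of the labelled primes. -/
noncomputable def lg (c z : ℕ) (x : ℤ × ℤ) : ℝ :=
  ∑ i : PS c z with F.τ c z x i ≠ none, Real.log (i : ℕ)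

/-- The constant bounding the density of labelled primes. -/
noncomputable def K0 : ℝ := ∑ j, |(∑ l, F.kc l) j|

theorem K0_nonneg : 0 ≤ F.K0 := sum_nonneg fun _ _ => abs_nonneg _

theorem dens' (p : ℕ) [NeZero p] (hp : p.Prime) (h3 : 3 < p) (y : Lab) :
    av (fun a b => if F.lab p a b = y then 1 else 0) = pm F.kc F.dc p y := by
  rcases y with _ | u
  · have e : (fun a b => if F.lab p a b = none then (1 : ℝ) else 0) =
        fun a b => -1 * (∑ u, if F.lab p a b = some u then 1 else 0) + 1 := by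
      funext a b
      rcases F.lab p a b with _ | v <;> simp
    rw [e, av_lin, av_sum]
    simp only [F.dens p hp h3, Fintype.sum_prod_type, Fintype.sum_bool, Fin.sum_univ_three, pm,
      sgn, map_add]
    simp; ring
  · exact F.dens p hp h3 u

theorem one_sub_pm (p : ℕ) (hp : p.Prime) : 1 - pm F.kc F.dc p none ≤ F.K0 / p := by
  simp only [pm, sub_sub_cancel]
  rw [div_eq_inv_mul]
  exact (mul_le_mul_of_nonneg_left ((le_abs_self _).trans (abs_ch p _))
    (ff_nonneg hp.one_le)).trans (mul_le_mul_of_nonneg_right (ff_le p) F.K0_nonneg)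

theorem PS_empty {c z : ℕ} (h : z ≤ c) : IsEmpty (PS c z) :=
  ⟨fun i => by have := (mem_PS.1 i.2).1; omega⟩

theorem sieve_avg {c z k L₁ L₂ T : ℕ} (hc : 3 ≤ c) (hcK : 2 * F.K0 ≤ c) (hk : 6 * F.K0 ≤ k)
    (hk1 : 1 ≤ k) (hpm : ∀ p : ℕ, p.Prime → c < p → ∀ x, 0 ≤ pm F.kc F.dc p x) (hz : 2 ≤ z)
    (hT : 81 ≤ T) (h1 : T ≤ L₁) (h2 : T ≤ L₂) (hzT : z ≤ c ∨ 24 * k * Real.log z ≤ Real.log T)
    (G : (PS c z → Lab) → ℝ) (hG : ∀ τ, 0 ≤ G τ) :
    ∑ x ∈ Box L₁ L₂ with 2 * F.lg c z x ≤ Real.log T, G (F.τ c z x) ≤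
      4 * (Box L₁ L₂).card * ∑ τ : PS c z → Lab, (∏ i : PS c z, pm F.kc F.dc i (τ i)) * G τ := by
  have hq := primeSys_PS hc hz
  rw [← sum_fiberwise _ (F.τ c z), mul_sum]
  refine sum_le_sum fun τ _ => ?_
  rw [sum_congr rfl fun x hx => by rw [(mem_filter.1 hx).2], sum_const, nsmul_eq_mul, ← mul_assoc]
  refine mul_le_mul_of_nonneg_right ?_ (hG τ)
  have hi : ∀ i : PS c z, (i : ℕ).Prime ∧ c < i := fun i => ⟨(mem_PS.1 i.2).2, (mem_PS.1 i.2).1.1⟩
  rcases hzT with hzc | hzT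
  · have := PS_empty hzc
    have h3 : (_ : ℝ) ≤ (Box L₁ L₂).card := Nat.cast_le.2 (card_le_card ((filter_subset
      (fun x => F.τ c z x = τ) _).trans (filter_subset (fun x => 2 * F.lg c z x ≤ Real.log T) _)))
    rw [Fintype.prod_empty]
    linarith [(Nat.cast_nonneg _ : (0 : ℝ) ≤ (Box L₁ L₂).card)]
  by_cases hg : 2 * ∑ i : PS c z with τ i ≠ none, Real.log (i : ℕ) ≤ Real.log T
  · have h3 := selberg hq (fun i a b => F.lab i a b = τ i) (univ.filter fun i => τ i ≠ none)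
      (k := k) (fun i hi' => by
        have h0 : (0 : ℝ) < (i : ℕ) := by exact_mod_cast (hi i).1.pos
        have h4 : (c : ℝ) ≤ (i : ℕ) := by exact_mod_cast (hi i).2.le
        have h5 := F.one_sub_pm i (hi i).1
        have h6 : F.K0 / (i : ℕ) ≤ 1 / 2 := by rw [div_le_iff₀ h0]; linarith
        have h7 := div_le_div_of_nonneg_right hk h0.le
        rw [F.dens' i (hi i).1 (by have := (hi i).2; omega), show τ i = none by simpa using hi']
        rw [mul_div_assoc] at h7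
        constructor <;> linarith) hk1 h1 h2 (by
        have hT' : (81 : ℝ) ≤ T := by exact_mod_cast hT
        have h4 : 4 * Real.log 3 ≤ Real.log T := by
          refine le_trans (le_of_eq ?_) (Real.log_le_log (by norm_num) hT')
          rw [show (81 : ℝ) = 3 ^ 4 by norm_num, Real.log_pow]; norm_num
        have h0 : ∀ i : PS c z, ((i : ℕ) : ℝ) ≠ 0 := fun i => by exact_mod_cast (hi i).1.ne_zero
        have hz0 : (0 : ℝ) < z := by exact_mod_cast (by omega : 0 < z)
        have hp0 : (0 : ℝ) < ∏ i : PS c z with τ i ≠ none, ((i : ℕ) : ℝ) :=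
          prod_pos fun i _ => by exact_mod_cast (hi i).1.pos
        rw [← Nat.cast_le (α := ℝ), pr]
        push_cast
        rw [← Real.log_le_log_iff (by positivity) (by linarith), Real.log_mul (by positivity)
          (by positivity), Real.log_mul (by positivity) hp0.ne', Real.log_prod fun i _ => h0 i,
          Real.log_pow, Real.log_pow]
        push_cast
        linarith)
    rw [prod_congr rfl fun (i : PS c z) _ =>
      F.dens' i (hi i).1 (by have := (hi i).2; omega) (τ i)] at h3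
    refine le_trans (Nat.cast_le.2 (card_le_card fun x hx => ?_)) h3
    exact mem_filter.2 ⟨(mem_filter.1 (mem_filter.1 hx).1).1, congrFun (mem_filter.1 hx).2⟩
  · rw [filter_eq_empty_iff.2 fun x hx h => hg (by subst h; exact (mem_filter.1 hx).2)]
    simp only [card_empty, Nat.cast_zero]
    exact mul_nonneg (by positivity) (prod_nonneg fun i _ => hpm i (hi i).1 (hi i).2 _)

theorem second_moment {c z L₁ L₂ T : ℕ} (hc : 3 ≤ c) (hz : 2 ≤ z) (hT : 1 ≤ T) (h1 : T ≤ L₁)
    (h2 : T ≤ L₂) {y : ℝ} (hy : z ≤ c ∨ Real.log z ≤ y) (hyT : 2 * y ≤ Real.log T) :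
    ∑ x ∈ Box L₁ L₂, F.lg c z x ^ 2 ≤
      (Box L₁ L₂).card * ((12 * F.K0 + 36 * F.K0 ^ 2) * y ^ 2) := by
  have hK := F.K0_nonneg
  rcases hy with hzc | hy
  · have := PS_empty hzc
    simp only [lg, univ_eq_empty, filter_empty, sum_empty]
    simp only [ne_eq, OfNat.ofNat_ne_zero, not_false_eq_true, zero_pow, sum_const_zero]
    positivity
  have hq := primeSys_PS hc hz
  set I : ∀ i : PS c z, ZMod i → ZMod i → ℝ := fun i a b => if F.lab i a b = none then 0 else 1
  set N : ℝ := ((Box L₁ L₂).card : ℝ)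
  have hN : 0 ≤ N := Nat.cast_nonneg _
  have hI0 : ∀ i a b, 0 ≤ I i a b := fun i a b => by simp only [I]; split_ifs <;> norm_num
  have hI : ∀ i, av (I i) ≤ F.K0 / (i : ℕ) := fun i => by
    have hi := mem_PS.1 i.2
    refine le_trans (le_of_eq ?_) (F.one_sub_pm i hi.2)
    rw [← F.dens' i hi.2 (by omega), sub_eq_neg_add, ← neg_one_mul, ← av_lin]
    congr 1; funext a b; simp only [I]; split_ifs <;> norm_num
  have hl : ∀ i : PS c z, 0 ≤ Real.log (i : ℕ) ∧ Real.log (i : ℕ) ≤ y := fun i =>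
    ⟨Real.log_natCast_nonneg _, (Real.log_le_log (by exact_mod_cast (hq.hp i).pos)
      (by exact_mod_cast hq.le i)).trans hy⟩
  have hzz : z * z ≤ T := by
    have hz0 : (0 : ℝ) < z := by exact_mod_cast (by omega : 0 < z)
    rw [← Nat.cast_le (α := ℝ), Nat.cast_mul, ← Real.log_le_log_iff (by positivity)
      (by exact_mod_cast hT), Real.log_mul hz0.ne' hz0.ne']
    linarith
  have e : ∑ x ∈ Box L₁ L₂, F.lg c z x ^ 2 = ∑ i : PS c z, ∑ j : PS c z, Real.log (i : ℕ) *
      Real.log (j : ℕ) * ∑ x ∈ Box L₁ L₂, I i x.1 x.2 * I j x.1 x.2 := by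
    simp only [lg, sq, sum_filter, sum_mul_sum]
    simp only [mul_sum]
    rw [sum_comm]
    refine sum_congr rfl fun i _ => ?_
    rw [sum_comm]
    refine sum_congr rfl fun j _ => sum_congr rfl fun x _ => ?_
    simp only [I, τ]
    split_ifs <;> simp_all
  have h3 : ∀ i j : PS c z, Real.log (i : ℕ) * Real.log (j : ℕ) *
      ∑ x ∈ Box L₁ L₂, I i x.1 x.2 * I j x.1 x.2 ≤
      (if i = j then 4 * N * F.K0 * y * (Real.log (i : ℕ) / (i : ℕ)) else 0) +
        4 * N * F.K0 ^ 2 * (Real.log (i : ℕ) / (i : ℕ) * (Real.log (j : ℕ) / (j : ℕ))) := by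
    intro i j
    have p1 := (hl i).1
    have p2 := (hl j).1
    split_ifs with hij
    · subst hij
      have h4 := equi_le _ hq.cop I hI0 {i} h1 h2 (by
        rw [pr, prod_singleton]; nlinarith [hq.le i])
      simp only [prod_singleton] at h4
      rw [sum_congr rfl (g := fun x => I i x.1 x.2) fun x _ => by
        simp only [I]; split_ifs <;> norm_num]
      refine le_trans ?_ (le_add_of_nonneg_right (by positivity))
      calc _ ≤ Real.log (i : ℕ) * y * (4 * N * (F.K0 / (i : ℕ))) :=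
            mul_le_mul (mul_le_mul_of_nonneg_left (hl i).2 p1) (h4.trans (by gcongr; exact hI i))
              (sum_nonneg fun x _ => hI0 _ _ _) (mul_nonneg p1 (p1.trans (hl i).2))
        _ = _ := by ring
    · have h4 := equi_le _ hq.cop I hI0 {i, j} h1 h2 (by
        rw [pr, prod_pair hij]; exact (Nat.mul_le_mul (hq.le i) (hq.le j)).trans hzz)
      simp only [prod_pair hij] at h4
      calc _ ≤ Real.log (i : ℕ) * Real.log (j : ℕ) * (4 * N * (F.K0 / (i : ℕ) * (F.K0 / (j : ℕ)))) :=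
            mul_le_mul_of_nonneg_left (h4.trans (mul_le_mul_of_nonneg_left (mul_le_mul (hI i) (hI j)
              (av_nonneg (hI0 j)) (by positivity)) (by positivity))) (mul_nonneg p1 p2)
        _ = _ := by ring
  have h4 : ∑ i : PS c z, Real.log (i : ℕ) / (i : ℕ) ≤ 3 * y := by
    rw [sum_coe_sort (PS c z) fun p => Real.log p / p]
    exact (mertens3 hz fun l hl => ⟨(mem_PS.1 hl).2, (mem_PS.1 hl).1.2⟩).trans (by linarith)
  have h5 : 0 ≤ ∑ i : PS c z, Real.log (i : ℕ) / (i : ℕ) :=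
    sum_nonneg fun i _ => by have := (hl i).1; positivity
  rw [e]
  refine (sum_le_sum fun i _ => sum_le_sum fun j _ => h3 i j).trans ?_
  simp only [sum_add_distrib, sum_ite_eq, mem_univ, if_true, ← mul_sum, ← sum_mul]
  have hy0 : 0 ≤ y := by linarith
  calc _ ≤ 4 * N * F.K0 * y * (3 * y) + 4 * N * F.K0 ^ 2 * (3 * y * (3 * y)) := by gcongr
    _ = _ := by ring

open Classical in
theorem exc_avg {c z L₁ L₂ T : ℕ} (hc : 3 ≤ c) (hT : 1 ≤ T) (h1 : T ≤ L₁) (h2 : T ≤ L₂)
    (hy : z ≤ c ∨ 2 * Real.log z ≤ Real.log T) :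
    ∑ x ∈ Box L₁ L₂, (((PS c z).filter fun p => F.exc p x.1 x.2).card : ℝ) ≤
      (Box L₁ L₂).card * (4 * |F.K|) := by
  simp only [card_filter, Nat.cast_sum, Nat.cast_ite, Nat.cast_one, Nat.cast_zero]
  rw [sum_comm]
  refine (sum_le_sum (g := fun p : ℕ => (Box L₁ L₂).card * (4 * |F.K|) * ((p : ℝ) ^ 2)⁻¹)
    fun p hp => ?_).trans ?_
  · obtain ⟨⟨h3, h4⟩, hp⟩ := mem_PS.1 hp
    have : NeZero p := ⟨hp.ne_zero⟩
    have hp0 : (0 : ℝ) < p := by exact_mod_cast hp.pos
    have h5 := equi_le (fun _ : Unit => p ^ 2) (fun i j h => absurd rfl h)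
      (fun _ a b => if F.exc p a b then 1 else 0) (fun _ a b => by split_ifs <;> norm_num) {()}
      h1 h2 (by
        rw [pr, prod_singleton, ← Nat.cast_le (α := ℝ), Nat.cast_pow, ← Real.log_le_log_iff
          (by positivity) (by exact_mod_cast hT), Real.log_pow]
        have := Real.log_le_log hp0 (show (p : ℝ) ≤ z by exact_mod_cast h4)
        push_cast
        linarith [hy.resolve_left (by omega)])
    simp only [prod_singleton] at h5
    refine h5.trans ((mul_le_mul_of_nonneg_left ((F.exd p hp (by omega)).trans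
      (div_le_div_of_nonneg_right (le_abs_self _) (by positivity))) (by positivity)).trans_eq ?_)
    ring
  · rw [← mul_sum]
    exact mul_le_of_le_one_right (by positivity)
      (sum_inv_sq_le fun l hl => (mem_PS.1 hl).2.two_le)

open Classical in
theorem rank_pt {c z T g : ℕ} (hc : 3 ≤ c) (hz : 2 ≤ z) (hT : 2 ≤ T) {x : ℤ × ℤ}
    (he : Function.Injective (F.e x.1 x.2))
    (hx : ∀ l, |F.e x.1 x.2 (l + 1) - F.e x.1 x.2 (l + 2)| ≤ T ^ g) {M G : ℝ}
    (hM : Real.log T ≤ M * Real.log (z + 1)) (hG : 1 ≤ G)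
    (hS : ((Sel (fun i : PS c z => i.1) (F.τ c z x)).card + 4 : ℝ) ≤ 8 * G ^ 9) (k : ℕ) :
    Module.Finite ℤ (PE (F.e x.1 x.2)) ∧ (Module.finrank ℤ (PE (F.e x.1 x.2)) : ℝ) ≤
      4 * (c + 1 + ((PS c z).filter fun p => F.exc p x.1 x.2).card + (3 * g + 3) * M) + 9 +
        18 * (k + G / 2 ^ k) := by
  have hq := primeSys_PS hc hz
  set e := F.e x.1 x.2
  set Δ := (∏ l : Fin 3, (e (l + 1) - e (l + 2))).natAbs with hΔ
  have hΔ0 : Δ ≠ 0 := Int.natAbs_ne_zero.2 (prod_ne_zero_iff.2 fun l _ =>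
    sub_ne_zero.2 (he.ne (by fin_cases l <;> simp)))
  set X := (PS c z).filter fun p => F.exc p x.1 x.2
  set Y := Δ.primeFactors.filter fun p => z < p
  obtain ⟨hf, hr⟩ := rank_le_sel (τ := F.τ c z x) he hq.hp hq.h2 hq.inj (range (c + 1) ∪ X ∪ Y)
    (fun i u hu hi => by
      have := mem_PS.1 i.2
      exact (F.loc _ _ i he this.2 (by omega) fun h =>
        hi (mem_union_left _ (mem_union_right _ (mem_filter.2 ⟨i.2, h⟩)))).1 u hu)
    (fun p hp hi hn => by
      simp only [mem_union, not_or, mem_range] at hi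
      by_cases hpz : p ≤ z
      · have hm : p ∈ PS c z := mem_PS.2 ⟨⟨by omega, hpz⟩, hp⟩
        exact (F.loc _ _ p he hp (by omega) fun h => hi.1.2 (mem_filter.2 ⟨hm, h⟩)).2
          (hn ⟨p, hm⟩ rfl)
      · exact Or.inl fun l hl => hi.2 (mem_filter.2 ⟨Nat.mem_primeFactors.2 ⟨hp,
          Int.natCast_dvd.1 (hl.trans (dvd_prod_of_mem _ (mem_univ l))), hΔ0⟩, by omega⟩))
  refine ⟨hf, ?_⟩
  have hY : (Y.card : ℝ) ≤ (3 * g + 3) * M := by
    have h1 : (z + 1) ^ Y.card ≤ Δ := (pow_card_le_prod _ _ _ fun p hp => (mem_filter.1 hp).2).trans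
      (Nat.le_of_dvd (Nat.pos_of_ne_zero hΔ0) ((prod_dvd_prod_of_subset _ _ _
        (filter_subset _ _)).trans (Nat.prod_primeFactors_dvd Δ)))
    have h2 : Δ ≤ T ^ (3 * g + 3) := by
      have : ∀ l, (e (l + 1) - e (l + 2)).natAbs ≤ T ^ (g + 1) := fun l => by
        zify; exact (hx l).trans (pow_le_pow_right₀ (by omega) (Nat.le_succ g))
      calc Δ = ∏ l : Fin 3, (e (l + 1) - e (l + 2)).natAbs := map_prod Int.natAbsHom _ _
        _ ≤ ∏ _l : Fin 3, T ^ (g + 1) := prod_le_prod' fun l _ => this l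
        _ = _ := by simp only [prod_const, card_univ, Fintype.card_fin]; ring
    have h3 := Real.log_le_log (by positivity) ((Nat.cast_le (α := ℝ)).2 (h1.trans h2))
    push_cast at h3
    rw [Real.log_pow, Real.log_pow] at h3
    push_cast at h3
    have h4 : 0 < Real.log (z + 1) := Real.log_pos (by exact_mod_cast (by omega : 1 < z + 1))
    refine le_of_mul_le_mul_right (h3.trans ?_) h4
    rw [mul_assoc]; gcongr
  have hC : ((range (c + 1) ∪ X ∪ Y).card : ℝ) ≤ c + 1 + X.card + (3 * g + 3) * M := by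
    have : (range (c + 1) ∪ X ∪ Y).card ≤ c + 1 + X.card + Y.card :=
      (card_union_le _ _).trans (Nat.add_le_add_right ((card_union_le _ _).trans (by simp)) _)
    have : ((range (c + 1) ∪ X ∪ Y).card : ℝ) ≤ c + 1 + X.card + Y.card := by exact_mod_cast this
    linarith
  have h1 : (2 : ℝ) ^ Module.finrank ℤ (PE e) ≤
      2 ^ (4 * (range (c + 1) ∪ X ∪ Y).card + 9) * G ^ 9 := by
    have := (Nat.cast_le (α := ℝ)).2 hr
    push_cast at this
    refine this.trans ((mul_le_mul_of_nonneg_left hS (by positivity)).trans_eq (by ring))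
  have h2 := Real.log_le_log (by positivity) h1
  rw [Real.log_mul (by positivity) (by positivity), Real.log_pow, Real.log_pow, Real.log_pow] at h2
  have h3 := Real.log_le_sub_one_of_pos (show 0 < G / 2 ^ k by positivity)
  rw [Real.log_div (by positivity) (by positivity), Real.log_pow] at h3
  have h4 := Real.log_two_gt_d9
  have h5 := Real.log_two_lt_d9
  have h6 : 0 ≤ G / 2 ^ k := by positivity
  have h7 : (0 : ℝ) ≤ k := Nat.cast_nonneg k
  push_cast at h2
  refine le_of_mul_le_mul_right (h2.trans ?_) (show 0 < Real.log 2 by linarith)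
  nlinarith

open Classical in
theorem average (g : ℕ) : ∃ C : ℝ, ∀ T L₁ L₂ : ℕ, 81 ≤ T → T ≤ L₁ → T ≤ L₂ →
    (∀ x ∈ Box L₁ L₂, ∀ l, |F.e x.1 x.2 (l + 1) - F.e x.1 x.2 (l + 2)| ≤ T ^ g) →
    (∀ x ∈ Box L₁ L₂, Function.Injective (F.e x.1 x.2) → Module.Finite ℤ (PE (F.e x.1 x.2))) ∧
    ∑ x ∈ Box L₁ L₂ with Function.Injective (F.e x.1 x.2),
      (Module.finrank ℤ (PE (F.e x.1 x.2)) : ℝ) ≤ C * (Box L₁ L₂).card := by
  obtain ⟨c0, hc0⟩ := model F.coef
  set c := c0 + ⌈2 * F.K0⌉₊ with hcd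
  obtain ⟨hc, hpm, C, hC⟩ := hc0 c (by omega)
  have hcK : 2 * F.K0 ≤ c := (Nat.le_ceil _).trans (by exact_mod_cast by omega)
  set κ := ⌈6 * F.K0⌉₊ + 1 with hκ
  have hκK : 6 * F.K0 ≤ κ := (Nat.le_ceil _).trans (by exact_mod_cast by omega)
  have hκ1 : (1 : ℝ) ≤ κ := by exact_mod_cast (by omega : 1 ≤ κ)
  set A : ℝ := 24 * κ with hA
  set B : ℝ := 4 * (3 * g + 3) * A + 18 with hB
  set K2 := 12 * F.K0 + 36 * F.K0 ^ 2 with hK2
  have hK20 : 0 ≤ K2 := by have := F.K0_nonneg; positivity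
  refine ⟨4 * (c + 1) + 9 + 16 * |F.K| + B * (1 + 16 * K2) + 144 * |C|,
    fun T L₁ L₂ hT h1 h2 hg => ?_⟩
  set L := Real.log T with hL
  have hL0 : 0 < L := Real.log_pos (by exact_mod_cast (by omega : 1 < T))
  set y : ℕ → ℝ := fun k => L / (A * 2 ^ k) with hy
  set z : ℕ → ℕ := fun k => max 2 ⌊Real.exp (y k)⌋₊ with hz
  have hA0 : 0 < A := by positivity
  have hz2 : ∀ k, 2 ≤ z k := fun k => le_max_left _ _
  have hy0 : ∀ k, 0 < y k := fun k => by positivity
  have hyA : ∀ k, A * y k ≤ L := fun k => by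
    rw [hy, ← mul_div_assoc, mul_div_mul_left _ _ hA0.ne']
    exact div_le_self hL0.le (one_le_pow₀ one_le_two)
  have hzy : ∀ k, z k ≤ c ∨ Real.log (z k) ≤ y k := fun k => by
    rcases le_total ⌊Real.exp (y k)⌋₊ 2 with h | h
    · left; simp only [hz, max_eq_left h]; omega
    · right; simp only [hz, max_eq_right h]
      rw [Real.log_le_iff_le_exp (by exact_mod_cast (by omega : 0 < ⌊Real.exp (y k)⌋₊))]
      exact Nat.floor_le (Real.exp_pos _).le
  have hzl : ∀ k, L ≤ A * 2 ^ k * Real.log (z k + 1) := fun k => by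
    rw [← div_le_iff₀' (by positivity), Real.le_log_iff_exp_le (by positivity)]
    refine (Nat.lt_floor_add_one _).le.trans ?_
    exact add_le_add (Nat.cast_le.2 (le_max_right 2 ⌊Real.exp (y k)⌋₊)) le_rfl
  have hzm : ∀ k, z k ≤ z 0 := fun k => max_le_max le_rfl (Nat.floor_mono (Real.exp_le_exp.2
    (div_le_div_of_nonneg_left hL0.le (by positivity) (by gcongr <;> norm_num))))
  choose G hG hGC using fun k => hC (z k) (hz2 k)
  set N := ⌈L⌉₊ with hN
  have hgood : ∀ x, 2 * F.lg c (z N) x ≤ L := fun x => by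
    have h3 : y N ≤ 1 := by
      rw [hy, div_le_one (by positivity)]
      have h4 : (N : ℝ) ≤ 2 ^ N := by exact_mod_cast (Nat.lt_two_pow_self).le
      nlinarith [Nat.le_ceil L, pow_pos (two_pos (α := ℝ)) N]
    have h4 : ⌊Real.exp (y N)⌋₊ < 3 := (Nat.floor_lt (Real.exp_pos _).le).2 (by
      linarith [Real.exp_le_exp.2 h3, Real.exp_one_lt_d9, show ((3 : ℕ) : ℝ) = 3 by norm_num])
    have := PS_empty (c := c) (z := z N) (max_le (by omega) (by omega))
    simp only [lg, univ_eq_empty, filter_empty, sum_empty]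
    linarith
  have hpt : ∀ x ∈ Box L₁ L₂, Function.Injective (F.e x.1 x.2) →
      Module.Finite ℤ (PE (F.e x.1 x.2)) ∧ (Module.finrank ℤ (PE (F.e x.1 x.2)) : ℝ) ≤
      4 * (c + 1) + 9 + 4 * ((PS c (z 0)).filter fun p => F.exc p x.1 x.2).card +
      B * (1 + ∑ k ∈ range (N + 1), 8 * 2 ^ k / L ^ 2 * F.lg c (z k) x ^ 2) +
      18 * ∑ k ∈ range (N + 1), (2 ^ k)⁻¹ *
        if 2 * F.lg c (z k) x ≤ L then G k (F.τ c (z k) x) else 0 := by
    intro x hx he
    have hex : ∃ k, 2 * F.lg c (z k) x ≤ L := ⟨N, hgood x⟩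
    set k := Nat.find hex with hk
    have hkN : k ≤ N := Nat.find_min' hex (hgood x)
    obtain ⟨hf, hr⟩ := F.rank_pt hc (hz2 k) (by omega) he (hg x hx) (hzl k) (hG k _).1
      (hG k _).2 k
    refine ⟨hf, hr.trans ?_⟩
    have e1 : (((PS c (z k)).filter fun p => F.exc p x.1 x.2).card : ℝ) ≤
        ((PS c (z 0)).filter fun p => F.exc p x.1 x.2).card :=
      Nat.cast_le.2 (card_le_card (filter_subset_filter _ fun p hp => by
        have := mem_PS.1 hp
        exact mem_PS.2 ⟨⟨this.1.1, this.1.2.trans (hzm k)⟩, this.2⟩))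
    have e2 : (2 : ℝ) ^ k ≤ 1 + ∑ k ∈ range (N + 1), 8 * 2 ^ k / L ^ 2 * F.lg c (z k) x ^ 2 := by
      have hs := fun j (hj : j ∈ range (N + 1)) => single_le_sum
        (f := fun k => 8 * 2 ^ k / L ^ 2 * F.lg c (z k) x ^ 2) (fun _ _ => by positivity) hj
      rcases Nat.eq_zero_or_eq_succ_pred k with h | h
      · rw [h, pow_zero]
        exact le_add_of_nonneg_right (sum_nonneg fun _ _ => by positivity)
      · have h3 := not_le.1 (Nat.find_min hex (show k.pred < k by omega))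
        refine le_trans ?_ ((hs k.pred (mem_range.2 (by omega))).trans (by linarith))
        rw [h, Nat.succ_eq_add_one, pow_succ, Nat.pred_succ, div_mul_eq_mul_div,
          le_div_iff₀ (by positivity)]
        nlinarith [mul_le_mul_of_nonneg_left (pow_le_pow_left₀ hL0.le h3.le 2)
          (pow_pos (two_pos (α := ℝ)) k.pred).le]
    have e3 := single_le_sum (f := fun k => ((2 : ℝ) ^ k)⁻¹ *
      if 2 * F.lg c (z k) x ≤ L then G k (F.τ c (z k) x) else 0) (fun j _ => by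
        have := (hG j (F.τ c (z j) x)).1
        split_ifs <;> positivity) (mem_range.2 (Nat.lt_succ_of_le hkN))
    rw [if_pos (Nat.find_spec hex)] at e3
    have e4 : (k : ℝ) ≤ 2 ^ k := by exact_mod_cast (Nat.lt_two_pow_self).le
    have e5 := mul_le_mul_of_nonneg_left e2 (show 0 ≤ B by positivity)
    rw [div_eq_inv_mul]
    nlinarith
  refine ⟨fun x hx he => (hpt x hx he).1, (sum_le_sum fun x hx => (hpt x (mem_filter.1 hx).1
    (mem_filter.1 hx).2).2).trans ((sum_le_sum_of_subset_of_nonneg (filter_subset _ _)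
    fun x _ _ => ?_).trans ?_)⟩
  · have : 0 ≤ ∑ k ∈ range (N + 1), ((2 : ℝ) ^ k)⁻¹ *
        if 2 * F.lg c (z k) x ≤ L then G k (F.τ c (z k) x) else 0 := sum_nonneg fun j _ => by
      have := (hG j (F.τ c (z j) x)).1
      split_ifs <;> positivity
    positivity
  set n : ℝ := ((Box L₁ L₂).card : ℝ) with hn
  have hn0 : 0 ≤ n := Nat.cast_nonneg _
  have hgeo : ∑ k ∈ range (N + 1), ((2 : ℝ) ^ k)⁻¹ ≤ 2 := by
    simpa using sum_geometric_two_le (N + 1)
  have b1 := F.exc_avg (z := z 0) hc (by omega) h1 h2 ((hzy 0).imp_right fun h => by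
    nlinarith [hyA 0, hy0 0])
  have b2 : ∑ x ∈ Box L₁ L₂, ∑ k ∈ range (N + 1), 8 * 2 ^ k / L ^ 2 * F.lg c (z k) x ^ 2 ≤
      16 * K2 * n := by
    rw [sum_comm]
    refine (sum_le_sum (g := fun k => 8 * K2 * n * (2 ^ k)⁻¹) fun k _ => ?_).trans ?_
    · rw [← mul_sum]
      refine (mul_le_mul_of_nonneg_left (F.second_moment hc (hz2 k) (by omega) h1 h2 (hzy k)
        (by nlinarith [hyA k, hy0 k])) (by positivity)).trans ?_
      have : 8 * 2 ^ k / L ^ 2 * (n * (K2 * y k ^ 2)) = 8 * K2 * n * (2 ^ k)⁻¹ / A ^ 2 := by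
        simp only [hy]; field_simp
      rw [this]
      exact div_le_self (by positivity) (one_le_pow₀ (by linarith))
    · rw [← mul_sum]; nlinarith [mul_nonneg hK20 hn0]
  have b3 : ∑ x ∈ Box L₁ L₂, ∑ k ∈ range (N + 1), ((2 : ℝ) ^ k)⁻¹ *
      (if 2 * F.lg c (z k) x ≤ L then G k (F.τ c (z k) x) else 0) ≤ 8 * |C| * n := by
    rw [sum_comm]
    refine (sum_le_sum (g := fun k => 4 * |C| * n * (2 ^ k)⁻¹) fun k _ => ?_).trans ?_
    · rw [← mul_sum, ← sum_filter, mul_comm]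
      refine mul_le_mul_of_nonneg_right ((F.sieve_avg hc hcK hκK (by omega) hpm (hz2 k) hT h1 h2
        ((hzy k).imp_right fun h => by nlinarith [hyA k]) (G k) fun τ => by
          linarith [(hG k τ).1]).trans ?_) (by positivity)
      nlinarith [mul_le_mul_of_nonneg_left ((hGC k).trans (le_abs_self C)) hn0]
    · rw [← mul_sum]; nlinarith [mul_nonneg (abs_nonneg C) hn0]
  simp only [sum_add_distrib, ← mul_sum, sum_const, nsmul_eq_mul]
  nlinarith [mul_le_mul_of_nonneg_left b2 (show 0 ≤ B by positivity)]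

end Fam

end Pool.Agent.Lib.TorsRank
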