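import Mathlib

/-!
Abel summation, real characters given by Jacobi symbols and Markov's inequality on subsets.
-/

namespace Pool.Agent.Lib.TorsRank

open Finset
open scoped NumberTheorySymbols

theorem abel_nonneg (d f : ℕ → ℝ) (hf : Antitone f) (hf0 : ∀ k, 0 ≤ f k)
    (hd : ∀ n, 0 ≤ ∑ k ∈ range n, d k) (N : ℕ) : 0 ≤ ∑ k ∈ range N, d k * f k := by
  have : ∀ n, (∑ k ∈ range n, d k) * f n ≤ ∑ k ∈ range n, d k * f k := by
    intro n
    induction n with
    | zero => simp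
    | succ n ih =>
      have h1 := mul_le_mul_of_nonneg_left (hf (Nat.le_succ n)) (hd (n + 1))
      rw [sum_range_succ (fun k => d k * f k)]
      rw [sum_range_succ] at h1 ⊢
      nlinarith
  exact (mul_nonneg (hd N) (hf0 N)).trans (this N)

theorem abel_le (a f : ℕ → ℝ) (hf : Antitone f) (hf0 : ∀ k, 0 ≤ f k) {M : ℝ}
    (ha : ∀ n, ∑ k ∈ range n, a k ≤ M) (N : ℕ) : ∑ k ∈ range N, a k * f k ≤ M * f 0 := by
  have hM : 0 ≤ M := by simpa using ha 0
  rcases N with _ | N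
  · simpa using mul_nonneg hM (hf0 0)
  have := abel_nonneg (fun k => (if k = 0 then M else 0) - a k) f hf hf0 (fun n => by
    rcases n with _ | n
    · simp
    · rw [sum_sub_distrib, sum_ite_eq']
      simpa using ha (n + 1)) (N + 1)
  simp only [sub_mul, sum_sub_distrib, ite_mul, zero_mul, sum_ite_eq'] at this
  simpa using this

theorem abel_abs (a f : ℕ → ℝ) (hf : Antitone f) (hf0 : ∀ k, 0 ≤ f k) {M : ℝ}
    (ha : ∀ n, |∑ k ∈ range n, a k| ≤ M) (N : ℕ) : |∑ k ∈ range N, a k * f k| ≤ M * f 0 := by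
  rw [abs_le]
  refine ⟨?_, abel_le a f hf hf0 (fun n => (abs_le.1 (ha n)).2) N⟩
  have := abel_le (fun k => -a k) f hf hf0 (fun n => by
    rw [sum_neg_distrib]; linarith [(abs_le.1 (ha n)).1]) N
  simp only [neg_mul, sum_neg_distrib] at this
  linarith

/-- The real character `n ↦ (a | n)` on odd `n`. -/
noncomputable def xi (a : ℤ) (n : ℕ) : ℝ := if Odd n then (J(a | n) : ℝ) else 0

theorem xi_odd {a : ℤ} {n : ℕ} (h : Odd n) : xi a n = J(a | n) := if_pos h

theorem xi_one (a : ℤ) : xi a 1 = 1 := by simp [xi]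

theorem xi_mul (a : ℤ) (m n : ℕ) : xi a (m * n) = xi a m * xi a n := by
  unfold xi
  by_cases hm : Odd m <;> by_cases hn : Odd n <;> simp [hm, hn, Nat.odd_mul]
  rw [jacobiSym.mul_right' a hm.pos.ne' hn.pos.ne']; simp

theorem xi_val (a : ℤ) (n : ℕ) : xi a n = 0 ∨ xi a n = 1 ∨ xi a n = -1 := by
  unfold xi
  split_ifs
  · rcases jacobiSym.trichotomy a n with h | h | h <;> simp [h]
  · simp

theorem abs_xi (a : ℤ) (n : ℕ) : |xi a n| ≤ 1 := by
  rcases xi_val a n with h | h | h <;> simp [h]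

theorem xi_mod (a : ℤ) {Q : ℕ} (hQ : 4 * a.natAbs ∣ Q) (n : ℕ) :
    xi a (n % Q) = xi a n := by
  have h2 : 2 ∣ Q := (Dvd.intro (2 * a.natAbs) (by ring)).trans hQ
  have ho : Odd (n % Q) ↔ Odd n := by
    rw [Nat.odd_iff, Nat.odd_iff, Nat.mod_mod_of_dvd _ h2]
  unfold xi
  by_cases h : Odd n
  · rw [if_pos h, if_pos (ho.2 h), jacobiSym.mod_right a h, jacobiSym.mod_right a (ho.2 h),
      Nat.mod_mod_of_dvd _ hQ]
  · rw [if_neg h, if_neg (mt ho.1 h)]

/-- The character is not principal. -/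
def NP (a : ℤ) : Prop := a ≠ 0 ∧ ∃ n, Odd n ∧ J(a | n) = -1

theorem NP.sum_range {a : ℤ} (h : NP a) (n : ℕ) :
    |∑ k ∈ range n, xi a k| ≤ 4 * a.natAbs := by
  obtain ⟨ha, n0, hn0, hJ⟩ := h
  set Q := 4 * a.natAbs with hQ
  have hQ0 : 0 < Q := by have := Int.natAbs_pos.2 ha; omega
  have hm := xi_mod a (dvd_refl Q)
  have hco : Nat.Coprime n0 Q := by
    refine Nat.Coprime.mul_right ?_ ?_
    · exact (Nat.Coprime.pow_right 2 (Nat.coprime_two_right.2 hn0))
    · have : a.gcd n0 = 1 := by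
        by_contra h
        have : J(a | n0) = 0 := jacobiSym.eq_zero_iff.2 ⟨hn0.pos.ne', h⟩
        omega
      exact Nat.Coprime.symm this
  have h0 : ∑ k ∈ range Q, xi a k = 0 := by
    have : ∑ k ∈ range Q, xi a (n0 * k % Q) = ∑ k ∈ range Q, xi a k := by
      refine sum_bij (fun k _ => n0 * k % Q) (fun k _ => mem_range.2 (Nat.mod_lt _ hQ0))
        (fun k hk l hl h => ?_) ?_ (fun _ _ => rfl)
      · exact Nat.ModEq.eq_of_lt_of_lt (Nat.ModEq.cancel_left_of_coprime hco.symm h)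
          (mem_range.1 hk) (mem_range.1 hl)
      · intro b hb
        obtain ⟨m, hm, e⟩ := Nat.exists_mul_mod_eq_of_coprime b hco hQ0.ne'
        exact ⟨m, mem_range.2 hm, by rw [e, Nat.mod_eq_of_lt (mem_range.1 hb)]⟩
    simp only [hm, xi_mul, xi_odd hn0, hJ, ← mul_sum] at this
    push_cast at this
    linarith
  have hper : ∀ n, ∑ k ∈ range (n + Q), xi a k = ∑ k ∈ range n, xi a k := by
    intro n
    induction n with
    | zero => simpa using h0
    | succ n ih =>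
      rw [add_right_comm, sum_range_succ, sum_range_succ, ih, ← hm (n + Q), Nat.add_mod_right, hm]
  have hmod : ∀ t r, ∑ k ∈ range (r + t * Q), xi a k = ∑ k ∈ range r, xi a k := by
    intro t r
    induction t with
    | zero => simp
    | succ t ih => rw [add_mul, one_mul, ← add_assoc, hper, ih]
  rw [← Nat.mod_add_div' n Q, hmod]
  refine (abs_sum_le_sum_abs _ _).trans ((sum_le_sum fun k _ => abs_xi a k).trans ?_)
  have := (Nat.mod_lt n hQ0).le
  simp only [sum_const, card_range, nsmul_eq_mul, mul_one]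
  exact_mod_cast this

theorem NP.sum_shift {a : ℤ} (h : NP a) (R n : ℕ) :
    |∑ k ∈ range n, xi a (R + k)| ≤ 8 * a.natAbs := by
  have h1 := h.sum_range (R + n)
  have h2 := h.sum_range R
  rw [sum_range_add] at h1
  rw [abs_le] at *
  constructor <;> linarith [h1.1, h1.2, h2.1, h2.2]

theorem NP.of_prime {q : ℕ} (hq : q.Prime) (hq2 : q ≠ 2) {b : ℤ} (hb : ¬ (q : ℤ) ∣ b) :
    NP (q * b) := by
  have hb0 : b ≠ 0 := by rintro rfl; exact hb (dvd_zero _)
  refine ⟨mul_ne_zero (by exact_mod_cast hq.ne_zero) hb0, ?_⟩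
  have : Fact q.Prime := ⟨hq⟩
  obtain ⟨x, hx⟩ := FiniteField.exists_nonsquare (F := ZMod q) (by rwa [ZMod.ringChar_zmod_n])
  have hco : Nat.Coprime (4 * b.natAbs) q := by
    refine Nat.Coprime.mul_left ?_ ?_
    · exact (Nat.Coprime.pow_left 2 ((Nat.coprime_primes Nat.prime_two hq).2 hq2.symm))
    · exact ((Nat.Prime.coprime_iff_not_dvd hq).2 fun h => hb (Int.natCast_dvd.2 h)).symm
  obtain ⟨n, hn1, hn2⟩ := Nat.chineseRemainder hco 1 x.val
  have hb1 : 1 < 4 * b.natAbs := by have := Int.natAbs_pos.2 hb0; omega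
  have h4 : n % 4 = 1 := by
    have := hn1.of_dvd (Dvd.intro _ rfl : 4 ∣ 4 * b.natAbs)
    exact this
  have ho : Odd n := Nat.odd_iff.2 (by omega)
  refine ⟨n, ho, ?_⟩
  rw [jacobiSym.mul_left, jacobiSym.mod_right b ho, hn1, Nat.mod_eq_of_lt hb1, jacobiSym.one_right,
    mul_one, jacobiSym.quadratic_reciprocity_one_mod_four' (hq.odd_of_ne_two hq2) h4,
    ZMod.nonsquare_iff_jacobiSym_eq_neg_one]
  have : (((n : ℕ) : ℤ) : ZMod q) = x := by
    rw [Int.cast_natCast, (ZMod.natCast_eq_natCast_iff _ _ _).2 hn2]; simp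
  rwa [this]

theorem harm_le (n : ℕ) : ∑ k ∈ Ioc 0 n, (k : ℝ)⁻¹ ≤ 1 + Real.log n := by
  have := harmonic_le_one_add_log n
  rw [harmonic_eq_sum_Icc] at this
  push_cast at this
  exact this

theorem NP.sum_div {a : ℤ} (h : NP a) (u : ℕ) :
    |∑ b ∈ Ioc 0 u, xi a b / b| ≤ 3 + Real.log (4 * a.natAbs) := by
  set Q := 4 * a.natAbs with hQ
  have hQ0 : 0 < Q := by have := Int.natAbs_pos.2 h.1; omega
  have hQr : ((Q : ℕ) : ℝ) = 4 * a.natAbs := by rw [hQ]; push_cast; ring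
  rw [← hQr]
  have h1 : ∀ v ≤ Q, |∑ b ∈ Ioc 0 v, xi a b / b| ≤ 1 + Real.log Q := fun v hv => by
    refine (abs_sum_le_sum_abs _ _).trans (le_trans ?_ (harm_le Q))
    refine (sum_le_sum fun b _ => ?_).trans
      (sum_le_sum_of_subset_of_nonneg (Ioc_subset_Ioc_right hv) fun _ _ _ => by positivity)
    rw [abs_div, Nat.abs_cast, div_eq_mul_inv]
    exact mul_le_of_le_one_left (by positivity) (abs_xi a b)
  rcases le_total u Q with hu | hu
  · linarith [h1 u hu]
  obtain ⟨n, rfl⟩ := Nat.exists_eq_add_of_le hu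
  rw [← sum_Ioc_consecutive _ (Nat.zero_le Q) (Nat.le_add_right Q n)]
  have h2 : ∑ b ∈ Ioc Q (Q + n), xi a b / b =
      ∑ k ∈ range n, xi a (Q + 1 + k) * ((Q + 1 + k : ℕ) : ℝ)⁻¹ := by
    rw [← Finset.Ico_add_one_add_one_eq_Ioc, sum_Ico_eq_sum_range]
    simp [div_eq_mul_inv]
  have h3 := abel_abs (fun k => xi a (Q + 1 + k)) (fun k => ((Q + 1 + k : ℕ) : ℝ)⁻¹)
    (fun k l hkl => inv_anti₀ (by positivity) (by exact_mod_cast by omega)) (fun k => by positivity)
    (h.sum_shift (Q + 1)) n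
  have h4 : (8 * a.natAbs : ℝ) * ((Q + 1 + 0 : ℕ) : ℝ)⁻¹ ≤ 2 := by
    rw [← div_eq_mul_inv, div_le_iff₀ (by positivity)]
    push_cast; linarith
  refine (abs_add_le _ _).trans ?_
  rw [h2]
  linarith [h1 Q le_rfl]

/-- Markov's inequality for the weight of a random subset. -/
theorem markov_subsets {ι : Type} [DecidableEq ι] (P : Finset ι) (h l g : ι → ℝ)
    (hh : ∀ i, 0 ≤ h i) (hl : ∀ i, 0 ≤ l i) (hg : ∀ i ∈ P, h i ≤ g i * (1 + h i)) {L : ℝ}
    (hL : 0 < L) (hs : 2 * ∑ i ∈ P, l i * g i ≤ L) :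
    ∏ i ∈ P, (1 + h i) ≤ 2 * ∑ s ∈ P.powerset with ∑ i ∈ s, l i ≤ L, ∏ i ∈ s, h i := by
  have key : ∀ Q ⊆ P, ∑ s ∈ Q.powerset, (∏ i ∈ s, h i) * ∑ i ∈ s, l i ≤
      (∏ i ∈ Q, (1 + h i)) * ∑ i ∈ Q, l i * g i := by
    intro Q hQ
    induction Q using Finset.induction_on with
    | empty => simp
    | insert a Q ha ih =>
      have ih := ih ((subset_insert a Q).trans hQ)
      rw [sum_powerset_insert ha, prod_insert ha, sum_insert ha]
      have e : ∑ s ∈ Q.powerset, (∏ i ∈ insert a s, h i) * ∑ i ∈ insert a s, l i =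
          h a * (l a * ∏ i ∈ Q, (1 + h i) + ∑ s ∈ Q.powerset, (∏ i ∈ s, h i) * ∑ i ∈ s, l i) := by
        rw [prod_one_add, mul_sum, ← sum_add_distrib, mul_sum]
        refine sum_congr rfl fun s hs => ?_
        have : a ∉ s := fun h => ha (mem_powerset.1 hs h)
        rw [prod_insert this, sum_insert this]; ring
      rw [e]
      have h1 := hg a (hQ (mem_insert_self a Q))
      have h2 : 0 ≤ ∏ i ∈ Q, (1 + h i) := prod_nonneg fun i _ => by linarith [hh i]
      have h3 := mul_le_mul_of_nonneg_left h1 (mul_nonneg (hl a) h2)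
      have h4 := mul_le_mul_of_nonneg_left ih (hh a)
      nlinarith
  have h1 := key P Subset.rfl
  have hA : 0 ≤ ∏ i ∈ P, (1 + h i) := prod_nonneg fun i _ => by linarith [hh i]
  have h2 : L * ∑ s ∈ P.powerset with ¬ ∑ i ∈ s, l i ≤ L, ∏ i ∈ s, h i ≤
      ∑ s ∈ P.powerset, (∏ i ∈ s, h i) * ∑ i ∈ s, l i := by
    rw [mul_sum]
    refine (sum_le_sum fun s hs => ?_).trans (sum_le_sum_of_subset_of_nonneg (filter_subset _ _)
      fun s _ _ => mul_nonneg (prod_nonneg fun i _ => hh i) (sum_nonneg fun i _ => hl i))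
    rw [mul_comm]
    exact mul_le_mul_of_nonneg_left (not_le.1 (mem_filter.1 hs).2).le (prod_nonneg fun i _ => hh i)
  have h3 := sum_filter_add_sum_filter_not P.powerset (fun s => ∑ i ∈ s, l i ≤ L)
    fun s => ∏ i ∈ s, h i
  rw [← prod_one_add] at h3
  have h4 := mul_le_mul_of_nonneg_left hs hA
  have : L * (2 * ∑ s ∈ P.powerset with ¬ ∑ i ∈ s, l i ≤ L, ∏ i ∈ s, h i) ≤
      L * ∏ i ∈ P, (1 + h i) := by nlinarith
  have := le_of_mul_le_mul_left this hL
  linarith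

end Pool.Agent.Lib.TorsRank
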