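import Pool.Agent.Lib.MP_6073f3_nt.Selmer

/-!
Torsion points on `y ^ 2 = x ^ 3 + a x ^ 2 + b x`: constructions and parametrizations.
-/

namespace Pool.Agent.Lib.TorsRank

open WeierstrassCurve WeierstrassCurve.Affine

/-- The group contains a copy of `ZMod m × ZMod n`. -/
def Emb (m n : ℕ) (G : Type) [AddCommGroup G] : Prop :=
  ∃ f : ZMod m × ZMod n →+ G, Function.Injective f

section group

variable {G H : Type} [AddCommGroup G] [AddCommGroup H]

theorem Emb.map {m n : ℕ} (h : Emb m n G) {f : G →+ H} (hf : Function.Injective f) : Emb m n H :=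
  let ⟨g, hg⟩ := h
  ⟨f.comp g, hf.comp hg⟩

theorem exists_zmod_hom (P : G) {n : ℕ} (h : addOrderOf P = n) :
    ∃ f : ZMod n →+ G, Function.Injective f ∧ ∀ k : ℤ, f k = k • P := by
  refine ⟨ZMod.lift n ⟨zmultiplesHom G P, by simp [← h]⟩, ?_, fun k => by simp⟩
  rw [ZMod.lift_injective]
  intro k hk
  rw [ZMod.intCast_zmod_eq_zero_iff_dvd, ← h, addOrderOf_dvd_iff_zsmul_eq_zero]
  simpa using hk

theorem emb1 {P : G} {n : ℕ} (h : addOrderOf P = n) : Emb 1 n G := by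
  obtain ⟨f, hf, -⟩ := exists_zmod_hom P h
  exact ⟨f.comp (AddMonoidHom.snd _ _), fun x y e => Prod.ext (Subsingleton.elim _ _) (hf e)⟩

theorem ord2 {T : G} (h1 : T + T = 0) (h2 : T ≠ 0) : addOrderOf T = 2 :=
  addOrderOf_eq_prime (by rwa [two_nsmul]) h2

theorem emb2 {P T : G} {k : ℕ} (h : addOrderOf P = 2 * k) (h1 : T + T = 0) (h2 : T ≠ 0)
    (h3 : T ≠ k • P) : Emb 2 (2 * k) G := by
  obtain ⟨f, hf, hf'⟩ := exists_zmod_hom P h
  obtain ⟨g, hg, hg'⟩ := exists_zmod_hom T (ord2 h1 h2)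
  refine ⟨g.coprod f, (injective_iff_map_eq_zero _).2 fun ⟨x, y⟩ e => ?_⟩
  obtain ⟨j, rfl⟩ := ZMod.intCast_surjective y
  rw [AddMonoidHom.coprod_apply] at e
  have hx : x = 0 ∨ x = (1 : ℤ) := by clear e; revert x; decide
  rcases hx with rfl | rfl
  · rw [map_zero, zero_add, ← map_zero f] at e
    exact Prod.ext rfl (hf e)
  · exfalso
    simp only [hf', hg', one_smul] at e
    have e1 : j • P = T := by rw [eq_neg_of_add_eq_zero_right e, neg_eq_of_add_eq_zero_left h1]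
    have e2 : (2 * j) • P = 0 := by rw [mul_smul, e1, two_smul, h1]
    rw [← addOrderOf_dvd_iff_zsmul_eq_zero, h] at e2
    obtain ⟨i, hi⟩ := e2
    have e3 : j = i * k := by push_cast at hi; linarith
    have e4 : (2 : ℤ) • (k • P) = 0 := by
      rw [← natCast_zsmul, ← mul_smul, ← addOrderOf_dvd_iff_zsmul_eq_zero, h]; simp
    rw [e3, mul_smul, natCast_zsmul] at e1
    rcases Int.even_or_odd' i with ⟨c, rfl | rfl⟩
    · rw [mul_comm, mul_smul, e4, smul_zero] at e1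
      exact h2 e1.symm
    · rw [add_smul, mul_comm, mul_smul, e4, smul_zero, zero_add, one_smul] at e1
      exact h3 e1.symm

theorem ord4 {Q T : G} (h : Q + Q = T) (h1 : T + T = 0) (h2 : T ≠ 0) : addOrderOf Q = 4 :=
  addOrderOf_eq_prime_pow (p := 2) (n := 1) (by rwa [pow_one, two_nsmul, h])
    (by rw [← h1, ← h]; abel)

theorem ord8 {R Q T : G} (h0 : R + R = Q) (h : Q + Q = T) (h1 : T + T = 0) (h2 : T ≠ 0) :
    addOrderOf R = 8 :=
  addOrderOf_eq_prime_pow (p := 2) (n := 2) (fun e => h2 (by rw [← e, ← h, ← h0]; abel))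
    (by rw [← h1, ← h, ← h0]; abel)

theorem ord3 {S P : G} (h : S + S + S = 0) (h0 : S ≠ 0) {n : ℕ} (hP : addOrderOf P = n)
    (hn : n.Coprime 3) : addOrderOf (P + S) = n * 3 := by
  have : addOrderOf S = 3 := addOrderOf_eq_prime (by rw [← h]; abel) h0
  rw [(AddCommute.all P S).addOrderOf_add_eq_mul_addOrderOf_of_coprime (by rwa [hP, this]), hP,
    this]

theorem fin_of_hom (f : G →+ H) (hf : ∀ P, f P = 0 → 2 • P = 0) (h2 : {P : G | 2 • P = 0}.Finite)
    [Module.Finite ℤ H] : Module.Finite ℤ G ∧ Module.finrank ℤ G ≤ Module.finrank ℤ H := by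
  refine ⟨⟨Submodule.fg_of_fg_map_of_fg_inf_ker f.toIntLinearMap (IsNoetherian.noetherian _) ?_⟩,
    Cardinal.toNat_le_toNat (rank_le_of_hom f hf) (Module.rank_lt_aleph0 ℤ H)⟩
  exact Submodule.fg_def.2 ⟨_, h2.subset fun P hP => hf P hP.2, Submodule.span_eq _⟩

end group

theorem int_of_monic {r : ℚ} (a b c : ℤ) (h : r ^ 3 + a * r ^ 2 + b * r + c = 0) :
    ∃ k : ℤ, r = k := by
  have hd : (r.den : ℚ) ≠ 0 := by exact_mod_cast r.den_ne_zero
  have h1 : r.num ^ 3 = r.den * -(a * r.num ^ 2 + b * r.num * r.den + c * r.den ^ 2) := by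
    have e : (r.num : ℚ) = r * r.den := (Rat.mul_den_eq_num r).symm
    have : (r.num : ℚ) ^ 3 = r.den * -(a * r.num ^ 2 + b * r.num * r.den + c * r.den ^ 2) := by
      rw [e]; linear_combination (r.den : ℚ) ^ 3 * h
    exact_mod_cast this
  have h2 : IsUnit (r.den : ℤ) :=
    ((Rat.isCoprime_num_den r).pow_left (m := 3)).isUnit_of_dvd' ⟨_, h1⟩ dvd_rfl
  exact ⟨r.num, ((Rat.den_eq_one_iff r).1 (by simpa [Int.isUnit_iff_natAbs_eq] using h2)).symm⟩

theorem int_of_sq {r : ℚ} {k : ℤ} (h : r ^ 2 = k) : ∃ j : ℤ, r = j :=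
  int_of_monic 0 (-k) 0 (by push_cast; linear_combination r * h)

theorem rat_param (τ : ℚ) : ∃ s t : ℤ, (s : ℚ) ≠ 0 ∧ IsCoprime s t ∧ (t : ℚ) = τ * s :=
  ⟨τ.den, τ.num, by exact_mod_cast τ.den_ne_zero,
    (Rat.isCoprime_num_den τ).symm, (Rat.mul_den_eq_num τ).symm⟩

theorem unit_bound {s t i j : ℤ} (h : IsCoprime s t) {κ : ℚ} (h0 : κ ≠ 0) (k : ℕ)
    (h1 : κ * s ^ k = i) (h2 : κ * t ^ k = j) : 1 ≤ κ ^ 2 := by
  obtain ⟨x, y, e⟩ := (h.pow (m := k) (n := k))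
  have e' : (x : ℚ) * s ^ k + y * t ^ k = 1 := by exact_mod_cast e
  have : κ = (x * i + y * j : ℤ) := by push_cast; linear_combination x * h1 + y * h2 - κ * e'
  rw [this] at h0 ⊢
  exact_mod_cast (one_le_sq_iff_one_le_abs _).2 (Int.one_le_abs (by exact_mod_cast h0))

theorem two_tors_finite (a b c : ℚ) : {P : Pt a b c | 2 • P = 0}.Finite := by
  classical
  let p : Polynomial ℚ := Polynomial.X ^ 3 + Polynomial.C a * Polynomial.X ^ 2 +
    Polynomial.C b * Polynomial.X + Polynomial.C c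
  have hp : p ≠ 0 := Polynomial.Monic.ne_zero (by simp only [p]; monicity!)
  refine ((p.roots.toFinset.finite_toSet.image fun x =>
    if h : (W a b c).Nonsingular x 0 then Point.some x 0 h else 0).insert 0).subset ?_
  rintro (_ | ⟨x, y, h⟩) hP
  · exact Or.inl rfl
  · rw [Set.mem_ofPred_eq, two_nsmul, add_eq_zero_iff_eq_neg, neg_some', Point.some.injEq] at hP
    obtain rfl : y = 0 := by linarith [hP.2]
    refine Or.inr ⟨x, ?_, dif_pos h⟩
    have := ns_eq h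
    simp only [Finset.mem_coe, Multiset.mem_toFinset, Polynomial.mem_roots hp, Polynomial.IsRoot, p]
    simp; linarith

theorem two_pt {a b c : ℚ} {P : Pt a b c} (h0 : P ≠ 0) (h : P + P = 0) :
    ∃ r h, P = .some r 0 h ∧ r ^ 3 + a * r ^ 2 + b * r + c = 0 := by
  rcases P with _ | ⟨x, y, hp⟩
  · exact absurd rfl h0
  · rw [add_eq_zero_iff_eq_neg, neg_some', Point.some.injEq] at h
    obtain rfl : y = 0 := by linarith [h.2]
    exact ⟨x, hp, rfl, by linarith [ns_eq hp]⟩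

/-- The curve `y ^ 2 = x ^ 3 + a x ^ 2 + b x` is nonsingular. -/
structure ND (a b : ℚ) : Prop where
  hb : b ≠ 0
  hd : a ^ 2 - 4 * b ≠ 0

namespace ND

variable {a b : ℚ}

theorem ns (h : ND a b) {x y : ℚ} (e : y ^ 2 = x ^ 3 + a * x ^ 2 + b * x) :
    (W a b 0).Nonsingular x y := by
  refine (ns_iff _ _).2 ⟨by rw [e, add_zero], ?_⟩
  by_contra h'
  push Not at h'
  obtain ⟨h1, rfl⟩ := h'
  have hx : x ≠ 0 := by rintro rfl; exact h.hb (by simpa using h1)
  have h2 : x ^ 2 + a * x + b = 0 := mul_left_cancel₀ hx (by linear_combination -e)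
  have h3 : 2 * x + a = 0 := mul_left_cancel₀ hx (by linear_combination h1 - h2)
  exact h.hd (by linear_combination (2 * x + a) * h3 - 4 * h2)

/-- The point `(0, 0)`. -/
def T (h : ND a b) : Pt a b 0 := .some 0 0 (h.ns (by ring))

theorem T_ne (h : ND a b) : h.T ≠ 0 := Point.some_ne_zero _

theorem T_add (h : ND a b) : h.T + h.T = 0 := add_neg_eq rfl (by simp)

theorem pt2 (h : ND a b) {r : ℚ} (e : r ^ 2 + a * r + b = 0) :
    ∃ T' : Pt a b 0, T' + T' = 0 ∧ T' ≠ 0 ∧ T' ≠ h.T :=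
  ⟨.some r 0 (h.ns (by linear_combination -r * e)), add_neg_eq rfl (by simp), Point.some_ne_zero _,
    fun h' => h.hb (by
      obtain rfl : r = 0 := (Point.some.inj h').1
      simpa using e)⟩

theorem pt4 (h : ND a b) {c m : ℚ} (ha : a = c ^ 2 - 2 * m) (hb : b = m ^ 2) :
    ∃ hq, (Point.some m (c * m) hq : Pt a b 0) + .some m (c * m) hq = h.T := by
  have hq : (W a b 0).Nonsingular m (c * m) := h.ns (by rw [ha, hb]; ring)
  refine ⟨hq, ?_⟩
  rw [← add_left_inj h.T, h.T_add]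
  exact sum_of_line (l := c) (n := 0) _ _ _ (by ring) (by ring) (by ring)
    ⟨by rw [ha]; ring, by rw [hb]; ring, by ring⟩

theorem pt8 (h : ND a b) {c n v : ℚ} (ha : a = c ^ 2 - 2 * n ^ 2) (hb : b = (n ^ 2) ^ 2)
    (hv : (v - n) ^ 2 = 2 * c * v) : ∃ R : Pt a b 0, addOrderOf R = 8 ∧ 4 • R = h.T := by
  obtain ⟨hq, e⟩ := h.pt4 ha hb
  have hr : (W a b 0).Nonsingular (n * v) (n * v * (v - c - n)) := h.ns (by
    rw [ha, hb]; linear_combination n ^ 2 * v * (v - n) * hv)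
  have e1 : (Point.some _ _ hr : Pt a b 0) + .some _ _ hr = .some _ _ hq := by
    rw [← add_neg_eq_zero, neg_some']
    exact sum_of_line (l := v - c) (n := -(n ^ 2 * v)) _ _ _ (by ring) (by ring) (by ring)
      ⟨by rw [ha]; linear_combination -hv, by rw [hb]; linear_combination -n ^ 2 * hv, by ring⟩
  exact ⟨_, ord8 e1 e h.T_add h.T_ne, by rw [← e, ← e1]; abel⟩

theorem pt3 (h : ND a b) {l ν : ℚ} (h1 : 3 * ν ^ 2 = l ^ 2 - a)
    (h2 : 3 * ν ^ 4 = b - 2 * l * ν ^ 3) : ∃ S : Pt a b 0, S + S + S = 0 ∧ S ≠ 0 := by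
  have hs : (W a b 0).Nonsingular (ν ^ 2) (l * ν ^ 2 + ν ^ 3) :=
    h.ns (by linear_combination -ν ^ 4 * h1 + ν ^ 2 * h2)
  exact ⟨.some _ _ hs, sum_of_line (l := l) (n := ν ^ 3) _ _ _ rfl rfl rfl
    ⟨by linarith, by linear_combination h2, by ring⟩, Point.some_ne_zero _⟩

theorem par2 (h : ND a b) {T' : Pt a b 0} (h1 : T' + T' = 0) (h2 : T' ≠ 0) (h3 : T' ≠ h.T) :
    ∃ r : ℚ, r ^ 2 + a * r + b = 0 := by
  obtain ⟨r, hr, rfl, e⟩ := two_pt h2 h1
  have : r ≠ 0 := by rintro rfl; exact h3 rfl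
  exact ⟨r, mul_left_cancel₀ this (by linear_combination e)⟩

theorem par4 (h : ND a b) {Q : Pt a b 0} (e : Q + Q = h.T) :
    ∃ c m : ℚ, a = c ^ 2 - 2 * m ∧ b = m ^ 2 ∧ ∃ hq, Q = .some m (c * m) hq := by
  rcases Q with _ | ⟨x, y, hq⟩
  · exact absurd (e.symm.trans (add_zero _)) h.T_ne
  rw [← add_left_inj h.T, h.T_add] at e
  obtain ⟨l, n, e1, -, e3, L1, L2, -⟩ := line_of_sum e
  obtain rfl : n = 0 := by linarith
  obtain rfl : y = l * x := by linarith
  exact ⟨l, x, by linarith, by linarith, hq, rfl⟩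

theorem par8 (h : ND a b) {R : Pt a b 0} (e : R + R + (R + R) = h.T) :
    ∃ c n v : ℚ, a = c ^ 2 - 2 * n ^ 2 ∧ b = (n ^ 2) ^ 2 ∧ (v - n) ^ 2 = 2 * c * v ∧ v ≠ 0 := by
  obtain ⟨c, m, ha, hb, hq, e1⟩ := h.par4 e
  rcases R with _ | ⟨x, y, hr⟩
  · exact absurd (e1.symm.trans (add_zero _)) (Point.some_ne_zero _)
  rw [← add_neg_eq_zero, neg_some'] at e1
  obtain ⟨l, k, e1, -, e3, L1, L2, L3⟩ := line_of_sum e1
  have hm : m ≠ 0 := fun h' => h.hb (by rw [hb, h']; ring)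
  obtain rfl : k = -(m * (l + c)) := by linarith
  have e4 : x ^ 2 = m * (l + c) ^ 2 := mul_left_cancel₀ hm (by linear_combination L3)
  have hv : l + c ≠ 0 := fun h' => by
    rw [h'] at e4
    obtain rfl : x = 0 := by simpa using e4
    rw [h', hb] at L2
    exact hm (by simpa using L2.symm)
  obtain rfl : m = (x / (l + c)) ^ 2 := by field_simp; linarith
  refine ⟨c, x / (l + c), l + c, ha, hb, ?_, hv⟩
  rw [ha] at L1
  have : x = x / (l + c) * (l + c) := by field_simp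
  linear_combination -L1 + 2 * this

theorem par3 {S : Pt a b 0} (e : S + S + S = 0) (h0 : S ≠ 0) :
    ∃ l ν : ℚ, ν ≠ 0 ∧ l + ν ≠ 0 ∧ 3 * ν ^ 2 = l ^ 2 - a ∧ 3 * ν ^ 4 = b - 2 * l * ν ^ 3 := by
  rcases S with _ | ⟨x, y, hs⟩
  · exact absurd rfl h0
  have hy : y ≠ 0 := fun h' => by
    rw [add_neg_eq (h := hs) (h' := hs) rfl (by simp [h']), zero_add] at e
    exact h0 e
  obtain ⟨l, k, e1, -, -, L1, L2, L3⟩ := line_of_sum e
  have hx : x ≠ 0 := fun h' => hy (by have := ns_eq hs; simpa [h'] using this)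
  obtain ⟨ν, rfl⟩ : ∃ ν, k = ν * x := ⟨k / x, by field_simp⟩
  obtain rfl : x = ν ^ 2 := mul_left_cancel₀ (pow_ne_zero 2 hx) (by linear_combination L3)
  exact ⟨l, ν, fun h' => hx (by simp [h']), fun h' => hy (by rw [e1, ← add_mul, h', zero_mul]),
    by linarith, by linear_combination L2⟩

end ND

end Pool.Agent.Lib.TorsRank
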