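import Pool.Agent.Lib.MP_6073f3_nt.Atoms
import Pool.Agent.Lib.MP_6073f3_nt.Tors

/-!
From parameter boxes to minimal short Weierstrass models ordered by naive height.
-/

namespace Pool.Agent.Lib.TorsRank

open Finset Polynomial WeierstrassCurve.Affine

/-- A polynomial in two variables, as a function on every commutative ring. -/
abbrev PF := ∀ (R : Type) [CommRing R], R → R → R

/-- Naturality, weighted homogeneity and continuity. -/
structure Good (f : PF) (k w : ℕ) : Prop where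
  nat : ∀ (R S : Type) [CommRing R] [CommRing S] (φ : R →+* S) (s t : R),
    φ (f R s t) = f S (φ s) (φ t)
  hom : ∀ (R : Type) [CommRing R] (c s t : R), f R (c * s) (c ^ w * t) = c ^ k * f R s t
  cont : Continuous fun x : ℝ × ℝ => f ℝ x.1 x.2

namespace Good

variable {f : PF} {k w : ℕ}

theorem cast (h : Good f k w) (R : Type) [CommRing R] (s t : ℤ) :
    ((f ℤ s t : ℤ) : R) = f R s t := h.nat ℤ R (Int.castRingHom R) s t

theorem castR (h : Good f k w) (s t : ℤ) : ((f ℚ s t : ℚ) : ℝ) = f ℝ s t := by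
  simpa using h.nat ℚ ℝ (Rat.castHom ℝ) s t

theorem eval (h : Good f k w) (μ : ℚ) : (f ℚ[X] 1 X).eval μ = f ℚ 1 μ := by
  simpa using h.nat ℚ[X] ℚ (evalRingHom μ) 1 X

theorem dehom (h : Good f k w) {s : ℚ} (hs : s ≠ 0) (t : ℚ) :
    f ℚ s t = s ^ k * f ℚ 1 (t / s ^ w) := by
  rw [← h.hom, mul_one, mul_div_cancel₀ _ (pow_ne_zero _ hs)]

theorem upper (h : Good f k w) : ∃ C : ℕ, ∀ Z : ℕ, 1 ≤ Z → ∀ s t : ℤ, |s| ≤ Z → |t| ≤ Z ^ w →
    |f ℤ s t| ≤ C * Z ^ k := by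
  obtain ⟨C, hC⟩ := (isCompact_Icc (a := ((-1, -1) : ℝ × ℝ))
    (b := (1, 1))).exists_bound_of_continuousOn h.cont.continuousOn
  refine ⟨⌈C⌉₊, fun Z hZ s t hs ht => ?_⟩
  have hZ0 : (0 : ℝ) < Z := by exact_mod_cast hZ
  have h1 : |(s : ℝ) / Z| ≤ 1 := by
    rw [abs_div, abs_of_pos hZ0, div_le_one hZ0]; exact_mod_cast hs
  have h2 : |(t : ℝ) / Z ^ w| ≤ 1 := by
    rw [abs_div, abs_of_pos (pow_pos hZ0 w), div_le_one (pow_pos hZ0 w)]; exact_mod_cast ht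
  have h3 := hC (s / Z, t / Z ^ w) ⟨⟨(abs_le.1 h1).1, (abs_le.1 h2).1⟩, (abs_le.1 h1).2,
    (abs_le.1 h2).2⟩
  have h4 := h.hom ℝ Z (s / Z) (t / Z ^ w)
  rw [mul_div_cancel₀ _ hZ0.ne', mul_div_cancel₀ _ (pow_pos hZ0 w).ne'] at h4
  rw [← Int.cast_le (R := ℝ)]
  push_cast
  rw [h.cast, h4, abs_mul, abs_of_pos (pow_pos hZ0 k), mul_comm]
  exact mul_le_mul_of_nonneg_right (h3.trans (Nat.le_ceil C)) (pow_pos hZ0 k).le

end Good

/-- The discriminant of a monic cubic. -/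
def disc (a b c : ℚ) : ℚ := a ^ 2 * b ^ 2 - 4 * b ^ 3 - 4 * a ^ 3 * c + 18 * a * b * c - 27 * c ^ 2

theorem Chg.disc {a b c a' b' c' u r : ℚ} (h : Chg a b c a' b' c' u r) :
    disc a' b' c' = u ^ 12 * disc a b c := by
  obtain ⟨-, h2, h4, h6⟩ := h
  obtain rfl : a' = u ^ 2 * a - 3 * r := by linarith
  obtain rfl : b' = u ^ 4 * b - 2 * (u ^ 2 * a - 3 * r) * r - 3 * r ^ 2 := by linarith
  rw [show c' = u ^ 6 * c - (u ^ 4 * b - 2 * (u ^ 2 * a - 3 * r) * r - 3 * r ^ 2) * r -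
    (u ^ 2 * a - 3 * r) * r ^ 2 - r ^ 3 by linarith]
  simp only [TorsRank.disc]; ring

theorem nd_iff {a b : ℚ} : ND a b ↔ disc a b 0 ≠ 0 := by
  rw [show disc a b 0 = b ^ 2 * (a ^ 2 - 4 * b) by simp only [disc]; ring]
  exact ⟨fun h => mul_ne_zero (pow_ne_zero 2 h.hb) h.hd, fun h =>
    ⟨fun e => h (by simp [e]), right_ne_zero_of_mul h⟩⟩

theorem Chg.nd {a b u r : ℚ} {A B : ℤ} (h : Chg a b 0 0 A B u r) :
    ND a b ↔ 4 * A ^ 3 + 27 * B ^ 2 ≠ 0 := by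
  have e : ((4 * A ^ 3 + 27 * B ^ 2 : ℤ) : ℚ) = -(u ^ 12 * TorsRank.disc a b 0) := by
    rw [← h.disc, TorsRank.disc]; push_cast; ring
  rw [nd_iff, ← Int.cast_ne_zero (α := ℚ), e]
  simp [h.hu]

theorem inj_of_disc {e : Fin 3 → ℤ} (h : disc (ea e) (eb e) (ec e) ≠ 0) : Function.Injective e := by
  have : disc (ea e) (eb e) (ec e) = (((e 0 : ℚ) - e 1) * (e 0 - e 2) * (e 1 - e 2)) ^ 2 := by
    simp only [disc, ea, eb, ec]; ring
  rw [this] at h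
  intro i j hij
  by_contra hne
  fin_cases i <;> fin_cases j <;> simp at hne hij <;> simp [hij] at h

/-- Minimality of the short Weierstrass model. -/
def Mn (A B : ℤ) : Prop := ∀ p : ℕ, p.Prime → ¬ ((p : ℤ) ^ 4 ∣ A ∧ (p : ℤ) ^ 6 ∣ B)

theorem Mn.int {A B A' B' : ℤ} (h : Mn A B) {ω : ℚ} (h1 : (A' : ℚ) = ω ^ 4 * A)
    (h2 : (B' : ℚ) = ω ^ 6 * B) : ∃ k : ℤ, ω = k := by
  refine ⟨ω.num, ((Rat.den_eq_one_iff ω).1 (by_contra fun hne => ?_)).symm⟩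
  obtain ⟨p, hp, hd⟩ := Nat.exists_prime_and_dvd hne
  have key : ∀ (k : ℕ) (x y : ℤ), (y : ℚ) = ω ^ k * x → (p : ℤ) ^ k ∣ x := fun k x y e => by
    have e1 : (ω.den : ℤ) ^ k * y = ω.num ^ k * x := by
      have : ((ω.den : ℤ) : ℚ) ^ k * y = (ω.num : ℚ) ^ k * x := by
        rw [e, ← Rat.mul_den_eq_num ω]; push_cast; ring
      exact_mod_cast this
    exact (pow_dvd_pow_of_dvd (Int.natCast_dvd_natCast.2 hd) k).trans
      ((Rat.isCoprime_num_den ω).symm.pow.dvd_of_dvd_mul_left ⟨y, e1.symm⟩)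
  exact h p hp ⟨key 4 _ _ h1, key 6 _ _ h2⟩

theorem min_unique {a b u r u' r' : ℚ} {A B A' B' : ℤ} (h : Chg a b 0 0 A B u r)
    (h' : Chg a b 0 0 A' B' u' r') (m : Mn A B) (m' : Mn A' B') : A = A' ∧ B = B' := by
  have key : ∀ {u r : ℚ} {A B : ℤ}, Chg a b 0 0 A B u r → (A : ℚ) = u ^ 4 * (b - a ^ 2 / 3) ∧
      (B : ℚ) = u ^ 6 * (2 * a ^ 3 / 27 - a * b / 3) := fun {u r A B} ⟨_, h2, h4, h6⟩ => by
    obtain rfl : r = u ^ 2 * a / 3 := by linarith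
    have : (A : ℚ) = u ^ 4 * (b - a ^ 2 / 3) := by linear_combination h4
    exact ⟨this, by linear_combination h6 - u ^ 2 * a / 3 * this⟩
  obtain ⟨e1, e2⟩ := key h
  obtain ⟨e3, e4⟩ := key h'
  have hu := h.hu
  have hu' := h'.hu
  obtain ⟨k, hk⟩ := m.int (A' := A') (B' := B') (ω := u' / u) (by rw [e1, e3]; field_simp)
    (by rw [e2, e4]; field_simp)
  obtain ⟨j, hj⟩ := m'.int (A' := A) (B' := B) (ω := u / u') (by rw [e1, e3]; field_simp)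
    (by rw [e2, e4]; field_simp)
  have h1 : k * j = 1 := by
    have : (k : ℚ) * j = 1 := by rw [← hk, ← hj]; field_simp
    exact_mod_cast this
  have h2 : u' ^ 2 = u ^ 2 := by
    rw [div_eq_iff hu] at hk
    rcases Int.eq_one_or_neg_one_of_mul_eq_one h1 with rfl | rfl <;> rw [hk] <;> simp
  constructor <;> rw [← Int.cast_inj (α := ℚ)]
  · rw [e1, e3, show u' ^ 4 = (u' ^ 2) ^ 2 by ring, h2]; ring
  · rw [e2, e4, show u' ^ 6 = (u' ^ 2) ^ 3 by ring, h2]; ring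

theorem min_exists (A B : ℤ) (h : ¬ (A = 0 ∧ B = 0)) : ∃ (g : ℕ) (A₀ B₀ : ℤ), g ≠ 0 ∧
    A = g ^ 4 * A₀ ∧ B = g ^ 6 * B₀ ∧ Mn A₀ B₀ := by
  induction hn : A.natAbs + B.natAbs using Nat.strong_induction_on generalizing A B with
  | _ n ih =>
    by_cases hm : Mn A B
    · exact ⟨1, A, B, one_ne_zero, by simp, by simp, hm⟩
    · simp only [Mn, not_forall, not_not] at hm
      obtain ⟨p, hp, ⟨A', rfl⟩, ⟨B', rfl⟩⟩ := hm
      have h' : ¬ (A' = 0 ∧ B' = 0) := fun e => h (by simp [e])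
      obtain ⟨g, A₀, B₀, hg, e1, e2, hm⟩ := ih (A'.natAbs + B'.natAbs) (by
        have h4 := Nat.one_lt_pow (n := 4) (by norm_num) hp.one_lt
        have h6 := Nat.one_lt_pow (n := 6) (by norm_num) hp.one_lt
        have : 0 < A'.natAbs + B'.natAbs := by omega
        simp only [← hn, Int.natAbs_mul, Int.natAbs_pow, Int.natAbs_natCast]
        nlinarith [Nat.mul_le_mul_right A'.natAbs h4, Nat.mul_le_mul_right B'.natAbs h6])
        A' B' h' rfl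
      exact ⟨p * g, A₀, B₀, mul_ne_zero hp.ne_zero hg, by rw [e1]; push_cast; ring,
        by rw [e2]; push_cast; ring, hm⟩

theorem count_coprime (L₁ L₂ : ℕ) :
    L₁ * L₂ ≤ 4 * ((Ioc 0 L₁ ×ˢ Ioc 0 L₂).filter fun x => x.1.Coprime x.2).card := by
  have h1 := card_filter_add_card_filter_not (s := Ioc 0 L₁ ×ˢ Ioc 0 L₂) fun x => x.1.Coprime x.2
  have h2 : ((Ioc 0 L₁ ×ˢ Ioc 0 L₂).filter fun x => ¬ x.1.Coprime x.2).card ≤
      ∑ g ∈ Ioc 1 (L₁ + 2), L₁ / g * (L₂ / g) := by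
    refine (card_le_card (t := (Ioc 1 (L₁ + 2)).biUnion fun g => (Ioc 0 L₁).filter (g ∣ ·) ×ˢ
      (Ioc 0 L₂).filter (g ∣ ·)) fun x hx => ?_).trans (card_biUnion_le.trans (le_of_eq ?_))
    · simp only [mem_filter, mem_product, mem_Ioc, mem_biUnion] at hx ⊢
      have := Nat.gcd_pos_of_pos_left x.2 hx.1.1.1
      have := Nat.gcd_le_left x.2 hx.1.1.1
      exact ⟨x.1.gcd x.2, ⟨by have := hx.2; rw [Nat.Coprime] at this; omega, by omega⟩,
        ⟨hx.1.1, Nat.gcd_dvd_left _ _⟩, hx.1.2, Nat.gcd_dvd_right _ _⟩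
    · simp only [card_product, Nat.Ioc_filter_dvd_card_eq_div]
  have h3 : ((∑ g ∈ Ioc 1 (L₁ + 2), L₁ / g * (L₂ / g) : ℕ) : ℝ) ≤ L₁ * L₂ * (3 / 4) := by
    have h4 : ∑ g ∈ Ioc 1 (L₁ + 2), ((g : ℝ) ^ 2)⁻¹ ≤ 3 / 4 := by
      rw [← sum_Ioc_consecutive _ one_le_two (by omega)]
      have := sum_Ioc_inv_sq_le_sub (α := ℝ) two_ne_zero (show 2 ≤ L₁ + 2 by omega)
      have h0 : (0 : ℝ) ≤ ((L₁ : ℝ) + 2)⁻¹ := by positivity
      rw [show Ioc 1 2 = {2} by rfl, sum_singleton]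
      norm_num at this ⊢
      linarith
    refine le_trans ?_ (mul_le_mul_of_nonneg_left h4 (by positivity))
    rw [Nat.cast_sum, mul_sum]
    refine sum_le_sum fun g _ => ?_
    rw [Nat.cast_mul]
    exact (mul_le_mul Nat.cast_div_le Nat.cast_div_le (by positivity) (by positivity)).trans_eq
      (by ring)
  rw [card_product, Nat.card_Ioc, Nat.card_Ioc] at h1
  have h4 := (Nat.cast_le (α := ℝ)).2 h2
  have h5 := congrArg (Nat.cast (R := ℝ)) h1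
  rw [← Nat.cast_le (α := ℝ)]
  simp only [tsub_zero] at h5
  push_cast at h3 h4 h5 ⊢
  linarith

theorem card_le_roots {w : ℕ} (hw : w ≠ 0) {S : Finset (ℕ × ℕ)}
    (hS : ∀ x ∈ S, 0 < x.1 ∧ x.1.Coprime x.2) {P : ℚ[X]} (hP : P ≠ 0)
    (h : ∀ x ∈ S, P.eval ((x.2 : ℚ) / x.1 ^ w) = 0) : S.card ≤ P.natDegree := by
  refine (card_le_card_of_injOn (t := P.roots.toFinset) (fun x => (x.2 : ℚ) / x.1 ^ w)
    (fun x hx => by simpa [hP] using h x hx) fun x hx y hy e => ?_).trans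
    ((Multiset.toFinset_card_le _).trans (card_roots' P))
  obtain ⟨h1, h2⟩ := hS x hx
  obtain ⟨h3, h4⟩ := hS y hy
  obtain ⟨e1, e2⟩ := Rat.div_int_inj (a := x.2) (b := x.1 ^ w) (c := y.2) (d := y.1 ^ w)
    (by positivity) (by positivity) (by simpa [Int.natAbs_pow] using (h2.pow_left w).symm)
    (by simpa [Int.natAbs_pow] using (h4.pow_left w).symm) (by simpa using e)
  exact Prod.ext (Nat.pow_left_injective hw (by exact_mod_cast e2)) (by exact_mod_cast e1)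

/-- The minimal models of height at most `X` with a given subgroup of rational points. -/
def famS (m n X : ℕ) : Set (ℤ × ℤ) :=
  {c | 4 * c.1 ^ 3 + 27 * c.2 ^ 2 ≠ 0 ∧ Mn c.1 c.2 ∧
    max (4 * |c.1| ^ 3) (27 * c.2 ^ 2) ≤ (X : ℤ) ∧
    Emb m n (Pt 0 c.1 c.2)}

theorem famS_bound {m n X Y : ℕ} (hY : X ≤ Y ^ 6) {c : ℤ × ℤ} (hc : c ∈ famS m n X) :
    |c.1| ≤ Y ^ 2 ∧ |c.2| ≤ Y ^ 3 := by
  have h := max_le_iff.1 (hc.2.2.1.trans (show (X : ℤ) ≤ Y ^ 6 by exact_mod_cast hY))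
  exact ⟨le_of_pow_le_pow_left₀ three_ne_zero (by positivity) (by
      nlinarith [h.1, pow_nonneg (abs_nonneg c.1) 3]),
    le_of_pow_le_pow_left₀ two_ne_zero (by positivity) (by
      rw [sq_abs]; nlinarith [h.2, sq_nonneg c.2])⟩

theorem famS_finite (m n X : ℕ) : (famS m n X).Finite :=
  (Box (X ^ 2) (X ^ 3)).finite_toSet.subset fun c hc => mem_Box.2 (by
    simpa using famS_bound (Nat.le_self_pow (by norm_num) X) hc)

/-- A parametrization of the curves with a given subgroup of rational points. -/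
structure Par (m n : ℕ) where
  k : ℕ
  At : Atoms k
  a : PF
  b : PF
  d : ℕ
  w : ℕ
  x0 : ZMod m × ZMod n
  hd : d ≠ 0
  hw : w ≠ 0
  hx : x0 ≠ 0 ∧ x0 + x0 = 0
  ga : Good a d w
  gb : Good b (2 * d) w
  def0 : ∀ s t : ℝ, a ℝ s t = 0 → b ℝ s t = 0 → s = 0 ∧ t = 0
  cusp : ∃ μ : ℚ, b ℚ 1 μ = 0 ∧ a ℚ 1 μ ≠ 0
  gen : ∃ μ : ℚ, ND (a ℚ 1 μ) (b ℚ 1 μ)
  rel : ∀ s t : ℤ, (∃ u, Chg (a ℚ s t) (b ℚ s t) 0 (ea (At.e s t)) (eb (At.e s t))
    (ec (At.e s t)) u 0) ∨ ∃ u, Chg (-2 * a ℚ s t) (a ℚ s t ^ 2 - 4 * b ℚ s t) 0 (ea (At.e s t))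
    (eb (At.e s t)) (ec (At.e s t)) u 0
  tors : ∀ s t : ℚ, ND (a ℚ s t) (b ℚ s t) → Emb m n (Pt (a ℚ s t) (b ℚ s t) 0)
  par : ∀ (A B : ℤ) (h : ND A B) (f : ZMod m × ZMod n →+ Pt A B 0), Function.Injective f →
    f x0 = h.T → ∃ (s t : ℤ) (u : ℚ), A = u ^ 2 * a ℚ s t ∧ B = u ^ 4 * b ℚ s t ∧ 1 ≤ 192 * u ^ 2

namespace Par

variable {m n : ℕ} (P : Par m n)

theorem inj {s t : ℤ} (h : ND (P.a ℚ s t) (P.b ℚ s t)) : Function.Injective (P.At.e s t) := by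
  refine inj_of_disc ?_
  rcases P.rel s t with ⟨u, c⟩ | ⟨u, c⟩ <;> rw [c.disc] <;>
    refine mul_ne_zero (pow_ne_zero _ c.hu) (nd_iff.1 ?_)
  · exact h
  · exact ⟨h.hd, fun e => h.hb (by linarith)⟩

theorem rank_le {s t : ℤ} {A B u r : ℚ} (c : Chg (P.a ℚ s t) (P.b ℚ s t) 0 0 A B u r)
    (h : ND (P.a ℚ s t) (P.b ℚ s t)) [Module.Finite ℤ (PE (P.At.e s t))] :
    Module.Finite ℤ (Pt 0 A B) ∧
      Module.finrank ℤ (Pt 0 A B) ≤ Module.finrank ℤ (PE (P.At.e s t)) := by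
  obtain ⟨g, hg, -⟩ := c.symm.exists_hom
  obtain ⟨f, hf⟩ : ∃ f : Pt (P.a ℚ s t) (P.b ℚ s t) 0 →+ PE (P.At.e s t),
      ∀ Q, f Q = 0 → 2 • Q = 0 := by
    rcases P.rel s t with ⟨u, c⟩ | ⟨u, c⟩ <;> obtain ⟨f, hf, -⟩ := c.exists_hom
    · exact ⟨f, fun Q e => by rw [(injective_iff_map_eq_zero f).1 hf Q e]; exact nsmul_zero 2⟩
    · obtain ⟨i, -, hi⟩ := exists_isogeny h.hb h.hd
      exact ⟨f.comp i, fun Q e => hi Q ((injective_iff_map_eq_zero f).1 hf _ e)⟩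
  exact fin_of_hom (f.comp g) (fun Q e => (injective_iff_map_eq_zero g).1 hg _
    (by rw [map_nsmul, hf _ e])) (two_tors_finite _ _ _)

theorem lower : ∃ c : ℝ, 0 < c ∧ ∀ Z s t : ℝ, 0 < Z → (Z ≤ |s| ∨ Z ^ P.w ≤ |t|) →
    c * Z ^ (4 * P.d) ≤ P.a ℝ s t ^ 4 + P.b ℝ s t ^ 2 := by
  have hK : IsCompact (Set.Icc ((-1, -1) : ℝ × ℝ) (1, 1) ∩ {x | |x.1| = 1 ∨ |x.2| = 1}) :=
    isCompact_Icc.inter_right ((isClosed_eq (by fun_prop) continuous_const).union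
      (isClosed_eq (by fun_prop) continuous_const))
  obtain ⟨x, hx, hmin⟩ := hK.exists_isMinOn ⟨(1, 1), by simp⟩
    ((P.ga.cont.pow 4).add (P.gb.cont.pow 2)).continuousOn
  refine ⟨P.a ℝ x.1 x.2 ^ 4 + P.b ℝ x.1 x.2 ^ 2, lt_of_le_of_ne (by positivity) fun e => ?_,
    fun Z s t hZ h => ?_⟩
  · have h1 : P.a ℝ x.1 x.2 ^ 4 = 0 := by
      nlinarith [sq_nonneg (P.b ℝ x.1 x.2), sq_nonneg (P.a ℝ x.1 x.2 ^ 2)]
    have h2 : P.b ℝ x.1 x.2 ^ 2 = 0 := by linarith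
    obtain ⟨e1, e2⟩ := P.def0 _ _ (by simpa using h1) (by simpa using h2)
    simpa [e1, e2] using hx.2
  · set τ := |t| ^ ((P.w : ℝ)⁻¹) with hτ
    have h0 : 0 ≤ τ := by positivity
    have h1 : τ ^ P.w = |t| := Real.rpow_inv_natCast_pow (abs_nonneg t) P.hw
    set ρ := max |s| τ with hρ
    have h2 : Z ≤ ρ := h.elim (fun h => h.trans (le_max_left _ _)) fun h =>
      (le_of_pow_le_pow_left₀ P.hw h0 (h1 ▸ h)).trans (le_max_right _ _)
    have h3 : 0 < ρ := hZ.trans_le h2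
    have h4 : |s / ρ| = |s| / ρ := by rw [abs_div, abs_of_pos h3]
    have h5 : |t / ρ ^ P.w| = (τ / ρ) ^ P.w := by rw [abs_div, abs_of_pos (pow_pos h3 _), div_pow, h1]
    have h6 : |s / ρ| ≤ 1 := by rw [h4, div_le_one h3]; exact le_max_left _ _
    have h7 : |t / ρ ^ P.w| ≤ 1 := by
      rw [h5]; exact pow_le_one₀ (by positivity) ((div_le_one h3).2 (le_max_right _ _))
    have h8 := hmin (a := (s / ρ, t / ρ ^ P.w)) ⟨⟨⟨(abs_le.1 h6).1, (abs_le.1 h7).1⟩,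
      (abs_le.1 h6).2, (abs_le.1 h7).2⟩, by
        rcases max_choice |s| τ with e | e
        · left; rw [h4, ← e, div_self h3.ne']
        · right; rw [h5, ← e, div_self h3.ne', one_pow]⟩
    have e1 := P.ga.hom ℝ ρ (s / ρ) (t / ρ ^ P.w)
    have e2 := P.gb.hom ℝ ρ (s / ρ) (t / ρ ^ P.w)
    rw [mul_div_cancel₀ _ h3.ne', mul_div_cancel₀ _ (pow_pos h3 _).ne'] at e1 e2
    rw [e1, e2]
    calc _ ≤ (P.a ℝ (s / ρ) (t / ρ ^ P.w) ^ 4 + P.b ℝ (s / ρ) (t / ρ ^ P.w) ^ 2) * ρ ^ (4 * P.d) :=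
          mul_le_mul h8 (pow_le_pow_left₀ hZ.le h2 _) (by positivity) (by positivity)
      _ = _ := by ring

theorem up (M : ℕ) : ∃ κ : ℕ, 81 ≤ κ ∧ ∀ X Z : ℕ, 1 ≤ Z → X ≤ (M * Z ^ P.d) ^ 6 →
    ∀ c ∈ famS m n X, ∃ x ∈ Box (κ * Z) ((κ * Z) ^ P.w), ∃ u r,
      Chg (P.a ℚ x.1 x.2) (P.b ℚ x.1 x.2) 0 0 c.1 c.2 u r := by
  obtain ⟨c0, hc0, hlow⟩ := P.lower
  refine ⟨⌈(1152 ^ 4 + 479232 ^ 2) * M ^ 4 / c0⌉₊ + 81, by omega, fun X Z hZ hX c hc => ?_⟩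
  set κ := ⌈(1152 ^ 4 + 479232 ^ 2) * M ^ 4 / c0⌉₊ + 81 with hκ
  obtain ⟨hA, hB⟩ := famS_bound hX hc
  set Y : ℕ := M * Z ^ P.d with hY
  obtain ⟨hΔ, -, -, f, hf⟩ := hc
  obtain ⟨r, hr, e, er⟩ := two_pt (P := f P.x0) (fun h => P.hx.1 (hf (h.trans (map_zero f).symm)))
    (by rw [← map_add, P.hx.2, map_zero])
  obtain ⟨r, rfl⟩ := int_of_monic 0 c.1 c.2 (by simpa using er)
  have er' : r ^ 3 + c.1 * r + c.2 = 0 := by
    rw [zero_mul, add_zero] at er; exact_mod_cast er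
  have hr2 : |r| ≤ 2 * Y := by
    by_contra h
    have h1 : |r| ^ 3 ≤ Y ^ 2 * |r| + Y ^ 3 := by
      rw [← abs_pow, show r ^ 3 = -(c.1 * r + c.2) by linarith, abs_neg]
      refine (abs_add_le _ _).trans ?_
      rw [abs_mul]; gcongr
    have h0 : (0 : ℤ) ≤ Y := by positivity
    have h2 : 0 < |r| - 2 * Y := by linarith
    nlinarith [mul_pos h2 (mul_pos h2 h2), mul_nonneg h0 (mul_pos h2 h2).le,
      mul_nonneg (mul_nonneg h0 h0) h2.le, mul_nonneg (mul_nonneg h0 h0) h0]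
  have c1 : Chg (3 * r : ℤ) (c.1 + 3 * r ^ 2 : ℤ) 0 0 c.1 c.2 1 r :=
    ⟨one_ne_zero, by push_cast; ring, by push_cast; ring, by linear_combination er⟩
  obtain ⟨g, hg, hg'⟩ := c1.symm.exists_hom
  obtain ⟨s, t, u, e1, e2, hu⟩ := P.par _ _ (c1.nd.2 hΔ) (g.comp f) (hg.comp hf) (by
    rw [AddMonoidHom.comp_apply, e, hg']; exact some_eq (by simp) (by simp))
  have hu0 : u ≠ 0 := by rintro rfl; norm_num at hu
  refine ⟨(s, t), mem_Box.2 ?_, u, r, hu0, by rw [← e1]; push_cast; ring,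
    by rw [← e2]; push_cast; ring, by linear_combination er⟩
  have b1 : |P.a ℚ s t| ≤ 1152 * Y := by
    have h1 : |((3 * r : ℤ) : ℚ)| ≤ 6 * Y := by
      exact_mod_cast (show |3 * r| ≤ 6 * Y by rw [abs_mul]; norm_num; linarith)
    rw [e1, abs_mul, abs_of_nonneg (sq_nonneg u)] at h1
    nlinarith [abs_nonneg (P.a ℚ s t)]
  have b2 : |P.b ℚ s t| ≤ 479232 * Y ^ 2 := by
    have h1 : |((c.1 + 3 * r ^ 2 : ℤ) : ℚ)| ≤ 13 * Y ^ 2 := by
      have : |c.1 + 3 * r ^ 2| ≤ 13 * (Y : ℤ) ^ 2 := by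
        refine (abs_add_le _ _).trans ?_
        rw [abs_mul, abs_pow]; norm_num
        nlinarith [pow_le_pow_left₀ (abs_nonneg r) hr2 2, sq_abs r]
      exact_mod_cast this
    rw [e2, abs_mul, abs_of_nonneg (by positivity : 0 ≤ u ^ 4)] at h1
    nlinarith [abs_nonneg (P.b ℚ s t), mul_le_mul hu hu zero_le_one (by positivity)]
  have b3 : P.a ℝ s t ^ 4 + P.b ℝ s t ^ 2 ≤ (1152 ^ 4 + 479232 ^ 2) * Y ^ 4 := by
    have h1 := (Rat.cast_le (K := ℝ)).2 (pow_le_pow_left₀ (abs_nonneg _) b1 4)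
    have h2 := (Rat.cast_le (K := ℝ)).2 (pow_le_pow_left₀ (abs_nonneg _) b2 2)
    push_cast at h1 h2
    rw [P.ga.castR, Even.pow_abs (by decide)] at h1
    rw [P.gb.castR, sq_abs] at h2
    linarith
  by_contra hcon
  have hZ0 : (0 : ℝ) < Z := by exact_mod_cast hZ
  have hκ1 : (1152 ^ 4 + 479232 ^ 2) * M ^ 4 / c0 < κ :=
    (Nat.le_ceil _).trans_lt (Nat.cast_lt.2 (by omega))
  have hκ2 : (1 : ℝ) ≤ κ := by exact_mod_cast (by omega : 1 ≤ κ)
  have h1 := (hlow (κ * Z) s t (by positivity) (by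
    rw [not_and_or, not_le, not_le] at hcon
    exact hcon.imp (fun h => by exact_mod_cast h.le) fun h => by exact_mod_cast h.le)).trans b3
  rw [div_lt_iff₀ hc0] at hκ1
  rw [hY, mul_pow] at h1
  push_cast at h1
  rw [mul_pow, ← pow_mul, mul_comm P.d, ← mul_assoc, ← mul_assoc] at h1
  have h2 := le_of_mul_le_mul_right h1 (pow_pos hZ0 _)
  nlinarith [le_self_pow₀ hκ2 (show 4 * P.d ≠ 0 by have := P.hd; omega)]

theorem low : ∃ M N N₀ : ℕ, 1 ≤ M ∧ ∀ X Z : ℕ, M * Z ^ (6 * P.d) ≤ X →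
    Z ^ (1 + P.w) ≤ 4 * (N * (famS m n X).ncard + N₀) := by
  classical
  obtain ⟨C1, h1⟩ := P.ga.upper
  obtain ⟨C2, h2⟩ := P.gb.upper
  set pa := P.a ℚ[X] 1 Polynomial.X
  set pb := P.b ℚ[X] 1 Polynomial.X
  set pA := C 81 * pb - C 27 * pa ^ 2 with hpA
  set pB := C 54 * pa ^ 3 - C 243 * pa * pb with hpB
  refine ⟨4 * (81 * C2 + 27 * C1 ^ 2) ^ 3 + 27 * (54 * C1 ^ 3 + 243 * C1 * C2) ^ 2 + 1,
    3 * pA.natDegree + 2 * pB.natDegree, (pb * (pa ^ 2 - C 4 * pb)).natDegree, by omega,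
    fun X Z hX => ?_⟩
  set S := (Ioc 0 Z ×ˢ Ioc 0 (Z ^ P.w)).filter fun x => x.1.Coprime x.2 with hS
  have hS' : ∀ x ∈ S, (0 < x.1 ∧ x.1.Coprime x.2) ∧ x.1 ≤ Z ∧ x.2 ≤ Z ^ P.w := fun x hx => by
    simp only [hS, mem_filter, mem_product, mem_Ioc] at hx
    tauto
  set G := fun x : ℕ × ℕ => ND (P.a ℚ x.1 x.2) (P.b ℚ x.1 x.2) with hG
  have hde : ∀ x ∈ S, P.a ℚ x.1 x.2 = x.1 ^ P.d * pa.eval ((x.2 : ℚ) / x.1 ^ P.w) ∧
      P.b ℚ x.1 x.2 = x.1 ^ (2 * P.d) * pb.eval ((x.2 : ℚ) / x.1 ^ P.w) := fun x hx => by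
    have : (x.1 : ℚ) ≠ 0 := by exact_mod_cast (hS' x hx).1.1.ne'
    rw [P.ga.eval, P.gb.eval]
    exact ⟨P.ga.dehom this _, P.gb.dehom this _⟩
  have b1 : (S.filter fun x => ¬ G x).card ≤ (pb * (pa ^ 2 - C 4 * pb)).natDegree := by
    refine card_le_roots P.hw (fun x hx => (hS' x (mem_filter.1 hx).1).1) (fun e => ?_)
      fun x hx => ?_
    · obtain ⟨μ, h⟩ := P.gen
      have := congrArg (eval μ) e
      simp only [eval_mul, eval_sub, eval_pow, eval_C, pa, pb, P.ga.eval, P.gb.eval,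
        eval_zero] at this
      exact mul_ne_zero h.hb h.hd this
    · obtain ⟨hx, hx'⟩ := mem_filter.1 hx
      have h0 : (x.1 : ℚ) ≠ 0 := by exact_mod_cast (hS' x hx).1.1.ne'
      obtain ⟨e1, e2⟩ := hde x hx
      simp only [eval_mul, eval_sub, eval_pow, eval_C]
      by_contra h
      refine hx' ⟨?_, ?_⟩
      · rw [e2]; exact mul_ne_zero (pow_ne_zero _ h0) (left_ne_zero_of_mul h)
      · rw [e1, e2, mul_pow, ← pow_mul, mul_comm P.d, mul_left_comm, ← mul_sub]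
        exact mul_ne_zero (pow_ne_zero _ h0) (right_ne_zero_of_mul h)
  have hφ : ∀ x : ℕ × ℕ, ∃ c : ℤ × ℤ, x ∈ S.filter G → c ∈ famS m n X ∧
      (pA ^ 3 * C ((c.2 : ℚ) ^ 2) - C ((c.1 : ℚ) ^ 3) * pB ^ 2).eval
        ((x.2 : ℚ) / x.1 ^ P.w) = 0 := by
    intro x
    by_cases hx : x ∈ S.filter G
    swap
    · exact ⟨0, fun h => absurd h hx⟩
    obtain ⟨hx, hnd⟩ := mem_filter.1 hx
    obtain ⟨⟨hx0, -⟩, hx1, hx2⟩ := hS' x hx
    have hZ : 1 ≤ Z := hx0.trans_le hx1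
    have ba := h1 Z hZ x.1 x.2 (by simpa using hx1) (by simpa using mod_cast hx2)
    have bb := h2 Z hZ x.1 x.2 (by simpa using hx1) (by simpa using mod_cast hx2)
    have ea := P.ga.cast ℚ x.1 x.2
    have eb := P.gb.cast ℚ x.1 x.2
    set a := P.a ℤ x.1 x.2
    set b := P.b ℤ x.1 x.2
    simp only [Int.cast_natCast] at ea eb
    have c0 : Chg (P.a ℚ x.1 x.2) (P.b ℚ x.1 x.2) 0 0 (81 * b - 27 * a ^ 2 : ℤ)
        (54 * a ^ 3 - 243 * a * b : ℤ) 3 (3 * a) := by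
      rw [← ea, ← eb]
      exact ⟨three_ne_zero, by ring, by push_cast; ring, by push_cast; ring⟩
    obtain ⟨g, A, B, hg, e1, e2, hm⟩ := min_exists (81 * b - 27 * a ^ 2) (54 * a ^ 3 - 243 * a * b)
      fun h => c0.nd.1 hnd (by simp [h])
    have hg' : (g : ℚ) ≠ 0 := by exact_mod_cast hg
    have e1' : (A : ℚ) = (81 * b - 27 * a ^ 2) / g ^ 4 := by
      rw [eq_div_iff (by positivity), mul_comm]; exact_mod_cast e1.symm
    have e2' : (B : ℚ) = (54 * a ^ 3 - 243 * a * b) / g ^ 6 := by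
      rw [eq_div_iff (by positivity), mul_comm]; exact_mod_cast e2.symm
    have c1 : Chg (P.a ℚ x.1 x.2) (P.b ℚ x.1 x.2) 0 0 A B (3 / g) (3 * a / g ^ 2) := by
      rw [← ea, ← eb, e1', e2']
      refine ⟨by positivity, ?_, ?_, ?_⟩ <;> field_simp <;> ring
    obtain ⟨f, hf, -⟩ := c1.exists_hom
    refine ⟨(A, B), fun _ => ⟨⟨c1.nd.1 hnd, hm, ?_, (P.tors _ _ hnd).map hf⟩, ?_⟩⟩
    · have hg1 : (1 : ℤ) ≤ g := by omega
      set V : ℤ := Z ^ P.d with hV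
      have hV0 : 0 ≤ V := by positivity
      rw [mul_comm 2, pow_mul] at bb
      have b3 : |A| ≤ (81 * C2 + 27 * C1 ^ 2) * V ^ 2 := by
        refine (le_mul_of_one_le_left (abs_nonneg A) (one_le_pow₀ (n := 4) hg1)).trans ?_
        rw [← abs_of_nonneg (show (0 : ℤ) ≤ g ^ 4 by positivity), ← abs_mul, ← e1]
        refine (abs_sub _ _).trans ?_
        simp only [abs_mul, abs_pow, Nat.abs_ofNat]
        nlinarith [pow_le_pow_left₀ (abs_nonneg a) ba 2]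
      have b4 : |B| ≤ (54 * C1 ^ 3 + 243 * C1 * C2) * V ^ 3 := by
        refine (le_mul_of_one_le_left (abs_nonneg B) (one_le_pow₀ (n := 6) hg1)).trans ?_
        rw [← abs_of_nonneg (show (0 : ℤ) ≤ g ^ 6 by positivity), ← abs_mul, ← e2]
        refine (abs_sub _ _).trans ?_
        simp only [abs_mul, abs_pow, Nat.abs_ofNat]
        nlinarith [pow_le_pow_left₀ (abs_nonneg a) ba 3,
          mul_le_mul ba bb (abs_nonneg b) (by positivity)]
      have b5 := pow_le_pow_left₀ (abs_nonneg A) b3 3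
      have b6 := pow_le_pow_left₀ (abs_nonneg B) b4 2
      have hX' := (Nat.cast_le (α := ℤ)).2 hX
      rw [mul_comm 6, pow_mul] at hX'
      push_cast at hX'
      rw [sq_abs] at b6
      have p1 : (0 : ℤ) ≤ (81 * C2 + 27 * C1 ^ 2) ^ 3 * V ^ 6 := by positivity
      have p2 : (0 : ℤ) ≤ (54 * C1 ^ 3 + 243 * C1 * C2) ^ 2 * V ^ 6 := by positivity
      have p3 : (0 : ℤ) ≤ V ^ 6 := by positivity
      exact max_le (by linarith) (by linarith)
    · obtain ⟨e3, e4⟩ := hde x hx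
      have h0 : (x.1 : ℚ) ≠ 0 := by exact_mod_cast hx0.ne'
      simp only [hpA, hpB, eval_mul, eval_sub, eval_pow, eval_C]
      rw [e1', e2', ea, eb, e3, e4, mul_comm 2, pow_mul]
      field_simp
      ring
  choose φ hφ using hφ
  have b2 : (S.filter G).card ≤ (3 * pA.natDegree + 2 * pB.natDegree) * (famS m n X).ncard := by
    rw [Set.ncard_eq_toFinset_card _ (famS_finite m n X)]
    refine card_le_mul_card_image_of_maps_to (f := φ) (fun x hx => by simpa using (hφ x hx).1) _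
      fun c hc => ?_
    refine (card_le_roots P.hw (fun x hx => (hS' x (mem_filter.1 (mem_filter.1 hx).1).1).1)
      (P := pA ^ 3 * C ((c.2 : ℚ) ^ 2) - C ((c.1 : ℚ) ^ 3) * pB ^ 2) (fun e => ?_)
      fun x hx => (mem_filter.1 hx).2 ▸ (hφ x (mem_filter.1 hx).1).2).trans ?_
    · obtain ⟨μ, h3, h4⟩ := P.cusp
      have := congrArg (eval μ) e
      simp only [hpA, hpB, eval_mul, eval_sub, eval_pow, eval_C, pa, pb, P.ga.eval, P.gb.eval,
        eval_zero, h3] at this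
      have h5 : (4 * c.1 ^ 3 + 27 * c.2 ^ 2 : ℚ) ≠ 0 := by
        exact_mod_cast ((Set.Finite.mem_toFinset _).1 hc).1
      exact mul_ne_zero (pow_ne_zero 6 h4) h5 (by linear_combination -this / 729)
    · refine (natDegree_sub_le _ _).trans (max_le ((natDegree_mul_C_le _ _).trans
        (natDegree_pow_le.trans (by omega))) ((natDegree_C_mul_le _ _).trans
        (natDegree_pow_le.trans (by omega))))
  have b3 : _ ≤ 4 * S.card := count_coprime Z (Z ^ P.w)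
  have b4 := card_filter_add_card_filter_not (s := S) G
  rw [pow_add, pow_one]
  omega

include P in
theorem main : ∃ C : ℕ, (∀ X, (∀ c ∈ famS m n X, Module.Finite ℤ (Pt 0 c.1 c.2)) ∧
    ∑ᶠ c ∈ famS m n X, Module.finrank ℤ (Pt 0 c.1 c.2) ≤ C * (famS m n X).ncard) ∧
    Filter.Tendsto (fun X => (famS m n X).ncard) Filter.atTop Filter.atTop := by
  classical
  obtain ⟨M, N, N₀, hM, hlow⟩ := P.low
  obtain ⟨κ, hκ, hup⟩ := P.up M
  obtain ⟨g, hg⟩ := P.At.growth P.w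
  obtain ⟨C, hC⟩ := P.At.fam.average g
  have hd := P.hd
  refine ⟨⌈C⌉₊ * (9 * κ ^ (1 + P.w) * (2 ^ (1 + P.w) * (4 * (N + N₀) + 1))), fun X => ?_, ?_⟩
  · have hex : ∃ Z, X < M * (Z + 1) ^ (6 * P.d) := ⟨X, lt_of_lt_of_le (Nat.lt_succ_self X)
      ((Nat.le_self_pow (by omega) _).trans (Nat.le_mul_of_pos_left _ hM))⟩
    set Z := Nat.find hex with hZ
    have h1 : X ≤ (M * (Z + 1) ^ P.d) ^ 6 := by
      rw [mul_pow, ← pow_mul, mul_comm P.d]
      exact (Nat.find_spec hex).le.trans (Nat.mul_le_mul_right _ (Nat.le_self_pow (by omega) _))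
    have h2 : M * Z ^ (6 * P.d) ≤ X := by
      rcases Nat.eq_zero_or_eq_succ_pred Z with h | h
      · rw [h, zero_pow (by omega)]; simp
      · rw [h]; exact not_lt.1 (Nat.find_min hex (show Z.pred < Z by omega))
    set T := κ * (Z + 1) with hT
    have hT1 : 81 ≤ T := hκ.trans (Nat.le_mul_of_pos_right _ Z.succ_pos)
    have hTw : T ≤ T ^ P.w := Nat.le_self_pow P.hw T
    obtain ⟨hfin, hsum⟩ := hC T T (T ^ P.w) hT1 le_rfl hTw fun x hx => hg T (by omega) _ _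
      ((mem_Box.1 hx).1.trans (by exact_mod_cast hTw)) (by exact_mod_cast (mem_Box.1 hx).2)
    choose! x hx u r hc using hup X (Z + 1) Z.succ_pos h1
    have hnd : ∀ c ∈ famS m n X, ND (P.a ℚ (x c).1 (x c).2) (P.b ℚ (x c).1 (x c).2) :=
      fun c h => (hc c h).nd.2 h.1
    have hr := fun c (h : c ∈ famS m n X) =>
      have : Module.Finite ℤ (PE (P.At.e (x c).1 (x c).2)) := hfin _ (hx c h) (P.inj (hnd c h))
      P.rank_le (hc c h) (hnd c h)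
    refine ⟨fun c h => (hr c h).1, ?_⟩
    have hF := famS_finite m n X
    rcases (famS m n X).eq_empty_or_nonempty with h0 | h0
    · simp [h0]
    have h3 : 1 ≤ (famS m n X).ncard := (Set.ncard_pos hF).2 h0
    have h4 : ∑ c ∈ hF.toFinset, Module.finrank ℤ (Pt 0 c.1 c.2) ≤
        ⌈C⌉₊ * (Box T (T ^ P.w)).card := by
      rw [← Nat.cast_le (α := ℝ)]
      push_cast
      refine le_trans ?_ (hsum.trans (mul_le_mul_of_nonneg_right (Nat.le_ceil C) (by positivity)))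
      refine (sum_le_sum fun c h => Nat.cast_le.2 (hr c (hF.mem_toFinset.1 h)).2).trans ?_
      rw [← sum_image (f := fun y : ℤ × ℤ => (Module.finrank ℤ (PE (P.At.e y.1 y.2)) : ℝ))
        fun c h c' h' e => ?_]
      · refine sum_le_sum_of_subset_of_nonneg (fun y hy => ?_) fun _ _ _ => by positivity
        obtain ⟨c, h, rfl⟩ := mem_image.1 hy
        have h := hF.mem_toFinset.1 h
        exact mem_filter.2 ⟨hx c h, P.inj (hnd c h)⟩
      · have h := hF.mem_toFinset.1 h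
        have h' := hF.mem_toFinset.1 h'
        obtain ⟨e1, e2⟩ := min_unique (hc c h) (e ▸ hc c' h') h.2.1 h'.2.1
        exact Prod.ext e1 e2
    rw [finsum_mem_eq_finite_toFinset_sum _ hF, mul_assoc]
    refine h4.trans (Nat.mul_le_mul_left _ ?_)
    have h5 : (Box T (T ^ P.w)).card ≤ 9 * κ ^ (1 + P.w) * (Z + 1) ^ (1 + P.w) := by
      rw [card_Box, mul_assoc, ← mul_pow, ← hT, pow_add, pow_one]
      nlinarith [Nat.mul_le_mul (show 2 * T + 1 ≤ 3 * T by omega)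
        (show 2 * T ^ P.w + 1 ≤ 3 * T ^ P.w by omega)]
    have h6 : (Z + 1) ^ (1 + P.w) ≤ 2 ^ (1 + P.w) * (Z ^ (1 + P.w) + 1) := by
      rcases Nat.eq_zero_or_pos Z with h | h
      · rw [h]; simp [Nat.one_le_two_pow]
      · exact (Nat.pow_le_pow_left (show Z + 1 ≤ 2 * Z by omega) _).trans (by
          rw [mul_pow]; exact Nat.mul_le_mul_left _ (Nat.le_succ _))
    have h7 := hlow X Z h2
    refine h5.trans ?_
    rw [mul_assoc (9 * κ ^ (1 + P.w)), mul_assoc (2 ^ (1 + P.w))]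
    refine Nat.mul_le_mul_left _ (h6.trans (Nat.mul_le_mul_left _ ?_))
    nlinarith
  · refine Filter.tendsto_atTop_atTop.2 fun j =>
      ⟨M * (4 * (N * j + N₀) + 1) ^ (6 * P.d), fun X hX => ?_⟩
    have h1 := (Nat.le_self_pow (by omega) _).trans (hlow X (4 * (N * j + N₀) + 1) hX)
    exact le_of_lt (lt_of_mul_lt_mul_left (a := N) (by omega) (Nat.zero_le _))

end Par

end Pool.Agent.Lib.TorsRank
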