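import Mathlib

/-!
The group law on `y ^ 2 = x ^ 3 + a x ^ 2 + b x + c` over `ℚ` through lines; changes of
variables and the 2-isogeny as group homomorphisms.
-/

namespace Pool.Agent.Lib.TorsRank

open WeierstrassCurve WeierstrassCurve.Affine

/-- The curve `y ^ 2 = x ^ 3 + a x ^ 2 + b x + c`. -/
abbrev W (a b c : ℚ) : WeierstrassCurve.Affine ℚ := ⟨0, a, 0, b, c⟩

/-- Its group of rational points. -/
abbrev Pt (a b c : ℚ) := (W a b c).Point

variable {a b c : ℚ}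

theorem ns_iff (x y : ℚ) : (W a b c).Nonsingular x y ↔
    y ^ 2 = x ^ 3 + a * x ^ 2 + b * x + c ∧ (3 * x ^ 2 + 2 * a * x + b ≠ 0 ∨ y ≠ 0) := by
  rw [nonsingular_iff', equation_iff]
  simp only [zero_mul, add_zero, zero_sub, neg_ne_zero, ne_eq, mul_eq_zero, OfNat.ofNat_ne_zero,
    false_or]

theorem ns_eq {x y : ℚ} (h : (W a b c).Nonsingular x y) :
    y ^ 2 = x ^ 3 + a * x ^ 2 + b * x + c := ((ns_iff x y).1 h).1

theorem negY_eq (x y : ℚ) : (W a b c).negY x y = -y := by simp [negY]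

theorem some_eq {x y x' y' : ℚ} {h : (W a b c).Nonsingular x y} {h' : (W a b c).Nonsingular x' y'}
    (hx : x = x') (hy : y = y') : Point.some x y h = Point.some x' y' h' := by
  subst hx hy; rfl

theorem ns_neg {x y : ℚ} (h : (W a b c).Nonsingular x y) : (W a b c).Nonsingular x (-y) := by
  rw [← negY_eq (a := a) (b := b) (c := c) x y]; exact (nonsingular_neg _ _).2 h

theorem neg_some' {x y : ℚ} (h : (W a b c).Nonsingular x y) :
    -Point.some x y h = Point.some x (-y) (ns_neg h) := by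
  rw [Point.neg_some]; exact some_eq rfl (negY_eq _ _)

theorem add_neg_eq {x y x' y' : ℚ} {h : (W a b c).Nonsingular x y}
    {h' : (W a b c).Nonsingular x' y'} (hx : x = x') (hy : y = -y') :
    Point.some x y h + Point.some x' y' h' = 0 :=
  Point.add_of_Y_eq hx (by rw [negY_eq]; exact hy)

/-- `x₁, x₂, x₃` are the abscissae of the intersection with the line `y = l x + n`. -/
structure Line (a b c l n x₁ x₂ x₃ : ℚ) : Prop where
  e1 : x₁ + x₂ + x₃ = l ^ 2 - a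
  e2 : x₁ * x₂ + x₁ * x₃ + x₂ * x₃ = b - 2 * l * n
  e3 : x₁ * x₂ * x₃ = n ^ 2 - c

theorem sum_of_line {l n x₁ x₂ x₃ y₁ y₂ y₃ : ℚ} (h₁ : (W a b c).Nonsingular x₁ y₁)
    (h₂ : (W a b c).Nonsingular x₂ y₂) (h₃ : (W a b c).Nonsingular x₃ y₃)
    (e₁ : y₁ = l * x₁ + n) (e₂ : y₂ = l * x₂ + n) (e₃ : y₃ = l * x₃ + n)
    (L : Line a b c l n x₁ x₂ x₃) :
    Point.some x₁ y₁ h₁ + Point.some x₂ y₂ h₂ + Point.some x₃ y₃ h₃ = 0 := by
  obtain ⟨L1, L2, L3⟩ := L
  have key : ¬(x₁ = x₂ ∧ y₁ = (W a b c).negY x₂ y₂) ∧ (W a b c).slope x₁ x₂ y₁ y₂ = l := by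
    by_cases hx : x₁ = x₂
    · subst hx
      have hy : y₁ = y₂ := e₁.trans e₂.symm
      subst hy
      have hd : 3 * x₁ ^ 2 + 2 * a * x₁ + b = 2 * l * y₁ := by
        rw [e₁]; linear_combination (2 * x₁) * L1 - L2
      have hy0 : y₁ ≠ 0 := by
        intro h0
        rcases ((ns_iff _ _).1 h₁).2 with h | h
        · exact h (by rw [hd, h0, mul_zero])
        · exact h h0
      have hne : y₁ ≠ (W a b c).negY x₁ y₁ := by
        rw [negY_eq]; intro h; exact hy0 (by linarith)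
      refine ⟨fun h => hne h.2, ?_⟩
      rw [slope_of_Y_ne rfl hne, negY_eq]
      simp only [zero_mul, sub_zero, hd]
      field_simp
      ring
    · refine ⟨fun h => hx h.1, ?_⟩
      rw [slope_of_X_ne hx, e₁, e₂, div_eq_iff (sub_ne_zero.2 hx)]
      ring
  rw [Point.add_some key.1]
  refine add_neg_eq ?_ ?_
  · rw [key.2]; simp only [addX]; linarith
  · rw [key.2]; simp only [addY, negY, negAddY, addX]
    rw [e₃, e₁]
    linear_combination l * L1

theorem line_of_sum {x₁ x₂ x₃ y₁ y₂ y₃ : ℚ} {h₁ : (W a b c).Nonsingular x₁ y₁}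
    {h₂ : (W a b c).Nonsingular x₂ y₂} {h₃ : (W a b c).Nonsingular x₃ y₃}
    (h : Point.some x₁ y₁ h₁ + Point.some x₂ y₂ h₂ + Point.some x₃ y₃ h₃ = 0) :
    ∃ l n, y₁ = l * x₁ + n ∧ y₂ = l * x₂ + n ∧ y₃ = l * x₃ + n ∧ Line a b c l n x₁ x₂ x₃ := by
  have hxy : ¬(x₁ = x₂ ∧ y₁ = (W a b c).negY x₂ y₂) := by
    intro h'
    rw [Point.add_of_Y_eq h'.1 h'.2, zero_add] at h
    exact Point.some_ne_zero _ h
  rw [Point.add_some hxy, add_eq_zero_iff_eq_neg, neg_some', Point.some.injEq] at h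
  obtain ⟨hX, hY⟩ := h
  set l := (W a b c).slope x₁ x₂ y₁ y₂ with hl
  simp only [addX, addY, negY, negAddY, zero_mul, add_zero, sub_zero] at hX hY
  have E1 := ns_eq h₁
  have E2 := ns_eq h₂
  have hx3 : x₃ = l ^ 2 - a - x₁ - x₂ := hX.symm
  have h3 : y₃ = l * x₃ + (y₁ - l * x₁) := by rw [hx3]; linarith
  by_cases hx : x₁ = x₂
  · have hne : y₁ ≠ (W a b c).negY x₂ y₂ := fun h => hxy ⟨hx, h⟩
    have hy := Y_eq_of_Y_ne h₁.1 h₂.1 hx hne
    subst hx hy
    rw [slope_of_Y_ne rfl hne, negY_eq] at hl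
    rw [negY_eq] at hne
    have hy0 : y₁ - -y₁ ≠ 0 := sub_ne_zero.2 hne
    simp only [zero_mul, sub_zero] at hl
    rw [eq_div_iff hy0] at hl
    refine ⟨l, y₁ - l * x₁, by ring, by ring, h3, by linarith, ?_, ?_⟩
    · rw [hx3]; linear_combination hl
    · rw [hx3]; linear_combination x₁ * hl - E1
  · rw [slope_of_X_ne hx, eq_div_iff (sub_ne_zero.2 hx)] at hl
    have hy2 : y₂ = l * x₂ + (y₁ - l * x₁) := by linarith
    refine ⟨l, y₁ - l * x₁, by ring, hy2, h3, by linarith, ?_, ?_⟩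
    · apply mul_left_cancel₀ (sub_ne_zero.2 hx)
      rw [hy2] at E2
      rw [hx3]; linear_combination E1 - E2
    · apply mul_left_cancel₀ (sub_ne_zero.2 hx)
      rw [hy2] at E2
      rw [hx3]; linear_combination x₂ * E1 - x₁ * E2

/-- A criterion for additivity. -/
theorem add_of_triples {G H : Type*} [AddCommGroup G] [AddCommGroup H] (f : G → H) (h0 : f 0 = 0)
    (hn : ∀ P, f (-P) = -f P)
    (h3 : ∀ P Q R, P ≠ 0 → Q ≠ 0 → R ≠ 0 → P + Q + R = 0 → f P + f Q + f R = 0) (P Q : G) :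
    f (P + Q) = f P + f Q := by
  rcases eq_or_ne P 0 with rfl | hP
  · simp [h0]
  rcases eq_or_ne Q 0 with rfl | hQ
  · simp [h0]
  rcases eq_or_ne (P + Q) 0 with h | h
  · rw [h, h0, eq_neg_of_add_eq_zero_left h, hn]; simp
  · have := h3 P Q (-(P + Q)) hP hQ (neg_ne_zero.2 h) (by abel)
    rw [hn] at this
    exact (add_neg_eq_zero.1 this).symm

/-- The data of a change of variables `(x, y) ↦ (u ^ 2 x + r, u ^ 3 y)`. -/
structure Chg (a b c a' b' c' u r : ℚ) : Prop where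
  hu : u ≠ 0
  h2 : a' + 3 * r = u ^ 2 * a
  h4 : b' + 2 * a' * r + 3 * r ^ 2 = u ^ 4 * b
  h6 : c' + b' * r + a' * r ^ 2 + r ^ 3 = u ^ 6 * c

variable {a' b' c' u r : ℚ}

theorem Chg.symm (h : Chg a b c a' b' c' u r) : Chg a' b' c' a b c u⁻¹ (-r / u ^ 2) := by
  obtain ⟨hu, h2, h4, h6⟩ := h
  have ha : a = (a' + 3 * r) / u ^ 2 := by rw [h2]; field_simp
  have hb : b = (b' + 2 * a' * r + 3 * r ^ 2) / u ^ 4 := by rw [h4]; field_simp
  have hc : c = (c' + b' * r + a' * r ^ 2 + r ^ 3) / u ^ 6 := by rw [h6]; field_simp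
  refine ⟨inv_ne_zero hu, ?_, ?_, ?_⟩
  · rw [ha]; field_simp; ring
  · rw [ha, hb]; field_simp; ring
  · rw [ha, hb, hc]; field_simp; ring

theorem Chg.ns (h : Chg a b c a' b' c' u r) {x y : ℚ} (hp : (W a b c).Nonsingular x y) :
    (W a' b' c').Nonsingular (u ^ 2 * x + r) (u ^ 3 * y) := by
  obtain ⟨hu, h2, h4, h6⟩ := h
  rw [ns_iff] at hp ⊢
  refine ⟨by linear_combination u ^ 6 * hp.1 - u ^ 4 * x ^ 2 * h2 - u ^ 2 * x * h4 - h6, ?_⟩
  rcases hp.2 with h | h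
  · left
    have : 3 * (u ^ 2 * x + r) ^ 2 + 2 * a' * (u ^ 2 * x + r) + b' =
        u ^ 4 * (3 * x ^ 2 + 2 * a * x + b) := by linear_combination 2 * u ^ 2 * x * h2 + h4
    rw [this]; exact mul_ne_zero (pow_ne_zero _ hu) h
  · right; exact mul_ne_zero (pow_ne_zero _ hu) h

/-- The map on points given by a change of variables. -/
def Chg.fn (h : Chg a b c a' b' c' u r) : Pt a b c → Pt a' b' c'
  | .zero => 0
  | .some _ _ hp => .some _ _ (h.ns hp)

theorem Chg.exists_hom (h : Chg a b c a' b' c' u r) : ∃ f : Pt a b c →+ Pt a' b' c',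
    Function.Injective f ∧ ∀ x y (hp : (W a b c).Nonsingular x y),
      f (.some x y hp) = .some _ _ (h.ns hp) := by
  have hadd := add_of_triples h.fn rfl (by
    rintro (_ | ⟨x, y, hp⟩)
    · rfl
    · rw [neg_some']
      change Point.some _ _ _ = -Point.some _ _ _
      rw [neg_some']; exact some_eq rfl (by ring)) (by
    rintro (_ | ⟨x₁, y₁, h₁⟩) (_ | ⟨x₂, y₂, h₂⟩) (_ | ⟨x₃, y₃, h₃⟩) n1 n2 n3 hs <;>
      try contradiction
    obtain ⟨l, n, e1, e2, e3, L1, L2, L3⟩ := line_of_sum hs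
    obtain ⟨hu, h2, h4, h6⟩ := h
    refine sum_of_line (l := u * l) (n := u ^ 3 * n - u * l * r) _ _ _ (by rw [e1]; ring)
      (by rw [e2]; ring) (by rw [e3]; ring) ⟨?_, ?_, ?_⟩
    · linear_combination u ^ 2 * L1 + h2
    · linear_combination u ^ 4 * L2 + 2 * r * u ^ 2 * L1 - h4 + 2 * r * h2
    · linear_combination u ^ 6 * L3 + r * u ^ 4 * L2 + r ^ 2 * u ^ 2 * L1 + h6 - r * h4 +
        r ^ 2 * h2)
  refine ⟨AddMonoidHom.mk' h.fn hadd, ?_, fun _ _ _ => rfl⟩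
  rw [injective_iff_map_eq_zero]
  rintro (_ | ⟨x, y, hp⟩) h0
  · rfl
  · exact absurd h0 (Point.some_ne_zero _)

theorem iso_ns (hb : b ≠ 0) (hd : a ^ 2 - 4 * b ≠ 0) {x y : ℚ} (hp : (W a b 0).Nonsingular x y)
    (hx : x ≠ 0) :
    (W (-2 * a) (a ^ 2 - 4 * b) 0).Nonsingular (y ^ 2 / x ^ 2) (y * (x ^ 2 - b) / x ^ 2) := by
  have hΔ : (W (-2 * a) (a ^ 2 - 4 * b) 0).Δ ≠ 0 := by
    have : (W (-2 * a) (a ^ 2 - 4 * b) 0).Δ = 256 * b * (a ^ 2 - 4 * b) ^ 2 := by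
      simp only [Δ, b₂, b₄, b₆, b₈]; ring
    rw [this]; positivity
  rw [← equation_iff_nonsingular_of_Δ_ne_zero hΔ, equation_iff]
  have E := ns_eq hp
  simp only [zero_mul, add_zero]
  rw [div_pow, mul_pow, E]
  field_simp
  ring

/-- The 2-isogeny with kernel `(0, 0)`. -/
def isoFn (hb : b ≠ 0) (hd : a ^ 2 - 4 * b ≠ 0) : Pt a b 0 → Pt (-2 * a) (a ^ 2 - 4 * b) 0
  | .zero => 0
  | .some x _ hp => if hx : x = 0 then 0 else .some _ _ (iso_ns hb hd hp hx)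

theorem isoFn_some (hb : b ≠ 0) (hd : a ^ 2 - 4 * b ≠ 0) {x y : ℚ}
    (hp : (W a b 0).Nonsingular x y) (hx : x ≠ 0) :
    isoFn hb hd (.some x y hp) = .some _ _ (iso_ns hb hd hp hx) := by
  simp only [isoFn, dif_neg hx]

theorem isoFn_some0 (hb : b ≠ 0) (hd : a ^ 2 - 4 * b ≠ 0) {x y : ℚ}
    (hp : (W a b 0).Nonsingular x y) (hx : x = 0) : isoFn hb hd (.some x y hp) = 0 := by
  simp only [isoFn, dif_pos hx]

theorem isoFn_triple0 (hb : b ≠ 0) (hd : a ^ 2 - 4 * b ≠ 0) {x₁ x₂ x₃ y₁ y₂ y₃ : ℚ}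
    {h₁ : (W a b 0).Nonsingular x₁ y₁} {h₂ : (W a b 0).Nonsingular x₂ y₂}
    {h₃ : (W a b 0).Nonsingular x₃ y₃}
    (h : Point.some x₁ y₁ h₁ + Point.some x₂ y₂ h₂ + Point.some x₃ y₃ h₃ = 0) (hx : x₃ = 0) :
    isoFn hb hd (.some x₁ y₁ h₁) + isoFn hb hd (.some x₂ y₂ h₂) + isoFn hb hd (.some x₃ y₃ h₃) =
      0 := by
  obtain ⟨l, n, e1, e2, e3, L1, L2, L3⟩ := line_of_sum h
  subst hx
  have hn : n = 0 := by nlinarith
  subst hn
  have hb' : x₁ * x₂ = b := by linarith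
  have hx1 : x₁ ≠ 0 := fun h => hb (by rw [← hb', h, zero_mul])
  have hx2 : x₂ ≠ 0 := fun h => hb (by rw [← hb', h, mul_zero])
  rw [isoFn_some hb hd _ hx1, isoFn_some hb hd _ hx2, isoFn_some0 hb hd _ rfl, add_zero]
  refine add_neg_eq ?_ ?_
  · rw [e1, e2]; field_simp; ring
  · rw [e1, e2, ← hb']; field_simp; ring

theorem exists_isogeny (hb : b ≠ 0) (hd : a ^ 2 - 4 * b ≠ 0) :
    ∃ f : Pt a b 0 →+ Pt (-2 * a) (a ^ 2 - 4 * b) 0,
      (∀ x y (hp : (W a b 0).Nonsingular x y) (hx : x ≠ 0),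
        f (.some x y hp) = .some _ _ (iso_ns hb hd hp hx)) ∧ ∀ P, f P = 0 → 2 • P = 0 := by
  have hadd := add_of_triples (isoFn hb hd) rfl (by
    rintro (_ | ⟨x, y, hp⟩)
    · rfl
    · rw [neg_some']
      by_cases hx : x = 0
      · rw [isoFn_some0 _ _ _ hx, isoFn_some0 _ _ _ hx, neg_zero]
      · rw [isoFn_some _ _ _ hx, isoFn_some _ _ _ hx, neg_some']
        exact some_eq (by ring) (by ring)) (by
    rintro (_ | ⟨x₁, y₁, h₁⟩) (_ | ⟨x₂, y₂, h₂⟩) (_ | ⟨x₃, y₃, h₃⟩) n1 n2 n3 hs <;>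
      try contradiction
    by_cases hx3 : x₃ = 0
    · exact isoFn_triple0 hb hd hs hx3
    by_cases hx2 : x₂ = 0
    · rw [add_right_comm] at hs ⊢
      exact isoFn_triple0 hb hd hs hx2
    by_cases hx1 : x₁ = 0
    · rw [add_rotate] at hs ⊢
      exact isoFn_triple0 hb hd hs hx1
    obtain ⟨l, n, e1, e2, e3, L1, L2, L3⟩ := line_of_sum hs
    have hn : n ≠ 0 := by
      rintro rfl
      exact mul_ne_zero (mul_ne_zero hx1 hx2) hx3 (by linarith)
    have E1 := ns_eq h₁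
    have E2 := ns_eq h₂
    have E3 := ns_eq h₃
    have hX : ∀ {x y : ℚ}, x ≠ 0 → y ^ 2 = x ^ 3 + a * x ^ 2 + b * x + 0 →
        y ^ 2 / x ^ 2 = x + a + b / x := by
      intro x y hx E; rw [E]; field_simp; ring
    have hY : ∀ {x y : ℚ}, x ≠ 0 → y ^ 2 = x ^ 3 + a * x ^ 2 + b * x + 0 → y = l * x + n →
        y * (x ^ 2 - b) / x ^ 2 = (n * l - b) / n * (y ^ 2 / x ^ 2) +
          (n ^ 2 - a * n * l + b * l ^ 2) / n := by
      intro x y hx E e
      field_simp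
      have : n = y - l * x := by linarith
      subst this
      linear_combination (-(y - l * x) * l) * E
    rw [isoFn_some hb hd _ hx1, isoFn_some hb hd _ hx2, isoFn_some hb hd _ hx3]
    refine sum_of_line _ _ _ (hY hx1 E1 e1) (hY hx2 E2 e2) (hY hx3 E3 e3) ?_
    rw [hX hx1 E1, hX hx2 E2, hX hx3 E3]
    have h3 : x₃ = n ^ 2 / (x₁ * x₂) := by field_simp; linarith
    have ha : a = l ^ 2 - (x₁ + x₂ + x₃) := by linarith
    have hb2 : b = x₁ * x₂ + x₁ * x₃ + x₂ * x₃ + 2 * l * n := by linarith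
    rw [ha, hb2, h3]
    refine ⟨?_, ?_, ?_⟩ <;> field_simp <;> ring)
  refine ⟨AddMonoidHom.mk' _ hadd, fun x y hp hx => isoFn_some hb hd hp hx, ?_⟩
  rintro (_ | ⟨x, y, hp⟩) h0
  · exact nsmul_zero 2
  · by_cases hx : x = 0
    · have E := ns_eq hp
      have hy : y = 0 := by rw [hx] at E; nlinarith
      rw [two_nsmul]
      exact add_neg_eq rfl (by rw [hy]; simp)
    · exact absurd ((isoFn_some hb hd hp hx).symm.trans h0) (Point.some_ne_zero _)

/-- A homomorphism whose kernel is killed by two does not decrease the rank. -/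
theorem rank_le_of_hom {G H : Type} [AddCommGroup G] [AddCommGroup H] (f : G →+ H)
    (hf : ∀ P, f P = 0 → 2 • P = 0) : Module.rank ℤ G ≤ Module.rank ℤ H := by
  rw [Module.rank_def]
  refine ciSup_le' fun ⟨s, hs⟩ => ?_
  have : LinearIndependent ℤ fun x : s => f x := by
    replace hs : LinearIndependent ℤ fun x : s => (x : G) := hs
    rw [linearIndependent_iff'] at hs ⊢
    intro t g hg i hi
    have h1 : f (∑ j ∈ t, g j • (j : G)) = 0 := by
      rw [map_sum]; simpa using hg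
    have h2 := hf _ h1
    rw [Finset.smul_sum] at h2
    have h3 := hs t (fun j => 2 * g j) (by
      rw [← h2]; refine Finset.sum_congr rfl fun j _ => ?_
      simp [mul_smul, two_smul]) i hi
    omega
  exact this.cardinal_le_rank

end Pool.Agent.Lib.TorsRank
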