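import Pool.Agent.Lib.MP_6073f3_nt.Curve

/-!
The descent maps `P ↦ x(P) - r` modulo squares, halving of points, and local computations.
-/

namespace Pool.Agent.Lib.TorsRank

open WeierstrassCurve WeierstrassCurve.Affine
open scoped NumberTheorySymbols

variable {a b c : ℚ}

/-- The descent map attached to the root `r`. -/
def dl (r : ℚ) : Pt a b c → ℚ
  | .zero => 1
  | .some x _ _ => if x = r then 3 * r ^ 2 + 2 * a * r + b else x - r

/-- `r` is a simple root of the cubic. -/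
structure Rt (a b c r : ℚ) : Prop where
  h0 : r ^ 3 + a * r ^ 2 + b * r + c = 0
  h1 : 3 * r ^ 2 + 2 * a * r + b ≠ 0

variable {r : ℚ}

theorem dl_some {x y : ℚ} (h : (W a b c).Nonsingular x y) :
    dl r (.some x y h) = if x = r then 3 * r ^ 2 + 2 * a * r + b else x - r := rfl

theorem dl_zero : dl r (0 : Pt a b c) = 1 := rfl

theorem dl_ne (hr : Rt a b c r) (P : Pt a b c) : dl r P ≠ 0 := by
  rcases P with _ | ⟨x, y, h⟩
  · exact one_ne_zero
  · rw [dl_some]; split_ifs with hx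
    exacts [hr.h1, sub_ne_zero.2 hx]

theorem dl_neg (P : Pt a b c) : dl r (-P) = dl r P := by
  rcases P with _ | ⟨x, y, h⟩
  · rfl
  · rw [neg_some']; rfl

theorem dl_triple0 (hr : Rt a b c r) {x₁ x₂ x₃ y₁ y₂ y₃ : ℚ}
    {h₁ : (W a b c).Nonsingular x₁ y₁} {h₂ : (W a b c).Nonsingular x₂ y₂}
    {h₃ : (W a b c).Nonsingular x₃ y₃}
    (h : Point.some x₁ y₁ h₁ + Point.some x₂ y₂ h₂ + Point.some x₃ y₃ h₃ = 0) (hx : x₃ = r) :
    IsSquare (dl r (.some x₁ y₁ h₁) * dl r (.some x₂ y₂ h₂) * dl r (.some x₃ y₃ h₃)) := by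
  obtain ⟨l, n, e1, e2, e3, L1, L2, L3⟩ := line_of_sum h
  subst hx
  have hy : y₃ = 0 := by
    have := ns_eq h₃
    rw [hr.h0] at this
    exact pow_eq_zero_iff two_ne_zero |>.1 this
  have hn : n = -l * x₃ := by linarith
  have key : (x₁ - x₃) * (x₂ - x₃) = 3 * x₃ ^ 2 + 2 * a * x₃ + b := by
    rw [hn] at L2
    linear_combination L2 - 2 * x₃ * L1
  have h1 : x₁ ≠ x₃ := fun h => hr.h1 (by rw [← key, h, sub_self, zero_mul])
  have h2 : x₂ ≠ x₃ := fun h => hr.h1 (by rw [← key, h, sub_self, mul_zero])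
  rw [dl_some, dl_some, dl_some, if_neg h1, if_neg h2, if_pos rfl, key]
  exact ⟨_, rfl⟩

theorem dl_triple (hr : Rt a b c r) (P Q R : Pt a b c) (hP : P ≠ 0) (hQ : Q ≠ 0) (hR : R ≠ 0)
    (hs : P + Q + R = 0) : IsSquare (dl r P * dl r Q * dl r R) := by
  rcases P with _ | ⟨x₁, y₁, h₁⟩
  · contradiction
  rcases Q with _ | ⟨x₂, y₂, h₂⟩
  · contradiction
  rcases R with _ | ⟨x₃, y₃, h₃⟩
  · contradiction
  by_cases hx3 : x₃ = r
  · exact dl_triple0 hr hs hx3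
  by_cases hx2 : x₂ = r
  · rw [add_right_comm] at hs
    rw [mul_right_comm]
    exact dl_triple0 hr hs hx2
  by_cases hx1 : x₁ = r
  · rw [add_rotate] at hs
    rw [mul_rotate]
    exact dl_triple0 hr hs hx1
  obtain ⟨l, n, e1, e2, e3, L1, L2, L3⟩ := line_of_sum hs
  rw [dl_some, dl_some, dl_some, if_neg hx1, if_neg hx2, if_neg hx3]
  exact ⟨l * r + n, by linear_combination L3 - r * L2 + r ^ 2 * L1 - hr.h0⟩

theorem dl_double (hr : Rt a b c r) (Q : Pt a b c) : IsSquare (dl r (Q + Q)) := by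
  rcases eq_or_ne (Q + Q) 0 with h | h
  · rw [h]; exact IsSquare.one
  have hQ : Q ≠ 0 := by rintro rfl; simp at h
  obtain ⟨z, hz⟩ := dl_triple hr Q Q (-(Q + Q)) hQ hQ (neg_ne_zero.2 h) (by abel)
  rw [dl_neg] at hz
  have := dl_ne hr Q
  exact ⟨z / dl r Q, by field_simp; linear_combination hz⟩

/-- A character of `ℚˣ` of order two. -/
def QCh (χ : ℚ → ZMod 2) : Prop := ∀ x y, x ≠ 0 → y ≠ 0 → χ (x * y) = χ x + χ y

theorem QCh.sq {χ : ℚ → ZMod 2} (h : QCh χ) {x : ℚ} (hx : x ≠ 0) (hs : IsSquare x) : χ x = 0 := by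
  obtain ⟨z, rfl⟩ := hs
  have hz : z ≠ 0 := left_ne_zero_of_mul hx
  rw [h z z hz hz, CharTwo.add_self_eq_zero]

/-- The homomorphism to `ZMod 2` given by a root and a character. -/
def dhom (hr : Rt a b c r) {χ : ℚ → ZMod 2} (hχ : QCh χ) : Pt a b c →+ ZMod 2 :=
  AddMonoidHom.mk' (fun P => χ (dl r P)) (add_of_triples (fun P : Pt a b c => χ (dl r P))
    (hχ.sq one_ne_zero IsSquare.one) (fun P => by rw [dl_neg, CharTwo.neg_eq]) fun P Q R hP hQ hR hs => by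
      have h1 := dl_ne hr P
      have h2 := dl_ne hr Q
      have h3 := dl_ne hr R
      rw [← hχ _ _ h1 h2, ← hχ _ _ (mul_ne_zero h1 h2) h3]
      exact hχ.sq (mul_ne_zero (mul_ne_zero h1 h2) h3) (dl_triple hr P Q R hP hQ hR hs))

theorem dhom_apply (hr : Rt a b c r) {χ : ℚ → ZMod 2} (hχ : QCh χ) (P : Pt a b c) :
    dhom hr hχ P = χ (dl r P) := rfl

/-- Parity of the `p`-adic valuation. -/
def vch (p : ℕ) (x : ℚ) : ZMod 2 := (padicValRat p x : ℤ)

theorem vch_qch {p : ℕ} (hp : p.Prime) : QCh (vch p) := by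
  have : Fact p.Prime := ⟨hp⟩
  intro x y hx hy
  simp [vch, padicValRat.mul hx hy]

/-- The sign character. -/
def sch (x : ℚ) : ZMod 2 := if 0 < x then 0 else 1

theorem sch_qch : QCh sch := by
  intro x y hx hy
  unfold sch
  rcases lt_or_gt_of_ne hx with h1 | h1 <;> rcases lt_or_gt_of_ne hy with h2 | h2
  · rw [if_pos (mul_pos_of_neg_of_neg h1 h2), if_neg h1.not_gt, if_neg h2.not_gt]; rfl
  · rw [if_neg (mul_neg_of_neg_of_pos h1 h2).not_gt, if_neg h1.not_gt, if_pos h2]; rfl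
  · rw [if_neg (mul_neg_of_pos_of_neg h1 h2).not_gt, if_pos h1, if_neg h2.not_gt]; rfl
  · rw [if_pos (mul_pos h1 h2), if_pos h1, if_pos h2]; rfl

theorem nat_sq_of_even {n : ℕ} (hn : n ≠ 0) (h : ∀ p, p.Prime → Even (padicValNat p n)) :
    IsSquare n := by
  obtain ⟨u, v, hu, hv, e, hsf⟩ := Nat.sq_mul_squarefree_of_pos (Nat.pos_of_ne_zero hn)
  rcases eq_or_ne u 1 with rfl | h1
  · exact ⟨v, by rw [← e]; ring⟩
  exfalso
  have hp := Nat.minFac_prime h1
  have : Fact u.minFac.Prime := ⟨hp⟩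
  have h2 := h _ hp
  rw [← e, padicValNat.mul (by positivity) hu.ne', padicValNat.pow] at h2
  have h3 : padicValNat u.minFac u = 1 := by
    have := Nat.factorization_eq_one_of_squarefree hsf hp (Nat.minFac_dvd u)
    rwa [Nat.factorization_def _ hp] at this
  rw [h3] at h2
  exact absurd h2 (by simp)

theorem rat_sq_of_vch {x : ℚ} (hx : 0 < x) (h : ∀ p, p.Prime → vch p x = 0) : IsSquare x := by
  have hn : 0 < x.num := Rat.num_pos.2 hx
  have h1 : IsSquare (x.num.natAbs * x.den) := by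
    refine nat_sq_of_even (by positivity) fun p hp => ?_
    have : Fact p.Prime := ⟨hp⟩
    have h2 := h p hp
    rw [vch, ZMod.intCast_zmod_eq_zero_iff_dvd, padicValRat_def, padicValInt] at h2
    rw [padicValNat.mul (by omega) x.den_nz, Nat.even_iff]
    omega
  obtain ⟨z, hz⟩ := h1
  have hd : (x.den : ℚ) ≠ 0 := by exact_mod_cast x.den_nz
  refine ⟨z / x.den, ?_⟩
  have h3 : (x.num : ℚ) * x.den = z * z := by
    have : ((x.num.natAbs * x.den : ℕ) : ℤ) = z * z := by exact_mod_cast hz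
    rw [Nat.cast_mul, Int.natAbs_of_nonneg hn.le] at this
    exact_mod_cast this
  rw [div_mul_div_comm, ← h3]
  field_simp
  exact (Rat.mul_den_eq_num x)

/-- Halving: if all three `x - eᵢ` are squares, the point is a double. -/
theorem halve {e₁ e₂ e₃ : ℚ} (ha : a = -(e₁ + e₂ + e₃)) (hb : b = e₁ * e₂ + e₁ * e₃ + e₂ * e₃)
    (hc : c = -(e₁ * e₂ * e₃)) (hΔ : (W a b c).Δ ≠ 0) {x y : ℚ} (h : (W a b c).Nonsingular x y)
    (h1 : IsSquare (x - e₁)) (h2 : IsSquare (x - e₂)) (h3 : IsSquare (x - e₃)) :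
    ∃ Q : Pt a b c, Q + Q = .some x y h := by
  obtain ⟨α, hα⟩ := h1
  obtain ⟨β, hβ⟩ := h2
  obtain ⟨γ, hγ, hy⟩ : ∃ γ, x - e₃ = γ * γ ∧ y = α * β * γ := by
    obtain ⟨γ, hγ⟩ := h3
    have : y ^ 2 = (α * β * γ) ^ 2 := by
      have e : x ^ 3 + a * x ^ 2 + b * x + c = (x - e₁) * (x - e₂) * (x - e₃) := by
        rw [ha, hb, hc]; ring
      rw [ns_eq h, e, hα, hβ, hγ]; ring
    rcases sq_eq_sq_iff_eq_or_eq_neg.1 this with h | h
    · exact ⟨γ, hγ, h⟩
    · exact ⟨-γ, by rw [hγ]; ring, by rw [h]; ring⟩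
  have e1 : e₁ = x - α * α := by linarith
  have e2 : e₂ = x - β * β := by linarith
  have e3 : e₃ = x - γ * γ := by linarith
  have hQ : (W a b c).Nonsingular (x + (α * β + α * γ + β * γ))
      ((α + β) * (α + γ) * (β + γ)) := by
    rw [← equation_iff_nonsingular_of_Δ_ne_zero hΔ, equation_iff]
    simp only [ha, hb, hc, e1, e2, e3]; ring
  refine ⟨.some _ _ hQ, ?_⟩
  rw [← sub_eq_zero, sub_eq_add_neg, neg_some']
  refine sum_of_line (l := α + β + γ) (n := -(α * β * γ) - (α + β + γ) * x) _ _ _ (by ring)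
    (by ring) (by rw [hy]; ring) ⟨?_, ?_, ?_⟩ <;> simp only [ha, hb, hc, e1, e2, e3] <;> ring

/-! ### Integer computations at an odd prime -/

theorem decomp {p : ℕ} (hp : p.Prime) {m : ℤ} (hm : m ≠ 0) :
    ∃ u : ℤ, m = p ^ padicValInt p m * u ∧ ¬ (p : ℤ) ∣ u := by
  have : Fact p.Prime := ⟨hp⟩
  obtain ⟨u, hu⟩ := padicValInt_dvd (p := p) m
  refine ⟨u, hu, fun ⟨w, hw⟩ => ?_⟩
  have : (p : ℤ) ^ (padicValInt p m + 1) ∣ m := ⟨w, by rw [pow_succ, mul_assoc, ← hw, ← hu]⟩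
  rw [padicValInt_dvd_iff] at this
  omega

theorem val_eq {p : ℕ} (hp : p.Prime) {m u : ℤ} {k : ℕ} (e : m = p ^ k * u)
    (hu : ¬ (p : ℤ) ∣ u) : padicValInt p m = k := by
  have : Fact p.Prime := ⟨hp⟩
  have hu0 : u ≠ 0 := by rintro rfl; exact hu (dvd_zero _)
  have hp0 : (p : ℤ) ^ k ≠ 0 := pow_ne_zero _ (by exact_mod_cast hp.ne_zero)
  rw [e, padicValInt.mul hp0 hu0, padicValInt.eq_zero_of_not_dvd hu]
  simp [padicValInt]

theorem gcd_of_not_dvd {p : ℕ} (hp : p.Prime) {u : ℤ} (hu : ¬ (p : ℤ) ∣ u) : u.gcd p = 1 := by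
  rw [← Int.isCoprime_iff_gcd_eq_one]
  exact ((Nat.prime_iff_prime_int.1 hp).coprime_iff_not_dvd.2 hu).symm

theorem jac_sq {p : ℕ} (hp : p.Prime) {u : ℤ} (hu : ¬ (p : ℤ) ∣ u) : J(u | p) * J(u | p) = 1 := by
  rw [← sq]; exact jacobiSym.sq_one (gcd_of_not_dvd hp hu)

theorem sq_unit {p : ℕ} (hp : p.Prime) {u g : ℤ} {k : ℕ} (e : g ^ 2 = p ^ k * u)
    (hu : ¬ (p : ℤ) ∣ u) : Even k ∧ J(u | p) = 1 := by
  have hP := Nat.prime_iff_prime_int.1 hp
  have hp0 : (p : ℤ) ≠ 0 := hP.ne_zero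
  have hu0 : u ≠ 0 := by rintro rfl; exact hu (dvd_zero _)
  have hg : g ≠ 0 := by
    rintro rfl
    exact mul_ne_zero (pow_ne_zero k hp0) hu0 (by simpa using e.symm)
  obtain ⟨w, hw, hw'⟩ := decomp hp hg
  set m := padicValInt p g
  have h1 : g ^ 2 = p ^ (2 * m) * w ^ 2 := by rw [hw]; ring
  have hw2 : ¬ (p : ℤ) ∣ w ^ 2 := fun h => hw' (hP.dvd_of_dvd_pow h)
  have hk : k = 2 * m := (val_eq hp e hu).symm.trans (val_eq hp h1 hw2)
  refine ⟨⟨m, by omega⟩, ?_⟩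
  rw [e, hk] at h1
  rw [mul_left_cancel₀ (pow_ne_zero _ hp0) h1, sq, jacobiSym.mul_left, jac_sq hp hw']

theorem jac_congr {p : ℕ} {u w : ℤ} (h : (p : ℤ) ∣ u - w) : J(u | p) = J(w | p) :=
  jacobiSym.mod_left' (Int.ModEq.symm (Int.modEq_iff_dvd.2 h))

theorem local_coll {p : ℕ} (hp : p.Prime) {αi αj αl β D F c ul : ℤ} (hj : αj = αi + D * c ^ 2)
    (hl : αl = αi + F * c ^ 2) (hβ : β ^ 2 = αi * αj * αl) (hβ0 : β ≠ 0) (hD0 : D ≠ 0)
    (hD : (p : ℤ) ∣ D) (hF : ¬ (p : ℤ) ∣ F) (hc : (p : ℤ) ∣ αi → ¬ (p : ℤ) ∣ c)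
    (hul : αl = p ^ padicValInt p αl * ul) (hul' : ¬ (p : ℤ) ∣ ul) :
    Even (padicValInt p αl) ∧ Even (padicValInt p αi + padicValInt p αj) ∧
      ((J(ul | p) = 1 ∧ padicValInt p αi = 0) ∨ (J(ul | p) = J(F | p) ∧
        (J(F | p) = -1 → Even (padicValInt p αi + padicValInt p D)))) := by
  have hP := Nat.prime_iff_prime_int.1 hp
  have hne : αi * αj * αl ≠ 0 := hβ ▸ pow_ne_zero _ hβ0
  by_cases hi : (p : ℤ) ∣ αi
  · have hc' := hc hi
    have hc2 : ¬ (p : ℤ) ∣ c ^ 2 := fun h => hc' (hP.dvd_of_dvd_pow h)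
    have hnl : ¬ (p : ℤ) ∣ αl := by
      rw [hl, dvd_add_right hi]
      exact fun h => (hP.dvd_or_dvd h).elim hF hc2
    have hv : padicValInt p αl = 0 := padicValInt.eq_zero_of_not_dvd hnl
    rw [hv, pow_zero, one_mul] at hul
    have hJ : J(ul | p) = J(F | p) := by
      rw [← hul, jac_congr (w := F * c ^ 2) (by rw [hl]; simpa using hi), jacobiSym.mul_left, sq,
        jacobiSym.mul_left, jac_sq hp hc', mul_one]
    obtain ⟨ui, hui, hui'⟩ := decomp hp (left_ne_zero_of_mul (left_ne_zero_of_mul hne))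
    obtain ⟨uj, huj, huj'⟩ := decomp hp (right_ne_zero_of_mul (left_ne_zero_of_mul hne))
    obtain ⟨d, hd, hd'⟩ := decomp hp hD0
    set m := padicValInt p αi
    set m' := padicValInt p αj with hm'
    set k := padicValInt p D
    obtain ⟨he, h1⟩ := sq_unit hp (g := β) (k := m + m') (u := ui * uj * αl)
      (by rw [hβ, hui, huj]; ring)
      (fun h => (hP.dvd_or_dvd h).elim (fun h => (hP.dvd_or_dvd h).elim hui' huj') hnl)
    refine ⟨by simp [hv], he, Or.inr ⟨hJ, fun hm1 => ?_⟩⟩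
    rcases lt_trichotomy m k with h | h | h
    · exfalso
      obtain ⟨t, ht⟩ := Nat.exists_eq_add_of_lt h
      have e : αj = p ^ m * (ui + p ^ (t + 1) * d * c ^ 2) := by
        rw [hj, hui, hd, ht]; ring
      have hdv : (p : ℤ) ∣ p ^ (t + 1) * d * c ^ 2 :=
        ⟨p ^ t * d * c ^ 2, by ring⟩
      have hv' : m' = m := val_eq hp e (by rw [dvd_add_left hdv]; exact hui')
      have hu : uj = ui + p ^ (t + 1) * d * c ^ 2 := by
        rw [hv'] at huj
        exact mul_left_cancel₀ (pow_ne_zero m hP.ne_zero) (huj.symm.trans e)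
      rw [jacobiSym.mul_left, jacobiSym.mul_left, jac_congr (u := uj) (w := ui)
        (by rw [hu]; simpa using hdv), jac_sq hp hui', one_mul, hul, hJ, hm1] at h1
      omega
    · rw [h]; exact ⟨k, rfl⟩
    · obtain ⟨t, ht⟩ := Nat.exists_eq_add_of_lt h
      have e : αj = p ^ k * (p ^ (t + 1) * ui + d * c ^ 2) := by
        rw [hj, hui, hd, ht]; ring
      have hv' : m' = k := val_eq hp e (by
        rw [dvd_add_right ⟨p ^ t * ui, by ring⟩]
        exact fun h => (hP.dvd_or_dvd h).elim hd' hc2)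
      rwa [hv'] at he
  · have hdv : (p : ℤ) ∣ D * c ^ 2 := hD.mul_right _
    have hnj : ¬ (p : ℤ) ∣ αj := by rw [hj, dvd_add_left hdv]; exact hi
    obtain ⟨he, h1⟩ := sq_unit hp (g := β) (k := padicValInt p αl) (u := αi * αj * ul)
      (by rw [hβ]; conv_lhs => rw [hul]
          ring)
      (fun h => (hP.dvd_or_dvd h).elim (fun h => (hP.dvd_or_dvd h).elim hi hnj) hul')
    rw [jacobiSym.mul_left, jacobiSym.mul_left, jac_congr (u := αj) (w := αi)
      (by rw [hj]; simpa using hdv), jac_sq hp hi, one_mul] at h1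
    rw [padicValInt.eq_zero_of_not_dvd hi, padicValInt.eq_zero_of_not_dvd hnj]
    exact ⟨he, by simp, Or.inl ⟨h1, rfl⟩⟩

theorem local_good {p : ℕ} (hp : p.Prime) {αi αj αl β D F c : ℤ} (hj : αj = αi + D * c ^ 2)
    (hl : αl = αi + F * c ^ 2) (hβ : β ^ 2 = αi * αj * αl) (hβ0 : β ≠ 0)
    (hD : ¬ (p : ℤ) ∣ D) (hF : ¬ (p : ℤ) ∣ F) (hc : (p : ℤ) ∣ αi → ¬ (p : ℤ) ∣ c) :
    Even (padicValInt p αi) := by
  have hP := Nat.prime_iff_prime_int.1 hp
  have hne : αi * αj * αl ≠ 0 := hβ ▸ pow_ne_zero _ hβ0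
  by_cases hi : (p : ℤ) ∣ αi
  · have hc2 : ¬ (p : ℤ) ∣ c ^ 2 := fun h => hc hi (hP.dvd_of_dvd_pow h)
    obtain ⟨ui, hui, hui'⟩ := decomp hp (left_ne_zero_of_mul (left_ne_zero_of_mul hne))
    refine (sq_unit hp (g := β) (u := ui * αj * αl) (by
      rw [hβ]; conv_lhs => rw [hui]
      ring) fun h => ?_).1
    rcases hP.dvd_or_dvd h with h | h
    · rcases hP.dvd_or_dvd h with h | h
      · exact hui' h
      · rw [hj, dvd_add_right hi] at h
        exact (hP.dvd_or_dvd h).elim hD hc2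
    · rw [hl, dvd_add_right hi] at h
      exact (hP.dvd_or_dvd h).elim hF hc2
  · simp [padicValInt.eq_zero_of_not_dvd hi]

/-- Rational points of a monic integral cubic have square denominators. -/
theorem int_model {e₁ e₂ e₃ : ℤ} {x y : ℚ} (h : y ^ 2 = (x - e₁) * (x - e₂) * (x - e₃)) :
    ∃ α c β : ℤ, c ≠ 0 ∧ IsCoprime α c ∧ x = α / c ^ 2 ∧ y = β / c ^ 3 ∧
      β ^ 2 = (α - e₁ * c ^ 2) * (α - e₂ * c ^ 2) * (α - e₃ * c ^ 2) := by
  have hd : (x.den : ℚ) ≠ 0 := by exact_mod_cast x.den_nz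
  have hx : x = x.num / x.den := (Rat.num_div_den x).symm
  have hco : IsCoprime x.num (x.den : ℤ) := Int.isCoprime_iff_gcd_eq_one.2 x.reduced
  set N := (x.num - e₁ * x.den) * (x.num - e₂ * x.den) * (x.num - e₃ * x.den) with hN
  have h1 : ((x.den * N : ℤ) : ℚ) = (y * x.den ^ 2) ^ 2 := by
    have := Rat.mul_den_eq_num x
    rw [mul_pow, h, hN]; push_cast
    rw [← this]; ring
  obtain ⟨g, hg⟩ : IsSquare (x.den * N : ℤ) := by
    rw [← Rat.isSquare_intCast_iff, h1]; exact IsSquare.sq _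
  have hc : ∀ e : ℤ, IsCoprime (x.den : ℤ) (x.num - e * x.den) := fun e => by
    have := hco.symm.add_mul_right_right (-e)
    rwa [neg_mul, ← sub_eq_add_neg] at this
  obtain ⟨c, hc2⟩ := Int.sq_of_isCoprime (((hc e₁).mul_right (hc e₂)).mul_right (hc e₃))
    (hg.trans (sq g).symm)
  have hc3 : (x.den : ℤ) = c ^ 2 := hc2.resolve_right fun h => by
    have : (0 : ℤ) < x.den := by exact_mod_cast x.den_pos
    nlinarith [sq_nonneg c]
  have hc0 : c ≠ 0 := by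
    rintro rfl
    have : (0 : ℤ) < x.den := by exact_mod_cast x.den_pos
    simp at hc3
  have hcq : (c : ℚ) ≠ 0 := by exact_mod_cast hc0
  have hdq : (x.den : ℚ) = c ^ 2 := by exact_mod_cast hc3
  have h2 : (N : ℚ) = (y * c ^ 3) ^ 2 := by
    push_cast at h1
    rw [hdq] at h1
    apply mul_left_cancel₀ (pow_ne_zero 2 hcq)
    linear_combination h1
  obtain ⟨β, hβ⟩ : ∃ β : ℤ, (β : ℚ) = y * c ^ 3 := by
    obtain ⟨β, hβ⟩ : IsSquare N := by
      rw [← Rat.isSquare_intCast_iff, h2]; exact IsSquare.sq _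
    have : (y * c ^ 3) ^ 2 = (β : ℚ) ^ 2 := by rw [← h2, hβ]; push_cast; ring
    rcases sq_eq_sq_iff_eq_or_eq_neg.1 this with h | h
    · exact ⟨β, h.symm⟩
    · exact ⟨-β, by rw [h]; simp⟩
  refine ⟨x.num, c, β, hc0, ?_, by rw [← hdq]; exact hx, by rw [hβ]; field_simp, ?_⟩
  · rw [hc3] at hco
    exact IsCoprime.of_mul_right_left (by rwa [sq] at hco)
  · rw [← hc3, ← hN]
    exact_mod_cast (show (β : ℚ) ^ 2 = N by rw [hβ, h2])

end Pool.Agent.Lib.TorsRank
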