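import Pool.Agent.Lib.MP_6073f3_nt.Curve

/-!
The approximate parallelogram law and the reduction of the rank bound to `G / 2 G`.
-/

namespace Pool.Agent.Lib.TorsRank

open WeierstrassCurve WeierstrassCurve.Affine Height

variable {a b c : ℚ}

/-- The addition-and-subtraction map on coordinate vectors. -/
noncomputable def asm (a b c : ℚ) (v : Fin 3 → ℚ) : Fin 3 → ℚ :=
  fun i => (addSubMap (W a b c) i).eval v

theorem asm_eq (s t u : ℚ) : asm a b c ![s, t, u] =
    ![s ^ 2 - 2 * b * s * u - 4 * c * t * u - (4 * a * c - b ^ 2) * u ^ 2,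
      2 * t * s + 4 * a * s * u + 2 * b * t * u + 4 * c * u ^ 2, t ^ 2 - 4 * s * u] := by
  funext i
  fin_cases i <;> simp [asm, addSubMap, b₂, b₄, b₆, b₈]

theorem sym_double {x y : ℚ} (h : (W a b c).Nonsingular x y) :
    ∃ k : ℚ, k ≠ 0 ∧ asm a b c ((Point.some x y h).sym2x (.some x y h)) =
      k • (Point.some x y h + Point.some x y h).sym2x 0 := by
  have E := ns_eq h
  rw [Point.sym2x_some_some, asm_eq]
  by_cases hy : y = 0
  · subst hy
    have hd : 3 * x ^ 2 + 2 * a * x + b ≠ 0 := ((ns_iff _ _).1 h).2.resolve_right (by simp)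
    refine ⟨(3 * x ^ 2 + 2 * a * x + b) ^ 2, pow_ne_zero _ hd, ?_⟩
    rw [add_neg_eq rfl (by simp), Point.sym2x_zero_zero]
    funext i
    fin_cases i <;> simp
    · linear_combination (8 * x + 4 * a) * E
    · linear_combination (-4) * E
    · ring
  · have hne : y ≠ (W a b c).negY x y := by
      rw [negY_eq]; intro h; exact hy (by linarith)
    refine ⟨4 * y ^ 2, by positivity, ?_⟩
    rw [Point.add_self_of_Y_ne hne, Point.sym2x_some_zero, slope_of_Y_ne rfl hne, negY_eq]
    have h2 : y - -y ≠ 0 := by intro h; exact hy (by linarith)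
    funext i
    fin_cases i <;> simp [addX]
    · field_simp
      linear_combination (4 * (8 * x + 4 * a)) * E
    · linear_combination (-4) * E
    · ring

theorem sym_add_sub (P Q : Pt a b c) :
    ∃ k : ℚ, k ≠ 0 ∧ asm a b c (P.sym2x Q) = k • (P + Q).sym2x (P - Q) := by
  rcases P with _ | ⟨x₁, y₁, h₁⟩
  · refine ⟨1, one_ne_zero, ?_⟩
    rw [← Point.zero_def, zero_add, zero_sub, Point.sym2x_neg_right, one_smul]
    rcases Q with _ | ⟨x₂, y₂, h₂⟩
    · rw [← Point.zero_def, Point.sym2x_zero_zero, asm_eq]; simp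
    · rw [Point.sym2x_zero_some, Point.sym2x_some_some, asm_eq]
      funext i; fin_cases i <;> simp <;> ring
  rcases Q with _ | ⟨x₂, y₂, h₂⟩
  · refine ⟨1, one_ne_zero, ?_⟩
    rw [← Point.zero_def, add_zero, sub_zero, one_smul, Point.sym2x_some_zero,
      Point.sym2x_some_some, asm_eq]
    funext i; fin_cases i <;> simp <;> ring
  by_cases hx : x₁ = x₂
  · rcases Point.X_eq_iff.1 hx with h | h
    · rw [← h, sub_self]; exact sym_double h₁
    · have h' : Point.some x₂ y₂ h₂ = -Point.some x₁ y₁ h₁ := by rw [h, neg_neg]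
      rw [h', Point.sym2x_neg_right, add_neg_cancel, sub_neg_eq_add, Point.sym2x_comm 0]
      exact sym_double h₁
  · have hx' : x₁ - x₂ ≠ 0 := sub_ne_zero.2 hx
    refine ⟨(x₁ - x₂) ^ 2, pow_ne_zero _ hx', ?_⟩
    have E1 := ns_eq h₁
    have E2 := ns_eq h₂
    rw [sub_eq_add_neg (Point.some x₁ y₁ h₁), neg_some', Point.add_of_X_ne hx,
      Point.add_of_X_ne hx, Point.sym2x_some_some, Point.sym2x_some_some, slope_of_X_ne hx,
      slope_of_X_ne hx, asm_eq]
    funext i
    fin_cases i <;> simp [addX]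
    · field_simp
      have e1 : y₁ ^ 4 = (x₁ ^ 3 + a * x₁ ^ 2 + b * x₁ + c) ^ 2 := by rw [← E1]; ring
      have e2 : y₂ ^ 4 = (x₂ ^ 3 + a * x₂ ^ 2 + b * x₂ + c) ^ 2 := by rw [← E2]; ring
      have e3 : y₁ ^ 2 * y₂ ^ 2 = (x₁ ^ 3 + a * x₁ ^ 2 + b * x₁ + c) *
        (x₂ ^ 3 + a * x₂ ^ 2 + b * x₂ + c) := by rw [← E1, ← E2]
      linear_combination (-1) * e1 - e2 + 2 * e3 +
        2 * (x₁ - x₂) ^ 2 * (a + x₁ + x₂) * (E1 + E2)
    · field_simp
      linear_combination (-2) * (E1 + E2)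
    · ring

theorem fg_of_finiteIndex (hΔ : (W a b c).Δ ≠ 0)
    (h2 : (nsmulAddMonoidHom (α := Pt a b c) 2).range.FiniteIndex) : AddGroup.FG (Pt a b c) := by
  have : (W a b c).IsElliptic := ⟨isUnit_iff_ne_zero.2 hΔ⟩
  obtain ⟨C₁, hC₁⟩ := abs_logHeight_addSubMap_sub_two_mul_logHeight_le (W a b c)
  obtain ⟨C₂, hC₂⟩ := abs_logHeight_sym2_sub_le ℚ
  have hs : ∀ P Q : Pt a b c,
      |logHeight (P.sym2x Q) - (logHeight P.xRep + logHeight Q.xRep)| ≤ C₂ := by
    intro P Q
    have e : ∀ P : Pt a b c, ![P.xRep 0, P.xRep 1] = P.xRep := fun P => by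
      funext i; fin_cases i <;> rfl
    have := hC₂ (a := P.xRep 0) (b := P.xRep 1) (c := Q.xRep 0) (d := Q.xRep 1)
      (by rw [e]; exact P.xRep_ne_zero) (by rw [e]; exact Q.xRep_ne_zero)
    rw [e, e] at this
    exact this
  have : Northcott fun P : Pt a b c => logHeight P.xRep := ⟨fun B => by
    have hf := NumberField.finite_setOfPred_logHeight₁_le ℚ B
    have hfin : (insert ![1, 0] ((fun x : ℚ => ![x, 1]) '' {x | logHeight₁ x ≤ B})).Finite :=
      (hf.image _).insert _
    refine (hfin.preimage' (f := fun P : Pt a b c => P.xRep) fun v _ => ?_).subset ?_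
    · rcases Set.eq_empty_or_nonempty ((fun P : Pt a b c => P.xRep) ⁻¹' {v}) with h | ⟨P, hP⟩
      · rw [h]; exact Set.finite_empty
      · refine (Set.toFinite {P, -P}).subset fun Q hQ => ?_
        exact Point.eq_or_eq_neg_of_xRep_eq_xRep (hQ.trans hP.symm)
    · rintro (_ | ⟨x, y, h⟩) hP
      · exact Or.inl rfl
      · refine Or.inr ⟨x, ?_, rfl⟩
        change logHeight₁ x ≤ B
        rw [logHeight₁_eq_logHeight]; exact hP⟩
  refine AddCommGroup.fg_of_descent' (h := fun P : Pt a b c => logHeight P.xRep)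
    (C := C₁ + 3 * C₂) h2 (fun P => logHeight_nonneg _) fun P Q => ?_
  obtain ⟨k, hk, e⟩ := sym_add_sub P Q
  have h1 := hC₁ (P.sym2x Q)
  change |logHeight (asm a b c (P.sym2x Q)) - _| ≤ _ at h1
  rw [e, logHeight_smul_eq_logHeight _ hk] at h1
  have h3 := hs P Q
  have h4 := hs (P + Q) (P - Q)
  rw [abs_le] at *
  constructor <;> linarith [h1.1, h1.2, h3.1, h3.2, h4.1, h4.2]

/-- For a finitely generated group, `2 ^ rank ≤ [G : 2 G]`. -/
theorem two_pow_finrank_le {G : Type} [AddCommGroup G] [Module.Finite ℤ G]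
    (h2 : (nsmulAddMonoidHom (α := G) 2).range.FiniteIndex) :
    2 ^ Module.finrank ℤ G ≤ (nsmulAddMonoidHom (α := G) 2).range.index := by
  rw [← finrank_quotient_torsion_eq]
  set T := (AddCommGroup.torsion G).toIntSubmodule with hT
  have : Module.IsTorsionFree ℤ (G ⧸ T) := by
    have : IsAddTorsionFree (G ⧸ T) :=
      inferInstanceAs (IsAddTorsionFree (G ⧸ AddCommGroup.torsion G))
    infer_instance
  have : Module.Free ℤ (G ⧸ T) := Module.free_of_finite_type_torsion_free'
  set n := Module.finrank ℤ (G ⧸ T)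
  let bs := Module.finBasis ℤ (G ⧸ T)
  let f : G →+ (Fin n → ZMod 2) :=
    { toFun := fun g i => (bs.repr (T.mkQ g) i : ZMod 2)
      map_zero' := by funext i; simp
      map_add' := fun g h => by funext i; simp }
  have hf : Function.Surjective f := by
    intro v
    obtain ⟨g, hg⟩ := T.mkQ_surjective (bs.equivFun.symm fun i => ((v i).val : ℤ))
    refine ⟨g, funext fun i => ?_⟩
    change ((bs.repr (T.mkQ g) i : ℤ) : ZMod 2) = v i
    rw [hg, ← Module.Basis.equivFun_apply, LinearEquiv.apply_symm_apply]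
    simp
  have hle : (nsmulAddMonoidHom (α := G) 2).range ≤ f.ker := by
    rintro _ ⟨g, rfl⟩
    rw [AddMonoidHom.mem_ker, nsmulAddMonoidHom_apply, map_nsmul]
    funext i
    simp [CharTwo.two_eq_zero]
  have h3 := AddSubgroup.index_antitone hle
  rw [AddSubgroup.index_ker, AddMonoidHom.range_eq_top.2 hf] at h3
  simpa using h3

end Pool.Agent.Lib.TorsRank
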