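import Pool.Agent.Lib.MP_6073f3_nt.Descent
import Pool.Agent.Lib.MP_6073f3_nt.Mordell

/-!
Complete 2-descent: the rank of `y ^ 2 = (x - e₀)(x - e₁)(x - e₂)` is bounded by a combinatorial
Selmer set attached to a set of visible primes and by the number of remaining bad primes.
-/

namespace Pool.Agent.Lib.TorsRank

open WeierstrassCurve WeierstrassCurve.Affine Finset
open scoped NumberTheorySymbols

/-- Labels of primes: the index of the non-colliding root and the splitting sign. -/
abbrev Lab := Option (Fin 3 × Bool)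

/-- The directed symbol between two labelled primes. -/
def ds (x y : Lab) (p q : ℕ) : ℤ :=
  match x, y with
  | some u, some v => if v.1 < u.1 then J(q | p) else if u.1 < v.1 then J(p | q) else 1
  | _, _ => 1

/-- The sign of a label. -/
def sgn : Lab → ℤ
  | some u => if u.2 then 1 else -1
  | none => 1

/-- The combinatorial Selmer set. -/
def Sel {ι : Type} [Fintype ι] [DecidableEq ι] (q : ι → ℕ) (τ : ι → Lab) : Finset (ι → Bool) :=
  univ.filter fun a => (∀ i, τ i = none → a i = false) ∧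
    ∀ i, ∏ j, (if a j then ds (τ i) (τ j) (q i) (q j) else 1) = if a i then sgn (τ i) else 1

def ea (e : Fin 3 → ℤ) : ℚ := -(e 0 + e 1 + e 2)
def eb (e : Fin 3 → ℤ) : ℚ := e 0 * e 1 + e 0 * e 2 + e 1 * e 2
def ec (e : Fin 3 → ℤ) : ℚ := -(e 0 * e 1 * e 2)

/-- The group of points of the curve with roots `e`. -/
abbrev PE (e : Fin 3 → ℤ) := Pt (ea e) (eb e) (ec e)

/-- Exactly the two roots other than `e l` collide modulo `p`. -/
def Coll (e : Fin 3 → ℤ) (p : ℕ) (l : Fin 3) : Prop :=
  (p : ℤ) ∣ e (l + 1) - e (l + 2) ∧ ¬ (p : ℤ) ∣ e (l + 1) - e l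

/-- Primes which do not contribute to the descent. -/
def Neu (e : Fin 3 → ℤ) (p : ℕ) : Prop :=
  (∀ l : Fin 3, ¬ (p : ℤ) ∣ e (l + 1) - e (l + 2)) ∨
    ∃ l, Coll e p l ∧ J(e (l + 1) - e l | p) = -1 ∧ Even (padicValInt p (e (l + 1) - e (l + 2)))

/-- Active primes. -/
def Act (e : Fin 3 → ℤ) (p : ℕ) (u : Fin 3 × Bool) : Prop :=
  Coll e p u.1 ∧ J(e (u.1 + 1) - e u.1 | p) = sgn (some u) ∧
    (u.2 = true ∨ Odd (padicValInt p (e (u.1 + 1) - e (u.1 + 2))))

variable {e : Fin 3 → ℤ}

theorem cubic_eq (l : Fin 3) (x : ℚ) : x ^ 3 + ea e * x ^ 2 + eb e * x + ec e =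
    (x - e (l + 1)) * (x - e (l + 2)) * (x - e l) := by
  fin_cases l <;> simp [ea, eb, ec] <;> ring

theorem sub_ne (he : Function.Injective e) {i j : Fin 3} (h : i ≠ j) : (e i : ℚ) - e j ≠ 0 := by
  rw [sub_ne_zero]; exact_mod_cast he.ne h

theorem rt (he : Function.Injective e) (l : Fin 3) : Rt (ea e) (eb e) (ec e) (e l) := by
  refine ⟨by rw [cubic_eq l]; simp, ?_⟩
  have : 3 * (e l : ℚ) ^ 2 + 2 * ea e * e l + eb e = (e l - e (l + 1)) * (e l - e (l + 2)) := by
    fin_cases l <;> simp [ea, eb] <;> ring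
  rw [this]
  exact mul_ne_zero (sub_ne he (by fin_cases l <;> simp)) (sub_ne he (by fin_cases l <;> simp))

theorem disc_ne (he : Function.Injective e) : (W (ea e) (eb e) (ec e)).Δ ≠ 0 := by
  have : (W (ea e) (eb e) (ec e)).Δ =
      16 * (((e 0 : ℚ) - e 1) * (e 0 - e 2) * (e 1 - e 2)) ^ 2 := by
    simp only [Δ, b₂, b₄, b₆, b₈, ea, eb, ec]; ring
  rw [this]
  have h1 := sub_ne he (show (0 : Fin 3) ≠ 1 by decide)
  have h2 := sub_ne he (show (0 : Fin 3) ≠ 2 by decide)
  have h3 := sub_ne he (show (1 : Fin 3) ≠ 2 by decide)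
  positivity

theorem tors_ns (he : Function.Injective e) (l : Fin 3) :
    (W (ea e) (eb e) (ec e)).Nonsingular (e l) 0 :=
  (ns_iff _ _).2 ⟨by rw [(rt he l).h0]; simp, Or.inl (rt he l).h1⟩

theorem two_tors (he : Function.Injective e) {P : PE e} (h : P + P = 0) :
    P = 0 ∨ ∃ l, P = .some _ _ (tors_ns he l) := by
  rcases P with _ | ⟨x, y, hp⟩
  · exact Or.inl rfl
  · rw [add_eq_zero_iff_eq_neg, neg_some', Point.some.injEq] at h
    have hy : y = 0 := by linarith [h.2]
    have E := ns_eq hp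
    rw [cubic_eq 0, hy] at E
    have E' := E.symm
    simp only [ne_eq, OfNat.ofNat_ne_zero, not_false_eq_true, zero_pow, mul_eq_zero,
      sub_eq_zero] at E'
    rcases E' with (h | h) | h <;> exact Or.inr ⟨_, some_eq h hy⟩

theorem pt_local {P : PE e} (h : P + P ≠ 0) : ∃ (α : Fin 3 → ℤ) (c β : ℤ), c ≠ 0 ∧ β ≠ 0 ∧
    (∀ i, dl (e i) P = α i / c ^ 2) ∧ (∀ i j, α j = α i + (e i - e j) * c ^ 2) ∧
    (∀ l, β ^ 2 = α (l + 1) * α (l + 2) * α l) ∧
    ∀ p : ℕ, p.Prime → ∀ i, (p : ℤ) ∣ α i → ¬ (p : ℤ) ∣ c := by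
  rcases P with _ | ⟨x, y, hp⟩
  · exact absurd (add_zero _) h
  have hy : y ≠ 0 := by
    rintro rfl
    exact h (add_neg_eq rfl (by simp))
  have E := ns_eq hp
  obtain ⟨α, c, β, hc, hco, hx, hy', hβ⟩ := int_model (E.trans (cubic_eq 2 x))
  have hcq : (c : ℚ) ≠ 0 := by exact_mod_cast hc
  refine ⟨fun i => α - e i * c ^ 2, c, β, hc, ?_, fun i => ?_, fun i j => by ring, fun l => ?_,
    fun p hp i h1 h2 => ?_⟩
  · rintro rfl; simp at hy'; exact hy hy'
  · have hne : x ≠ e i := by
      rintro rfl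
      rw [cubic_eq i] at E
      simp at E; exact hy E
    rw [dl_some, if_neg hne, hx]; push_cast; field_simp
  · rw [hβ]; fin_cases l <;> simp <;> ring
  · have h3 : (p : ℤ) ∣ α := by
      have := h1.add (((h2.pow two_ne_zero)).mul_left (e i))
      simpa using this
    exact (Nat.prime_iff_prime_int.1 hp).not_isUnit (hco.isUnit_of_dvd' h3 h2)

theorem vch_div {p : ℕ} (hp : p.Prime) {m c : ℤ} (hm : m ≠ 0) (hc : c ≠ 0) :
    vch p (m / c ^ 2) = (padicValInt p m : ZMod 2) := by
  have hmq : (m : ℚ) ≠ 0 := by exact_mod_cast hm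
  have hcq : (c : ℚ) ≠ 0 := by exact_mod_cast hc
  rw [div_eq_mul_inv, vch_qch hp _ _ hmq (by positivity), (vch_qch hp).sq (x := ((c : ℚ) ^ 2)⁻¹)
    (by positivity) ⟨c⁻¹, by field_simp⟩]
  simp [vch]

/-- Parity of the valuation of the `i`-th descent map. -/
def vh (he : Function.Injective e) (i : Fin 3) (p : ℕ) : PE e →+ ZMod 2 :=
  if hp : p.Prime then dhom (rt he i) (vch_qch hp) else 0

theorem vh_apply (he : Function.Injective e) (i : Fin 3) {p : ℕ} (hp : p.Prime) (P : PE e) :
    vh he i p P = vch p (dl (e i) P) := by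
  rw [vh, dif_pos hp, dhom_apply]

theorem hom_zero {G : Type} [AddCommGroup G] {Q : G} (hQ : Q + Q ≠ 0) (f : G →+ ZMod 2)
    (h : ∀ P, P + P ≠ 0 → f P = 0) (P : G) : f P = 0 := by
  by_cases hP : P + P = 0
  · have h1 := h (P + Q) (by rwa [add_add_add_comm, hP, zero_add])
    rwa [map_add, h Q hQ, add_zero] at h1
  · exact h P hP

theorem fin3_cases (l i : Fin 3) : i = l ∨ i = l + 1 ∨ i = l + 2 := by
  revert l i; decide

theorem cast_even {n : ℕ} (h : Even n) : (n : ZMod 2) = 0 := (ZMod.natCast_eq_zero_iff_even).2 h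

/-- The local information at a prime with one collision. -/
theorem coll_pt (he : Function.Injective e) {p : ℕ} (hp : p.Prime) {l : Fin 3} (hl : Coll e p l)
    {P : PE e} (h : P + P ≠ 0) : vh he l p P = 0 ∧ vh he (l + 2) p P = vh he (l + 1) p P ∧
      ∃ s : ℤ, (∀ n : ℤ, ¬ (p : ℤ) ∣ n → IsSquare (dl (e l) P * n) → J(n | p) = s) ∧
        ((s = 1 ∧ vh he (l + 1) p P = 0) ∨ (s = J(e (l + 1) - e l | p) ∧ (s = -1 →
          vh he (l + 1) p P = (padicValInt p (e (l + 1) - e (l + 2)) : ZMod 2)))) := by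
  obtain ⟨α, c, β, hc, hβ, hd, hα, hsq, hco⟩ := pt_local h
  have hne : ∀ i, α i ≠ 0 := fun i h0 => by
    have := hsq i
    rw [h0, mul_zero] at this
    exact pow_ne_zero 2 hβ this
  have hv : ∀ i, vh he i p P = (padicValInt p (α i) : ZMod 2) := fun i => by
    rw [vh_apply he i hp, hd, vch_div hp (hne i) hc]
  obtain ⟨ul, hul, hul'⟩ := decomp hp (hne l)
  obtain ⟨h1, h2, h3⟩ := local_coll hp (hα (l + 1) (l + 2)) (hα (l + 1) l) (hsq l) hβ
    (sub_ne_zero.2 (he.ne (by fin_cases l <;> simp))) hl.1 hl.2 (hco p hp _) hul hul'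
  have two : ∀ {x y : ℕ}, Even (x + y) → (y : ZMod 2) = x := fun {x y} h => by
    have := cast_even h
    push_cast at this
    rw [← CharTwo.neg_eq (x : ZMod 2)]
    exact eq_neg_of_add_eq_zero_right this
  refine ⟨by rw [hv, cast_even h1], by rw [hv, hv, two h2], J(ul | p), fun n hn hs => ?_, ?_⟩
  · have hcq : (c : ℚ) ≠ 0 := by exact_mod_cast hc
    obtain ⟨g, hg⟩ : IsSquare (α l * n) := by
      rw [← Rat.isSquare_intCast_iff]
      obtain ⟨z, hz⟩ := hs
      rw [hd] at hz
      exact ⟨z * c, by push_cast; field_simp at hz; linear_combination hz⟩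
    have h4 := (sq_unit hp (g := g) (k := padicValInt p (α l)) (u := ul * n) (by
      rw [sq, ← hg]; conv_lhs => rw [hul]
      ring) fun h => ((Nat.prime_iff_prime_int.1 hp).dvd_or_dvd h).elim hul' hn).2
    rw [jacobiSym.mul_left] at h4
    have h5 := jac_sq hp hul'
    calc J(n | p) = J(ul | p) * J(ul | p) * J(n | p) := by rw [h5, one_mul]
      _ = J(ul | p) := by rw [mul_assoc, h4, mul_one]
  · rcases h3 with ⟨h3, h4⟩ | ⟨h3, h4⟩
    · exact Or.inl ⟨h3, by rw [hv, h4]; simp⟩
    · exact Or.inr ⟨h3, fun h5 => by rw [hv, two (h4 (h3 ▸ h5))]⟩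

theorem neu_pt (he : Function.Injective e) {p : ℕ} (hp : p.Prime) (hn : Neu e p) {P : PE e}
    (h : P + P ≠ 0) (i : Fin 3) : vh he i p P = 0 := by
  rcases hn with hn | ⟨l, hl, h1, h2⟩
  · obtain ⟨α, c, β, hc, hβ, hd, hα, hsq, hco⟩ := pt_local h
    have hne : α i ≠ 0 := fun h0 => by
      have := hsq i
      rw [h0, mul_zero] at this
      exact pow_ne_zero 2 hβ this
    rw [vh_apply he i hp, hd, vch_div hp hne hc]
    refine cast_even (local_good hp (hα i (i + 1)) (hα i (i + 2)) (by rw [hsq i]; ring) hβ ?_ ?_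
      (hco p hp i))
    · have := hn (i + 2)
      rwa [show i + 2 + 1 = i by fin_cases i <;> rfl,
        show i + 2 + 2 = i + 1 by fin_cases i <;> rfl] at this
    · have := hn (i + 1)
      rwa [show i + 1 + 1 = i + 2 by fin_cases i <;> rfl,
        show i + 1 + 2 = i by fin_cases i <;> rfl, dvd_sub_comm] at this
  · obtain ⟨h3, h4, s, -, h5⟩ := coll_pt he hp hl h
    have h6 : vh he (l + 1) p P = 0 := by
      rcases h5 with h5 | h5
      · exact h5.2
      · rw [h5.2 (h5.1.trans h1), cast_even h2]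
    rcases fin3_cases l i with rfl | rfl | rfl
    exacts [h3, h6, h4.trans h6]

/-- The sign attached to an element of `ZMod 2`. -/
def sg2 (x : ZMod 2) : ℤ := if x = 0 then 1 else -1

theorem sg2_add (x y : ZMod 2) : sg2 (x + y) = sg2 x * sg2 y := by
  revert x y; decide

theorem sg2_sum {ι : Type} (s : Finset ι) (f : ι → ZMod 2) :
    sg2 (∑ j ∈ s, f j) = ∏ j ∈ s, sg2 (f j) := by
  classical
  induction s using Finset.induction_on with
  | empty => rfl
  | insert a s ha ih => rw [sum_insert ha, prod_insert ha, sg2_add, ih]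

theorem prod_eq_one_of_lin {ι : Type} [Fintype ι] (w : ι → ℤ) (hw : ∀ j, w j = 1 ∨ w j = -1)
    (x : ι → ZMod 2) (h : ∑ j, (if w j = 1 then 0 else 1) * x j = 0) :
    ∏ j, (if decide (x j = 1) then w j else 1) = 1 := by
  have := congrArg sg2 h
  rw [sg2_sum] at this
  refine Eq.trans (prod_congr rfl fun j _ => ?_) this
  have hx : x j = 0 ∨ x j = 1 := by generalize x j = y; revert y; decide
  rcases hw j with h | h <;> rcases hx with hx | hx <;> simp [h, hx, sg2]

theorem jac_prod_left {ι : Type} (s : Finset ι) (f : ι → ℤ) (n : ℕ) :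
    J(∏ j ∈ s, f j | n) = ∏ j ∈ s, J(f j | n) := by
  classical
  induction s using Finset.induction_on with
  | empty => simp
  | insert a s ha ih => rw [prod_insert ha, prod_insert ha, jacobiSym.mul_left, ih]

theorem jac_primes {p q : ℕ} (hp : p.Prime) (hq : q.Prime) (h : p ≠ q) :
    J(p | q) = 1 ∨ J(p | q) = -1 :=
  jacobiSym.eq_one_or_neg_one (by simpa using (Nat.coprime_primes hp hq).2 h)

section main

variable {ι : Type} [Fintype ι] [DecidableEq ι] {q : ι → ℕ} {τ : ι → Lab}

omit [Fintype ι] [DecidableEq ι] in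
theorem ds_sign (hq : ∀ i, (q i).Prime) (hqi : Function.Injective q) (i j : ι) :
    ds (τ i) (τ j) (q i) (q j) = 1 ∨ ds (τ i) (τ j) (q i) (q j) = -1 := by
  rcases eq_or_ne i j with rfl | hij
  · rcases τ i with _ | u <;> simp [ds]
  · rcases τ i with _ | u <;> rcases τ j with _ | v <;> simp only [ds, true_or]
    split_ifs
    exacts [jac_primes (hq j) (hq i) (hqi.ne hij.symm), jac_primes (hq i) (hq j) (hqi.ne hij),
      Or.inl rfl]

/-- Whether the type of a label differs from `l`, or exceeds `l`. -/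
def tne (x : Lab) (l : Fin 3) : Prop := ∃ u, x = some u ∧ u.1 ≠ l
def tgt (x : Lab) (l : Fin 3) : Prop := ∃ u, x = some u ∧ l < u.1

theorem tne_some (u : Fin 3 × Bool) (l : Fin 3) : tne (some u) l ↔ u.1 ≠ l :=
  ⟨by rintro ⟨v, hv, h⟩; cases hv; exact h, fun h => ⟨u, rfl, h⟩⟩
theorem tgt_some (u : Fin 3 × Bool) (l : Fin 3) : tgt (some u) l ↔ l < u.1 :=
  ⟨by rintro ⟨v, hv, h⟩; cases hv; exact h, fun h => ⟨u, rfl, h⟩⟩

theorem rank_le_sel (he : Function.Injective e) (hq : ∀ i, (q i).Prime) (hq2 : ∀ i, q i ≠ 2)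
    (hqi : Function.Injective q) (C : Finset ℕ)
    (hact : ∀ i u, τ i = some u → q i ∉ C → Act e (q i) u)
    (hneu : ∀ p, p.Prime → p ∉ C → (∀ i, q i = p → τ i = none) → Neu e p) :
    Module.Finite ℤ (PE e) ∧
      2 ^ Module.finrank ℤ (PE e) ≤ 2 ^ (4 * C.card + 6) * ((Sel q τ).card + 4) := by
  classical
  set D := (nsmulAddMonoidHom (α := PE e) 2).range with hD
  suffices h : D.index ≠ 0 ∧ D.index ≤ 2 ^ (4 * C.card + 6) * ((Sel q τ).card + 4) by
    have hf : D.FiniteIndex := ⟨h.1⟩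
    have hfg : Module.Finite ℤ (PE e) :=
      Module.Finite.iff_addGroup_fg.2 (fg_of_finiteIndex (disc_ne he) hf)
    exact ⟨hfg, (two_pow_finrank_le hf).trans h.2⟩
  set T4 : Finset (PE e) := insert 0 (univ.image fun l => .some _ _ (tors_ns he l)) with hT4
  have hT4c : T4.card ≤ 4 :=
    (card_insert_le _ _).trans (Nat.succ_le_succ (card_image_le.trans (by simp)))
  have hT4m : ∀ P : PE e, P + P = 0 → P ∈ T4 := fun P hP => by
    rcases two_tors he hP with rfl | ⟨l, rfl⟩ <;> simp [hT4]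
  by_cases hQ : ∀ Q : PE e, Q + Q = 0
  · have hfin : Finite (PE e) := Finite.of_surjective (fun x : T4 => (x : PE e))
      fun P => ⟨⟨P, hT4m P (hQ P)⟩, rfl⟩
    refine ⟨AddSubgroup.index_ne_zero_of_finite, ?_⟩
    have h1 : D.index ≤ Nat.card (PE e) := Nat.le_of_dvd Nat.card_pos D.index_dvd_card
    have h2 : Nat.card (PE e) ≤ T4.card := by
      rw [← Nat.card_eq_finsetCard]
      exact Nat.card_le_card_of_surjective (fun x : T4 => (x : PE e))
        fun P => ⟨⟨P, hT4m P (hQ P)⟩, rfl⟩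
    have h3 : 1 ≤ 2 ^ (4 * C.card + 6) := Nat.one_le_two_pow
    nlinarith
  push Not at hQ
  obtain ⟨Q, hQ⟩ := hQ
  let ε : ι → PE e →+ ZMod 2 := fun j =>
    match τ j with
    | some u => vh he (u.1 + 1) (q j)
    | none => 0
  have hεs : ∀ j u, τ j = some u → ε j = vh he (u.1 + 1) (q j) := fun j u h => by simp only [ε, h]
  have hεn : ∀ j, τ j = none → ε j = 0 := fun j h => by simp only [ε, h]
  let lin : (ι → ℤ) → PE e →+ ZMod 2 := fun w =>
    AddMonoidHom.mk' (fun P => ∑ j, (if w j = 1 then 0 else 1) * ε j P) fun P Q => by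
      simp [mul_add, sum_add_distrib]
  let w4 : Fin 3 → ι → ℤ := fun l j => if tgt (τ j) l ∧ q j % 4 = 3 then -1 else 1
  let t : (C × Fin 3) ⊕ {i // q i ∈ C} ⊕ Fin 3 ⊕ Fin 3 → PE e →+ ZMod 2 :=
    Sum.elim (fun x => vh he x.2 x.1) (Sum.elim
      (fun i => lin fun j => ds (τ i) (τ j) (q i) (q j))
      (Sum.elim (fun l => dhom (rt he l) sch_qch) fun l => lin (w4 l)))
  set Φ := AddMonoidHom.pi t with hΦ
  set Ep := AddMonoidHom.pi ε with hEp
  have hΦi : Φ.ker.index ≠ 0 ∧ Φ.ker.index ≤ 2 ^ (4 * C.card + 6) := by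
    rw [AddSubgroup.index_ker]
    refine ⟨Nat.card_pos.ne', (Nat.card_le_card_of_injective _ Subtype.val_injective).trans ?_⟩
    rw [Nat.card_fun, Nat.card_zmod]
    refine Nat.pow_le_pow_right two_pos ?_
    have : Nat.card {i // q i ∈ C} ≤ C.card := by
      rw [← Nat.card_eq_finsetCard]
      exact Nat.card_le_card_of_injective (fun i => (⟨q i, i.2⟩ : C)) fun i j h =>
        Subtype.ext (hqi (congrArg Subtype.val h))
    simp only [Nat.card_sum, Nat.card_prod, Nat.card_eq_finsetCard, Nat.card_fin]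
    omega
  -- valuations on the kernel of the tests
  have hval : ∀ P ∈ Φ.ker, ∀ l p, p.Prime → vh he l p P =
      ∑ j, if q j = p ∧ tne (τ j) l then ε j P else 0 := by
    intro P hP l p hp
    have hP' : ∀ x, t x P = 0 := fun x => congrFun hP x
    by_cases hC : p ∈ C
    · have h0 : ∀ l, vh he l p P = 0 := fun l => hP' (.inl (⟨p, hC⟩, l))
      rw [h0, sum_eq_zero]
      intro j _
      split_ifs with h
      · obtain ⟨h1, u, hu, -⟩ := h
        rw [hεs j u hu, h1, h0]
      · rfl
    by_cases hn : ∀ i, q i = p → τ i = none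
    · rw [hom_zero hQ _ (fun P hP => neu_pt he hp (hneu p hp hC hn) hP l) P, sum_eq_zero]
      intro j _
      rw [if_neg]
      rintro ⟨h1, u, hu, -⟩
      rw [hn j h1] at hu; cases hu
    · push Not at hn
      obtain ⟨i, rfl, hi⟩ := hn
      obtain ⟨u, hu⟩ := Option.ne_none_iff_exists'.1 hi
      have hA := (hact i u hu hC).1
      rw [sum_eq_single i (fun j _ hj => if_neg fun h => hj (hqi h.1)) (by simp), hεs i u hu]
      rcases fin3_cases u.1 l with rfl | rfl | rfl
      · rw [if_neg (by rintro ⟨-, v, hv, h⟩; rw [hu] at hv; cases hv; exact h rfl)]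
        exact hom_zero hQ _ (fun P hP => (coll_pt he hp hA hP).1) P
      · rw [if_pos ⟨rfl, u, hu, by generalize u.1 = x; revert x; decide⟩]
      · rw [if_pos ⟨rfl, u, hu, by generalize u.1 = x; revert x; decide⟩, ← sub_eq_zero]
        exact hom_zero hQ (vh he (u.1 + 2) (q i) - vh he (u.1 + 1) (q i))
          (fun P hP => sub_eq_zero.2 (coll_pt he hp hA hP).2.1) P
  have hpos : ∀ P ∈ Φ.ker, ∀ l, 0 < dl (e l) P := by
    intro P hP l
    have : sch (dl (e l) P) = 0 := congrFun hP (.inr (.inr (.inl l)))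
    by_contra h
    rw [sch, if_neg h] at this
    exact one_ne_zero this
  have hker : Ep.ker ⊓ Φ.ker ≤ D := by
    rintro P ⟨h1, h2⟩
    have hs : ∀ l, IsSquare (dl (e l) P) := fun l => rat_sq_of_vch (hpos P h2 l) fun p hp => by
      rw [← vh_apply he l hp, hval P h2 l p hp]
      refine sum_eq_zero fun j _ => ?_
      have : ε j P = 0 := congrFun h1 j
      simp [this]
    rcases P with _ | ⟨x, y, h⟩
    · exact zero_mem D
    · have hs' : ∀ l, IsSquare (x - e l) := fun l => by
        have := hs l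
        rw [dl_some] at this
        split_ifs at this with hx
        · rw [hx, sub_self]; exact IsSquare.zero
        · exact this
      obtain ⟨R, hR⟩ := halve (a := ea e) (b := eb e) (c := ec e) rfl rfl rfl (disc_ne he) h
        (hs' 0) (hs' 1) (hs' 2)
      exact ⟨R, by rw [← hR, nsmulAddMonoidHom_apply, two_nsmul]⟩
  have hsel : ∀ P ∈ Φ.ker, P + P ≠ 0 → (fun j => decide (ε j P = 1)) ∈ Sel q τ := by
    intro P hP hPP
    have hP' : ∀ x, t x P = 0 := fun x => congrFun hP x
    rw [Sel, mem_filter]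
    refine ⟨mem_univ _, fun i hi => by simp [hεn i hi], fun i => ?_⟩
    rcases hu : τ i with _ | u
    · simp [ds, sgn]
    by_cases hC : q i ∈ C
    · have h0 : ε i P = 0 := by rw [hεs i u hu]; exact hP' (.inl (⟨_, hC⟩, _))
      rw [← hu, prod_eq_one_of_lin _ (ds_sign hq hqi i) _ (hP' (.inr (.inl ⟨i, hC⟩)))]
      simp [h0]
    obtain ⟨hA, hJ, hpar⟩ := hact i u hu hC
    obtain ⟨-, -, s, hs, hs'⟩ := coll_pt he (hq i) hA hPP
    set n : ℕ := ∏ j, if ε j P = 1 ∧ tne (τ j) u.1 then q j else 1 with hn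
    have hn0 : 0 < n := prod_pos fun j _ => by split_ifs; exacts [(hq j).pos, one_pos]
    have hsq : IsSquare (dl (e u.1) P * (n : ℤ)) := by
      have h0 := hpos P hP u.1
      refine rat_sq_of_vch (by positivity) fun p hp => ?_
      have : Fact p.Prime := ⟨hp⟩
      rw [vch_qch hp _ _ h0.ne' (by positivity), ← vh_apply he _ hp, hval P hP _ p hp]
      have e1 : vch p ((n : ℤ) : ℚ) = ∑ j, if q j = p ∧ tne (τ j) u.1 then ε j P else 0 := by
        rw [vch, Int.cast_natCast, padicValRat.of_nat, Int.cast_natCast,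
          ← Nat.factorization_def _ hp, hn, Nat.factorization_prod (fun j _ => by
            split_ifs; exacts [(hq j).ne_zero, one_ne_zero]), Finsupp.finsetSum_apply,
          Nat.cast_sum]
        refine sum_congr rfl fun j _ => ?_
        have hx : ε j P = 0 ∨ ε j P = 1 := by generalize ε j P = y; revert y; decide
        by_cases h1 : tne (τ j) u.1 <;> rcases hx with hx | hx <;>
          simp [h1, hx, (hq j).factorization, Finsupp.single_apply]
      rw [e1, CharTwo.add_self_eq_zero]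
    have hnd : ¬ ((q i : ℕ) : ℤ) ∣ (n : ℤ) := by
      rw [Int.natCast_dvd_natCast, hn, (hq i).prime.dvd_finsetProd_iff]
      rintro ⟨j, -, hj⟩
      split_ifs at hj with h
      · obtain rfl := hqi ((Nat.prime_dvd_prime_iff_eq (hq i) (hq j)).1 hj)
        obtain ⟨-, v, hv, h⟩ := h
        rw [hu] at hv; cases hv; exact h rfl
      · exact (hq i).one_lt.ne' (Nat.dvd_one.1 hj)
    have h1 := hs n hnd hsq
    have h4 := prod_eq_one_of_lin (w4 u.1) (fun j => by simp only [w4]; split_ifs <;> simp) _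
      (hP' (.inr (.inr (.inr u.1))))
    have hodd : ∀ j, Odd (q j) := fun j => (hq j).odd_of_ne_two (hq2 j)
    have key : ∏ j, (if decide (ε j P = 1) then ds (some u) (τ j) (q i) (q j) else 1) =
        J(n | q i) := by
      rw [hn, Nat.cast_prod, jac_prod_left]
      rcases Nat.odd_mod_four_iff.1 (Nat.odd_iff.1 (hodd i)) with h | h
      · refine prod_congr rfl fun j _ => ?_
        rcases hv : τ j with _ | v
        · simp [ds, tne]
        · by_cases h0 : ε j P = 1
          · rcases lt_trichotomy v.1 u.1 with h' | h' | h'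
            · simp [ds, tne_some, h0, h', h'.ne]
            · simp [ds, tne_some, h0, h']
            · simp [ds, tne_some, h0, h', h'.ne', h'.not_gt,
                jacobiSym.quadratic_reciprocity_one_mod_four h (hodd j)]
          · simp [h0]
      · refine Eq.trans (prod_congr rfl fun j _ => ?_) ((prod_mul_distrib).trans
          ((congrArg (_ * ·) h4).trans (mul_one _)))
        rcases hv : τ j with _ | v
        · simp [ds, tne, w4, tgt, hv]
        · by_cases h0 : ε j P = 1
          · rcases lt_trichotomy v.1 u.1 with h' | h' | h'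
            · simp [ds, tne_some, h0, h', h'.ne, w4, tgt_some, hv, h'.not_gt]
            · simp [ds, tne_some, h0, h', w4, tgt_some, hv]
            · rcases Nat.odd_mod_four_iff.1 (Nat.odd_iff.1 (hodd j)) with h2 | h2
              · simp [ds, tne_some, h0, h', h'.ne', h'.not_gt, w4, tgt_some, hv, h2,
                  jacobiSym.quadratic_reciprocity_one_mod_four' (hodd i) h2]
              · simp [ds, tne_some, h0, h', h'.ne', h'.not_gt, w4, tgt_some, hv, h2,
                  jacobiSym.quadratic_reciprocity_three_mod_four h h2]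
          · simp [h0]
    rw [key, h1]
    rw [← hεs i u hu] at hs'
    rcases hs' with ⟨h2, h3⟩ | ⟨h2, h3⟩
    · simp [h2, h3]
    · rw [hJ] at h2
      rcases hpar with h5 | h5
      · simp [h2, sgn, h5]
      · cases h6 : u.2
        · have h7 : s = -1 := by simp [h2, sgn, h6]
          simp [h2, h3 h7, (ZMod.natCast_eq_one_iff_odd).2 h5]
        · simp [h2, sgn, h6]
  have hE : Nat.card (Φ.ker.map Ep) ≤ (Sel q τ).card + 4 := by
    set b : (ι → ZMod 2) → ι → Bool := fun v j => decide (v j = 1) with hb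
    have hbi : Function.Injective b := fun v w h => funext fun j => by
      have := congrFun h j
      simp only [hb, decide_eq_decide] at this
      generalize v j = x, w j = y at this
      revert x y; decide
    calc Nat.card (Φ.ker.map Ep) ≤ Nat.card ↥(Sel q τ ∪ T4.image fun P => b (Ep P)) := by
          refine Nat.card_le_card_of_injective (fun v => ⟨b v, ?_⟩) fun v w h =>
            Subtype.ext (hbi (congrArg Subtype.val h))
          obtain ⟨_, P, hP, rfl⟩ := v
          by_cases h : P + P = 0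
          · exact mem_union_right _ (mem_image_of_mem _ (hT4m P h))
          · exact mem_union_left _ (hsel P hP h)
      _ ≤ _ := by
          rw [Nat.card_eq_finsetCard]
          exact (card_union_le _ _).trans (Nat.add_le_add_left (card_image_le.trans hT4c) _)
  have hidx : (Ep.ker ⊓ Φ.ker).index = Nat.card (Φ.ker.map Ep) * Φ.ker.index := by
    rw [← AddSubgroup.relIndex_mul_index (inf_le_right : Ep.ker ⊓ Φ.ker ≤ Φ.ker),
      AddSubgroup.inf_relIndex_right, AddSubgroup.relIndex_ker]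
  have hne : (Ep.ker ⊓ Φ.ker).index ≠ 0 := by
    rw [hidx]; exact mul_ne_zero Nat.card_pos.ne' hΦi.1
  have : (Ep.ker ⊓ Φ.ker).FiniteIndex := ⟨hne⟩
  refine ⟨(AddSubgroup.finiteIndex_of_le hker).index_ne_zero,
    (AddSubgroup.index_antitone hker).trans ?_⟩
  rw [hidx, mul_comm]
  exact Nat.mul_le_mul hΦi.2 hE

end main

end Pool.Agent.Lib.TorsRank
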