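import Pool.Agent.Lib.MP_6073f3_nt.LargeSieve
import Pool.Agent.Lib.MP_6073f3_nt.Selmer

/-!
Sums over labelled configurations of primes of products of Legendre symbols between linked labels.
-/

set_option linter.unusedSectionVars false

namespace Pool.Agent.Lib.TorsRank

open Finset
open scoped NumberTheorySymbols

variable {ι Λ : Type} [Fintype ι] [DecidableEq ι] [Fintype Λ] [DecidableEq Λ]

/-- The symbol between two labelled primes. -/
def lk (lnk : Λ → Λ → Bool) (x y : Option Λ) (p q : ℕ) : ℝ :=
  match x, y with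
  | some a, some b => if lnk a b then (J(p | q) : ℝ) else 1
  | _, _ => 1

/-- The product of all symbols of a configuration. -/
def LL (lnk : Λ → Λ → Bool) (q : ι → ℕ) (φ : ι → Option Λ) : ℝ :=
  ∏ i, ∏ j, lk lnk (φ i) (φ j) (q i) (q j)

/-- The character induced by the configuration `ψ` on the label `x` at the prime `q i`. -/
def chi (lnk : Λ → Λ → Bool) (q : ι → ℕ) (ψ : ι → Option Λ) (i : ι) (x : Option Λ) : ℝ :=
  ∏ j, lk lnk x (ψ j) (q i) (q j) * lk lnk (ψ j) x (q j) (q i)

/-- The primes with a given label. -/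
def fib (φ : ι → Option Λ) (l : Λ) : Finset ι := univ.filter fun i => φ i = some l

/-- The labels which occur. -/
def pat (φ : ι → Option Λ) : Finset Λ := univ.filter fun l => ∃ i, φ i = some l

/-- Merging two configurations. -/
def mrg (ψ g : ι → Option Λ) : ι → Option Λ := fun i => (ψ i).or (g i)

/-- The admissible values on the complement of the support. -/
def TT (ψ : ι → Option Λ) (V : Finset Λ) (i : ι) : Finset (Option Λ) :=
  if ψ i = none then insertNone V else {none}

/-- The summand. -/
def FT (lnk : Λ → Λ → Bool) (q : ι → ℕ) (w : ι → Option Λ → ℝ) (φ : ι → Option Λ) : ℝ :=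
  (∏ i, w i (φ i)) * LL lnk q φ

variable {lnk : Λ → Λ → Bool} {q : ι → ℕ} {z : ℕ} {w : ι → Option Λ → ℝ}

theorem lk_none_left (y : Option Λ) (p r : ℕ) : lk lnk none y p r = 1 := by cases y <;> rfl

theorem lk_none_right (x : Option Λ) (p r : ℕ) : lk lnk x none p r = 1 := by cases x <;> rfl

theorem abs_lk (x y : Option Λ) (p r : ℕ) : |lk lnk x y p r| ≤ 1 := by
  rcases x with _ | a <;> rcases y with _ | b <;> simp only [lk, abs_one, le_refl]
  split_ifs
  · rcases jacobiSym.trichotomy (p : ℤ) r with h | h | h <;> simp [h]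
  · simp

theorem abs_LL (φ : ι → Option Λ) : |LL lnk q φ| ≤ 1 := by
  rw [LL, abs_prod]
  refine prod_le_one (fun _ _ => abs_nonneg _) fun i _ => ?_
  rw [abs_prod]
  exact prod_le_one (fun _ _ => abs_nonneg _) fun j _ => abs_lk _ _ _ _

theorem abs_chi (ψ : ι → Option Λ) (i : ι) (x : Option Λ) : |chi lnk q ψ i x| ≤ 1 := by
  rw [chi, abs_prod]
  refine prod_le_one (fun _ _ => abs_nonneg _) fun j _ => ?_
  rw [abs_mul]
  exact mul_le_one₀ (abs_lk _ _ _ _) (abs_nonneg _) (abs_lk _ _ _ _)

theorem chi_none (ψ : ι → Option Λ) (i : ι) : chi lnk q ψ i none = 1 := by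
  simp [chi, lk_none_left, lk_none_right]

theorem mem_TT {ψ : ι → Option Λ} {V : Finset Λ} {i : ι} {x : Option Λ} :
    x ∈ TT ψ V i ↔ ∀ l, x = some l → ψ i = none ∧ l ∈ V := by
  unfold TT
  split_ifs with h <;> cases x <;> simp [h]

theorem sum_split (V : Finset Λ) (F : (ι → Option Λ) → ℝ) :
    ∑ φ, F φ = ∑ ψ : ι → Option Λ with ∀ i l, ψ i = some l → l ∉ V,
      ∑ g ∈ Fintype.piFinset (TT ψ V), F (mrg ψ g) := by
  rw [← sum_fiberwise_of_maps_to (g := fun φ i => (φ i).filter (· ∉ V))
    (t := univ.filter fun ψ : ι → Option Λ => ∀ i l, ψ i = some l → l ∉ V) (fun φ _ =>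
    mem_filter.2 ⟨mem_univ _, fun i l h => by simpa using (Option.filter_eq_some_iff.1 h).2⟩)]
  refine sum_congr rfl fun ψ hψ => ?_
  have hψ := (mem_filter.1 hψ).2
  refine sum_nbij' (fun φ i => (φ i).filter (· ∈ V)) (mrg ψ) (fun φ hφ => ?_) (fun g hg => ?_)
    (fun φ hφ => ?_) (fun g hg => ?_) fun φ hφ => ?_
  · rw [← (mem_filter.1 hφ).2]
    refine Fintype.mem_piFinset.2 fun i => mem_TT.2 fun l hl => ?_
    obtain ⟨h1, h2⟩ := Option.filter_eq_some_iff.1 hl
    simp_all
  · refine mem_filter.2 ⟨mem_univ _, funext fun i => ?_⟩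
    have h1 := mem_TT.1 (Fintype.mem_piFinset.1 hg i)
    have h2 := hψ i
    rcases h : ψ i with _ | a <;> rcases h' : g i with _ | b <;> simp_all [mrg]
  · rw [← (mem_filter.1 hφ).2]
    funext i
    rcases h : φ i with _ | a
    · simp [mrg, h]
    · by_cases ha : a ∈ V <;> simp [mrg, h, ha]
  · funext i
    have h1 := mem_TT.1 (Fintype.mem_piFinset.1 hg i)
    have h2 := hψ i
    rcases h : ψ i with _ | a <;> rcases h' : g i with _ | b <;> simp_all [mrg]
  · rw [← (mem_filter.1 hφ).2]
    congr 1
    funext i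
    rcases h : φ i with _ | a
    · simp [mrg, h]
    · by_cases ha : a ∈ V <;> simp [mrg, h, ha, Option.filter_some]

theorem FT_mrg {ψ g : ι → Option Λ} {V : Finset Λ} (hg : g ∈ Fintype.piFinset (TT ψ V)) :
    FT lnk q w (mrg ψ g) = LL lnk q ψ * LL lnk q g *
      ∏ i, w i ((ψ i).or (g i)) * chi lnk q ψ i (g i) := by
  have h : ∀ i, ψ i = none ∨ g i = none := fun i => by
    have := mem_TT.1 (Fintype.mem_piFinset.1 hg i)
    rcases h' : g i with _ | b
    · exact Or.inr rfl
    · exact Or.inl (this b h').1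
  have e : ∀ i j, lk lnk (mrg ψ g i) (mrg ψ g j) (q i) (q j) =
      lk lnk (ψ i) (ψ j) (q i) (q j) * lk lnk (g i) (g j) (q i) (q j) *
        (lk lnk (g i) (ψ j) (q i) (q j) * lk lnk (ψ i) (g j) (q i) (q j)) := fun i j => by
    rcases h i with h1 | h1 <;> rcases h j with h2 | h2 <;>
      simp [mrg, h1, h2, lk_none_left, lk_none_right]
  simp only [FT, LL, chi, e, prod_mul_distrib]
  rw [prod_comm (f := fun i j => lk lnk (ψ i) (g j) (q i) (q j))]
  simp only [mrg]
  ring

theorem fib_mrg {ψ g : ι → Option Λ} {V : Finset Λ} (hψ : ∀ i l, ψ i = some l → l ∉ V)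
    (hg : g ∈ Fintype.piFinset (TT ψ V)) (l : Λ) :
    fib (mrg ψ g) l = if l ∈ V then fib g l else fib ψ l := by
  ext i
  have h1 := mem_TT.1 (Fintype.mem_piFinset.1 hg i)
  have h2 := hψ i
  split_ifs with hl <;> rcases h : ψ i with _ | a <;> rcases h' : g i with _ | b <;>
    simp_all [mrg, fib] <;> rintro rfl <;> simp_all

theorem pat_mrg {ψ g : ι → Option Λ} {U V : Finset Λ} (hV : V ⊆ U)
    (hg : g ∈ Fintype.piFinset (TT ψ V)) : U ∪ pat (mrg ψ g) = U ∪ pat ψ := by
  ext l
  simp only [mem_union, pat, mem_filter, mem_univ, true_and, mrg]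
  constructor
  · rintro (h | ⟨i, hi⟩)
    · exact Or.inl h
    · rcases h : ψ i with _ | a
      · rw [h] at hi
        exact Or.inl (hV (mem_TT.1 (Fintype.mem_piFinset.1 hg i) l hi).2)
      · rw [h] at hi
        exact Or.inr ⟨i, h.trans hi⟩
  · rintro (h | ⟨i, hi⟩)
    · exact Or.inl h
    · exact Or.inr ⟨i, by simp [hi]⟩

theorem sum_conf_le (x : ι → ℝ) (hx : ∀ i, 0 ≤ x i) :
    ∑ ψ : ι → Option Λ, ∏ i, (if ψ i = none then 1 else x i) ≤
      Real.exp (Fintype.card Λ * ∑ i, x i) := by
  rw [← Fintype.piFinset_univ, ← prod_univ_sum (fun _ => univ)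
    (fun i (y : Option Λ) => if y = none then 1 else x i), mul_sum, Real.exp_sum]
  refine prod_le_prod (fun i _ => sum_nonneg fun y _ => by split_ifs; exacts [one_pos.le, hx i])
    fun i _ => ?_
  rw [Fintype.sum_option]
  simpa [add_comm] using Real.add_one_le_exp (Fintype.card Λ * x i)

/-- The hypotheses on the weights. -/
structure Wts (q : ι → ℕ) (w : ι → Option Λ → ℝ) (K : ℝ) : Prop where
  hK : 1 ≤ K
  hs : ∀ i l, |w i (some l)| ≤ K / q i
  h0 : ∀ i, 1 / 2 ≤ w i none
  h1 : ∀ i, w i none ≤ 1
  hc : ∀ i, Fintype.card Λ * (K / q i) ≤ 1 / 2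

theorem unlinked_le {K : ℝ} (hw : Wts q w K) {V : Finset Λ}
    (hV : ∀ a ∈ V, ∀ b ∈ V, lnk a b = false) (ψ : ι → Option Λ) :
    |∑ g ∈ Fintype.piFinset (TT ψ V), FT lnk q w (mrg ψ g)| ≤
      Real.exp (∑ i, (w i none - 1 + ∑ l ∈ V, w i (some l) * chi lnk q ψ i (some l))) *
        ∏ i, if ψ i = none then 1 else 3 * K / q i := by
  rw [sum_congr rfl (g := fun g => LL lnk q ψ * ∏ i, w i ((ψ i).or (g i)) * chi lnk q ψ i (g i))
    (fun g hg => by
      have : LL lnk q g = 1 := prod_eq_one fun i _ => prod_eq_one fun j _ => by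
        have h1 := mem_TT.1 (Fintype.mem_piFinset.1 hg i)
        have h2 := mem_TT.1 (Fintype.mem_piFinset.1 hg j)
        rcases h : g i with _ | a
        · exact lk_none_left _ _ _
        rcases h' : g j with _ | b
        · rfl
        · simp [lk, hV a (h1 a h).2 b (h2 b h').2]
      rw [FT_mrg hg, this, mul_one]), ← mul_sum,
    ← prod_univ_sum (TT ψ V) (fun i x => w i ((ψ i).or x) * chi lnk q ψ i x), abs_mul,
    Real.exp_sum, ← prod_mul_distrib, abs_prod]
  refine (mul_le_of_le_one_left (prod_nonneg fun _ _ => abs_nonneg _) (abs_LL ψ)).trans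
    (prod_le_prod (fun _ _ => abs_nonneg _) fun i _ => ?_)
  have hb : |∑ l ∈ V, w i (some l) * chi lnk q ψ i (some l)| ≤ 1 / 2 := by
    refine (abs_sum_le_sum_abs _ _).trans (le_trans ?_ (hw.hc i))
    refine (sum_le_card_nsmul _ _ (K / q i) fun l _ => ?_).trans ?_
    · rw [abs_mul]
      exact (mul_le_of_le_one_right (abs_nonneg _) (abs_chi _ _ _)).trans (hw.hs i l)
    · rw [nsmul_eq_mul]
      have := hw.hK
      gcongr
      exact card_le_univ V
  have h0 := hw.h0 i
  rw [abs_le] at hb
  rcases h : ψ i with _ | a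
  · rw [TT, if_pos h, sum_insertNone, chi_none, if_pos rfl, mul_one, mul_one]
    simp only [Option.none_or]
    rw [abs_of_nonneg (by linarith [hb.1])]
    linarith [Real.add_one_le_exp
      (w i none - 1 + ∑ l ∈ V, w i (some l) * chi lnk q ψ i (some l))]
  · rw [TT, if_neg (by simp [h]), sum_singleton, chi_none, mul_one, if_neg (by simp)]
    refine (hw.hs i a).trans ?_
    have h1 : Real.exp (-1) ≤
        Real.exp (w i none - 1 + ∑ l ∈ V, w i (some l) * chi lnk q ψ i (some l)) :=
      Real.exp_le_exp.2 (by linarith [hb.1])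
    have h2 := Real.exp_neg_one_gt_d9
    have h3 : 0 ≤ K / q i := by have := hw.hK; positivity
    rw [mul_div_assoc]
    nlinarith

theorem jac_pr (h : ∀ i, q i ≠ 0) (s t : Finset ι) :
    J(pr q s | pr q t) = ∏ i ∈ s, ∏ j ∈ t, J(q i | q j) := by
  classical
  rw [pr, Nat.cast_prod, jac_prod_left]
  refine prod_congr rfl fun i _ => ?_
  induction t using Finset.induction_on with
  | empty => simp [pr]
  | insert j t hj ih =>
    rw [pr, prod_insert hj, prod_insert hj, jacobiSym.mul_right' _ (h j)
      (prod_ne_zero_iff.2 fun k _ => h k), ← ih, pr]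

theorem opt_ext {a b : Λ} {x y : Option Λ} (hx : ∀ l, x = some l → l ∈ ({a, b} : Finset Λ))
    (hy : ∀ l, y = some l → l ∈ ({a, b} : Finset Λ)) (h1 : x = some a ↔ y = some a)
    (h2 : x = some b ↔ y = some b) : x = y := by
  cases x <;> cases y <;> simp_all
  aesop

theorem fib_mk {a b : Λ} (hne : a ≠ b) {s t : Finset ι} (h : ∀ i ∈ s, i ∉ t) :
    (fib (fun i => if i ∈ s then some a else if i ∈ t then some b else none) a,
      fib (fun i => if i ∈ s then some a else if i ∈ t then some b else none) b) = (s, t) := by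
  refine Prod.ext ?_ ?_ <;> ext i <;> have := h i <;> by_cases h3 : i ∈ s <;>
    by_cases h4 : i ∈ t <;> simp_all [fib, hne.symm]

theorem lk_pair (has : ∀ a b, lnk a b = true → lnk b a = false) {a b : Λ} (hab : lnk a b = true)
    {x y : Option Λ} (hx : ∀ l, x = some l → l ∈ ({a, b} : Finset Λ))
    (hy : ∀ l, y = some l → l ∈ ({a, b} : Finset Λ)) (p r : ℕ) :
    lk lnk x y p r = if x = some a then if y = some b then (J(p | r) : ℝ) else 1 else 1 := by
  have hirr : ∀ c, lnk c c = false := fun c => by
    cases h : lnk c c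
    · rfl
    · rw [has c c h] at h; cases h
  have hne : a ≠ b := by rintro rfl; rw [hirr] at hab; cases hab
  have h3 := has a b hab
  rcases x with _ | c <;> rcases y with _ | d <;> simp only [lk] <;> try simp
  have h1 := hx c rfl
  have h2 := hy d rfl
  simp only [mem_insert, mem_singleton] at h1 h2
  rcases h1 with rfl | rfl <;> rcases h2 with rfl | rfl <;> simp [hirr, hab, h3, hne, hne.symm]

theorem linked_le (hq : PrimeSys q z) {K : ℝ} (hw : Wts q w K)
    (has : ∀ a b, lnk a b = true → lnk b a = false) {a b : Λ} (hab : lnk a b = true)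
    {n : ℕ} (hn : 1 ≤ n) (ψ : ι → Option Λ) :
    |∑ g ∈ Fintype.piFinset (TT ψ {a, b}), if 2 ^ n ≤ pr q (fib g a) ∧ 2 ^ n ≤ pr q (fib g b)
      then FT lnk q w (mrg ψ g) else 0| ≤ (∏ i, if ψ i = none then 1 else K / q i) *
      (2208 * Real.exp (192 * (2 * K) ^ 2 * HH q) * Real.log z * (15 / 16) ^ n) := by
  have hne : a ≠ b := by rintro rfl; rw [has a a hab] at hab; cases hab
  set u : Λ → ι → ℝ := fun c i =>
    if ψ i = none then w i (some c) * chi lnk q ψ i (some c) / w i none else 0 with hu
  set α : Λ → Finset ι → ℝ := fun c s => if 2 ^ n ≤ pr q s then ∏ i ∈ s, u c i else 0 with hα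
  have hb : ∀ c s, |α c s| ≤ ∏ i ∈ s, 2 * K / q i := by
    intro c s
    have hK := hw.hK
    simp only [hα]
    split_ifs
    · rw [abs_prod]
      refine prod_le_prod (fun _ _ => abs_nonneg _) fun i _ => ?_
      simp only [hu]
      split_ifs
      · have h0 := hw.h0 i
        have h1 := (mul_le_of_le_one_right (abs_nonneg _) (abs_chi (lnk := lnk) (q := q) ψ i
          (some c))).trans (hw.hs i c)
        have h3 : 0 ≤ K / q i := by positivity
        rw [abs_div, abs_mul, abs_of_pos (by linarith : 0 < w i none), div_le_iff₀ (by linarith),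
          mul_div_assoc]
        nlinarith
      · rw [abs_zero]; positivity
    · rw [abs_zero]; positivity
  have hs : ∀ c s, α c s ≠ 0 → 2 ^ n ≤ pr q s := fun c s h => by
    by_contra h'; exact h (if_neg h')
  have hLS := large_sieve hq (K := 2 * K) (by linarith [hw.hK]) (hb a) (hb b) hn (hs a) (hs b)
  have e : (∑ g ∈ Fintype.piFinset (TT ψ {a, b}), if 2 ^ n ≤ pr q (fib g a) ∧
      2 ^ n ≤ pr q (fib g b) then FT lnk q w (mrg ψ g) else 0) = LL lnk q ψ * (∏ i, w i (ψ i)) *
      ∑ s, ∑ t, α a s * α b t * J(pr q s | pr q t) := by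
    rw [← sum_product', mul_sum]
    refine sum_of_injOn (fun g => (fib g a, fib g b)) (fun g hg g' hg' h => funext fun i => ?_)
      (fun _ _ => by simp) (fun st _ hst => ?_) fun g hg => ?_
    · have h1 := mem_TT.1 (Fintype.mem_piFinset.1 (mem_coe.1 hg) i)
      have h2 := mem_TT.1 (Fintype.mem_piFinset.1 (mem_coe.1 hg') i)
      have h3 : g i = some a ↔ g' i = some a := by
        simpa [fib] using Finset.ext_iff.1 (Prod.ext_iff.1 h).1 i
      have h4 : g i = some b ↔ g' i = some b := by
        simpa [fib] using Finset.ext_iff.1 (Prod.ext_iff.1 h).2 i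
      exact opt_ext (fun l h => (h1 l h).2) (fun l h => (h2 l h).2) h3 h4
    · obtain ⟨s, t⟩ := st
      by_contra h0
      have h1 : ∀ c r, α c r ≠ 0 → ∀ i ∈ r, ψ i = none := fun c r h i hi => by
        by_contra h'
        simp only [hα, if_pos (hs c r h)] at h
        exact h (prod_eq_zero hi (if_neg h'))
      simp only [mul_eq_zero, not_or] at h0
      have h2 : ∀ i ∈ s, i ∉ t := fun i hi hi' => h0.2.2 (by
        rw [jac_pr fun i => (hq.hp i).ne_zero, prod_eq_zero hi (prod_eq_zero hi' (by
          rw [jacobiSym.mod_left, Int.emod_self]; exact jacobiSym.zero_left (hq.hp i).one_lt))]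
        simp)
      refine hst ⟨fun i => if i ∈ s then some a else if i ∈ t then some b else none,
        mem_coe.2 (Fintype.mem_piFinset.2 fun i => mem_TT.2 fun l hl => ?_), ?_⟩
      · split_ifs at hl with h3 h4
        · cases hl; exact ⟨h1 _ _ h0.2.1.1 i h3, by simp⟩
        · cases hl; exact ⟨h1 _ _ h0.2.1.2 i h4, by simp⟩
      · exact fib_mk hne h2
    · have hg' := fun i => mem_TT.1 (Fintype.mem_piFinset.1 hg i)
      have e1 : LL lnk q g = J(pr q (fib g a) | pr q (fib g b)) := by
        rw [jac_pr fun i => (hq.hp i).ne_zero, LL]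
        push_cast
        simp only [fib, prod_filter]
        refine prod_congr rfl fun i _ => ?_
        rw [prod_congr rfl fun j _ => lk_pair has hab (fun l h => (hg' i l h).2)
          (fun l h => (hg' j l h).2) (q i) (q j)]
        split_ifs <;> simp
      have e2 : ∏ i, w i ((ψ i).or (g i)) * chi lnk q ψ i (g i) =
          (∏ i, w i (ψ i)) * ((∏ i ∈ fib g a, u a i) * ∏ i ∈ fib g b, u b i) := by
        simp only [fib, prod_filter, ← prod_mul_distrib]
        refine prod_congr rfl fun i _ => ?_
        have h0 : w i none ≠ 0 := by linarith [hw.h0 i]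
        rcases h : g i with _ | c
        · simp [chi_none]
        · obtain ⟨h1, h2⟩ := hg' i c h
          rcases mem_insert.1 h2 with rfl | h2
          · simp only [hu, h1, hne, if_true, Option.none_or, Option.some.injEq, if_false]
            field_simp
          · cases mem_singleton.1 h2
            simp only [hu, h1, hne.symm, if_true, Option.none_or, Option.some.injEq, if_false]
            field_simp
      simp only [hα]
      rw [FT_mrg hg, e1, e2]
      by_cases h1 : 2 ^ n ≤ pr q (fib g a) <;> by_cases h2 : 2 ^ n ≤ pr q (fib g b) <;>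
        simp only [h1, h2, if_true, if_false, and_self, and_false, false_and] <;> ring
  rw [e, abs_mul, abs_mul]
  refine mul_le_mul ((mul_le_of_le_one_left (abs_nonneg _) (abs_LL ψ)).trans ?_) hLS
    (abs_nonneg _) (prod_nonneg fun i _ => by have := hw.hK; split_ifs <;> positivity)
  rw [abs_prod]
  refine prod_le_prod (fun _ _ => abs_nonneg _) fun i _ => ?_
  rcases h : ψ i with _ | c
  · rw [abs_of_pos (by linarith [hw.h0 i])]; simpa using hw.h1 i
  · simpa using hw.hs i c

theorem engine (hq : PrimeSys q z) {K : ℝ} (hw : Wts q w K)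
    (has : ∀ a b, lnk a b = true → lnk b a = false) (R : Finset Λ → Prop) [DecidablePred R]
    {n : ℕ} (hn : 1 ≤ n) {E0 E1 : ℝ}
    (hE : ∀ (U V : Finset Λ) (ψ : ι → Option Λ), (∀ a ∈ U, ∀ b ∈ U, lnk a b = false) → V ⊆ U →
      (∀ i l, ψ i = some l → l ∉ V) → (∀ l, pr q (fib ψ l) < 2 ^ n) → R (U ∪ pat ψ) →
      ∑ i, (w i none - 1 + ∑ l ∈ V, w i (some l) * chi lnk q ψ i (some l)) ≤
        if ψ = fun _ => none then E0 else E1) :
    ∑ φ : ι → Option Λ, (if R (pat φ) then FT lnk q w φ else 0) ≤ 2 ^ Fintype.card Λ *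
      (2 ^ Fintype.card Λ * (Real.exp E0 + Real.exp E1 *
        Real.exp (Fintype.card Λ * ∑ i, if q i < 2 ^ n then 3 * K / q i else 0)) +
      Real.exp (Fintype.card Λ * (K * HH q)) *
        (2208 * Real.exp (192 * (2 * K) ^ 2 * HH q) * Real.log z * (15 / 16) ^ n)) := by
  have hK := hw.hK
  have h2n : 1 < 2 ^ n := Nat.one_lt_two_pow (by omega)
  set A := Real.exp E0 + Real.exp E1 *
    Real.exp (Fintype.card Λ * ∑ i, if q i < 2 ^ n then 3 * K / q i else 0) with hA
  set B := 2208 * Real.exp (192 * (2 * K) ^ 2 * HH q) * Real.log z * (15 / 16) ^ n with hB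
  have hA0 : 0 ≤ A := by positivity
  have hB0 : 0 ≤ B := by have := Real.log_natCast_nonneg z; positivity
  set Lg : (ι → Option Λ) → Finset Λ := fun φ => univ.filter fun l => 2 ^ n ≤ pr q (fib φ l)
    with hLg
  have e : ∀ φ : ι → Option Λ, (if R (pat φ) then FT lnk q w φ else 0) =
      ∑ U, if Lg φ = U then (if R (U ∪ pat φ) then FT lnk q w φ else 0) else 0 := by
    intro φ
    rw [sum_ite_eq, if_pos (mem_univ _), union_eq_right.2]
    intro l hl
    by_contra h
    have : fib φ l = ∅ := by
      simpa [fib, pat] using h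
    have hl := (mem_filter.1 hl).2
    rw [this, pr, prod_empty] at hl
    omega
  rw [sum_congr rfl fun φ _ => e φ, sum_comm]
  refine (sum_le_card_nsmul _ _ _ fun U _ => ?_).trans (le_of_eq (by
    rw [nsmul_eq_mul, card_univ, Fintype.card_finset]; push_cast; rfl))
  by_cases hU : ∀ a ∈ U, ∀ b ∈ U, lnk a b = false
  · refine le_trans ?_ (le_add_of_nonneg_right (by positivity))
    have e1 : ∀ φ : ι → Option Λ,
        (if Lg φ = U then (if R (U ∪ pat φ) then FT lnk q w φ else 0) else 0) =
        ∑ t ∈ U.powerset, (-1) ^ t.card * if (∀ l, l ∉ U \ t → pr q (fib φ l) < 2 ^ n) ∧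
          R (U ∪ pat φ) then FT lnk q w φ else 0 := by
      intro φ
      by_cases h1 : (∀ l, l ∉ U → pr q (fib φ l) < 2 ^ n) ∧ R (U ∪ pat φ)
      · have h2 := prod_one_add (s := U)
          (f := fun l => if pr q (fib φ l) < 2 ^ n then (-1 : ℝ) else 0)
        rw [sum_congr rfl (g := fun t => (∏ l ∈ t, if pr q (fib φ l) < 2 ^ n then (-1 : ℝ) else 0) *
          FT lnk q w φ) (fun t ht => by
            rw [prod_ite_zero, prod_const]
            by_cases h3 : ∀ l ∈ t, pr q (fib φ l) < 2 ^ n
            · rw [if_pos h3, if_pos ⟨fun l hl => by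
                by_cases h4 : l ∈ U
                · exact h3 l (by simpa [h4] using hl)
                · exact h1.1 l h4, h1.2⟩]
            · rw [if_neg h3, if_neg fun h => h3 fun l hl => h.1 l (by simp [hl])]; simp),
          ← sum_mul, ← h2, if_pos h1.2]
        split_ifs with h3
        · rw [prod_eq_one, one_mul]
          intro l hl
          rw [← h3] at hl
          rw [if_neg (not_lt.2 (mem_filter.1 hl).2), add_zero]
        · obtain ⟨l, hl, hl'⟩ : ∃ l ∈ U, pr q (fib φ l) < 2 ^ n := by
            by_contra h4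
            push Not at h4
            refine h3 (Finset.ext fun l => ⟨fun h => ?_, fun h => mem_filter.2
              ⟨mem_univ _, h4 l h⟩⟩)
            by_contra h5
            exact absurd (mem_filter.1 h).2 (not_le.2 (h1.1 l h5))
          rw [prod_eq_zero hl (by rw [if_pos hl']; ring), zero_mul]
      · rw [sum_eq_zero fun t _ => by
          rw [if_neg fun h => h1 ⟨fun l hl => h.1 l (by simp [hl]), h.2⟩, mul_zero]]
        split_ifs with h3 h4
        · refine absurd ⟨fun l hl => ?_, h4⟩ h1
          rw [← h3] at hl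
          simpa [hLg] using hl
        · rfl
        · rfl
    rw [sum_congr rfl fun φ _ => e1 φ, sum_comm]
    refine (sum_le_card_nsmul _ _ A fun t _ => ?_).trans ?_
    · rw [← mul_sum]
      refine (le_abs_self _).trans ?_
      rw [abs_mul, abs_neg_one_pow, one_mul, sum_split (U \ t)]
      refine (abs_sum_le_sum_abs _ _).trans ((sum_le_sum (g := fun ψ =>
        (if ψ = fun _ => none then Real.exp E0 else 0) + Real.exp E1 *
          ∏ i, if ψ i = none then 1 else if q i < 2 ^ n then 3 * K / q i else 0)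
          fun ψ hψ => ?_).trans ?_)
      · have hψ := (mem_filter.1 hψ).2
        have hp0 : 0 ≤ ∏ i, if ψ i = none then 1 else if q i < 2 ^ n then 3 * K / q i else 0 :=
          prod_nonneg fun i _ => by split_ifs <;> positivity
        have e2 : ∀ g ∈ Fintype.piFinset (TT ψ (U \ t)),
            ((∀ l, l ∉ U \ t → pr q (fib (mrg ψ g) l) < 2 ^ n) ∧ R (U ∪ pat (mrg ψ g))) ↔
            ((∀ l, pr q (fib ψ l) < 2 ^ n) ∧ R (U ∪ pat ψ)) := fun g hg => by
          rw [pat_mrg sdiff_subset hg]
          refine and_congr_left fun _ => forall_congr' fun l => ?_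
          rw [fib_mrg hψ hg]
          by_cases hl : l ∈ U \ t
          · have : fib ψ l = ∅ := filter_eq_empty_iff.2 fun i _ h => hψ i l h hl
            simp only [hl, not_true, false_imp_iff, this, pr, prod_empty, h2n]
          · simp only [hl, not_false_iff, true_imp_iff, if_false]
        rw [sum_congr rfl fun g hg => if_congr (e2 g hg) rfl rfl]
        by_cases h1 : (∀ l, pr q (fib ψ l) < 2 ^ n) ∧ R (U ∪ pat ψ)
        · simp only [if_pos h1]
          refine (unlinked_le hw (fun a ha b hb => hU a (sdiff_subset ha) b (sdiff_subset hb))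
            ψ).trans ?_
          have h3 := Real.exp_le_exp.2 (hE U _ ψ hU sdiff_subset hψ h1.1 h1.2)
          split_ifs at h3 ⊢ with h4
          · subst h4
            simp only [if_true, prod_const_one, mul_one]
            linarith [Real.exp_pos E1]
          · rw [zero_add]
            refine mul_le_mul h3 (le_of_eq (prod_congr rfl fun i _ => ?_))
              (prod_nonneg fun i _ => by split_ifs <;> positivity) (Real.exp_pos _).le
            rcases h : ψ i with _ | l
            · rfl
            · rw [if_neg (by simp), if_neg (by simp), if_pos (lt_of_le_of_lt (Nat.le_of_dvd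
                (hq.odd _).pos (hq.dvd_pr.2 (mem_filter.2 ⟨mem_univ _, h⟩))) (h1.1 l))]
        · simp only [if_neg h1, sum_const_zero, abs_zero]
          split_ifs <;> positivity
      · refine (sum_le_sum_of_subset_of_nonneg (filter_subset _ _) fun ψ _ _ => add_nonneg
          (by split_ifs <;> positivity) (mul_nonneg (Real.exp_pos _).le
          (prod_nonneg fun i _ => by split_ifs <;> positivity))).trans ?_
        rw [sum_add_distrib, sum_ite_eq', if_pos (mem_univ _), ← mul_sum]
        exact add_le_add le_rfl (mul_le_mul_of_nonneg_left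
          (sum_conf_le _ fun i => by split_ifs <;> positivity) (Real.exp_pos _).le)
    · rw [card_powerset, nsmul_eq_mul]
      push_cast
      gcongr
      · norm_num
      · exact card_le_univ U
  · refine le_trans ?_ (le_add_of_nonneg_left (by positivity))
    push Not at hU
    obtain ⟨a, ha, b, hb, hab⟩ := hU
    have hab : lnk a b = true := by simpa using hab
    have hV : ({a, b} : Finset Λ) ⊆ U := by intro x; simp; rintro (rfl | rfl) <;> assumption
    rw [sum_split {a, b}]
    refine (sum_le_sum (g := fun ψ => (∏ i, if ψ i = none then 1 else K / q i) * B)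
      fun ψ hψ => ?_).trans ?_
    · have hψ := (mem_filter.1 hψ).2
      have e2 : ∀ g ∈ Fintype.piFinset (TT ψ {a, b}), (if Lg (mrg ψ g) = U then
          (if R (U ∪ pat (mrg ψ g)) then FT lnk q w (mrg ψ g) else 0) else 0) =
          if (∀ l ∉ ({a, b} : Finset Λ), 2 ^ n ≤ pr q (fib ψ l) ↔ l ∈ U) ∧ R (U ∪ pat ψ) then
            (if 2 ^ n ≤ pr q (fib g a) ∧ 2 ^ n ≤ pr q (fib g b) then FT lnk q w (mrg ψ g)
              else 0) else 0 := fun g hg => by
        rw [pat_mrg hV hg, ← ite_and, ← ite_and]
        refine if_congr ?_ rfl rfl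
        simp only [hLg, Finset.ext_iff, mem_filter, mem_univ, true_and, fib_mrg hψ hg]
        constructor
        · rintro ⟨h1, h2⟩
          refine ⟨⟨fun l hl => by simpa only [if_neg hl] using h1 l, h2⟩, ?_, ?_⟩
          · simpa [ha] using h1 a
          · simpa [hb] using h1 b
        · rintro ⟨⟨h1, h2⟩, h3, h4⟩
          refine ⟨fun l => ?_, h2⟩
          split_ifs with hl
          · rcases mem_insert.1 hl with rfl | hl
            · exact iff_of_true h3 ha
            · cases mem_singleton.1 hl
              exact iff_of_true h4 hb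
          · exact h1 l hl
      rw [sum_congr rfl e2, sum_ite_irrel, sum_const_zero]
      split_ifs
      · exact (le_abs_self _).trans (linked_le hq hw has hab hn ψ)
      · exact mul_nonneg (prod_nonneg fun i _ => by split_ifs <;> positivity) hB0
    · rw [← sum_mul]
      refine mul_le_mul_of_nonneg_right ((sum_le_sum_of_subset_of_nonneg (filter_subset _ _)
        fun ψ _ _ => prod_nonneg fun i _ => by split_ifs <;> positivity).trans
        ((sum_conf_le _ fun i => by positivity).trans (le_of_eq ?_))) hB0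
      simp only [HH, mul_sum, div_eq_mul_inv]

end Pool.Agent.Lib.TorsRank
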