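import Pool.Agent.Lib.MP_6073f3_nt.Engine

/-!
Uniform bounds for the configuration sums when the weights are given by characters modulo 24.
-/

set_option linter.unusedSectionVars false

namespace Pool.Agent.Lib.TorsRank

open Finset
open scoped NumberTheorySymbols

section

variable {Λ : Type} [Fintype Λ] [DecidableEq Λ]

theorem engine2 {lnk : Λ → Λ → Bool} (has : ∀ a b, lnk a b = true → lnk b a = false)
    (R : Finset Λ → Prop) [DecidablePred R] {K δ B : ℝ} (hδ : 0 < δ) (hB : 0 ≤ B) :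
    ∃ C : ℝ, ∀ (ι : Type) [Fintype ι] [DecidableEq ι] (q : ι → ℕ) (z : ℕ) (w : ι → Option Λ → ℝ),
      PrimeSys q z → Wts q w K → Real.log z ≤ Real.exp (HH q + B) →
      (∀ n : ℕ, 1 ≤ n → ∀ (U V : Finset Λ) (ψ : ι → Option Λ),
        (∀ a ∈ U, ∀ b ∈ U, lnk a b = false) → V ⊆ U →
        (∀ i l, ψ i = some l → l ∉ V) → (∀ l, pr q (fib ψ l) < 2 ^ n) → R (U ∪ pat ψ) →
        ∑ i, (w i none - 1 + ∑ l ∈ V, w i (some l) * chi lnk q ψ i (some l)) ≤
          if ψ = fun _ => none then 0 else -δ * HH q + B * (1 + Real.log n)) →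
      ∑ φ : ι → Option Λ, (if R (pat φ) then FT lnk q w φ else 0) ≤ C := by
  set L : ℝ := (Fintype.card Λ : ℝ) with hL
  have hL0 : 0 ≤ L := Nat.cast_nonneg _
  set A := 16 * (L * K + 768 * K ^ 2 + 1) with hA
  set B' := B + 24 * L * K + 1 with hB'
  refine ⟨2 ^ Fintype.card Λ * (2 ^ Fintype.card Λ * (1 + Real.exp (δ + B' *
    (1 + Real.log (A + 1) - Real.log (δ / B')))) + 2208 * Real.exp B), ?_⟩
  intro ι _ _ q z w hq hw hz hE
  have hK := hw.hK
  have hH := HH_nonneg (q := q)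
  have hA0 : 16 ≤ A := by nlinarith [mul_nonneg hL0 (by linarith : 0 ≤ K), sq_nonneg K]
  have hB0 : 1 ≤ B' := by nlinarith [mul_nonneg hL0 (by linarith : 0 ≤ K)]
  set n := ⌈A * (HH q + 1)⌉₊ with hn
  have hn1 : A * (HH q + 1) ≤ n := Nat.le_ceil _
  have hn2 : (n : ℝ) ≤ (A + 1) * (HH q + 1) := by
    have := (Nat.ceil_lt_add_one (show 0 ≤ A * (HH q + 1) by positivity)).le
    nlinarith
  have hn3 : (1 : ℝ) ≤ n := by nlinarith
  have hn4 : 1 ≤ n := by exact_mod_cast hn3
  have hl0 : 0 ≤ Real.log n := Real.log_nonneg hn3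
  refine (engine hq hw has R hn4 (hE n hn4)).trans ?_
  rw [Real.exp_zero, ← Real.exp_add]
  refine mul_le_mul_of_nonneg_left (add_le_add (mul_le_mul_of_nonneg_left
    (add_le_add le_rfl (Real.exp_le_exp.2 ?_)) (by positivity)) ?_) (by positivity)
  · have h1 : ∑ i, (if q i < 2 ^ n then 3 * K / q i else 0) ≤ 3 * K * (8 + Real.log n) := by
      have h2 := recip_upper (z := 2 ^ n) (Nat.le_self_pow (by omega) 2)
        (S := (univ.filter fun i => q i < 2 ^ n).image q) (fun l hl => by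
          obtain ⟨i, hi, rfl⟩ := mem_image.1 hl
          exact ⟨hq.hp i, (mem_filter.1 hi).2.le⟩)
      rw [sum_image fun _ _ _ _ h => hq.inj h] at h2
      have h3 : Real.log (28 * Real.log ((2 ^ n : ℕ) : ℝ)) ≤ 4 + Real.log n := by
        have h4 := Real.log_two_lt_d9
        have h5 := Real.log_two_gt_d9
        push_cast
        rw [Real.log_pow, show 28 * (n * Real.log 2) = 28 * Real.log 2 * n by ring,
          Real.log_mul (by positivity) (by positivity)]
        have h6 : Real.log (28 * Real.log 2) ≤ 4 := by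
          rw [Real.log_le_iff_le_exp (by positivity)]
          have e : Real.exp 4 = Real.exp 1 ^ 4 := by rw [← Real.exp_nat_mul]; norm_num
          have := Real.exp_one_gt_d9
          rw [e]; calc 28 * Real.log 2 ≤ 2.5 ^ 4 := by linarith
            _ ≤ _ := by gcongr; linarith
        linarith
      rw [← sum_filter]
      simp only [div_eq_mul_inv, ← mul_sum]
      gcongr; linarith
    have h2 : Real.log n ≤ Real.log (A + 1) + Real.log (HH q + 1) := by
      rw [← Real.log_mul (by positivity) (by positivity)]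
      exact Real.log_le_log (by positivity) hn2
    have h3 := Real.log_le_sub_one_of_pos (show 0 < δ / B' * (HH q + 1) by positivity)
    rw [Real.log_mul (by positivity) (by positivity)] at h3
    have h4 := mul_le_mul_of_nonneg_left h3 (show 0 ≤ B' by linarith)
    have e : B' * (δ / B' * (HH q + 1) - 1) = δ * (HH q + 1) - B' := by field_simp
    have h5 := mul_le_mul_of_nonneg_left h1 hL0
    have h6 := mul_le_mul_of_nonneg_left h2 (show 0 ≤ B' by linarith)
    have h7 := mul_nonneg (mul_nonneg hL0 (by linarith : 0 ≤ K)) hl0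
    nlinarith
  · have h1 : (15 / 16 : ℝ) ^ n ≤ Real.exp (-(n / 16)) := by
      rw [show -((n : ℝ) / 16) = n * (-(1 / 16)) by ring, Real.exp_nat_mul]
      gcongr
      linarith [Real.add_one_le_exp (-(1 / 16))]
    calc _ ≤ Real.exp (L * (K * HH q)) * (2208 * Real.exp (192 * (2 * K) ^ 2 * HH q) *
          Real.exp (HH q + B) * Real.exp (-(n / 16))) := by gcongr
      _ = 2208 * Real.exp (L * (K * HH q) + 192 * (2 * K) ^ 2 * HH q + (HH q + B) + -(n / 16)) := by
          simp only [Real.exp_add]; ring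
      _ ≤ _ := mul_le_mul_of_nonneg_left (Real.exp_le_exp.2 (by nlinarith)) (by norm_num)

end

/-- The discriminants of the real characters modulo 24, up to squares. -/
def DD : Fin 8 → ℤ := ![1, -1, 2, -2, 3, -3, 6, -6]

/-- A combination of the real characters modulo 24. -/
noncomputable def ch (p : ℕ) : (Fin 8 → ℝ) →ₗ[ℝ] ℝ where
  toFun e := ∑ j, e j * xi (DD j) p
  map_add' e f := by simp [add_mul, sum_add_distrib]
  map_smul' r e := by simp [mul_sum, mul_assoc]

theorem ch_apply (p : ℕ) (e : Fin 8 → ℝ) : ch p e = ∑ j, e j * xi (DD j) p := rfl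

theorem ch_eq (p : ℕ) (e : Fin 8 → ℝ) : ch p e = e 0 * xi 1 p + e 1 * xi (-1) p + e 2 * xi 2 p +
    e 3 * xi (-2) p + e 4 * xi 3 p + e 5 * xi (-3) p + e 6 * xi 6 p + e 7 * xi (-6) p := by
  rw [ch_apply, Fin.sum_univ_eight]; rfl

theorem DD_dvd : ∀ k, DD k ∣ ((2 * 3 : ℕ) : ℤ) := by decide

theorem DD_le : ∀ k, (DD k).natAbs ≤ 6 := by decide

theorem abs_ch (p : ℕ) (e : Fin 8 → ℝ) : |ch p e| ≤ ∑ j, |e j| := by
  rw [ch_apply]
  refine (abs_sum_le_sum_abs _ _).trans (sum_le_sum fun j _ => ?_)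
  rw [abs_mul]; exact mul_le_of_le_one_right (abs_nonneg _) (abs_xi _ _)

/-- The proportion of nonzero points on a line in the plane over the field with `p` elements. -/
noncomputable def ff (p : ℕ) : ℝ := (p - 1) / p ^ 2

theorem ff_nonneg {p : ℕ} (hp : 1 ≤ p) : 0 ≤ ff p :=
  div_nonneg (sub_nonneg.2 (by exact_mod_cast hp)) (by positivity)

theorem ff_le (p : ℕ) : ff p ≤ (p : ℝ)⁻¹ := by
  rcases Nat.eq_zero_or_pos p with rfl | hp
  · simp [ff]
  · have : (0 : ℝ) < p := by exact_mod_cast hp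
    rw [ff, div_le_iff₀ (by positivity)]; field_simp; linarith

theorem sum_ff_le {c z : ℕ} (x : ℕ → ℝ) {M : ℝ} (hx : ∀ p, |x p| ≤ M) :
    ∑ p ∈ PS c z, ff p * x p ≤ ∑ p ∈ PS c z, x p / p + M := by
  have hM : 0 ≤ M := (abs_nonneg _).trans (hx 0)
  have h1 := mul_le_mul_of_nonneg_left
    (sum_inv_sq_le (S := PS c z) fun l hl => (mem_PS.1 hl).2.two_le) hM
  rw [mul_sum, mul_one] at h1
  refine le_trans (sum_le_sum fun p hp => ?_) ((sum_add_distrib).trans_le (add_le_add le_rfl h1))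
  have : (0 : ℝ) < p := by exact_mod_cast (mem_PS.1 hp).2.pos
  have e : ff p * x p = x p / p + -x p * ((p : ℝ) ^ 2)⁻¹ := by rw [ff]; field_simp; ring
  rw [e]
  gcongr
  exact (neg_le_abs _).trans (hx p)

theorem ch_upper (e : Fin 8 → ℝ) {δ : ℝ} (h : e 0 + δ < 0) {c : ℕ} (hc : 3 ≤ c) :
    ∃ C, ∀ z, ∑ p ∈ PS c z, ff p * ch p e ≤ -δ * HS c z + C := by
  obtain ⟨C, hC⟩ := periodic_upper (fun p => ch p e + δ) (fun n => by
    simp only [ch_apply]
    congr 1
    exact sum_congr rfl fun j _ => by rw [xi_mod _ (by revert j; decide)]) (by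
      simp only [ch_eq, xi]
      norm_num [Nat.odd_iff]
      linarith) hc
  refine ⟨C + ∑ j, |e j|, fun z => (sum_ff_le _ fun p => abs_ch p e).trans ?_⟩
  have := hC z
  simp only [add_div, sum_add_distrib, div_eq_mul_inv δ, ← mul_sum] at this
  unfold HS
  linarith

theorem primeSys_PS {c z : ℕ} (hc : 3 ≤ c) (hz : 2 ≤ z) :
    PrimeSys (fun i : PS c z => i.1) z :=
  ⟨fun i => (mem_PS.1 i.2).2, fun i => by have := (mem_PS.1 i.2).1.1; omega, Subtype.val_injective,
    fun i => (mem_PS.1 i.2).1.2, hz⟩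

theorem HH_PS (c z : ℕ) : HH (fun i : PS c z => i.1) = HS c z :=
  sum_coe_sort (PS c z) fun p => (p : ℝ)⁻¹

section

variable {Λ : Type} [Fintype Λ] [DecidableEq Λ] {lnk : Λ → Λ → Bool}

theorem dead_le (has : ∀ a b, lnk a b = true → lnk b a = false) {c z : ℕ} (hc : 3 ≤ c) (hz : 2 ≤ z)
    {ψ : PS c z → Option Λ} {n : ℕ} (hn : 1 ≤ n)
    (hψ : ∀ l, pr (fun i : PS c z => i.1) (fib ψ l) < 2 ^ n) {l l' : Λ} (hl' : l' ∈ pat ψ)
    (hl : lnk l l' = true ∨ lnk l' l = true) {e : Fin 8 → ℝ} (he : ∀ j, 0 ≤ e j) :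
    ∑ i : PS c z, ff i * ch i e * chi lnk (fun i : PS c z => i.1) ψ i (some l) ≤
      (∑ j, e j) * ((Fintype.card Λ + c + 17) * (1 + Real.log n)) := by
  have hq := primeSys_PS hc hz
  set q := fun i : PS c z => i.1 with hq'
  let μ : PS c z → ℤ := fun j => match ψ j with
    | some a => if lnk l a then star (q j) else if lnk a l then q j else 1
    | none => 1
  have hodd : ∀ i, Odd (q i) := fun i => (hq.hp i).odd_of_ne_two (hq.h2 i)
  have e1 : ∀ i, chi lnk q ψ i (some l) = xi (∏ j, μ j) (q i) := fun i => by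
    rw [xi_odd (hodd i), jac_prod_left, chi]
    push_cast
    refine prod_congr rfl fun j _ => ?_
    simp only [μ]
    rcases ψ j with _ | a
    · simp [lk]
    · by_cases h1 : lnk l a = true
      · simp [lk, h1, has _ _ h1, jac_star (hodd i) (hodd j)]
      · by_cases h2 : lnk a l = true <;> simp [lk, h1, h2]
  have hμ : ∀ j, (μ j).natAbs = 1 ∨ (μ j).natAbs = q j ∧ ψ j ≠ none := fun j => by
    simp only [μ]
    rcases ψ j with _ | a
    · simp
    · simp only [star]; split_ifs <;> simp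
  obtain ⟨j0, hj0⟩ := (mem_filter.1 hl').2
  have hnp : ∀ k, NP (DD k * ∏ j, μ j) := fun k => by
    have h1 : μ j0 = q j0 ∨ μ j0 = -q j0 := by
      simp only [μ, hj0, star]
      split_ifs with h1 h2 h3 <;> simp_all
    have h2 : ¬ (q j0 : ℤ) ∣ DD k * ∏ j ∈ univ.erase j0, μ j := by
      have hp := Nat.prime_iff_prime_int.1 (hq.hp j0)
      rw [hp.dvd_mul, hp.dvd_finsetProd_iff, not_or]
      constructor
      · intro h
        have h3 : q j0 ∣ 2 * 3 := Int.natCast_dvd_natCast.1 (h.trans (DD_dvd k))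
        have h4 := (mem_PS.1 j0.2).1.1
        rcases ((hq.hp j0).dvd_mul).1 h3 with h | h <;> have := Nat.le_of_dvd (by norm_num) h <;>
          simp only [hq'] at this <;> omega
      · rintro ⟨j, hj, h⟩
        rw [Int.natCast_dvd] at h
        rcases hμ j with h3 | h3
        · rw [h3] at h; exact (hq.hp j0).one_lt.ne' (Nat.dvd_one.1 h)
        · rw [h3.1] at h
          exact (mem_erase.1 hj).1
            (hq.inj ((Nat.prime_dvd_prime_iff_eq (hq.hp j0) (hq.hp j)).1 h)).symm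
    rw [← mul_prod_erase _ _ (mem_univ j0)]
    rcases h1 with h1 | h1 <;> rw [h1]
    · convert NP.of_prime (hq.hp j0) (hq.h2 j0) h2 using 1; ring
    · convert NP.of_prime (hq.hp j0) (hq.h2 j0) (mt dvd_neg.1 h2) using 1; ring
  have hsz : (∏ j, μ j).natAbs ≤ 2 ^ (n * Fintype.card Λ) := by
    calc (∏ j, μ j).natAbs = ∏ j, (μ j).natAbs := map_prod Int.natAbsHom _ _
      _ ≤ ∏ j, ∏ a, if ψ j = some a then q j else 1 := prod_le_prod' fun j _ => by
          rcases hμ j with h | ⟨h, h'⟩ <;> rw [h]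
          · exact one_le_prod' fun a _ => by split_ifs; exacts [(hq.hp j).one_le, le_rfl]
          · obtain ⟨a, ha⟩ := Option.ne_none_iff_exists'.1 h'
            simp [ha]
      _ = ∏ a, pr q (fib ψ a) := by rw [prod_comm]; simp only [pr, fib, prod_filter]
      _ ≤ _ := by
          rw [pow_mul, ← card_univ, ← prod_const]; exact prod_le_prod' fun a _ => (hψ a).le
  have hn' : (1 : ℝ) ≤ n := by exact_mod_cast hn
  have hl0 := Real.log_nonneg hn'
  have e2 : ∑ i : PS c z, ff i * ch i e * chi lnk q ψ i (some l) =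
      ∑ k, e k * ∑ p ∈ PS c z, ff p * xi (DD k * ∏ j, μ j) p := by
    simp only [e1, ch_apply, xi_mul_left, mul_sum, sum_mul, ← sum_coe_sort (PS c z)]
    rw [sum_comm]
    exact sum_congr rfl fun k _ => sum_congr rfl fun i _ => by ring
  rw [e2, sum_mul]
  refine sum_le_sum fun k _ => mul_le_mul_of_nonneg_left ((sum_ff_le _ (abs_xi _)).trans ?_) (he k)
  have h1 := char_upper (hnp k) c z
  have h0 : (1 : ℝ) ≤ (DD k * ∏ j, μ j).natAbs := by exact_mod_cast Int.natAbs_pos.2 (hnp k).1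
  have h2 : ((DD k * ∏ j, μ j).natAbs : ℝ) ≤ 6 * 2 ^ (n * Fintype.card Λ) := by
    rw [Int.natAbs_mul]
    exact_mod_cast Nat.mul_le_mul (DD_le k) hsz
  set L : ℝ := (Fintype.card Λ : ℝ) with hL
  have hL0 : 0 ≤ L := Nat.cast_nonneg _
  have h3 : Real.log (4 * (DD k * ∏ j, μ j).natAbs) ≤ 4 + n * L := by
    refine (Real.log_le_log (by positivity) (show _ ≤ (2 : ℝ) ^ (5 + n * Fintype.card Λ) by
      rw [pow_add]; nlinarith [pow_pos (two_pos (α := ℝ)) (n * Fintype.card Λ)])).trans ?_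
    rw [Real.log_pow]
    push_cast
    nlinarith [Real.log_two_lt_d9, mul_nonneg (by linarith : (0 : ℝ) ≤ n) hL0]
  have h4 : Real.log (3 + Real.log (4 * (DD k * ∏ j, μ j).natAbs)) ≤ Real.log n + (L + 6) := by
    have := Real.log_nonneg (show (1 : ℝ) ≤ 4 * (DD k * ∏ j, μ j).natAbs by linarith)
    refine (Real.log_le_log (by positivity) (show _ ≤ n * (L + 7) by nlinarith)).trans ?_
    rw [Real.log_mul (by positivity) (by positivity)]
    linarith [Real.log_le_sub_one_of_pos (show 0 < L + 7 by positivity)]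
  nlinarith [mul_nonneg (show 0 ≤ L + c + 16 by positivity) hl0]

theorem engine3 (has : ∀ a b, lnk a b = true → lnk b a = false) (R : Finset Λ → Prop)
    [DecidablePred R] (cw : Λ → Fin 8 → ℝ) (cb : Fin 8 → ℝ) (hcw : ∀ l j, 0 ≤ cw l j)
    (h0 : ∀ p : ℕ, p.Prime → 3 < p → 0 ≤ ch p cb)
    (h1 : ∀ U V : Finset Λ, (∀ a ∈ U, ∀ b ∈ U, lnk a b = false) → V ⊆ U → R U →
      ∀ p : ℕ, p.Prime → 3 < p → ∑ l ∈ V, ch p (cw l) ≤ ch p cb) {δ : ℝ} (hδ : 0 < δ)
    (h2 : ∀ U V P W : Finset Λ, (∀ a ∈ U, ∀ b ∈ U, lnk a b = false) → V ⊆ U → W ⊆ V →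
      P.Nonempty → (∀ l ∈ P, l ∉ V) → R (U ∪ P) →
      (∀ a ∈ W, ∀ b ∈ P, lnk a b = false ∧ lnk b a = false) → ∑ l ∈ W, cw l 0 + δ < cb 0) :
    ∃ c0 : ℕ, ∀ c ≥ c0, ∃ C : ℝ, ∀ z ≥ 2, ∀ w : PS c z → Option Λ → ℝ,
      (∀ i, w i none = 1 - ff i * ch i cb) → (∀ i l, w i (some l) = ff i * ch i (cw l)) →
      ∑ φ : PS c z → Option Λ, (if R (pat φ) then FT lnk (fun i : PS c z => i.1) w φ else 0) ≤
        C := by
  set L : ℝ := (Fintype.card Λ : ℝ) with hL
  have hL0 : 0 ≤ L := Nat.cast_nonneg _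
  set S := ∑ l, ∑ j, cw l j with hS
  have hS0 : 0 ≤ S := sum_nonneg fun l _ => sum_nonneg fun j _ => hcw l j
  set K := 1 + ∑ j, |cb j| + S with hK
  have hb0 : 0 ≤ ∑ j, |cb j| := sum_nonneg fun _ _ => abs_nonneg _
  refine ⟨⌈2 * (L + 1) * K⌉₊ + 3, fun c hc => ?_⟩
  have hc3 : 3 ≤ c := by omega
  have hcK : 2 * (L + 1) * K ≤ c := (Nat.le_ceil _).trans (by exact_mod_cast by omega)
  have hW : ∀ W : Finset Λ, ∃ C, ∑ l ∈ W, cw l 0 + δ < cb 0 → ∀ z,
      ∑ p ∈ PS c z, ff p * ch p (∑ l ∈ W, cw l - cb) ≤ -δ * HS c z + C := fun W => by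
    by_cases h : ∑ l ∈ W, cw l 0 + δ < cb 0
    · obtain ⟨C, hC⟩ := ch_upper (∑ l ∈ W, cw l - cb) (δ := δ) (by simp; linarith) hc3
      exact ⟨C, fun _ => hC⟩
    · exact ⟨0, fun h' => absurd h' h⟩
  choose CW hCW using hW
  have hC0 : 0 ≤ ∑ W, |CW W| := sum_nonneg fun _ _ => abs_nonneg _
  obtain ⟨C, hC⟩ := engine2 has R (K := K) hδ
    (B := ∑ W, |CW W| + S * (L + c + 17) + (c + 2)) (by positivity)
  refine ⟨C, fun z hz w hw0 hw1 => ?_⟩
  have hq := primeSys_PS hc3 hz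
  have hi : ∀ i : PS c z, (i : ℕ).Prime ∧ 3 < (i : ℕ) ∧ (c : ℝ) ≤ (i : ℕ) := fun i =>
    have := mem_PS.1 i.2
    ⟨this.2, by omega, by exact_mod_cast this.1.1.le⟩
  have hf : ∀ (i : PS c z) e, ∑ j, |e j| ≤ K → |ff i * ch i e| ≤ K / (i : ℕ) := fun i e he => by
    rw [abs_mul, abs_of_nonneg (ff_nonneg (hi i).1.one_le), div_eq_inv_mul]
    exact mul_le_mul (ff_le _) ((abs_ch _ _).trans he) (abs_nonneg _) (by positivity)
  have hKc : ∀ i : PS c z, (L + 1) * (K / (i : ℕ)) ≤ 1 / 2 := fun i => by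
    have : (0 : ℝ) < (i : ℕ) := by exact_mod_cast (hi i).1.pos
    rw [← mul_div_assoc, div_le_iff₀ this]
    linarith [(hi i).2.2]
  have hK0 : ∀ i : PS c z, 0 ≤ K / (i : ℕ) := fun i => by positivity
  refine hC _ _ z w hq ⟨by linarith, fun i l => ?_, fun i => ?_, fun i => ?_, fun i => ?_⟩ ?_ ?_
  · rw [hw1]
    refine hf i _ ?_
    have := single_le_sum (f := fun l => ∑ j, cw l j)
      (fun l _ => sum_nonneg fun j _ => hcw l j) (mem_univ l)
    simp only [abs_of_nonneg (hcw _ _)]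
    linarith
  · have := (le_abs_self _).trans (hf i cb (by linarith))
    rw [hw0]
    nlinarith [hKc i, hK0 i]
  · rw [hw0]
    linarith [mul_nonneg (ff_nonneg (hi i).1.one_le) (h0 i (hi i).1 (hi i).2.1)]
  · nlinarith [hKc i, hK0 i]
  · rw [HH_PS]
    refine (log_le_exp c z).trans (Real.exp_le_exp.2 ?_)
    have : 0 ≤ S * (L + c + 17) := by positivity
    linarith
  intro n hn U V ψ hU hV hψ hsm hR
  split_ifs with h
  · subst h
    refine sum_nonpos fun i _ => ?_
    have := mul_le_mul_of_nonneg_left (h1 U V hU hV (by simpa [pat] using hR) i (hi i).1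
      (hi i).2.1) (ff_nonneg (hi i).1.one_le)
    simp only [hw0, hw1, chi, lk_none_left, lk_none_right, mul_one, prod_const_one, ← mul_sum]
    linarith
  set W := V.filter fun a => ∀ b ∈ pat ψ, lnk a b = false ∧ lnk b a = false with hW
  have h3 := hCW W (h2 U V (pat ψ) W hU hV (filter_subset _ _) (by
    obtain ⟨i, hi⟩ := Function.ne_iff.1 h
    obtain ⟨l, hl⟩ := Option.ne_none_iff_exists'.1 hi
    exact ⟨l, mem_filter.2 ⟨mem_univ _, i, hl⟩⟩) (fun l hl => by
    obtain ⟨i, hi⟩ := (mem_filter.1 hl).2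
    exact hψ i l hi) hR fun a ha => (mem_filter.1 ha).2) z
  have hl0 : 0 ≤ Real.log n := Real.log_natCast_nonneg n
  have h4 : ∑ l ∈ V with ¬ ∀ b ∈ pat ψ, lnk l b = false ∧ lnk b l = false, ∑ i : PS c z,
      w i (some l) * chi lnk (fun i : PS c z => i.1) ψ i (some l) ≤
      S * ((L + c + 17) * (1 + Real.log n)) := by
    rw [hS, sum_mul]
    refine (sum_le_sum fun l hl => ?_).trans (sum_le_sum_of_subset_of_nonneg (subset_univ _)
      fun l _ _ => mul_nonneg (sum_nonneg fun j _ => hcw l j) (by positivity))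
    have := (mem_filter.1 hl).2
    push Not at this
    obtain ⟨b, hb, hb'⟩ := this
    simp only [hw1]
    exact dead_le has hc3 hz hn hsm hb (by
      cases h : lnk l b
      · exact Or.inr (by simpa using hb' h)
      · exact Or.inl rfl) (hcw l)
  have h5 : ∀ i, ∀ l ∈ W, chi lnk (fun i : PS c z => i.1) ψ i (some l) = 1 := fun i l hl =>
    prod_eq_one fun j _ => by
      rcases h : ψ j with _ | b
      · simp [lk]
      · have := (mem_filter.1 hl).2 b (mem_filter.2 ⟨mem_univ _, j, h⟩)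
        simp [lk, this]
  have h6 : ∑ i : PS c z, (w i none - 1 + ∑ l ∈ W, w i (some l) *
      chi lnk (fun i : PS c z => i.1) ψ i (some l)) =
      ∑ p ∈ PS c z, ff p * ch p (∑ l ∈ W, cw l - cb) := by
    rw [← sum_coe_sort (PS c z)]
    refine sum_congr rfl fun i _ => ?_
    rw [sum_congr rfl fun l hl => by rw [h5 i l hl, mul_one, hw1], hw0, map_sub, map_sum, ← mul_sum]
    ring
  simp only [← sum_filter_add_sum_filter_not V
    (fun a => ∀ b ∈ pat ψ, lnk a b = false ∧ lnk b a = false), ← add_assoc]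
  rw [sum_add_distrib, h6, sum_comm, HH_PS]
  have h7 : CW W ≤ ∑ W, |CW W| := (le_abs_self _).trans
    (single_le_sum (f := fun W => |CW W|) (fun _ _ => abs_nonneg _) (mem_univ W))
  nlinarith [mul_nonneg hC0 hl0, mul_nonneg (show (0 : ℝ) ≤ c + 2 by positivity) hl0,
    (Nat.cast_nonneg c : (0 : ℝ) ≤ c)]

end

end Pool.Agent.Lib.TorsRank
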