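import Pool.Agent.Lib.MP_6073f3_nt.Count

/-!
The discriminant factorizations of the seven families.
-/

namespace Pool.Agent.Lib.TorsRank

open Finset

/-- Full 2-torsion. -/
def A22 : Atoms 3 where
  v := ![![0, 0, 0, -1, 1], ![0, 0, 0, 0, 1], ![0, 0, 0, 1, 0]]
  ty := ![0, 1, 2]
  m := ![1, 1, 1]
  u := ![-1, 1, -1]
  j := ![none, none, none]
  d := ![none, none, none]
  e s t := ![0, s, t]
  hm := by decide
  hu := by decide
  kind := by decide
  num := by decide
  he s t l := by fin_cases l <;> simp [Df, ev, prod_filter, Fin.prod_univ_succ]; ring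
  cop := cop_of_res (by decide) (by decide)
  sg p k a b h := by
    fin_cases k <;> simp [Df, ev, prod_filter, Fin.prod_univ_succ] at h ⊢
    intro c; ring

/-- The curves 2-isogenous to those with a point of order four. -/
def A4 : Atoms 3 where
  v := ![![0, 0, 0, 0, 1], ![1, 0, 0, 0, -4], ![0, 0, 0, 1, 0]]
  ty := ![0, 1, 2]
  m := ![1, 1, 2]
  u := ![4, 1, -1]
  j := ![none, none, none]
  d := ![some 0, some 1, none]
  e s t := ![0, s ^ 2, s ^ 2 - 4 * t]
  hm := by decide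
  hu := by decide
  kind := by decide
  num := by decide
  he s t l := by fin_cases l <;> simp [Df, ev, prod_filter, Fin.prod_univ_succ]; ring
  cop p _ h3 k k' h a b h1 h2 := by
    have h4 : (4 : ZMod p) ≠ 0 := by exact_mod_cast unit6 h3 (m := 4) (k := 2) (by norm_num)
    fin_cases k <;> fin_cases k' <;> simp [ev] at h h1 h2 <;> simp_all
  sg p k a b h := by
    fin_cases k <;> simp [Df, ev, prod_filter, Fin.prod_univ_succ, DD] at h ⊢
    · exact ⟨a, by ring⟩
    · exact ⟨a, by linear_combination -h⟩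
    · intro c; subst h; ring

/-- Torsion containing `ZMod 2 × ZMod 4`. -/
def A24 : Atoms 4 where
  v := ![![0, 0, 0, -1, 1], ![0, 0, 0, 1, 1], ![0, 0, 0, 0, 1], ![0, 0, 0, 1, 0]]
  ty := ![0, 0, 1, 2]
  m := ![1, 1, 2, 2]
  u := ![1, -1, 1]
  j := ![none, none, none, none]
  d := ![some 1, some 1, some 0, some 0]
  e s t := ![0, -s ^ 2, -t ^ 2]
  hm := by decide
  hu := by decide
  kind := by decide
  num := by decide
  he s t l := by fin_cases l <;> simp [Df, ev, prod_filter, Fin.prod_univ_succ]; ring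
  cop := cop_of_res (by decide) (by decide)
  sg p k a b h := by
    fin_cases k <;> simp [Df, ev, prod_filter, Fin.prod_univ_succ, DD] at h ⊢
    · exact ⟨a, by ring⟩
    · exact ⟨a, by ring⟩
    · exact ⟨a, by subst h; ring⟩
    · exact ⟨b, by ring⟩

/-- Torsion containing `ZMod 2 × ZMod 6`. -/
def A26 : Atoms 6 where
  v := ![![0, 0, 0, 0, 1], ![0, 0, 0, 2, 1], ![0, 0, 0, 1, 0], ![0, 0, 0, 1, 2], ![0, 0, 0, -1, 1],
    ![0, 0, 0, 1, 1]]
  ty := ![0, 0, 1, 1, 2, 2]
  m := ![3, 1, 3, 1, 1, 3]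
  u := ![-1, 1, 1]
  j := ![none, none, none, none, none, none]
  d := ![some 0, some 5, some 0, some 5, some 5, some 0]
  e s t := ![-(s ^ 3 * (s + 2 * t)), -(t ^ 3 * (t + 2 * s)), 0]
  hm := by decide
  hu := by decide
  kind := by decide
  num := by decide
  he s t l := by
    fin_cases l <;> simp [Df, ev, prod_filter, Fin.prod_univ_succ, -mul_eq_mul_left_iff] <;> ring
  cop := cop_of_res (by decide) (by decide)
  sg p k a b h := by
    fin_cases k <;> simp [Df, ev, prod_filter, Fin.prod_univ_succ, DD] at h ⊢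
    · exact ⟨a ^ 2, by subst h; ring⟩
    · exact ⟨3 * a ^ 2, by rw [show b = -2 * a by linear_combination h]; ring⟩
    · exact ⟨b ^ 2, by subst h; ring⟩
    · exact ⟨3 * b ^ 2, by rw [show a = -2 * b by linear_combination h]; ring⟩
    · exact ⟨3 * a ^ 2, by rw [show b = a by linear_combination h]; ring⟩
    · exact ⟨a ^ 2, by rw [show b = -a by linear_combination h]; ring⟩

/-- Torsion containing `ZMod 2 × ZMod 8`. -/
def A28 : Atoms 7 where
  v := ![![1, 0, 1, 0, 0], ![-1, 2, 1, 0, 0], ![-1, -2, 1, 0, 0], ![0, 0, 0, 1, 0],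
    ![0, 0, 0, 0, 1], ![0, 0, 0, -1, 1], ![0, 0, 0, 1, 1]]
  ty := ![0, 0, 0, 1, 1, 2, 2]
  m := ![2, 1, 1, 4, 4, 4, 4]
  u := ![-1, -16, 1]
  j := ![some 1, some 2, some 2, none, none, none, none]
  d := ![some 1, some 1, some 1, some 0, some 0, some 0, some 0]
  e s t := ![0, -(s ^ 2 - t ^ 2) ^ 4, -(2 * s * t) ^ 4]
  hm := by decide
  hu := by decide
  kind := by decide
  num := by decide
  he s t l := by fin_cases l <;> simp [Df, ev, prod_filter, Fin.prod_univ_succ] <;> ring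
  cop := cop_of_res (by decide) (by decide)
  sg p k a b h := by
    fin_cases k <;> simp [Df, ev, prod_filter, Fin.prod_univ_succ, DD] at h ⊢
    · exact ⟨(a ^ 2 - b ^ 2) ^ 2, by ring⟩
    · exact ⟨(a ^ 2 - b ^ 2) ^ 2, by ring⟩
    · exact ⟨(a ^ 2 - b ^ 2) ^ 2, by ring⟩
    · exact ⟨b ^ 4, by subst h; ring⟩
    · exact ⟨a ^ 4, by subst h; ring⟩
    · exact ⟨(2 * a * b) ^ 2, by ring⟩
    · exact ⟨(2 * a * b) ^ 2, by ring⟩

/-- The curves 2-isogenous to those with a point of order eight. -/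
def A8 : Atoms 5 where
  v := ![![0, 0, 0, -1, 1], ![0, 0, 0, 1, 1], ![0, 0, 0, 0, 1], ![-2, 0, 1, 0, 0], ![0, 0, 0, 1, 0]]
  ty := ![0, 0, 1, 1, 2]
  m := ![2, 2, 2, 1, 4]
  u := ![1, -1, -1]
  j := ![none, none, none, some 2, none]
  d := ![some 0, some 0, some 1, some 1, some 0]
  e s t := ![0, s ^ 4, t ^ 2 * (2 * s ^ 2 - t ^ 2)]
  hm := by decide
  hu := by decide
  kind := by decide
  num := by decide
  he s t l := by fin_cases l <;> simp [Df, ev, prod_filter, Fin.prod_univ_succ] <;> ring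
  cop := cop_of_res (by decide) (by decide)
  sg p k a b h := by
    fin_cases k <;> simp [Df, ev, prod_filter, Fin.prod_univ_succ, DD] at h ⊢
    · exact ⟨a ^ 2, by ring⟩
    · exact ⟨a ^ 2, by ring⟩
    · exact ⟨a ^ 2 - b ^ 2, by ring⟩
    · exact ⟨a ^ 2 - b ^ 2, by ring⟩
    · exact ⟨b ^ 2, by subst h; ring⟩

/-- The curves 2-isogenous to those with a point of order twelve. -/
def A12 : Atoms 7 where
  v := ![![0, 0, 0, -1, 1], ![0, 0, 0, 1, 1], ![3, 0, 1, 0, 0], ![1, 0, 1, 0, 0], ![-3, 0, 1, 0, 0],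
    ![0, 0, 0, 1, 0], ![0, 0, 0, 0, 1]]
  ty := ![0, 0, 0, 1, 1, 2, 2]
  m := ![3, 3, 1, 3, 1, 6, 2]
  u := ![1, -1, -16]
  j := ![none, none, some 5, some 1, some 4, none, none]
  d := ![some 0, some 0, some 0, some 1, some 1, some 0, some 5]
  e s t := ![0, 16 * s ^ 6 * t ^ 2, (s ^ 2 + t ^ 2) ^ 3 * (3 * s ^ 2 - t ^ 2)]
  hm := by decide
  hu := by decide
  kind := by decide
  num := by decide
  he s t l := by fin_cases l <;> simp [Df, ev, prod_filter, Fin.prod_univ_succ] <;> ring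
  cop := cop_of_res (by decide) (by decide)
  sg p k a b h := by
    fin_cases k <;> simp [Df, ev, prod_filter, Fin.prod_univ_succ, DD] at h ⊢
    · exact ⟨4 * a ^ 3 * b, by ring⟩
    · exact ⟨4 * a ^ 3 * b, by ring⟩
    · exact ⟨4 * a ^ 3 * b, by ring⟩
    · exact ⟨4 * a ^ 3 * b, by
        linear_combination (a ^ 2 + b ^ 2) ^ 2 * (b ^ 2 - 3 * a ^ 2) * h⟩
    · exact ⟨4 * a ^ 3 * b, by linear_combination (a ^ 2 + b ^ 2) ^ 3 * h⟩
    · exact ⟨b ^ 4, by subst h; ring⟩
    · exact ⟨3 * a ^ 4, by subst h; ring⟩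

end Pool.Agent.Lib.TorsRank
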