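import Pool.Agent.Lib.MP_6073f3_nt.Mertens

/-!
Double oscillation of the Jacobi symbol for bilinear sums over squarefree smooth numbers.
-/

namespace Pool.Agent.Lib.TorsRank

open Finset
open scoped NumberTheorySymbols

/-- The discriminant of the quadratic character of odd conductor `n`. -/
def star (n : ℕ) : ℤ := if n % 4 = 1 then n else -n

theorem jac_star {m n : ℕ} (hm : Odd m) (hn : Odd n) : J(m | n) = J(star n | m) := by
  unfold star
  rcases Nat.odd_mod_four_iff.1 (Nat.odd_iff.1 hn) with h | h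
  · rw [if_pos h, jacobiSym.quadratic_reciprocity_one_mod_four' hm h]
  · rw [if_neg (by omega), jacobiSym.neg _ hm]
    rcases Nat.odd_mod_four_iff.1 (Nat.odd_iff.1 hm) with h' | h'
    · rw [ZMod.χ₄_nat_one_mod_four h', one_mul, jacobiSym.quadratic_reciprocity_one_mod_four h' hn]
    · rw [ZMod.χ₄_nat_three_mod_four h', jacobiSym.quadratic_reciprocity_three_mod_four h' h]
      ring

theorem xi_mul_left (a b : ℤ) (n : ℕ) : xi (a * b) n = xi a n * xi b n := by
  unfold xi; split_ifs <;> simp [jacobiSym.mul_left]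

theorem xi_prod {κ : Type} (a : ℤ) (s : Finset κ) (f : κ → ℕ) :
    xi a (∏ k ∈ s, f k) = ∏ k ∈ s, xi a (f k) := by
  classical
  induction s using Finset.induction_on with
  | empty => simp [xi_one]
  | insert k s hk ih => rw [prod_insert hk, prod_insert hk, xi_mul, ih]

/-- The function `r ^ (-1 - η)`. -/
noncomputable def FF (η : ℝ) (r : ℕ) : ℝ := Real.exp (-η * Real.log r) / r

theorem FF_nonneg (η : ℝ) (r : ℕ) : 0 ≤ FF η r := by unfold FF; positivity

theorem FF_prod {κ : Type} (η : ℝ) (s : Finset κ) (f : κ → ℕ) (hf : ∀ k ∈ s, f k ≠ 0) :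
    FF η (∏ k ∈ s, f k) = ∏ k ∈ s, FF η (f k) := by
  unfold FF
  rw [prod_div_distrib, ← Real.exp_sum, Nat.cast_prod,
    Real.log_prod (fun k hk => by exact_mod_cast hf k hk), mul_sum]

theorem FF_anti {η : ℝ} (hη : 0 ≤ η) {R : ℕ} (hR : 1 ≤ R) : Antitone fun k => FF η (R + k) := by
  intro k l hkl
  have h0 : (0 : ℝ) < (R + k : ℕ) := by exact_mod_cast (by omega : 0 < R + k)
  have h1 : ((R + k : ℕ) : ℝ) ≤ (R + l : ℕ) := by exact_mod_cast (by omega : R + k ≤ R + l)
  have := Real.log_le_log h0 h1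
  exact div_le_div₀ (Real.exp_pos _).le (Real.exp_le_exp.2 (by nlinarith)) h0 h1

theorem FF_le {η : ℝ} (hη : 0 ≤ η) (R : ℕ) : FF η R ≤ (R : ℝ)⁻¹ := by
  unfold FF
  rw [div_eq_mul_inv]
  refine mul_le_of_le_one_left (by positivity) (Real.exp_le_one_iff.2 ?_)
  nlinarith [Real.log_natCast_nonneg R]

theorem FF_sum {η : ℝ} (hη : 0 < η) {R : ℕ} (hR : 2 ≤ R) (N : ℕ) :
    ∑ k ∈ range N, FF η (R + k) ≤ η⁻¹ := by
  obtain ⟨R, rfl⟩ : ∃ m, R = m + 1 := ⟨R - 1, by omega⟩
  have key : ∀ N, η * ∑ k ∈ range N, FF η (R + 1 + k) + Real.exp (-η * Real.log (R + N : ℕ)) ≤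
      1 := by
    intro N
    induction N with
    | zero =>
      simp only [range_zero, sum_empty, mul_zero, zero_add]
      exact Real.exp_le_one_iff.2 (by nlinarith [Real.log_natCast_nonneg (R + 0)])
    | succ N ih =>
      rw [sum_range_succ, mul_add, show R + 1 + N = R + (N + 1) by ring]
      have h0 : (0 : ℝ) < (R + N : ℕ) := by exact_mod_cast (by omega : 0 < R + N)
      have e : ((R + (N + 1) : ℕ) : ℝ) = (R + N : ℕ) + 1 := by push_cast; ring
      unfold FF at *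
      rw [e]
      set x : ℝ := ((R + N : ℕ) : ℝ)
      have h1 : Real.log x - Real.log (x + 1) ≤ -(x + 1)⁻¹ := by
        rw [← Real.log_div h0.ne' (by positivity)]
        refine (Real.log_le_sub_one_of_pos (by positivity)).trans (le_of_eq ?_)
        field_simp; ring
      have h2 : Real.exp (-η * Real.log x) = Real.exp (-η * Real.log (x + 1)) *
          Real.exp (-η * (Real.log x - Real.log (x + 1))) := by
        rw [← Real.exp_add]; congr 1; ring
      have h3 := Real.add_one_le_exp (-η * (Real.log x - Real.log (x + 1)))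
      have h4 : η * (x + 1)⁻¹ + 1 ≤ Real.exp (-η * (Real.log x - Real.log (x + 1))) := by
        nlinarith
      have h5 := mul_le_mul_of_nonneg_left h4 (Real.exp_pos (-η * Real.log (x + 1))).le
      rw [div_eq_mul_inv]
      nlinarith
  have := key N
  rw [← one_div, le_div_iff₀ hη]
  linarith [Real.exp_pos (-η * Real.log (R + N : ℕ))]

section

variable {ι : Type} [Fintype ι] [DecidableEq ι]

/-- A finite system of distinct odd primes bounded by `z`. -/
structure PrimeSys (q : ι → ℕ) (z : ℕ) : Prop where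
  hp : ∀ i, (q i).Prime
  h2 : ∀ i, q i ≠ 2
  inj : Function.Injective q
  le : ∀ i, q i ≤ z
  hz : 2 ≤ z

/-- The product of the primes in `s`. -/
def pr (q : ι → ℕ) (s : Finset ι) : ℕ := ∏ i ∈ s, q i

/-- The sum of the reciprocals. -/
noncomputable def HH (q : ι → ℕ) : ℝ := ∑ i, (q i : ℝ)⁻¹

variable {q : ι → ℕ} {z : ℕ}

omit [DecidableEq ι] in
theorem HH_nonneg : 0 ≤ HH q := sum_nonneg fun _ _ => by positivity

omit [Fintype ι] [DecidableEq ι] in
theorem PrimeSys.odd (h : PrimeSys q z) (s : Finset ι) : Odd (pr q s) :=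
  prod_induction _ _ (fun _ _ => Odd.mul) odd_one fun i _ => (h.hp i).odd_of_ne_two (h.h2 i)

omit [Fintype ι] [DecidableEq ι] in
theorem PrimeSys.dvd_pr (h : PrimeSys q z) {i : ι} {s : Finset ι} : q i ∣ pr q s ↔ i ∈ s := by
  rw [pr, (h.hp i).prime.dvd_finsetProd_iff]
  exact ⟨fun ⟨j, hj, hd⟩ => h.inj ((Nat.prime_dvd_prime_iff_eq (h.hp i) (h.hp j)).1 hd) ▸ hj,
    fun hi => ⟨i, hi, dvd_rfl⟩⟩

omit [DecidableEq ι] in
theorem sum_prod_le_exp (x : ι → ℝ) (hx : ∀ i, 0 ≤ x i) :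
    ∑ s : Finset ι, ∏ i ∈ s, x i ≤ Real.exp (∑ i, x i) := by
  classical
  rw [← powerset_univ, ← prod_one_add, Real.exp_sum]
  exact prod_le_prod (fun i _ => by linarith [hx i]) fun i _ => by
    linarith [Real.add_one_le_exp (x i)]

omit [DecidableEq ι] in
theorem sum_wt_le {K : ℝ} (hK : 0 ≤ K) :
    ∑ s : Finset ι, ∏ i ∈ s, K / q i ≤ Real.exp (K * HH q) := by
  refine (sum_prod_le_exp _ fun i => by positivity).trans (le_of_eq ?_)
  rw [HH, mul_sum]; simp only [div_eq_mul_inv]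

theorem fibre_le (h : PrimeSys q z) (r : ℕ) :
    ∑ f : Fin 4 → Finset ι with ∏ k, pr q (f k) = r, ∏ k, ∏ _i ∈ f k, (16 : ℝ)⁻¹ ≤ 1 := by
  set S : Finset ι := univ.filter fun i => q i ∣ r
  calc _ ≤ ∑ f : Fin 4 → Finset ι with ∏ k, pr q (f k) = r, (16 : ℝ)⁻¹ ^ S.card := by
        refine sum_le_sum fun f hf => ?_
        simp only [prod_const, prod_pow_eq_pow_sum]
        refine pow_le_pow_of_le_one (by norm_num) (by norm_num)
          (le_trans (card_le_card fun i hi => ?_) card_biUnion_le)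
        have := (mem_filter.1 hi).2
        rw [← (mem_filter.1 hf).2, (h.hp i).prime.dvd_finsetProd_iff] at this
        obtain ⟨k, -, hk⟩ := this
        exact mem_biUnion.2 ⟨k, mem_univ _, h.dvd_pr.1 hk⟩
    _ ≤ ∑ _f ∈ Fintype.piFinset fun _ : Fin 4 => S.powerset, (16 : ℝ)⁻¹ ^ S.card := by
        refine sum_le_sum_of_subset_of_nonneg (fun f hf => ?_) fun _ _ _ => by positivity
        refine Fintype.mem_piFinset.2 fun k => mem_powerset.2 fun i hi => mem_filter.2
          ⟨mem_univ _, ?_⟩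
        rw [← (mem_filter.1 hf).2]
        exact (h.dvd_pr.2 hi).trans (dvd_prod_of_mem _ (mem_univ k))
    _ = 1 := by
        rw [sum_const, Fintype.card_piFinset_const, card_powerset, nsmul_eq_mul]
        push_cast
        rw [← pow_mul, mul_comm S.card, pow_mul, ← mul_pow]; norm_num

omit [Fintype ι] in
theorem np_of_ne (h : PrimeSys q z) {a : Finset ι → ℤ} (ha : ∀ s, a s = pr q s ∨ a s = -pr q s)
    {s t : Finset ι} (hst : s ≠ t) : NP (a s * a t) := by
  wlog hi : ∃ i ∈ s, i ∉ t generalizing s t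
  · rw [mul_comm]
    refine this hst.symm ?_
    by_contra h'
    push Not at hi h'
    exact hst (Subset.antisymm hi h')
  obtain ⟨i, hi, hi'⟩ := hi
  have e : (pr q s : ℤ) = q i * pr q (s.erase i) := by
    rw [pr, ← mul_prod_erase _ _ hi, Nat.cast_mul, pr]
  have hn : ¬ (q i : ℤ) ∣ (pr q (s.erase i) : ℤ) * pr q t := by
    rw [← Nat.cast_mul, Int.natCast_dvd_natCast, (h.hp i).dvd_mul, h.dvd_pr, h.dvd_pr]
    simp [hi']
  have h1 := NP.of_prime (h.hp i) (h.h2 i) hn
  have h2 := NP.of_prime (h.hp i) (h.h2 i) (mt dvd_neg.1 hn)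
  rcases ha s with e1 | e1 <;> rcases ha t with e2 | e2 <;> rw [e1, e2, e]
  · convert h1 using 1; ring
  · convert h2 using 1; ring
  · convert h2 using 1; ring
  · convert h1 using 1; ring

theorem ls_second (h : PrimeSys q z) {a : Finset ι → ℤ} (ha : ∀ s, a s = pr q s ∨ a s = -pr q s)
    {K η : ℝ} (hK : 1 ≤ K) (hη : 0 < η) {α : Finset ι → ℝ} (hα0 : ∀ s, 0 ≤ α s)
    (hα : ∀ s, α s ≤ ∏ i ∈ s, K / q i) {M : ℕ} (hM : 2 ≤ M)
    (hαs : ∀ s, α s ≠ 0 → M ≤ pr q s ∧ pr q s ≤ 2 * M) (N : ℕ) :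
    ∑ k ∈ range N, FF η (M ^ 4 + k) * (∑ s, α s * xi (a s) (M ^ 4 + k)) ^ 2 ≤
      Real.exp (2 * K ^ 2 * HH q) * (η⁻¹ + 32) / M := by
  have hM0 : (2 : ℝ) ≤ M := by exact_mod_cast hM
  have hM4 : 2 ≤ M ^ 4 := hM.trans (Nat.le_self_pow (by norm_num) M)
  have hH := HH_nonneg (q := q)
  have e : ∑ k ∈ range N, FF η (M ^ 4 + k) * (∑ s, α s * xi (a s) (M ^ 4 + k)) ^ 2 =
      ∑ s, ∑ t, α s * α t * ∑ k ∈ range N, xi (a s * a t) (M ^ 4 + k) * FF η (M ^ 4 + k) := by
    simp only [sq, sum_mul_sum]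
    simp only [mul_sum, xi_mul_left]
    rw [sum_comm]
    refine sum_congr rfl fun s _ => ?_
    rw [sum_comm]
    exact sum_congr rfl fun t _ => sum_congr rfl fun k _ => by ring
  have h1 : ∀ s t, α s * α t * ∑ k ∈ range N, xi (a s * a t) (M ^ 4 + k) * FF η (M ^ 4 + k) ≤
      (if s = t then α s * α s * η⁻¹ else 0) + α s * α t * (32 / M) := by
    intro s t
    have h0 := mul_nonneg (hα0 s) (hα0 t)
    split_ifs with hst
    · subst hst
      have : ∑ k ∈ range N, xi (a s * a s) (M ^ 4 + k) * FF η (M ^ 4 + k) ≤ η⁻¹ :=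
        (sum_le_sum fun k _ => mul_le_of_le_one_left (FF_nonneg _ _)
          ((le_abs_self _).trans (abs_xi _ _))).trans (FF_sum hη hM4 N)
      have := mul_le_mul_of_nonneg_left this h0
      have : 0 ≤ α s * α s * (32 / M) := by positivity
      linarith
    rw [zero_add]
    by_cases hs : α s = 0
    · simp [hs]
    by_cases ht : α t = 0
    · simp [ht]
    refine mul_le_mul_of_nonneg_left ((le_abs_self _).trans ((abel_abs _ _
      (FF_anti hη.le (by omega)) (fun k => FF_nonneg _ _)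
      ((np_of_ne h ha hst).sum_shift (M ^ 4)) N).trans ?_)) h0
    have h2 : ∀ s, α s ≠ 0 → ((a s).natAbs : ℝ) ≤ 2 * M := fun s hs => by
      have : (a s).natAbs = pr q s := by rcases ha s with e | e <;> simp [e]
      rw [this]; exact_mod_cast (hαs s hs).2
    have h3 := mul_le_mul (h2 s hs) (h2 t ht) (by positivity) (by positivity)
    rw [Int.natAbs_mul, Nat.cast_mul]
    refine (mul_le_mul (mul_le_mul_of_nonneg_left h3 (by norm_num)) (FF_le hη.le _)
      (FF_nonneg _ _) (by positivity)).trans ?_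
    rw [add_zero, Nat.cast_pow, ← div_eq_mul_inv, div_le_div_iff₀ (by positivity) (by positivity)]
    nlinarith [pow_pos (by linarith : (0 : ℝ) < M) 3]
  have h2 : ∑ s, α s * α s ≤ Real.exp (2 * K ^ 2 * HH q) / M := by
    refine le_trans ?_ (div_le_div_of_nonneg_right ((sum_wt_le (q := q) (K := K ^ 2)
      (by positivity)).trans (Real.exp_le_exp.2 (by nlinarith [sq_nonneg K]))) (by positivity))
    rw [sum_div]
    refine sum_le_sum fun s _ => ?_
    by_cases hs : α s = 0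
    · rw [hs, mul_zero]; positivity
    have h3 : (M : ℝ) ≤ pr q s := by exact_mod_cast (hαs s hs).1
    refine (mul_le_mul (hα s) (hα s) (hα0 s) ((hα0 s).trans (hα s))).trans ?_
    refine le_trans (le_of_eq ?_) (div_le_div_of_nonneg_left (by positivity) (by linarith) h3)
    rw [pr, Nat.cast_prod, ← prod_mul_distrib, ← prod_div_distrib]
    exact prod_congr rfl fun i _ => by ring
  have h3 : ∑ s, α s ≤ Real.exp (K ^ 2 * HH q) := (sum_le_sum fun s _ => hα s).trans
    ((sum_wt_le (by linarith)).trans (Real.exp_le_exp.2 (by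
      nlinarith [mul_nonneg (mul_nonneg (sub_nonneg.2 hK) (by linarith : 0 ≤ K)) hH])))
  have h4 : (∑ s, α s) * ∑ s, α s ≤ Real.exp (2 * K ^ 2 * HH q) := by
    refine (mul_self_le_mul_self (sum_nonneg fun s _ => hα0 s) h3).trans (le_of_eq ?_)
    rw [← Real.exp_add]; congr 1; ring
  rw [e]
  refine (sum_le_sum fun s _ => sum_le_sum fun t _ => h1 s t).trans ?_
  simp only [sum_add_distrib, sum_ite_eq, mem_univ, if_true, ← sum_mul, ← mul_sum]
  have h5 := mul_le_mul_of_nonneg_right h2 (inv_nonneg.2 hη.le)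
  have h6 := mul_le_mul_of_nonneg_right h4 (show (0 : ℝ) ≤ 32 / M by positivity)
  refine (add_le_add h5 h6).trans (le_of_eq ?_)
  ring

theorem ls_core (h : PrimeSys q z) {a : Finset ι → ℤ} (ha : ∀ s, a s = pr q s ∨ a s = -pr q s)
    {K θ : ℝ} (hK : 1 ≤ K) (hθ : 0 < θ) {α β : Finset ι → ℝ}
    (hα : ∀ s, |α s| ≤ ∏ i ∈ s, K / q i) (hβ : ∀ s, |β s| ≤ ∏ i ∈ s, K / q i) {M : ℕ} (hM : 2 ≤ M)
    (hθM : 1 ≤ θ ^ 8 * M) (hαs : ∀ s, α s ≠ 0 → M ≤ pr q s ∧ pr q s ≤ 2 * M)
    (hβs : ∀ s, β s ≠ 0 → M ≤ pr q s) :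
    |∑ s, ∑ t, α s * β t * xi (a s) (pr q t)| ≤
      69 * Real.exp (192 * K ^ 2 * HH q) * Real.log z * θ := by
  have hlz := half_le_log h.hz
  have hH := HH_nonneg (q := q)
  set E := Real.exp (192 * K ^ 2 * HH q) with hE
  set η := (Real.log z)⁻¹ with hη
  have hη0 : 0 < η := by positivity
  set Y : Finset ι → ℝ := fun s => ∑ t, β t * xi (a s) (pr q t) with hY
  set V : ℕ → ℝ := fun r => ∑ s, |α s| * xi (a s) r with hV
  set rr : (Fin 4 → Finset ι) → ℕ := fun f => ∏ k, pr q (f k) with hr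
  have h1 : |∑ s, ∑ t, α s * β t * xi (a s) (pr q t)| ≤ ∑ s, |α s| * (θ + Y s ^ 4 / θ ^ 3) := by
    refine (abs_sum_le_sum_abs _ _).trans (sum_le_sum fun s _ => ?_)
    simp only [mul_assoc, ← mul_sum, abs_mul]
    refine mul_le_mul_of_nonneg_left ?_ (abs_nonneg _)
    change |Y s| ≤ _
    rcases le_total |Y s| θ with h0 | h0
    · have : 0 ≤ Y s ^ 4 / θ ^ 3 := by positivity
      linarith
    · have : |Y s| ≤ Y s ^ 4 / θ ^ 3 := by
        rw [le_div_iff₀ (by positivity), ← Even.pow_abs (by decide) (Y s), pow_succ' _ 3]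
        gcongr
      linarith
  have h2 : ∑ s, |α s| * Y s ^ 4 = ∑ f : Fin 4 → Finset ι, (∏ k, β (f k)) * V (rr f) := by
    simp only [hY, hV, hr, Fintype.sum_pow, mul_sum, prod_mul_distrib, xi_prod]
    rw [sum_comm]
    exact sum_congr rfl fun f _ => sum_congr rfl fun s _ => by ring
  have hq0 : ∀ i, (0 : ℝ) < q i := fun i => by exact_mod_cast (h.hp i).pos
  have h3 : ∀ f : Fin 4 → Finset ι, (∏ k, β (f k)) * V (rr f) ≤
      θ ^ 4 * ∏ k, ∏ i ∈ f k, 48 * K ^ 2 / q i + (θ ^ 4)⁻¹ * if M ^ 4 ≤ rr f then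
        (∏ k, ∏ _i ∈ f k, (16 : ℝ)⁻¹) * (FF η (rr f) * V (rr f) ^ 2) else 0 := by
    intro f
    by_cases h0 : ∏ k, β (f k) = 0
    · rw [h0, zero_mul]
      have := FF_nonneg η (rr f)
      split_ifs <;> positivity
    rw [if_pos (by
      rw [show M ^ 4 = ∏ _k : Fin 4, M by simp]
      exact prod_le_prod' fun k _ => hβs _ (prod_ne_zero_iff.1 h0 k (mem_univ k)))]
    set b := ∏ k, ∏ i ∈ f k, K / q i with hb
    set w := ∏ k, ∏ i ∈ f k, 16 * K * Real.exp (η * Real.log (q i)) with hw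
    have hw0 : 0 < w := prod_pos fun k _ => prod_pos fun i _ => by positivity
    have hb0 : 0 ≤ b := prod_nonneg fun k _ => prod_nonneg fun i _ => by
      have := hq0 i; positivity
    have e1 : |∏ k, β (f k)| ≤ b := by
      rw [abs_prod]; exact prod_le_prod (fun _ _ => abs_nonneg _) fun k _ => hβ _
    have e2 : b * w ≤ ∏ k, ∏ i ∈ f k, 48 * K ^ 2 / q i := by
      rw [hb, hw, ← prod_mul_distrib]
      refine prod_le_prod (fun k _ => by have := hq0; positivity) fun k _ => ?_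
      rw [← prod_mul_distrib]
      refine prod_le_prod (fun i _ => by have := hq0 i; positivity) fun i _ => ?_
      have : Real.exp (η * Real.log (q i)) ≤ 3 := by
        refine le_trans (Real.exp_le_exp.2 ?_) (by linarith [Real.exp_one_lt_d9] : Real.exp 1 ≤ 3)
        rw [hη, inv_mul_le_iff₀ (by linarith), mul_one]
        exact Real.log_le_log (hq0 i) (by exact_mod_cast h.le i)
      rw [div_mul_eq_mul_div]
      exact div_le_div_of_nonneg_right (by nlinarith [sq_nonneg K]) (hq0 i).le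
    have e3 : b / w = (∏ k, ∏ _i ∈ f k, (16 : ℝ)⁻¹) * FF η (rr f) := by
      rw [hb, hw, hr, FF_prod _ _ _ (fun k _ => (h.odd _).pos.ne'), ← prod_div_distrib,
        ← prod_mul_distrib]
      refine prod_congr rfl fun k _ => ?_
      rw [pr, FF_prod _ _ _ (fun i _ => (h.hp i).ne_zero), ← prod_div_distrib, ← prod_mul_distrib]
      refine prod_congr rfl fun i _ => ?_
      have := hq0 i
      rw [FF, neg_mul, Real.exp_neg]; field_simp
    have e4 : |V (rr f)| ≤ θ ^ 4 * w + V (rr f) ^ 2 / (θ ^ 4 * w) := by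
      have hW : 0 < θ ^ 4 * w := by positivity
      rw [← sq_abs (V _), add_div' _ _ _ hW.ne', le_div_iff₀ hW]
      nlinarith [sq_nonneg (|V (rr f)| - θ ^ 4 * w), abs_nonneg (V (rr f))]
    rw [← mul_assoc (∏ k, ∏ _i ∈ f k, (16 : ℝ)⁻¹), ← e3]
    calc _ ≤ |∏ k, β (f k)| * |V (rr f)| := by rw [← abs_mul]; exact le_abs_self _
      _ ≤ b * (θ ^ 4 * w + V (rr f) ^ 2 / (θ ^ 4 * w)) :=
          mul_le_mul e1 e4 (abs_nonneg _) hb0
      _ = θ ^ 4 * (b * w) + (θ ^ 4)⁻¹ * (b / w * V (rr f) ^ 2) := by field_simp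
      _ ≤ _ := by gcongr
  have h4 : ∑ f : Fin 4 → Finset ι, ∏ k, ∏ i ∈ f k, 48 * K ^ 2 / q i ≤ E := by
    rw [← Fintype.sum_pow (fun t : Finset ι => ∏ i ∈ t, 48 * K ^ 2 / (q i : ℝ)) 4]
    refine (pow_le_pow_left₀ (sum_nonneg fun t _ => by positivity)
      (sum_wt_le (by positivity)) 4).trans (le_of_eq ?_)
    rw [← Real.exp_nat_mul]; congr 1; push_cast; ring
  have h5 : ∑ f : Fin 4 → Finset ι, (if M ^ 4 ≤ rr f then
      (∏ k, ∏ _i ∈ f k, (16 : ℝ)⁻¹) * (FF η (rr f) * V (rr f) ^ 2) else 0) ≤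
      E * (Real.log z + 32) / M := by
    obtain ⟨N, hN⟩ := (univ.image rr).bddAbove
    rw [← sum_filter, ← sum_fiberwise_of_maps_to (t := Ico (M ^ 4) (M ^ 4 + (N + 1))) (g := rr)
      (fun f hf => mem_Ico.2 ⟨(mem_filter.1 hf).2, by
        have : rr f ≤ N := hN (by simp)
        omega⟩), sum_Ico_eq_sum_range, add_tsub_cancel_left]
    refine le_trans (sum_le_sum fun k _ => ?_) ((ls_second h ha hK hη0 (fun s => abs_nonneg _) hα
      hM (fun s hs => hαs s (abs_ne_zero.1 hs)) (N + 1)).trans ?_)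
    · rw [sum_congr rfl (g := fun f => (∏ k, ∏ _i ∈ f k, (16 : ℝ)⁻¹) *
        (FF η (M ^ 4 + k) * V (M ^ 4 + k) ^ 2)) (fun f hf => by rw [(mem_filter.1 hf).2]),
        ← sum_mul]
      refine mul_le_of_le_one_left (mul_nonneg (FF_nonneg _ _) (sq_nonneg _))
        (le_trans (sum_le_sum_of_subset_of_nonneg (fun f hf => mem_filter.2 ⟨mem_univ _,
          (mem_filter.1 hf).2⟩) fun _ _ _ => by positivity) (fibre_le h (M ^ 4 + k)))
    · rw [hη, inv_inv]
      gcongr
      exact Real.exp_le_exp.2 (by nlinarith [mul_nonneg (sq_nonneg K) hH])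
  have h6 : ∑ s, |α s| ≤ E := (sum_le_sum fun s _ => hα s).trans
    ((sum_wt_le (by linarith)).trans (Real.exp_le_exp.2 (by
      nlinarith [mul_nonneg (mul_nonneg (sub_nonneg.2 hK) (by linarith : 0 ≤ K)) hH,
        mul_nonneg (sq_nonneg K) hH])))
  have h7 : ∑ s, |α s| * Y s ^ 4 ≤ θ ^ 4 * E + (θ ^ 4)⁻¹ * (E * (Real.log z + 32) / M) := by
    rw [h2]
    refine (sum_le_sum fun f _ => h3 f).trans ?_
    rw [sum_add_distrib, ← mul_sum, ← mul_sum]
    gcongr
  have hE0 : 0 < E := Real.exp_pos _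
  have hM0 : (0 : ℝ) < M := by exact_mod_cast (by omega : 0 < M)
  have h8 : (θ ^ 4)⁻¹ * (E * (Real.log z + 32) / M) ≤ θ ^ 4 * (E * (65 * Real.log z)) := by
    rw [inv_mul_le_iff₀ (by positivity), div_le_iff₀ hM0]
    have : E * (Real.log z + 32) ≤ E * (65 * Real.log z) := by gcongr; linarith
    have h9 := mul_le_mul_of_nonneg_left hθM (show 0 ≤ E * (65 * Real.log z) by positivity)
    nlinarith
  refine h1.trans ?_
  simp only [mul_add, sum_add_distrib, ← sum_mul, ← mul_div_assoc, ← sum_div]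
  have h9 : (∑ s, |α s| * Y s ^ 4) / θ ^ 3 ≤ θ * E + θ * (E * (65 * Real.log z)) := by
    rw [div_le_iff₀ (by positivity)]; nlinarith
  have h10 := mul_le_mul_of_nonneg_right h6 hθ.le
  have h11 := mul_le_mul_of_nonneg_left hlz (mul_pos hθ hE0).le
  nlinarith

theorem large_sieve (h : PrimeSys q z) {K : ℝ} (hK : 1 ≤ K) {α β : Finset ι → ℝ}
    (hα : ∀ s, |α s| ≤ ∏ i ∈ s, K / q i) (hβ : ∀ s, |β s| ≤ ∏ i ∈ s, K / q i) {n : ℕ} (hn : 1 ≤ n)
    (hαs : ∀ s, α s ≠ 0 → 2 ^ n ≤ pr q s) (hβs : ∀ s, β s ≠ 0 → 2 ^ n ≤ pr q s) :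
    |∑ s, ∑ t, α s * β t * J(pr q s | pr q t)| ≤
      2208 * Real.exp (192 * K ^ 2 * HH q) * Real.log z * (15 / 16) ^ n := by
  set L : Finset ι → ℕ := fun s => Nat.log 2 (pr q s) with hL
  obtain ⟨N, hN⟩ := (univ.image L).bddAbove
  have hLN : ∀ s, L s ≤ N := fun s => hN (by simp)
  have e : ∀ s t, α s * β t * J(pr q s | pr q t) = ∑ j ∈ Ico n (N + 1),
      ((if L s = j then α s else 0) * (if j ≤ L t then β t else 0) * xi (pr q s) (pr q t) +
        (if L t = j then β t else 0) * (if j < L s then α s else 0) *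
          xi (star (pr q t)) (pr q s)) := by
    intro s t
    rw [xi_odd (h.odd t), xi_odd (h.odd s), ← jac_star (h.odd s) (h.odd t)]
    by_cases hs : α s = 0
    · simp [hs]
    by_cases ht : β t = 0
    · simp [ht]
    have h1 : n ≤ L s := Nat.le_log_of_pow_le one_lt_two (hαs s hs)
    have h2 : n ≤ L t := Nat.le_log_of_pow_le one_lt_two (hβs t ht)
    simp only [sum_add_distrib, ite_mul, zero_mul, sum_ite_eq, mem_Ico, h1, h2,
      Nat.lt_succ_iff.2 (hLN _), and_self, if_true]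
    split_ifs with h3 h4 h4
    · omega
    · ring
    · ring
    · omega
  have hab : ∀ {γ : Finset ι → ℝ} (p : Finset ι → Prop) [DecidablePred p],
      (∀ s, |γ s| ≤ ∏ i ∈ s, K / q i) → ∀ s, |if p s then γ s else 0| ≤ ∏ i ∈ s, K / q i := by
    intro γ p _ hγ s
    split_ifs
    · exact hγ s
    · exact abs_zero.trans_le ((abs_nonneg _).trans (hγ s))
  have hblk : ∀ {γ : Finset ι → ℝ} (j : ℕ) (s : Finset ι), (if L s = j then γ s else 0) ≠ 0 →
      2 ^ j ≤ pr q s ∧ pr q s ≤ 2 * 2 ^ j := by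
    intro γ j s hs
    obtain rfl : L s = j := by by_contra h'; exact hs (if_neg h')
    exact ⟨Nat.pow_log_le_self 2 (h.odd s).pos.ne',
      by rw [← pow_succ']; exact (Nat.lt_pow_succ_log_self one_lt_two _).le⟩
  have hge : ∀ (j : ℕ) (s : Finset ι), j ≤ L s → 2 ^ j ≤ pr q s := fun j s hs =>
    (Nat.pow_le_pow_right two_pos hs).trans (Nat.pow_log_le_self 2 (h.odd s).pos.ne')
  simp only [e]
  rw [sum_congr rfl fun s _ => sum_comm, sum_comm]
  refine (abs_sum_le_sum_abs _ _).trans ((sum_le_sum (g := fun j =>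
    138 * Real.exp (192 * K ^ 2 * HH q) * Real.log z * (15 / 16) ^ j) fun j hj => ?_).trans ?_)
  · have hM : 2 ≤ 2 ^ j := Nat.le_self_pow (by have := (mem_Ico.1 hj).1; omega) 2
    have hθ : (1 : ℝ) ≤ ((15 / 16) ^ j) ^ 8 * (2 ^ j : ℕ) := by
      push_cast
      rw [← pow_mul, mul_comm j, pow_mul, ← mul_pow]
      exact one_le_pow₀ (by norm_num)
    have b1 := ls_core h (a := fun s => pr q s) (fun s => Or.inl rfl) hK (by positivity)
      (hab (fun s => L s = j) hα) (hab (fun s => j ≤ L s) hβ) hM hθ (hblk j) fun s hs =>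
        hge j s (by by_contra h'; exact hs (if_neg h'))
    have b2 := ls_core h (a := fun s => star (pr q s)) (fun s => by
        unfold star; split_ifs <;> simp) hK (by positivity)
      (hab (fun s => L s = j) hβ) (hab (fun s => j < L s) hα) hM hθ (hblk j) fun s hs =>
        hge j s (le_of_lt (by by_contra h'; exact hs (if_neg h')))
    simp only [sum_add_distrib]
    rw [sum_comm] at b2
    refine (abs_add_le _ _).trans ?_
    linarith
  · rw [← mul_sum]
    have := geom_sum_Ico_le_of_lt_one (x := (15 / 16 : ℝ)) (by norm_num) (by norm_num) (m := n)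
      (n := N + 1)
    have h0 : 0 ≤ Real.exp (192 * K ^ 2 * HH q) * Real.log z :=
      mul_nonneg (Real.exp_pos _).le (Real.log_natCast_nonneg z)
    rw [show (1 - 15 / 16 : ℝ) = 16⁻¹ by norm_num, div_inv_eq_mul] at this
    have := mul_le_mul_of_nonneg_left this h0
    linarith

end

end Pool.Agent.Lib.TorsRank
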