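import Pool.Agent.Lib.MP_6073f3_nt.Engine2

/-!
The random model: independent labels at the primes, and bounded moments of the Selmer set.
-/

set_option linter.unusedSectionVars false

namespace Pool.Agent.Lib.TorsRank

open Finset
open scoped NumberTheorySymbols

/-- A label together with two bits. -/
abbrev Om := Lab × Bool × Bool

/-- The local weight in the character expansion. -/
noncomputable def uu : Om → ℝ
  | (none, a, b) => if a || b then 0 else 1
  | (some u, a, b) => if a && b then sgn (some u) / 2 else 1 / 2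

/-- The symbol in the character expansion. -/
def gg (x y : Om) (p r : ℕ) : ℝ :=
  match x.1, y.1 with
  | some u, some v => if u.1 < v.1 ∧ xor (x.2.2 && y.2.1) (y.2.2 && x.2.1) then J(p | r) else 1
  | _, _ => 1

section

variable {ι : Type} [Fintype ι] [DecidableEq ι] {q : ι → ℕ} {z : ℕ}

theorem ind_sel (hq : PrimeSys q z) (τ : ι → Lab) (a : ι → Bool) :
    (if a ∈ Sel q τ then 1 else 0 : ℝ) = ∑ b : ι → Bool, (∏ i, uu (τ i, a i, b i)) *
      ∏ i, ∏ j, gg (τ i, a i, b i) (τ j, a j, b j) (q i) (q j) := by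
  set c : ι → ℤ := fun i => ∏ j, if a j then ds (τ i) (τ j) (q i) (q j) else 1 with hc
  let g : ι → ι → ℝ := fun i j => match τ i, τ j with
    | some u, some v => if u.1 < v.1 then J(q i | q j) else 1
    | _, _ => 1
  have e1 : ∀ b : ι → Bool, ∏ i, ∏ j, gg (τ i, a i, b i) (τ j, a j, b j) (q i) (q j) =
      ∏ i, if b i then (c i : ℝ) else 1 := fun b => by
    have e2 : ∀ i j, gg (τ i, a i, b i) (τ j, a j, b j) (q i) (q j) =
        (if b i && a j then g i j else 1) * (if b j && a i then g i j else 1) := fun i j => by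
      simp only [gg, g]
      rcases h : τ i with _ | u
      · simp
      rcases h' : τ j with _ | v
      · simp
      by_cases huv : u.1 < v.1
      · have hij : i ≠ j := by rintro rfl; rw [h] at h'; cases h'; exact lt_irrefl _ huv
        have := jac_primes (hq.hp i) (hq.hp j) (hq.inj.ne hij)
        cases (b i && a j) <;> cases (b j && a i) <;> rcases this with e | e <;> simp [huv, e]
      · simp [huv]
    simp only [e2, prod_mul_distrib]
    rw [prod_comm (f := fun i j => if b j && a i then g i j else 1)]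
    simp only [← prod_mul_distrib]
    refine prod_congr rfl fun i _ => ?_
    cases b i
    · simp
    · simp only [Bool.true_and, if_true, hc]
      push_cast
      refine prod_congr rfl fun j _ => ?_
      cases a j
      · simp
      · simp only [g, if_true]
        rcases τ i with _ | u <;> rcases τ j with _ | v <;> simp only [ds] <;> try simp
        rcases lt_trichotomy u.1 v.1 with h | h | h
        · simp [h, h.not_gt]
        · simp [h]
        · simp [h, h.not_gt]
  simp only [e1, ← prod_mul_distrib]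
  rw [← Fintype.piFinset_univ, ← prod_univ_sum (fun _ => univ)
    (fun i b => uu (τ i, a i, b) * if b then (c i : ℝ) else 1)]
  have hcs : ∀ i, c i = 1 ∨ c i = -1 := fun i =>
    prod_induction _ (fun x : ℤ => x = 1 ∨ x = -1) (by rintro x y (rfl | rfl) (rfl | rfl) <;> simp)
      (Or.inl rfl) fun j _ => by split_ifs; exacts [ds_sign hq.hp hq.inj i j, Or.inl rfl]
  have e3 : ∀ i, (∑ b, uu (τ i, a i, b) * if b then (c i : ℝ) else 1) =
      if (τ i = none → a i = false) ∧ c i = (if a i then sgn (τ i) else 1) then 1 else 0 := by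
    intro i
    rcases h : τ i with _ | ⟨l, σ⟩
    · have : c i = 1 := prod_eq_one fun j _ => by simp [h, ds]
      cases a i <;> simp [uu, this]
    · cases a i <;> cases σ <;> rcases hcs i with e | e <;> simp [uu, e, sgn] <;> norm_num
  rw [prod_congr rfl fun i _ => e3 i, prod_boole]
  simp only [Sel, mem_filter, mem_univ, true_and, true_imp_iff, forall_and, hc]

theorem sum_sel (hq : PrimeSys q z) (t : ι → Lab → ℝ) (Q : (ι → Lab) → (ι → Bool) → Prop)
    [∀ τ, DecidablePred (Q τ)] :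
    ∑ τ : ι → Lab, (∏ i, t i (τ i)) * ((Sel q τ).filter (Q τ)).card =
      ∑ ω : ι → Om, if Q (fun i => (ω i).1) (fun i => (ω i).2.1) then
        (∏ i, t i (ω i).1 * uu (ω i)) * ∏ i, ∏ j, gg (ω i) (ω j) (q i) (q j) else 0 := by
  let E : (ι → Lab) × (ι → Bool) × (ι → Bool) ≃ (ι → Om) :=
    ⟨fun x i => (x.1 i, x.2.1 i, x.2.2 i), fun ω => (fun i => (ω i).1, fun i => (ω i).2.1,
      fun i => (ω i).2.2), fun _ => rfl, fun _ => rfl⟩
  rw [← E.sum_comp, Fintype.sum_prod_type]
  refine sum_congr rfl fun τ _ => ?_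
  have : (((Sel q τ).filter (Q τ)).card : ℝ) =
      ∑ a, if Q τ a then (if a ∈ Sel q τ then 1 else 0) else 0 := by
    simp only [← ite_and, sum_boole]
    congr 2; ext a; simp [and_comm]
  rw [this, Fintype.sum_prod_type, mul_sum]
  refine sum_congr rfl fun a _ => ?_
  simp only [E, Equiv.coe_fn_mk]
  split_ifs with h h'
  · have := ind_sel hq τ a
    rw [if_pos h'] at this
    rw [this, mul_sum]
    exact sum_congr rfl fun b _ => by rw [prod_mul_distrib, mul_assoc]
  · have := ind_sel hq τ a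
    rw [if_neg h'] at this
    rw [this, mul_sum]
    exact sum_congr rfl fun b _ => by rw [prod_mul_distrib, mul_assoc]
  · simp

theorem sum_push {Ω Γ : Type} [Fintype Ω] [Fintype Γ] [DecidableEq Γ] (h : Ω → Γ)
    (u : ι → Ω → ℝ) (Φ : (ι → Γ) → ℝ) :
    ∑ ω : ι → Ω, (∏ i, u i (ω i)) * Φ (fun i => h (ω i)) =
      ∑ φ : ι → Γ, (∏ i, ∑ y with h y = φ i, u i y) * Φ φ := by
  rw [← sum_fiberwise univ (fun (ω : ι → Ω) i => h (ω i))]
  refine sum_congr rfl fun φ _ => ?_
  rw [prod_univ_sum, sum_mul]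
  refine sum_congr (by ext ω; simp [funext_iff]) fun ω hω => ?_
  rw [show (fun i => h (ω i)) = φ from funext fun i => by
    simpa using Fintype.mem_piFinset.1 hω i]

end

/-- The conditions on the coefficients of the local densities. -/
structure Coef (kc dc : Fin 3 → Fin 8 → ℝ) : Prop where
  k0 : ∀ l j, 0 ≤ kc l j
  d0 : ∀ l j, 0 ≤ dc l j
  ab : ∀ l (p : ℕ), p.Prime → 3 < p → |ch p (dc l)| ≤ ch p (kc l)
  kp : ∀ l, 0 < kc l 0
  dk : ∀ l, dc l 0 ≤ kc l 0
  dr : ∀ l, 11 * (kc l 0 + dc l 0) < 20 * (kc (l + 1) 0 + kc (l + 2) 0)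

/-- The local distribution of labels. -/
noncomputable def pm (kc dc : Fin 3 → Fin 8 → ℝ) (p : ℕ) : Lab → ℝ
  | some u => ff p * (ch p (kc u.1) + sgn (some u) * ch p (dc u.1)) / 2
  | none => 1 - ff p * ch p (∑ l, kc l)

variable {kc dc : Fin 3 → Fin 8 → ℝ}

/-- At least two types occur in the support. -/
def Mix {ι : Type} (τ : ι → Lab) (a : ι → Bool) : Prop :=
  ∃ i j u v, τ i = some u ∧ τ j = some v ∧ a i = true ∧ a j = true ∧ u.1 ≠ v.1

/-- Labels for the mixed part. -/
def h1 : Om → Option (Fin 3 × Fin 3)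
  | (some u, true, false) => some (u.1, 0)
  | (some u, false, true) => some (u.1, 1)
  | (some u, true, true) => some (u.1, 2)
  | _ => none

/-- Links for the mixed part. -/
def lnk1 (x y : Fin 3 × Fin 3) : Bool := decide (x.1 < y.1 ∧ x.2 ≠ y.2)

theorem lnk1_false {x y : Fin 3 × Fin 3} (h : lnk1 x y = false) (h' : lnk1 y x = false) :
    x.1 = y.1 ∨ x.2 = y.2 := by
  revert x y; decide

theorem gg_h1 (x y : Om) (p r : ℕ) : gg x y p r = lk lnk1 (h1 x) (h1 y) p r := by
  rcases x with ⟨_ | u, _ | _, _ | _⟩ <;> rcases y with ⟨_ | v, _ | _, _ | _⟩ <;>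
    simp [gg, h1, lk, lnk1]

theorem col_inj {U P W : Finset (Fin 3 × Fin 3)} (hU : ∀ a ∈ U, ∀ b ∈ U, lnk1 a b = false)
    (hW : W ⊆ U) (hR : ∃ x ∈ U ∪ P, ∃ y ∈ U ∪ P, x.1 ≠ y.1 ∧ x.2 ≠ 1 ∧ y.2 ≠ 1)
    (hP : ∀ a ∈ W, ∀ b ∈ P, lnk1 a b = false ∧ lnk1 b a = false) :
    Set.InjOn Prod.fst (W : Set (Fin 3 × Fin 3)) := by
  intro a ha b hb hab
  obtain ⟨x, hx, hxa⟩ : ∃ x ∈ U ∪ P, x.1 ≠ a.1 := by
    obtain ⟨x, hx, y, hy, h, -⟩ := hR
    by_cases h' : x.1 = a.1
    · exact ⟨y, hy, h' ▸ h.symm⟩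
    · exact ⟨x, hx, h'⟩
  have key : ∀ c ∈ W, c.1 = a.1 → c.2 = x.2 := fun c hc h => by
    have : c.1 = x.1 ∨ c.2 = x.2 := by
      rcases mem_union.1 hx with hx | hx
      · exact lnk1_false (hU _ (hW hc) _ hx) (hU _ hx _ (hW hc))
      · exact lnk1_false (hP _ hc _ hx).1 (hP _ hc _ hx).2
    exact this.resolve_left fun h' => hxa (h'.symm.trans h)
  exact Prod.ext hab ((key a ha rfl).trans (key b hb hab.symm).symm)

open Classical in
theorem model_mix (h : Coef kc dc) : ∃ c0 : ℕ, ∀ c ≥ c0, ∃ C : ℝ, ∀ z ≥ 2,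
    ∑ τ : PS c z → Lab, (∏ i : PS c z, pm kc dc i (τ i)) *
      ((Sel (fun i : PS c z => i.1) τ).filter (Mix τ)).card ≤ C := by
  let cw : Fin 3 × Fin 3 → Fin 8 → ℝ := fun x => (1 / 2 : ℝ) • if x.2 = 2 then dc x.1 else kc x.1
  have hk : ∀ l (p : ℕ), p.Prime → 3 < p → 0 ≤ ch p (kc l) := fun l p hp h3 =>
    (abs_nonneg _).trans (h.ab l p hp h3)
  obtain ⟨c0, hc0⟩ := engine3 (lnk := lnk1) (by decide)
    (fun P => ∃ x ∈ P, ∃ y ∈ P, x.1 ≠ y.1 ∧ x.2 ≠ 1 ∧ y.2 ≠ 1) cw ((1 / 2 : ℝ) • ∑ l, kc l)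
    (fun l j => by
      have := h.k0 l.1 j
      have := h.d0 l.1 j
      simp only [cw]; split_ifs <;> simp only [Pi.smul_apply, smul_eq_mul] <;> positivity)
    (fun p hp h3 => by
      rw [map_smul, map_sum]
      exact mul_nonneg (by norm_num) (sum_nonneg fun l _ => hk l p hp h3))
    (fun U V hU hV hR p hp h3 => by
      have hi := col_inj (P := ∅) hU hV (by simpa using hR) (by simp)
      rw [map_smul, map_sum, smul_eq_mul]
      calc _ ≤ ∑ l ∈ V, 1 / 2 * ch p (kc l.1) := sum_le_sum fun l _ => by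
            have := (le_abs_self _).trans (h.ab l.1 p hp h3)
            simp only [cw, map_smul, smul_eq_mul]; split_ifs <;> linarith
        _ = 1 / 2 * ∑ l ∈ V.image Prod.fst, ch p (kc l) := by rw [sum_image hi, mul_sum]
        _ ≤ _ := mul_le_mul_of_nonneg_left (sum_le_sum_of_subset_of_nonneg (subset_univ _)
            fun l _ _ => hk l p hp h3) (by norm_num))
    (δ := min (kc 0 0) (min (kc 1 0) (kc 2 0)) / 4)
    (by have := h.kp; simp only [div_pos_iff_of_pos_right, four_pos, lt_min_iff, this, and_self])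
    (fun U V P W hU hV hW hP hPV hR hWP => by
      have hi := col_inj hU (hW.trans hV) hR hWP
      obtain ⟨l0, hl0⟩ : ∃ l0, l0 ∉ W.image Prod.fst := by
        obtain ⟨x, hx⟩ := hP
        by_contra hc
        push Not at hc
        obtain ⟨a, ha, e1⟩ := mem_image.1 (hc x.1)
        obtain ⟨b, hb, e2⟩ := mem_image.1 (hc (x.1 + 1))
        have hne : x.1 + 1 ≠ x.1 := by generalize x.1 = y; revert y; decide
        have h1 := (lnk1_false (hWP b hb x hx).1 (hWP b hb x hx).2).resolve_left (e2 ▸ hne)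
        have h2 := (lnk1_false (hU _ (hV (hW hb)) _ (hV (hW ha)))
          (hU _ (hV (hW ha)) _ (hV (hW hb)))).resolve_left (e1 ▸ e2 ▸ hne)
        exact hPV x hx (Prod.ext e1 (h2.symm.trans h1) ▸ hW ha)
      have e1 : ∑ l ∈ W, cw l 0 ≤ 1 / 2 * ∑ l ∈ univ.erase l0, kc l 0 :=
        calc _ ≤ ∑ l ∈ W, 1 / 2 * kc l.1 0 := sum_le_sum fun l _ => by
              have := h.dk l.1
              simp only [cw]; split_ifs <;> simp only [Pi.smul_apply, smul_eq_mul] <;> linarith
          _ = 1 / 2 * ∑ l ∈ W.image Prod.fst, kc l 0 := by rw [sum_image hi, mul_sum]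
          _ ≤ _ := mul_le_mul_of_nonneg_left (sum_le_sum_of_subset_of_nonneg (fun l hl =>
              mem_erase.2 ⟨by rintro rfl; exact hl0 hl, mem_univ _⟩) fun l _ _ => h.k0 l 0) (by norm_num)
      have e2 := add_sum_erase univ (fun l => kc l 0) (mem_univ l0)
      have e3 : min (kc 0 0) (min (kc 1 0) (kc 2 0)) ≤ kc l0 0 := by fin_cases l0 <;> simp
      have := h.kp l0
      simp only [Pi.smul_apply, smul_eq_mul, Finset.sum_apply]
      linarith)
  refine ⟨c0 + 3, fun c hc => ?_⟩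
  obtain ⟨C, hC⟩ := hc0 c (by omega)
  refine ⟨C, fun z hz => le_trans (le_of_eq ?_) (hC z hz
    (fun i x => ∑ y with h1 y = x, pm kc dc i y.1 * uu y) (fun i => ?_) fun i l => ?_)⟩
  · rw [sum_sel (primeSys_PS (by omega) hz) (fun i => pm kc dc i) Mix]
    simp only [FT, ← mul_ite_zero]
    rw [← sum_push h1 (fun (i : PS c z) y => pm kc dc i y.1 * uu y)]
    refine sum_congr rfl fun ω _ => ?_
    congr 1
    refine if_congr ?_ (prod_congr rfl fun i _ => prod_congr rfl fun j _ => ?_) rfl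
    · have key : ∀ (y : Om) (x : Fin 3 × Fin 3), h1 y = some x → x.2 ≠ 1 →
          ∃ u, y.1 = some u ∧ y.2.1 = true ∧ u.1 = x.1 := by decide
      have key' : ∀ (y : Om) u, y.1 = some u → y.2.1 = true →
          ∃ x, h1 y = some x ∧ x.2 ≠ 1 ∧ u.1 = x.1 := by decide
      simp only [pat, mem_filter, mem_univ, true_and]
      constructor
      · rintro ⟨i, j, u, v, e1, e2, e3, e4, e5⟩
        obtain ⟨x, hx, hx1, hx2⟩ := key' _ u e1 e3
        obtain ⟨y, hy, hy1, hy2⟩ := key' _ v e2 e4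
        exact ⟨x, ⟨i, hx⟩, y, ⟨j, hy⟩, hx2 ▸ hy2 ▸ e5, hx1, hy1⟩
      · rintro ⟨x, ⟨i, hx⟩, y, ⟨j, hy⟩, e, hx1, hy1⟩
        obtain ⟨u, e1, e3, hu⟩ := key _ x hx hx1
        obtain ⟨v, e2, e4, hv⟩ := key _ y hy hy1
        exact ⟨i, j, u, v, e1, e2, e3, e4, hu ▸ hv ▸ e⟩
    · exact gg_h1 _ _ _ _
  · simp only [sum_filter, Fintype.sum_prod_type, Fintype.sum_option, Fintype.sum_bool,
      Fin.sum_univ_three, h1, pm, uu, sgn, map_smul, map_add]
    simp; ring
  · obtain ⟨l, v⟩ := l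
    simp only [sum_filter, Fintype.sum_prod_type, Fintype.sum_option, Fintype.sum_bool,
      Fin.sum_univ_three, h1, pm, uu, sgn, map_smul, cw]
    fin_cases l <;> fin_cases v <;> simp <;> ring

/-- The support is not empty and of pure type `l`. -/
def Pur {ι : Type} (l : Fin 3) (τ : ι → Lab) (a : ι → Bool) : Prop :=
  (∀ i, a i = true → ∃ u, τ i = some u ∧ u.1 = l) ∧ ∃ i, a i = true

/-- The local factor of the Tamagawa ratio, with base `x`. -/
noncomputable def tt (x : ℝ) (l : Fin 3) : Lab → ℝ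
  | some u => if u.1 = l then (if u.2 then x else 1) else x⁻¹
  | none => 1

/-- Labels for the pure part. -/
def h2 (l : Fin 3) : Om → Option (Fin 3)
  | (some u, a, b) => if u.1 = l then (if a then some l else none) else
      if b then some u.1 else none
  | _ => none

/-- Links for the pure part. -/
def lnk2 (l x y : Fin 3) : Bool := decide (x < y ∧ (x = l ∨ y = l))

theorem gg_h2 (l : Fin 3) (x y : Om) (hx : x.2.1 = true → ∃ u, x.1 = some u ∧ u.1 = l)
    (hy : y.2.1 = true → ∃ u, y.1 = some u ∧ u.1 = l) (p r : ℕ) :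
    gg x y p r = lk (lnk2 l) (h2 l x) (h2 l y) p r := by
  rcases x with ⟨_ | ⟨u, _⟩, a, b⟩
  · simp [gg, h2, lk]
  rcases y with ⟨_ | ⟨v, _⟩, a', b'⟩
  · simp [gg, h2, lk_none_right]
  by_cases hu : u = l <;> by_cases hv : v = l <;> cases a <;> cases b <;> cases a' <;>
    cases b' <;> simp_all [gg, h2, lk, lnk2]

theorem lnk2_eq : ∀ l x, lnk2 l x l = false → lnk2 l l x = false → x = l := by decide

theorem lnk2_as : ∀ l a b, lnk2 l a b = true → lnk2 l b a = false := by decide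

theorem h2_key : ∀ (l : Fin 3) (y : Om), (y.2.1 = true → ∃ u, y.1 = some u ∧ u.1 = l) →
    (y.2.1 = true ↔ h2 l y = some l) := by decide

/-- The local weight restricted to pure supports. -/
noncomputable def u2 (l : Fin 3) (y : Om) : ℝ :=
  if y.2.1 = true → ∃ u, y.1 = some u ∧ u.1 = l then uu y else 0

open Classical in
theorem model_pur (h : Coef kc dc) (l : Fin 3) : ∃ c0 : ℕ, ∀ c ≥ c0, ∃ C : ℝ, ∀ z ≥ 2,
    ∑ τ : PS c z → Lab, (∏ i : PS c z, pm kc dc i (τ i) * tt (1 / 2) l (τ i)) *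
      ((Sel (fun i : PS c z => i.1) τ).filter (Pur l τ)).card ≤ C := by
  let cb : Fin 8 → ℝ := (1 / 4 : ℝ) • (kc l + dc l)
  have hb : ∀ p : ℕ, p.Prime → 3 < p → 0 ≤ ch p cb := fun p hp h3 => by
    have := (abs_le.1 (h.ab l p hp h3)).1
    simp only [cb, map_smul, map_add, smul_eq_mul]; linarith
  have hlk := lnk2_eq l
  obtain ⟨c0, hc0⟩ := engine3 (lnk2_as l) (fun P => l ∈ P)
    (fun x => if x = l then cb else kc x) cb
    (fun x j => by
      have := h.k0 l j
      have := h.d0 l j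
      split_ifs
      · simp only [cb, Pi.smul_apply, smul_eq_mul, Pi.add_apply]; positivity
      · exact h.k0 x j) hb
    (fun U V hU hV hR p hp h3 => by
      have : V ⊆ {l} := fun x hx => mem_singleton.2 (hlk x (hU _ (hV hx) _ hR) (hU _ hR _ (hV hx)))
      rcases subset_singleton_iff.1 this with rfl | rfl
      · simpa using hb p hp h3
      · simp)
    (δ := kc l 0 / 8) (by have := h.kp l; positivity)
    (fun U V P W hU hV hW hP hPV hR hWP => by
      have : W = ∅ := eq_empty_of_forall_notMem fun a ha => by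
        rcases mem_union.1 hR with hR | hR
        · obtain rfl := hlk a (hU _ (hV (hW ha)) _ hR) (hU _ hR _ (hV (hW ha)))
          obtain ⟨x, hx⟩ := hP
          obtain rfl := hlk x (hWP _ ha x hx).2 (hWP _ ha x hx).1
          exact hPV x hx (hW ha)
        · obtain rfl := hlk a (hWP a ha _ hR).1 (hWP a ha _ hR).2
          exact hPV a hR (hW ha)
      have h1 := h.kp l
      have h2 := h.d0 l 0
      simp only [this, sum_empty, cb, Pi.smul_apply, smul_eq_mul, Pi.add_apply]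
      linarith)
  refine ⟨c0 + 3, fun c hc => ?_⟩
  obtain ⟨C, hC⟩ := hc0 c (by omega)
  refine ⟨C, fun z hz => le_trans (le_of_eq ?_) (hC z hz
    (fun i x => ∑ y with h2 l y = x, pm kc dc i y.1 * tt (1 / 2) l y.1 * u2 l y) (fun i => ?_)
    fun i x => ?_)⟩
  · rw [sum_sel (primeSys_PS (by omega) hz) (fun i x => pm kc dc i x * tt (1 / 2) l x) (Pur l)]
    simp only [FT, ← mul_ite_zero]
    rw [← sum_push (h2 l) (fun (i : PS c z) y => pm kc dc i y.1 * tt (1 / 2) l y.1 * u2 l y)]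
    refine sum_congr rfl fun ω _ => ?_
    by_cases hok : ∀ i, (ω i).2.1 = true → ∃ u, (ω i).1 = some u ∧ u.1 = l
    · congr 1
      · exact prod_congr rfl fun i _ => by rw [u2, if_pos (hok i)]
      refine if_congr ?_ (prod_congr rfl fun i _ => prod_congr rfl fun j _ =>
        gg_h2 l _ _ (hok i) (hok j) _ _) rfl
      have key := h2_key l
      simp only [Pur, pat, mem_filter, mem_univ, true_and]
      exact ⟨fun ⟨_, i, hi⟩ => ⟨i, (key _ (hok i)).1 hi⟩,
        fun ⟨i, hi⟩ => ⟨hok, i, (key _ (hok i)).2 hi⟩⟩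
    · rw [if_neg fun h => hok h.1, mul_zero]
      obtain ⟨i, hi⟩ := not_forall.1 hok
      rw [prod_eq_zero (mem_univ i) (by rw [u2, if_neg hi, mul_zero]), zero_mul]
  · simp only [sum_filter, Fintype.sum_prod_type, Fintype.sum_option, Fintype.sum_bool,
      Fin.sum_univ_three, h2, pm, uu, sgn, map_smul, map_add, cb, tt, u2]
    fin_cases l <;> simp <;> ring
  · simp only [sum_filter, Fintype.sum_prod_type, Fintype.sum_option, Fintype.sum_bool,
      Fin.sum_univ_three, h2, pm, uu, sgn, cb, tt, u2]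
    fin_cases l <;> fin_cases x <;> simp <;> ring

theorem pm_nonneg (h : Coef kc dc) {p : ℕ} (hp : p.Prime) (h3 : 3 < p)
    (hK : ∑ j, |(∑ l, kc l) j| ≤ p) (x : Lab) : 0 ≤ pm kc dc p x := by
  rcases x with _ | ⟨l, σ⟩
  · have h1 := mul_le_mul (ff_le p) ((le_abs_self _).trans ((abs_ch p _).trans hK))
    have h0 : 0 ≤ ch p (∑ l, kc l) := by
      rw [map_sum]; exact sum_nonneg fun l _ => (abs_nonneg _).trans (h.ab l p hp h3)
    have := h1 h0 (by positivity)
    rw [inv_mul_cancel₀ (by exact_mod_cast hp.ne_zero)] at this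
    simp only [pm]; linarith
  · have := abs_le.1 (h.ab l p hp h3)
    refine div_nonneg (mul_nonneg (ff_nonneg hp.one_le) ?_) two_pos.le
    cases σ <;> simp [sgn] <;> linarith [this.1, this.2]

theorem tt_pos {x : ℝ} (hx : 0 < x) (l : Fin 3) (y : Lab) : 0 < tt x l y := by
  cases y <;> simp only [tt, one_pos]
  split_ifs <;> positivity

theorem model_tam (h : Coef kc dc) (l : Fin 3) {μ : ℝ} (h1 : 1 < μ) (h2 : μ ≤ 11 / 10) {c : ℕ}
    (hc : 3 ≤ c) (hK : ∑ j, |(∑ l, kc l) j| ≤ c) : ∃ C : ℝ, ∀ z,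
    ∑ τ : PS c z → Lab, ∏ i : PS c z, pm kc dc i (τ i) * tt μ l (τ i) ≤ C := by
  let e : Fin 8 → ℝ := ((μ - 1) / 2) • (kc l + dc l) - (1 - μ⁻¹) • (kc (l + 1) + kc (l + 2))
  obtain ⟨C, hC⟩ := ch_upper e (δ := 0) (by
    have h3 := h.dr l
    have h4 := h.kp l
    have h5 := h.d0 l 0
    simp only [e, Pi.sub_apply, Pi.smul_apply, smul_eq_mul, Pi.add_apply, add_zero]
    rw [show 1 - μ⁻¹ = (μ - 1) / μ by field_simp, sub_neg, div_mul_eq_mul_div, div_mul_eq_mul_div,
      div_lt_div_iff₀ two_pos (by linarith), mul_assoc, mul_assoc]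
    exact mul_lt_mul_of_pos_left (by nlinarith) (by linarith)) hc
  refine ⟨Real.exp C, fun z => ?_⟩
  rw [← Fintype.piFinset_univ, ← prod_univ_sum (fun _ => univ)
    (fun (i : PS c z) x => pm kc dc i x * tt μ l x)]
  refine le_trans ?_ (Real.exp_le_exp.2 ((hC z).trans_eq (by simp)))
  rw [← sum_coe_sort (PS c z), Real.exp_sum]
  refine prod_le_prod (fun i _ => sum_nonneg fun x _ => ?_) fun i _ =>
    le_trans (le_of_eq ?_) (Real.add_one_le_exp _)
  · have := mem_PS.1 i.2
    exact mul_nonneg (pm_nonneg h this.2 (by omega) (hK.trans (by exact_mod_cast this.1.1.le)) x)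
      (tt_pos (by linarith) l x).le
  · simp only [Fintype.sum_prod_type, Fintype.sum_option, Fintype.sum_bool, Fin.sum_univ_three, pm,
      sgn, tt, e, map_sub, map_smul, map_add]
    fin_cases l <;> simp <;> ring

open Classical in
theorem card_sel_le {ι : Type} [Fintype ι] [DecidableEq ι] (q : ι → ℕ) (τ : ι → Lab) :
    (Sel q τ).card ≤ 1 + ((Sel q τ).filter (Mix τ)).card +
      ∑ l, ((Sel q τ).filter (Pur l τ)).card := by
  have : Sel q τ ⊆ {fun _ => false} ∪ (Sel q τ).filter (Mix τ) ∪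
      univ.biUnion fun l => (Sel q τ).filter (Pur l τ) := by
    intro a ha
    simp only [mem_union, mem_singleton, mem_filter, mem_biUnion, mem_univ, true_and, ha]
    by_cases h0 : ∃ i, a i = true
    · obtain ⟨i, hi⟩ := h0
      have hs : ∀ j, a j = true → ∃ u, τ j = some u := fun j hj => by
        refine Option.ne_none_iff_exists'.1 fun h => ?_
        rw [(mem_filter.1 ha).2.1 j h] at hj; cases hj
      obtain ⟨u, hu⟩ := hs i hi
      by_cases hm : Mix τ a
      · exact Or.inl (Or.inr hm)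
      · refine Or.inr ⟨u.1, fun j hj => ?_, i, hi⟩
        obtain ⟨v, hv⟩ := hs j hj
        exact ⟨v, hv, by_contra fun h => hm ⟨j, i, v, u, hv, hu, hj, hi, h⟩⟩
    · exact Or.inl (Or.inl (funext fun i => by simpa using not_exists.1 h0 i))
  refine (card_le_card this).trans ((card_union_le _ _).trans (Nat.add_le_add
    ((card_union_le _ _).trans (by simp)) card_biUnion_le))

theorem model (h : Coef kc dc) : ∃ c0 : ℕ, ∀ c ≥ c0, 3 ≤ c ∧
    (∀ p : ℕ, p.Prime → c < p → ∀ x, 0 ≤ pm kc dc p x) ∧ ∃ C : ℝ, ∀ z ≥ 2,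
    ∃ G : (PS c z → Lab) → ℝ, (∀ τ, 1 ≤ G τ ∧
      ((Sel (fun i : PS c z => i.1) τ).card + 4 : ℝ) ≤ 8 * G τ ^ 9) ∧
      ∑ τ : PS c z → Lab, (∏ i : PS c z, pm kc dc i (τ i)) * G τ ≤ C := by
  classical
  obtain ⟨μ, hμ0, hμ⟩ : ∃ μ : ℝ, 0 < μ ∧ μ ^ 8 = 2 :=
    ⟨2 ^ ((8 : ℕ)⁻¹ : ℝ), by positivity, Real.rpow_inv_natCast_pow two_pos.le (by norm_num)⟩
  have hμ1 : 1 < μ := by
    by_contra h
    have := pow_le_one₀ (n := 8) hμ0.le (not_lt.1 h)
    linarith
  have hμ2 : μ ≤ 11 / 10 := le_of_pow_le_pow_left₀ (n := 8) (by norm_num) (by norm_num)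
    (by rw [hμ]; norm_num)
  obtain ⟨c1, hc1⟩ := model_mix h
  choose c2 hc2 using model_pur h
  refine ⟨c1 + ∑ l, c2 l + ⌈∑ j, |(∑ l, kc l) j|⌉₊ + 3, fun c hc => ?_⟩
  have hK : ∑ j, |(∑ l, kc l) j| ≤ c := (Nat.le_ceil _).trans (by exact_mod_cast by omega)
  have hpm : ∀ p : ℕ, p.Prime → c < p → ∀ x, 0 ≤ pm kc dc p x := fun p hp hcp =>
    pm_nonneg h hp (by omega) (hK.trans (by exact_mod_cast hcp.le))
  refine ⟨by omega, hpm, ?_⟩
  obtain ⟨C1, hC1⟩ := hc1 c (by omega)
  choose C2 hC2 using fun l => hc2 l c (by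
    have := single_le_sum (f := c2) (fun _ _ => Nat.zero_le _) (mem_univ l)
    omega)
  choose C3 hC3 using fun l => model_tam h l hμ1 hμ2 (by omega) hK
  refine ⟨1 + C1 + ∑ l, (C2 l + C3 l), fun z hz => ⟨fun τ => 1 +
    ((Sel (fun i : PS c z => i.1) τ).filter (Mix τ)).card + ∑ l, ((∏ i, tt (1 / 2) l (τ i)) *
      ((Sel (fun i : PS c z => i.1) τ).filter (Pur l τ)).card + ∏ i, tt μ l (τ i)),
    fun τ => ?_, ?_⟩⟩
  · set N : Fin 3 → ℝ := fun l => ((Sel (fun i : PS c z => i.1) τ).filter (Pur l τ)).card with hN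
    set Y : Fin 3 → ℝ := fun l => (∏ i, tt (1 / 2) l (τ i)) * N l with hY
    set M : Fin 3 → ℝ := fun l => ∏ i, tt μ l (τ i) with hM
    have hY0 : ∀ l, 0 ≤ Y l := fun l =>
      mul_nonneg (prod_nonneg fun i _ => (tt_pos (by norm_num) _ _).le) (Nat.cast_nonneg _)
    have hM0 : ∀ l, 0 ≤ M l := fun l => prod_nonneg fun i _ => (tt_pos hμ0 _ _).le
    have hs : 0 ≤ ∑ l, (Y l + M l) := sum_nonneg fun l _ => add_nonneg (hY0 l) (hM0 l)
    set N0 : ℝ := (((Sel (fun i : PS c z => i.1) τ).filter (Mix τ)).card : ℝ) with hN0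
    have hN00 : 0 ≤ N0 := Nat.cast_nonneg _
    change 1 ≤ 1 + N0 + ∑ l, (Y l + M l) ∧ _ ≤ 8 * (1 + N0 + ∑ l, (Y l + M l)) ^ 9
    set G := 1 + N0 + ∑ l, (Y l + M l) with hG
    have hG1 : 1 ≤ G := by linarith
    have e1 : ∀ l, N l ≤ G ^ 9 := fun l => by
      have e : N l = Y l * M l ^ 8 := by
        rw [hY, hM]
        dsimp only
        rw [mul_right_comm, ← prod_pow, ← prod_mul_distrib, prod_eq_one, one_mul]
        intro i _
        cases τ i <;> simp only [tt, one_pow, mul_one]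
        split_ifs <;> simp [hμ]
      have := single_le_sum (f := fun l => Y l + M l) (fun l _ => add_nonneg (hY0 l) (hM0 l))
        (mem_univ l)
      rw [e, pow_succ' G 8]
      exact mul_le_mul (by linarith [hM0 l]) (pow_le_pow_left₀ (hM0 l) (by linarith [hY0 l]) 8)
        (pow_nonneg (hM0 l) 8) (by linarith)
    have e2 : ((Sel (fun i : PS c z => i.1) τ).card : ℝ) ≤ 1 + N0 + ∑ l, N l := by
      simp only [hN0, hN]
      exact_mod_cast card_sel_le (fun i : PS c z => i.1) τ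
    have e3 : G ≤ G ^ 9 := le_self_pow₀ hG1 (by norm_num)
    rw [Fin.sum_univ_three] at e2
    exact ⟨hG1, by linarith [e1 0, e1 1, e1 2]⟩
  · simp only [mul_add, sum_add_distrib, mul_one, mul_sum, ← mul_assoc, ← prod_mul_distrib]
    rw [sum_comm, sum_comm (t := univ (α := Fin 3))]
    refine add_le_add (add_le_add (le_of_eq ?_) (hC1 z hz)) (add_le_add
      (sum_le_sum fun l _ => hC2 l z hz) (sum_le_sum fun l _ => hC3 l z))
    rw [← Fintype.piFinset_univ, ← prod_univ_sum (fun _ => univ)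
      (fun (i : PS c z) x => pm kc dc i x)]
    refine prod_eq_one fun i _ => ?_
    simp only [Fintype.sum_prod_type, Fintype.sum_option, Fintype.sum_bool, Fin.sum_univ_three, pm,
      sgn, map_add]
    simp; ring

end Pool.Agent.Lib.TorsRank
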